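import Pool.Agent.MP_66cee2_co.SL.Spec

/-! Two preserved distances `l`, `2 l` force an isometry (row BENZ, helper87). -/

namespace Pool.Agent.MP_66cee2_co.SL

namespace BENZA

variable {E F : Type} [NormedAddCommGroup E] [InnerProductSpace ℝ E] [NormedAddCommGroup F]
  [InnerProductSpace ℝ F]

/-- a common point at a given distance -/
lemma apex [FiniteDimensional ℝ E] (hd : 2 ≤ Module.finrank ℝ E) (x y : E) (ρ : ℝ)
    (h : ‖x - y‖ ≤ 2 * ρ) : ∃ z, ‖z - x‖ = ρ ∧ ‖z - y‖ = ρ := by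
  have h1 := Submodule.finrank_add_finrank_orthogonal (ℝ ∙ (x - y))
  have h2 : Module.finrank ℝ (ℝ ∙ (x - y)) ≤ 1 := by
    simpa using finrank_span_le_card (R := ℝ) ({x - y} : Set E)
  have h3 : (ℝ ∙ (x - y))ᗮ ≠ ⊥ := fun e => by
    rw [e, finrank_bot] at h1
    omega
  obtain ⟨w, hw, hw0⟩ := Submodule.exists_mem_ne_zero_of_ne_bot h3
  have hw1 : inner ℝ (x - y) w = 0 := Submodule.mem_orthogonal_singleton_iff_inner_right.1 hw
  have hn := norm_nonneg (x - y)
  have hρ : 0 ≤ ρ := by linarith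
  have hq : 0 ≤ ρ ^ 2 - ‖x - y‖ ^ 2 / 4 := by nlinarith
  set u : E := (√(ρ ^ 2 - ‖x - y‖ ^ 2 / 4) * ‖w‖⁻¹) • w with hu
  have hu1 : ‖u‖ ^ 2 = ρ ^ 2 - ‖x - y‖ ^ 2 / 4 := by
    rw [hu, norm_smul, Real.norm_of_nonneg (by positivity), mul_assoc,
      inv_mul_cancel₀ (norm_ne_zero_iff.2 hw0), mul_one, Real.sq_sqrt hq]
  have hu2 : inner ℝ (x - y) u = 0 := by rw [hu, inner_smul_right, hw1, mul_zero]
  have key : ∀ c : ℝ, c ^ 2 = 1 / 4 → ‖c • (x - y) + u‖ = ρ := by
    intro c hc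
    rw [← sq_eq_sq₀ (norm_nonneg _) hρ, norm_add_sq_real, inner_smul_left, hu2, hu1, norm_smul,
      mul_pow, Real.norm_eq_abs, sq_abs, hc]
    ring
  refine ⟨y + (1 / 2 : ℝ) • (x - y) + u, ?_, ?_⟩
  · rw [← key (-1 / 2) (by norm_num)]
    congr 1
    module
  · rw [← key (1 / 2) (by norm_num)]
    congr 1
    module

lemma mid {a b c : F} {l : ℝ} (h1 : ‖a - b‖ = l) (h2 : ‖c - b‖ = l) (h3 : ‖a - c‖ = 2 * l) :
    c - b = b - a := by
  have h := parallelogram_law_with_norm ℝ (a - b) (c - b)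
  rw [sub_sub_sub_cancel_right, h1, h2, h3] at h
  have h4 : ‖a - b + (c - b)‖ = 0 := by
    have : ‖a - b + (c - b)‖ ^ 2 = 0 := by nlinarith
    exact pow_eq_zero_iff two_ne_zero |>.1 this
  rw [norm_eq_zero] at h4
  rw [eq_neg_of_add_eq_zero_right h4, neg_sub]

/-- the distance `ρ` is preserved -/
def P (f : E → F) (ρ : ℝ) : Prop := ∀ x y, ‖x - y‖ = ρ → ‖f x - f y‖ = ρ

lemma line {f : E → F} {l : ℝ} (h1 : P f l) (h2 : P f (2 * l)) (x p : E) (hp : ‖p‖ = l) (k : ℕ) :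
    f (x + (k : ℝ) • p) - f x = (k : ℝ) • (f (x + p) - f x) := by
  have hs : ∀ k : ℕ, f (x + ((k : ℝ) + 1) • p) - f (x + (k : ℝ) • p) = f (x + p) - f x := by
    intro k
    induction k with
    | zero => simp
    | succ k ih =>
      rw [← ih]
      push_cast
      refine mid (h1 _ _ ?_) (h1 _ _ ?_) (h2 _ _ ?_)
      · rw [← hp, ← norm_neg p]
        congr 1
        module
      · rw [← hp]
        congr 1
        module
      · have : x + (k : ℝ) • p - (x + ((k : ℝ) + 1 + 1) • p) = (-2 : ℝ) • p := by module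
        rw [this, norm_smul, hp]
        norm_num
  induction k with
  | zero => simp
  | succ k ih =>
    push_cast
    rw [add_smul _ _ (f (x + p) - f x), ← ih, one_smul, ← hs k]
    abel

lemma nat {f : E → F} {l : ℝ} (h1 : P f l) (h2 : P f (2 * l)) (k : ℕ) :
    P f (k * l) := by
  intro x y h
  rcases Nat.eq_zero_or_pos k with rfl | hk
  · rw [Nat.cast_zero, zero_mul, norm_eq_zero, sub_eq_zero] at h
    simp [h]
  · have hk' : (0 : ℝ) < k := Nat.cast_pos.2 hk
    have hp : ‖(k : ℝ)⁻¹ • (x - y)‖ = l := by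
      rw [norm_smul, h, Real.norm_of_nonneg (by positivity), inv_mul_cancel_left₀ hk'.ne']
    have h3 := line h1 h2 y _ hp k
    rw [smul_inv_smul₀ hk'.ne', add_sub_cancel] at h3
    rw [h3, norm_smul, h1 _ _ (by rw [add_sub_cancel_left, hp]), Real.norm_of_nonneg hk'.le]

lemma rat [FiniteDimensional ℝ E] (hd : 2 ≤ Module.finrank ℝ E) {f : E → F} {l : ℝ} (hl : 0 < l)
    (h1 : P f l) (h2 : P f (2 * l)) (q : ℚ) (hq : 0 ≤ q) : P f (q * l) := by
  intro x y h
  obtain ⟨k, hk⟩ := Int.eq_ofNat_of_zero_le (Rat.num_nonneg.2 hq)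
  have hj : (1 : ℝ) ≤ q.den := by exact_mod_cast q.den_pos
  have hqk : (q.den : ℝ) * q = k := by
    have : (q.den : ℚ) * q = k := by rw [Rat.den_mul_eq_num, hk]; simp
    exact_mod_cast this
  have hq' : (0 : ℝ) ≤ q := by exact_mod_cast hq
  obtain ⟨z, hx, hy⟩ := apex hd x y (k * l) (by
    rw [h]
    have : (q : ℝ) ≤ 2 * k := by nlinarith
    nlinarith)
  have h3 : P f (2 * (k * l)) := by
    have := nat h1 h2 (2 * k)
    rwa [Nat.cast_mul, Nat.cast_two, mul_assoc] at this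
  have ex := line (nat h1 h2 k) h3 z (x - z) (by rw [norm_sub_rev, hx]) q.den
  have ey := line (nat h1 h2 k) h3 z (y - z) (by rw [norm_sub_rev, hy]) q.den
  rw [add_sub_cancel] at ex ey
  have h4 := nat h1 h2 k (z + (q.den : ℝ) • (x - z)) (z + (q.den : ℝ) • (y - z)) (by
    have : z + (q.den : ℝ) • (x - z) - (z + (q.den : ℝ) • (y - z)) = (q.den : ℝ) • (x - y) := by
      module
    rw [this, norm_smul, h, Real.norm_of_nonneg (by positivity), ← mul_assoc, hqk])
  rw [← sub_sub_sub_cancel_right _ _ (f z), ex, ey, ← smul_sub, sub_sub_sub_cancel_right,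
    norm_smul, Real.norm_of_nonneg (by positivity), ← hqk, mul_assoc] at h4
  exact mul_left_cancel₀ (by positivity) h4

lemma benz [FiniteDimensional ℝ E] (hd : 2 ≤ Module.finrank ℝ E) {f : E → F} {l : ℝ} (hl : 0 < l)
    (h1 : P f l) (h2 : P f (2 * l)) (x y : E) : ‖f x - f y‖ = ‖x - y‖ := by
  have hq := rat hd hl h1 h2
  have hup : ∀ x y, ‖f x - f y‖ ≤ ‖x - y‖ := by
    intro x y
    by_contra hc
    obtain ⟨q, hq1, hq2⟩ := exists_rat_btwn
      (div_lt_div_of_pos_right (not_le.1 hc) (show 0 < 2 * l by positivity))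
    have hq0 : (0 : ℝ) ≤ q := le_trans (by positivity) hq1.le
    rw [div_lt_iff₀ (by positivity)] at hq1
    rw [lt_div_iff₀ (by positivity)] at hq2
    obtain ⟨z, hx, hy⟩ := apex hd x y (q * l) (by linarith)
    have h3 := hq q (by exact_mod_cast hq0) _ _ hx
    have h4 := hq q (by exact_mod_cast hq0) _ _ hy
    have h5 := norm_sub_le_norm_sub_add_norm_sub (f x) (f z) (f y)
    rw [norm_sub_rev (f x) (f z)] at h5
    linarith
  refine le_antisymm (hup x y) ?_
  by_contra hc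
  have hr : 0 < ‖x - y‖ := lt_of_le_of_lt (norm_nonneg _) (not_le.1 hc)
  obtain ⟨k, hk⟩ := exists_nat_gt (‖x - y‖ / l)
  rw [div_lt_iff₀ hl] at hk
  set c : ℝ := k * l / ‖x - y‖ with hcd
  have hc1 : 1 ≤ c := (one_le_div hr).2 hk.le
  have hcr : c * ‖x - y‖ = k * l := div_mul_cancel₀ _ hr.ne'
  have h3 := nat h1 h2 k x (x - c • (x - y)) (by
    rw [sub_sub_cancel, norm_smul, Real.norm_of_nonneg (by linarith), hcr])
  have h4 := hup y (x - c • (x - y))
  have h5 : y - (x - c • (x - y)) = (c - 1) • (x - y) := by module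
  rw [h5, norm_smul, Real.norm_of_nonneg (by linarith), sub_mul, hcr] at h4
  have h6 := norm_sub_le_norm_sub_add_norm_sub (f x) (f y) (f (x - c • (x - y)))
  exact hc (by linarith)

end BENZA

theorem rowBENZ : RowBENZ := fun _ _ _ _ hd hl h1 h2 =>
  BENZA.benz (by simpa using hd) hl h1 h2

end Pool.Agent.MP_66cee2_co.SL
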