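import Pool.Agent.MP_66cee2_co.SL.KitB

/-! Row A1: the fourth moment is controlled by the second. -/

namespace Pool.Agent.MP_66cee2_co.SL

open Finset Pool.Agent.MP_9e8696_an.H67
open scoped BigOperators

namespace A1A

variable {ι : Type} [Fintype ι] [DecidableEq ι] {ν : Type} [Fintype ν]

theorem le_of_sq_le_mul {a b : ℝ} (hb : 0 ≤ b) (h : a ^ 2 ≤ b * a) : a ≤ b := by
  by_contra hc
  push Not at hc
  nlinarith

theorem c1_le (e : Bool) (hι : 3 ≤ Fintype.card ι) (β : ν → Fn ι) :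
    ∑ i, c1 e (dot β β) i ^ 2 ≤ 12 * (q2 e β * q4 e β) := by
  set S := ∑ i, c1 e (dot β β) i ^ 2 with hS
  have h0 : 0 ≤ S := sum_nonneg fun i _ => sq_nonneg _
  have h1 : ip e (dot β β) (lin (c1 e (dot β β))) = S := by
    rw [ip_lin]
    exact sum_congr rfl fun i _ => (sq _).symm
  have h2 := ip_dot_scalar_le e β β (lin (c1 e (dot β β)))
  have h3 := nr_lin_sq_le e hι (c1 e (dot β β))
  rw [h1, abs_of_nonneg h0, ← Real.sqrt_mul (q2_nonneg e β)] at h2
  have h4 := Real.le_sqrt h0 (mul_nonneg (q2_nonneg e β)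
    (mul_nonneg (q4_nonneg e β) (nr_nonneg e fun σ =>
      lin (c1 e (dot β β)) σ * lin (c1 e (dot β β)) σ))) |>.1 h2
  refine le_of_sq_le_mul (by have := q2_nonneg e β; have := q4_nonneg e β; positivity) ?_
  have h5 := mul_le_mul_of_nonneg_left h3 (mul_nonneg (q2_nonneg e β) (q4_nonneg e β))
  nlinarith

theorem fin_ineq {t w n η S : ℝ} (hw : 0 ≤ w) (hn : 0 ≤ n) (ht : 0 ≤ t) (hη0 : 0 ≤ η)
    (hη : η ≤ w) (hS : S ≤ 12 * (η * t)) (h : t ^ 2 = η ^ 2 + S + n ^ 2) : t ≤ 13 * w + n := by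
  by_contra hc
  push Not at hc
  have h1 : η * t ≤ w * t := mul_le_mul_of_nonneg_right hη ht
  have h2 : η ^ 2 ≤ w ^ 2 := pow_le_pow_left₀ hη0 hη 2
  have h3 : (w + n) * (w + n) < t * (t - 12 * w) :=
    mul_lt_mul'' (by linarith) (by linarith) (by linarith) (by linarith)
  nlinarith [mul_nonneg hw hn]

end A1A

open A1A in
theorem rowA1 : OfA1 := by
  rintro ⟨C₁, hC₁, hA⟩ ⟨C₂, hC₂, hR⟩
  refine ⟨145 + 32 * C₁ + C₂, by linarith, ?_⟩
  intro s hs ι ν _ _ _ hι e F P M X y hT hy hk ha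
  have hs128 : 128 ≤ s := hs.ge128 (by linarith)
  have hs0 : (0 : ℝ) < s := by exact_mod_cast (by omega : 0 < s)
  have hι3 : 3 ≤ Fintype.card ι := by rw [hι]; nlinarith
  have hA1 := (hA s (hs.mono (by linarith)) ι ν hι e F X hT.eF hT.thF).1 (k2 e e F P M)
  have hψ := or1_res e hι3 (dot (bt e F) (bt e F))
  have hR1 := hR s (hs.mono (by linarith)) ι ν hι e F P M X hT _ hψ
  have hη0 := eta_nonneg e F
  have hθ0 := th_nonneg e F
  have hηθ := eta_le_th e (by omega) F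
  have hθX := hT.thF
  have hX : 0 ≤ X := hθ0.trans hθX
  have hy0 : 0 ≤ y := hη0.trans hy
  set w := √(X * y) with hw
  have hw0 : 0 ≤ w := Real.sqrt_nonneg _
  have hw2 : w ^ 2 = X * y := Real.sq_sqrt (mul_nonneg hX hy0)
  have hηw : eta e F ≤ w := by
    refine Real.le_sqrt_of_sq_le ?_
    rw [sq]
    exact mul_le_mul (hηθ.trans hθX) hy hη0 hX
  set ψ := res e (dot (bt e F) (bt e F)) with hψd
  have hn0 := nr_nonneg e ψ
  have hsq : th e F ^ 2 = eta e F ^ 2 + ∑ i, c1 e (dot (bt e F) (bt e F)) i ^ 2 + nr e ψ ^ 2 := by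
    have h := res_sq e hι3 (dot (bt e F) (bt e F))
    rw [av_dot_self] at h
    rw [nr_sq, th, q4, nr_sq]
    exact h
  have hmain := fin_ineq hw0 hn0 hθ0 hη0 hηw (c1_le e hι3 (bt e F)) hsq
  have hg : ip e (dot (bt e F) (bt e F)) ψ = nr e ψ ^ 2 := by
    rw [nr_sq, ip_comm]
    exact (ip_res e hψ _).symm
  have hc : nr e (cmb (k2 e e F P M) (bt e F)) ≤ C₁ * w / s := by
    refine nr_le e (by positivity) (hA1.trans ?_)
    have h1 : C₁ * X / s * ∑ a, k2 e e F P M a ^ 2 ≤ C₁ * X / s * (y / s) :=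
      mul_le_mul_of_nonneg_left hk (by positivity)
    refine h1.trans ?_
    have h2 : (C₁ * w / s) ^ 2 = C₁ * (C₁ * X / s * (y / s)) := by
      rw [div_pow, mul_pow, hw2]
      field_simp
    rw [h2]
    exact le_mul_of_one_le_left (by positivity) hC₁
  have hd : nr e (dot (bt e F) fun a => lin (a2 e e F P M a)) ≤ 4 * w := by
    refine (nr_dot_le e _ _).trans (Real.sqrt_le_iff.2 ⟨by positivity, ?_⟩)
    have h1 := (q4_lin_le e hι3 (a2 e e F P M)).trans
      (mul_le_mul_of_nonneg_left ha (by norm_num : (0 : ℝ) ≤ 12))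
    have h2 : q4 e (bt e F) * (q4 e fun a => lin (a2 e e F P M a)) ≤ X * (12 * y) :=
      mul_le_mul hθX h1 (q4_nonneg e _) hX
    nlinarith [mul_nonneg hX hy0]
  have h1 : ip e (cmb (k2 e e F P M) (bt e F)) ψ ≤ C₁ * w / s * nr e ψ :=
    (ip_le e _ _).trans (mul_le_mul_of_nonneg_right hc hn0)
  have h2 : ip e (dot (bt e F) fun a => lin (a2 e e F P M a)) ψ ≤ 4 * w * nr e ψ :=
    (ip_le e _ _).trans (mul_le_mul_of_nonneg_right hd hn0)
  have h3 : 32 * s * ip e (cmb (k2 e e F P M) (bt e F)) ψ ≤ 32 * C₁ * w * nr e ψ := by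
    have h := mul_le_mul_of_nonneg_left h1 (by positivity : (0 : ℝ) ≤ 32 * s)
    refine h.trans (le_of_eq ?_)
    field_simp
  have h4 := (le_abs_self _).trans hR1
  have hXs : 0 ≤ X / s := by positivity
  have hn : nr e ψ ≤ (32 * C₁ + 132) * w + C₂ * X / s := by
    refine le_of_sq_le_mul (by positivity) ?_
    rw [hg] at h4
    nlinarith
  have h5 : C₂ * X / s ≤ (145 + 32 * C₁ + C₂) * X / s := by
    rw [mul_div_assoc, mul_div_assoc]
    exact mul_le_mul_of_nonneg_right (by linarith) hXs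
  have h6 : 0 ≤ C₂ * w := by positivity
  nlinarith

end Pool.Agent.MP_66cee2_co.SL
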