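import Pool.Agent.MP_66cee2_co.SL.KitB

/-! The rank bound. -/

namespace Pool.Agent.MP_66cee2_co.SL

open Finset Pool.Agent.MP_9e8696_an.H67
open scoped BigOperators

namespace A2A

/-- the numerical part -/
theorem num {A P S X c r u n w b cw cb y ps Z : ℝ} (hA : 1 ≤ A) (hP : 1 ≤ P) (hS : 1 ≤ S)
    (hX : 0 ≤ X) (hc : 0 < c) (hc1 : c ≤ 1) (hr : 1 ≤ r) (hu : r ^ 2 ≤ u)
    (hn : n ≤ c * r ^ 11) (hcw0 : 0 ≤ cw) (hcb0 : 0 ≤ cb)
    (hw : w ^ 2 ≤ n * cw) (hb : b ^ 2 ≤ n * cb) (hcw : cw ≤ A * X ^ 2 / (r ^ 5) ^ 3)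
    (hps : ps ≤ S * (w * X + X ^ 2 / u)) (hy : y ≤ X / u * (2 * X)) (hZ : Z ≤ P * y + P * ps)
    (hcb : cb ≤ A * X ^ 2 / (r ^ 5) ^ 3 + A * X / (r ^ 5) ^ 2 * √Z) :
    b + w ≤ 3 * (P * S * A) * √c * X := by
  have hr0 : 0 < r := by linarith
  have hq : √c ^ 2 = c := Real.sq_sqrt hc.le
  have hq0 : 0 < √c := Real.sqrt_pos.2 hc
  have hq1 : √c ≤ 1 := Real.sqrt_le_one.2 hc1
  set q := √c with hqd
  set v := X / r with hv
  have hv0 : 0 ≤ v := div_nonneg hX hr0.le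
  set v2 := X / r ^ 2 with hv2
  have hv20 : 0 ≤ v2 := by positivity
  have hr2 : 1 ≤ r ^ 2 := one_le_pow₀ hr
  have hv2X : v2 ≤ X := div_le_self hX hr2
  have hvv : v2 * X = v ^ 2 := by rw [hv, hv2]; field_simp
  have hPS : 1 ≤ P * S := one_le_mul_of_one_le_of_one_le hP hS
  have hSA : 1 ≤ S * A := one_le_mul_of_one_le_of_one_le hS hA
  have hK : A ≤ P * S * A := le_mul_of_one_le_left (by linarith) hPS
  set K := P * S * A with hKd
  have hK1 : 1 ≤ K := hA.trans hK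
  -- the part of level at least three
  have h1 : w ≤ q * A * v2 := by
    refine le_of_sq_le_sq ?_ (by positivity)
    have e1 : (q * A * v2) ^ 2 = c * r ^ 11 * (A ^ 2 * X ^ 2 / (r ^ 5) ^ 3) := by
      rw [mul_pow, mul_pow, hq, hv2]
      field_simp
    rw [e1]
    refine hw.trans ((mul_le_mul_of_nonneg_right hn hcw0).trans ?_)
    refine mul_le_mul_of_nonneg_left (hcw.trans ?_) (by positivity)
    gcongr
    nlinarith only [hA]
  have h1' : w ≤ A * v2 := by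
    refine h1.trans ?_
    rw [mul_assoc]
    exact mul_le_of_le_one_left (by positivity) hq1
  have h2 : X / u ≤ v2 := div_le_div_of_nonneg_left hX (by positivity) hu
  have h3 : X ^ 2 / u ≤ v ^ 2 := by
    rw [← hvv, sq, mul_div_right_comm]
    exact mul_le_mul_of_nonneg_right h2 hX
  have h4 : w * X ≤ A * v ^ 2 := by
    rw [← hvv, ← mul_assoc]
    exact mul_le_mul_of_nonneg_right h1' hX
  have h5 : ps ≤ 2 * (S * A) * v ^ 2 := by
    refine hps.trans ?_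
    have : w * X + X ^ 2 / u ≤ 2 * A * v ^ 2 := by
      nlinarith only [sq_nonneg v, h3, h4, hA]
    calc S * (w * X + X ^ 2 / u) ≤ S * (2 * A * v ^ 2) :=
          mul_le_mul_of_nonneg_left this (by linarith)
      _ = 2 * (S * A) * v ^ 2 := by ring
  have h6 : y ≤ 2 * (S * A) * v ^ 2 := by
    refine hy.trans ?_
    have : X / u * (2 * X) ≤ v2 * (2 * X) := mul_le_mul_of_nonneg_right h2 (by linarith)
    nlinarith only [sq_nonneg v, this, hvv, hSA]
  have h7 : √Z ≤ 2 * K * v := by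
    refine Real.sqrt_le_iff.2 ⟨by positivity, hZ.trans ?_⟩
    have e1 := mul_le_mul_of_nonneg_left h5 (by linarith : 0 ≤ P)
    have e2 := mul_le_mul_of_nonneg_left h6 (by linarith : 0 ≤ P)
    have e3 : P * (2 * (S * A) * v ^ 2) = 2 * K * v ^ 2 := by rw [hKd]; ring
    have e4 : K * v ^ 2 ≤ K ^ 2 * v ^ 2 := 
      mul_le_mul_of_nonneg_right (by nlinarith only [hK1]) (sq_nonneg v)
    linarith
  have h8 : cb ≤ 4 * K ^ 2 * X ^ 2 / r ^ 11 := by
    refine hcb.trans ?_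
    have e1 : A * X ^ 2 / (r ^ 5) ^ 3 ≤ K ^ 2 * X ^ 2 / r ^ 11 := by
      rw [← pow_mul]
      gcongr
      · nlinarith only [hK, hK1]
      · norm_num
    have e2 : A * X / (r ^ 5) ^ 2 * √Z ≤ K * X / (r ^ 5) ^ 2 * (2 * K * v) := by gcongr
    have e3 : K * X / (r ^ 5) ^ 2 * (2 * K * v) = 2 * (K ^ 2 * X ^ 2 / r ^ 11) := by
      rw [hv]
      field_simp
    have e4 : 0 ≤ K ^ 2 * X ^ 2 / r ^ 11 := by positivity
    have e5 : 4 * K ^ 2 * X ^ 2 / r ^ 11 = 4 * (K ^ 2 * X ^ 2 / r ^ 11) := by ring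
    linarith
  have h9 : b ≤ 2 * K * q * X := by
    refine le_of_sq_le_sq ?_ (by positivity)
    have e1 : (2 * K * q * X) ^ 2 = c * r ^ 11 * (4 * K ^ 2 * X ^ 2 / r ^ 11) := by
      rw [mul_pow, mul_pow, hq]
      field_simp
      ring
    rw [e1]
    exact hb.trans ((mul_le_mul_of_nonneg_right hn hcb0).trans
      (mul_le_mul_of_nonneg_left h8 (by positivity)))
  have h10 : q * A * v2 ≤ q * K * X := by gcongr
  linarith

end A2A

theorem rowA2 : OfA2 := by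
  rintro ⟨A, hA, HA⟩ ⟨P₀, hP, HP⟩ ⟨S, hS, HS⟩
  have hPS : 1 ≤ P₀ * S := one_le_mul_of_one_le_of_one_le hP hS
  have hPA : 1 ≤ P₀ * A := one_le_mul_of_one_le_of_one_le hP hA
  have hK : A ≤ 3 * (P₀ * S * A) := by nlinarith
  have hK' : S ≤ 3 * (P₀ * S * A) := by nlinarith
  refine ⟨3 * (P₀ * S * A), hA.trans hK, ?_⟩
  intro s hs ι ν _ _ _ hι e F P M X c r hT hk ha hY hc hc1 hr hrs hn
  have h128 := hs.ge128 (hA.trans hK)
  have h16 : 16 ≤ Fintype.card ι := by rw [hι]; nlinarith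
  have hs1 : (1 : ℝ) ≤ s := by exact_mod_cast (by omega : 1 ≤ s)
  have hr1 : 1 ≤ r := by
    by_contra h
    have := pow_lt_one₀ hr.le (not_le.1 h) (by norm_num : 5 ≠ 0)
    linarith
  have hX : 0 ≤ X := (th_nonneg e F).trans hT.thF
  have hu : r ^ 2 ≤ √s := by
    refine Real.le_sqrt_of_sq_le ?_
    rw [← hrs, ← pow_mul]
    exact pow_le_pow_right₀ hr1 (by norm_num)
  obtain ⟨-, a2', -, a4⟩ := HA s (hs.mono hK) ι ν hι e F X hT.eF hT.thF
  obtain ⟨-, -, -, p4⟩ := HP ι ν h16 e F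
  have ps := HS s (hs.mono hK') ι ν hι e F P M X hT hk ha
  have hy : ∑ i, Yv e F i ^ 2 ≤ X / √s * (2 * X) := by
    have h1 : ∑ i, Yv e F i ^ 2 ≤ ∑ i, X / √s * Yv e F i := sum_le_sum fun i _ => by
      rw [sq]
      exact mul_le_mul_of_nonneg_right (hY i) (Yv_nonneg e F i)
    rw [← mul_sum] at h1
    refine h1.trans (mul_le_mul_of_nonneg_left ?_ (by positivity))
    have h2 := sum_Yv_le e (by omega) F
    have h3 := (eta_le_th e (by omega) F).trans hT.thF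
    linarith
  rw [eta_split e (by omega) F]
  rw [← hrs] at a2' a4
  exact A2A.num hA hP hS hX hc hc1 hr1 hu hn (cov_nonneg e _ _) (cov_nonneg e _ _)
    (q2_sq_le e _) (q2_sq_le e _) a2' ps hy p4 a4

end Pool.Agent.MP_66cee2_co.SL
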