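import Pool.Agent.MP_66cee2_co.SL.KitA

/-! Characters, low levels and hypercontractivity on half cubes. -/

set_option linter.unusedSectionVars false

namespace Pool.Agent.MP_66cee2_co.SL

open Finset Pool.Agent.MP_9e8696_an.H67
open scoped BigOperators

variable {ι : Type} [Fintype ι] [DecidableEq ι] {ν ν' : Type} [Fintype ν] [Fintype ν']

theorem chi_empty (σ : ι → Bool) : chi (∅ : Finset ι) σ = 1 := by simp [chi]

theorem chi_singleton (i : ι) : chi {i} = xx i := by
  funext σ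
  simp [chi, xx]

theorem chi_insert {S : Finset ι} {i : ι} (h : i ∉ S) (σ : ι → Bool) :
    chi (insert i S) σ = xx i σ * chi S σ := by
  simp only [chi, xx, prod_insert h]

theorem chi_pair {i j : ι} (h : i ≠ j) (σ : ι → Bool) : chi {i, j} σ = xx i σ * xx j σ := by
  rw [chi_insert (by simpa using h), chi_singleton]

theorem chi_compl (S : Finset ι) (σ : ι → Bool) : chi Sᶜ σ = chi univ σ * chi S σ := by
  rw [chi_mul]
  congr 1
  ext i
  simp [mem_symmDiff]

theorem card_symmDiff_le (S S' : Finset ι) : (symmDiff S S').card ≤ S.card + S'.card :=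
  (card_le_card (symmDiff_le_sup (a := S) (b := S'))).trans (card_union_le S S')

theorem card_symmDiff_add (S S' : Finset ι) :
    (symmDiff S S').card + 2 * (S ∩ S').card = S.card + S'.card := by
  have h1 : (symmDiff S S').card = (S \ S').card + (S' \ S).card := by
    rw [symmDiff_def, sup_eq_union, card_union_of_disjoint disjoint_sdiff_sdiff]
  have h2 := card_sdiff_add_card_inter S S'
  have h3 := card_sdiff_add_card_inter S' S
  rw [inter_comm] at h3
  omega

theorem av_chi (e : Bool) (S : Finset ι) :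
    av e (chi S) = (if S = ∅ then 1 else 0) + sg e * if S = univ then 1 else 0 := by
  have h1 := expect_chi_mul (univ : Finset ι) S
  simp only [av, add_mul, one_mul, expect_add_distrib, mul_assoc, ← mul_expect, expect_chi, h1,
    eq_comm]

theorem av_chi_zero (e : Bool) {S : Finset ι} (h0 : 0 < S.card) (h1 : S.card < Fintype.card ι) :
    av e (chi S) = 0 := by
  have h2 : S ≠ ∅ := by rintro rfl; simp at h0
  have h3 : S ≠ univ := by rintro rfl; simp at h1
  simp [av_chi, h2, h3]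

theorem ip_chi (e : Bool) {S S' : Finset ι} (h : S.card + S'.card < Fintype.card ι) :
    ip e (chi S) (chi S') = if S = S' then 1 else 0 := by
  have h1 : ip e (chi S) (chi S') = av e (chi (symmDiff S S')) := av_congr e (chi_mul S S')
  have h2 := card_symmDiff_le S S'
  rw [h1]
  split_ifs with h3
  · subst h3
    rw [symmDiff_self]
    exact (av_congr e chi_empty).trans (av_const e (by omega) 1)
  · refine av_chi_zero e ?_ (by omega)
    rw [card_pos, nonempty_iff_ne_empty, ne_eq, ← bot_eq_empty, symmDiff_eq_bot]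
    exact h3

theorem sum_chi_mul (σ τ : ι → Bool) :
    ∑ S : Finset ι, chi S σ * chi S τ = if σ = τ then 2 ^ Fintype.card ι else 0 := by
  have h1 : ∑ S : Finset ι, chi S σ * chi S τ = ∏ i, (1 + sg (σ i) * sg (τ i)) := by
    rw [prod_one_add, powerset_univ]
    exact sum_congr rfl fun S _ => by simp only [chi, prod_mul_distrib]
  rw [h1]
  split_ifs with h
  · subst h
    simp only [sg_sq]
    norm_num
  · obtain ⟨i, hi⟩ := Function.ne_iff.1 h
    refine prod_eq_zero (mem_univ i) ?_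
    cases h1 : σ i <;> cases h2 : τ i <;> simp_all [sg]

/-- expansion in characters on the full cube -/
theorem expand (g : Fn ι) (σ : ι → Bool) :
    g σ = ∑ S : Finset ι, (𝔼 τ, g τ * chi S τ) * chi S σ := by
  have hc' : (Fintype.card (ι → Bool) : ℝ) = 2 ^ Fintype.card ι := by simp
  simp only [expect_mul, ← expect_sum_comm, mul_assoc, ← mul_sum, sum_chi_mul]
  rw [Fintype.expect_eq_sum_div_card, hc']
  simp only [mul_ite, mul_zero, sum_ite_eq', mem_univ, if_true]
  field_simp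

theorem parseval_full (g : Fn ι) :
    𝔼 σ, g σ ^ 2 = ∑ S : Finset ι, (𝔼 τ, g τ * chi S τ) ^ 2 := by
  have h := parseval fun S : Finset ι => 𝔼 τ, g τ * chi S τ
  simp only [← expand g] at h
  exact h

theorem ip_sum_chi (e : Bool) (A : Finset (Finset ι))
    (hA : ∀ S ∈ A, 2 * S.card < Fintype.card ι) (c c' : Finset ι → ℝ) :
    ip e (fun σ => ∑ S ∈ A, c S * chi S σ) (fun σ => ∑ S ∈ A, c' S * chi S σ) =
      ∑ S ∈ A, c S * c' S := by
  rw [ip_sum_left e A fun S σ => c S * chi S σ]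
  refine sum_congr rfl fun S hS => ?_
  rw [ip_mul_left, ip_sum_right e A (chi S) fun S σ => c' S * chi S σ]
  congr 1
  rw [sum_eq_single S]
  · rw [ip_mul_right, ip_chi e (by have := hA S hS; omega), if_pos rfl, mul_one]
  · intro S' hS' hne
    rw [ip_mul_right, ip_chi e (by have := hA S hS; have := hA S' hS'; omega),
      if_neg hne.symm, mul_zero]
  · exact fun h => absurd hS h

theorem ip_sum_chi_left (e : Bool) (A : Finset (Finset ι)) (c : Finset ι → ℝ) (h : Fn ι) :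
    ip e h (fun σ => ∑ S ∈ A, c S * chi S σ) = ∑ S ∈ A, c S * ip e h (chi S) := by
  rw [ip_sum_right e A h fun S σ => c S * chi S σ]
  simp only [ip_mul_right]

theorem bessel (e : Bool) (A : Finset (Finset ι)) (hA : ∀ S ∈ A, 2 * S.card < Fintype.card ι)
    (h : Fn ι) : ∑ S ∈ A, ip e h (chi S) ^ 2 ≤ ip e h h := by
  have h0 := ip_self_nonneg e fun σ => h σ - ∑ S ∈ A, ip e h (chi S) * chi S σ
  rw [ip_sub_left, ip_sub_right, ip_sub_right, ip_sum_chi e A hA,
    ip_comm e (fun σ => ∑ S ∈ A, ip e h (chi S) * chi S σ) h, ip_sum_chi_left] at h0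
  simp only [sq]
  linarith

theorem hyper4 (e : Bool) (A : Finset (Finset ι)) (k : ℕ) (hA : ∀ S ∈ A, S.card ≤ k)
    (c : Finset ι → ℝ) : (av e fun σ => (∑ S ∈ A, c S * chi S σ) ^ 4) ≤
      2 * 64 ^ k * (∑ S ∈ A, c S ^ 2) ^ 2 := by
  have h := fourth (fun S => if S ∈ A then c S else 0) k fun S hS =>
    if_neg fun h => absurd (hA S h) (by omega)
  have h1 : ∀ σ, ∑ S, (if S ∈ A then c S else 0) * chi S σ = ∑ S ∈ A, c S * chi S σ := by
    intro σ
    simp only [ite_mul, zero_mul, sum_ite_mem, univ_inter]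
  have h2 : nrm (fun S => if S ∈ A then c S else 0) = ∑ S ∈ A, c S ^ 2 := by
    simp only [nrm, ite_pow, ne_eq, OfNat.ofNat_ne_zero, not_false_eq_true, zero_pow, sum_ite_mem,
      univ_inter]
  simp only [h1, h2] at h
  refine (av_le_two e fun σ => by positivity).trans ?_
  linarith

/-! ### Spans of characters -/

/-- the span of the characters of the sets with a property -/
def Sp (p : Finset ι → Prop) : Submodule ℝ (Fn ι) := Submodule.span ℝ {h | ∃ S, p S ∧ h = chi S}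

theorem chi_mem_Sp {p : Finset ι → Prop} {S : Finset ι} (h : p S) : chi S ∈ Sp p :=
  Submodule.subset_span ⟨S, h, rfl⟩

theorem Sp_mono {p q : Finset ι → Prop} (H : ∀ S, p S → q S) {h : Fn ι} (hh : h ∈ Sp p) :
    h ∈ Sp q := by
  refine Submodule.span_mono ?_ hh
  rintro _ ⟨S, hS, e⟩
  exact ⟨S, H S hS, e⟩

theorem Sp_add {p : Finset ι → Prop} {g h : Fn ι} (hg : g ∈ Sp p) (hh : h ∈ Sp p) :
    (fun σ => g σ + h σ) ∈ Sp p := (Sp p).add_mem hg hh

theorem Sp_sub {p : Finset ι → Prop} {g h : Fn ι} (hg : g ∈ Sp p) (hh : h ∈ Sp p) :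
    (fun σ => g σ - h σ) ∈ Sp p := (Sp p).sub_mem hg hh

theorem Sp_smul {p : Finset ι → Prop} (c : ℝ) {h : Fn ι} (hh : h ∈ Sp p) :
    (fun σ => c * h σ) ∈ Sp p := (Sp p).smul_mem c hh

theorem Sp_sum {κ : Type} {p : Finset ι → Prop} (s : Finset κ) {h : κ → Fn ι}
    (hh : ∀ k ∈ s, h k ∈ Sp p) : (fun σ => ∑ k ∈ s, h k σ) ∈ Sp p := by
  have := (Sp p).sum_mem hh
  rwa [show ∑ k ∈ s, h k = fun σ => ∑ k ∈ s, h k σ from funext fun σ => sum_apply σ s h] at this

theorem Sp_const {p : Finset ι → Prop} (h : p ∅) (c : ℝ) : (fun _ => c) ∈ Sp p := by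
  have := Sp_smul c (chi_mem_Sp h)
  simpa only [chi_empty, mul_one] using this

theorem Sp_repr {p : Finset ι → Prop} [DecidablePred p] {h : Fn ι} (hh : h ∈ Sp p) :
    ∃ c : Finset ι → ℝ, h = fun σ => ∑ S ∈ univ.filter p, c S * chi S σ := by
  induction hh using Submodule.span_induction with
  | mem x hx =>
    obtain ⟨S, hS, rfl⟩ := hx
    refine ⟨fun S' => if S' = S then 1 else 0, funext fun σ => ?_⟩
    simp [hS]
  | zero => exact ⟨0, funext fun σ => by simp⟩
  | add x y _ _ hx hy =>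
    obtain ⟨c, rfl⟩ := hx
    obtain ⟨c', rfl⟩ := hy
    exact ⟨c + c', funext fun σ => by simp [add_mul, sum_add_distrib]⟩
  | smul a x _ hx =>
    obtain ⟨c, rfl⟩ := hx
    exact ⟨a • c, funext fun σ => by simp [mul_sum, mul_assoc]⟩

theorem Sp_mul {p q r : Finset ι → Prop} (H : ∀ S S', p S → q S' → r (symmDiff S S'))
    {g h : Fn ι} (hg : g ∈ Sp p) (hh : h ∈ Sp q) : (fun σ => g σ * h σ) ∈ Sp r := by
  classical
  obtain ⟨c, rfl⟩ := Sp_repr hg
  obtain ⟨c', rfl⟩ := Sp_repr hh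
  simp only [sum_mul_sum]
  refine Sp_sum _ fun S hS => Sp_sum _ fun S' hS' => ?_
  have := Sp_smul (c S * c' S') (chi_mem_Sp (H S S' (mem_filter.1 hS).2 (mem_filter.1 hS').2))
  refine (congrArg (· ∈ Sp r) (funext fun σ => ?_)).mp this
  rw [← chi_mul]
  ring

theorem av_Sp {p : Finset ι → Prop} (e : Bool)
    (H : ∀ S, p S → 0 < S.card ∧ S.card < Fintype.card ι) {h : Fn ι} (hh : h ∈ Sp p) :
    av e h = 0 := by
  classical
  obtain ⟨c, rfl⟩ := Sp_repr hh
  rw [av_sum e _ fun S σ => c S * chi S σ]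
  refine sum_eq_zero fun S hS => ?_
  have := H S (mem_filter.1 hS).2
  rw [av_mul_left, av_chi_zero e this.1 this.2, mul_zero]

theorem ip_Sp {p q : Finset ι → Prop} (e : Bool)
    (H : ∀ S S', p S → q S' → S ≠ S' ∧ S.card + S'.card < Fintype.card ι) {g h : Fn ι}
    (hg : g ∈ Sp p) (hh : h ∈ Sp q) : ip e g h = 0 := by
  refine av_Sp (p := fun S => 0 < S.card ∧ S.card < Fintype.card ι) e (fun _ h => h)
    (Sp_mul (fun S S' hS hS' => ?_) hg hh)
  obtain ⟨h1, h2⟩ := H S S' hS hS'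
  refine ⟨?_, (card_symmDiff_le S S').trans_lt h2⟩
  rw [card_pos, nonempty_iff_ne_empty, ne_eq, ← bot_eq_empty, symmDiff_eq_bot]
  exact h1

theorem ip_Sp_le {p : Finset ι → Prop} [DecidablePred p] (e : Bool)
    (H : ∀ S, p S → 2 * S.card < Fintype.card ι) (g : Fn ι) {h : Fn ι} (hh : h ∈ Sp p) :
    ip e g h ^ 2 ≤ (∑ S ∈ univ.filter p, ip e g (chi S) ^ 2) * ip e h h := by
  obtain ⟨c, rfl⟩ := Sp_repr hh
  rw [ip_sum_chi e _ (fun S hS => H S (mem_filter.1 hS).2), ip_sum_chi_left, mul_comm]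
  simpa only [sq] using sum_mul_sq_le_sq_mul_sq (univ.filter p) c fun S => ip e g (chi S)

theorem hyper_Sp (e : Bool) (k : ℕ) (hk : 2 * k < Fintype.card ι) {h : Fn ι}
    (hh : h ∈ Sp fun S : Finset ι => S.card ≤ k) :
    (av e fun σ => h σ ^ 4) ≤ 2 * 64 ^ k * ip e h h ^ 2 := by
  obtain ⟨c, rfl⟩ := Sp_repr hh
  rw [ip_sum_chi e _ fun S hS => by have := (mem_filter.1 hS).2; omega]
  simpa only [sq] using hyper4 e _ k (fun S hS => (mem_filter.1 hS).2) c

theorem xx_mem_Sp {p : Finset ι → Prop} {i : ι} (h : p {i}) : xx i ∈ Sp p := by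
  rw [← chi_singleton]
  exact chi_mem_Sp h

theorem lin_mem_Sp (c : ι → ℝ) : lin c ∈ Sp fun S : Finset ι => S.card = 1 :=
  Sp_sum univ fun i _ => Sp_smul (c i) (xx_mem_Sp (card_singleton i))

/-! ### Levels zero and one -/

theorem av_xx (e : Bool) (hι : 2 ≤ Fintype.card ι) (i : ι) : av e (xx i) = 0 := by
  rw [← chi_singleton]
  exact av_chi_zero e (by simp) (by simp; omega)

theorem ip_xx (e : Bool) (hι : 3 ≤ Fintype.card ι) (i j : ι) :
    ip e (xx i) (xx j) = if i = j then 1 else 0 := by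
  rw [← chi_singleton, ← chi_singleton, ip_chi e (by simp; omega)]
  simp

theorem ip_lin (e : Bool) (h : Fn ι) (c : ι → ℝ) : ip e h (lin c) = ∑ i, c i * c1 e h i := by
  have := ip_sum_right e univ h fun i σ => c i * xx i σ
  simp only [ip_mul_right] at this
  exact this

theorem av_lin (e : Bool) (hι : 2 ≤ Fintype.card ι) (c : ι → ℝ) : av e (lin c) = 0 := by
  have := av_sum e univ fun i σ => c i * xx i σ
  simp only [av_mul_left, av_xx e hι, mul_zero, sum_const_zero] at this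
  exact this

theorem c1_lin (e : Bool) (hι : 3 ≤ Fintype.card ι) (c : ι → ℝ) : c1 e (lin c) = c := by
  funext j
  rw [c1, ip_comm, ip_lin]
  simp only [c1, ip_xx e hι, mul_ite, mul_one, mul_zero, sum_ite_eq, mem_univ, if_true]

theorem ip_lin_lin (e : Bool) (hι : 3 ≤ Fintype.card ι) (c c' : ι → ℝ) :
    ip e (lin c) (lin c') = ∑ i, c i * c' i := by
  rw [ip_lin, c1_lin e hι]
  exact sum_congr rfl fun i _ => mul_comm _ _

theorem lin_four (e : Bool) (hι : 3 ≤ Fintype.card ι) (c : ι → ℝ) :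
    (av e fun σ => lin c σ ^ 4) ≤ (12 * ∑ i, c i ^ 2) ^ 2 := by
  have h := hyper_Sp e 1 (by omega) (Sp_mono (fun S hS => le_of_eq hS) (lin_mem_Sp c))
  rw [ip_lin_lin e hι] at h
  simp only [← sq] at h
  nlinarith [sq_nonneg (∑ i, c i ^ 2)]

theorem nr_lin_sq_le (e : Bool) (hι : 3 ≤ Fintype.card ι) (c : ι → ℝ) :
    (nr e fun σ => lin c σ * lin c σ) ≤ 12 * ∑ i, c i ^ 2 :=
  nr_sq_le e (by positivity) (lin_four e hι c)

theorem q2_lin (e : Bool) (hι : 3 ≤ Fintype.card ι) (c : ν → ι → ℝ) :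
    (q2 e fun a => lin (c a)) = ∑ a, ∑ i, c a i ^ 2 := by
  simp only [q2, ip_lin_lin e hι, sq]

theorem q4_lin_le (e : Bool) (hι : 3 ≤ Fintype.card ι) (c : ν → ι → ℝ) :
    (q4 e fun a => lin (c a)) ≤ 12 * ∑ a, ∑ i, c a i ^ 2 := by
  rw [mul_sum]
  exact q4_le_sum e _ _ (fun a => by positivity) fun a => lin_four e hι (c a)

theorem av_xx_mul (e : Bool) (hι : 3 ≤ Fintype.card ι) (i j : ι) :
    (av e fun σ => xx i σ * xx j σ) = if i = j then 1 else 0 := ip_xx e hι i j

theorem av_qf (e : Bool) (hι : 3 ≤ Fintype.card ι) (N : ι → ι → ℝ) :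
    av e (qf N) = ∑ i, N i i := by
  unfold qf
  rw [av_sum e univ fun i σ => ∑ j, N i j * (xx i σ * xx j σ)]
  refine sum_congr rfl fun i _ => ?_
  rw [av_sum e univ fun j σ => N i j * (xx i σ * xx j σ)]
  simp only [av_mul_left, av_xx_mul e hι, mul_ite, mul_one, mul_zero, sum_ite_eq, mem_univ, if_true]

theorem Or1.add {e : Bool} {g h : Fn ι} (hg : Or1 e g) (hh : Or1 e h) :
    Or1 e fun σ => g σ + h σ :=
  ⟨by rw [av_add, hg.1, hh.1, add_zero], fun i => by rw [ip_add_left, hg.2, hh.2, add_zero]⟩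

theorem Or1.sub {e : Bool} {g h : Fn ι} (hg : Or1 e g) (hh : Or1 e h) :
    Or1 e fun σ => g σ - h σ :=
  ⟨by rw [av_sub, hg.1, hh.1, sub_zero], fun i => by rw [ip_sub_left, hg.2, hh.2, sub_zero]⟩

theorem Or1.smul {e : Bool} (c : ℝ) {h : Fn ι} (hh : Or1 e h) : Or1 e fun σ => c * h σ :=
  ⟨by rw [av_mul_left, hh.1, mul_zero], fun i => by rw [ip_mul_left, hh.2, mul_zero]⟩

theorem Or1.sum {κ : Type} {e : Bool} (s : Finset κ) {h : κ → Fn ι} (hh : ∀ k ∈ s, Or1 e (h k)) :
    Or1 e fun σ => ∑ k ∈ s, h k σ :=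
  ⟨by rw [av_sum]; exact sum_eq_zero fun k hk => (hh k hk).1,
    fun i => by rw [ip_sum_left]; exact sum_eq_zero fun k hk => (hh k hk).2 i⟩

theorem Or1.cmb {e : Bool} (z : ν → ℝ) {γ : ν → Fn ι} (h : ∀ a, Or1 e (γ a)) :
    Or1 e (cmb z γ) := Or1.sum univ fun a _ => (h a).smul (z a)

theorem Or1.ip_lin {e : Bool} {h : Fn ι} (hh : Or1 e h) (c : ι → ℝ) : ip e h (lin c) = 0 := by
  rw [SL.ip_lin]
  exact sum_eq_zero fun i _ => by rw [c1, hh.2, mul_zero]

theorem Or1.ip_const {e : Bool} {h : Fn ι} (hh : Or1 e h) (c : ℝ) : ip e h (fun _ => c) = 0 := by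
  rw [ip_const_right, hh.1, mul_zero]

theorem Or1.c1 {e : Bool} {h : Fn ι} (hh : Or1 e h) : c1 e h = 0 := funext hh.2

theorem or1_of_Sp {p : Finset ι → Prop} (e : Bool)
    (H : ∀ S, p S → 2 ≤ S.card ∧ S.card + 1 < Fintype.card ι) {h : Fn ι} (hh : h ∈ Sp p) :
    Or1 e h := by
  refine ⟨av_Sp e (fun S hS => by have := H S hS; omega) hh, fun i => ?_⟩
  refine ip_Sp (q := fun S => S.card = 1) e (fun S S' hS hS' => ?_) hh
    (xx_mem_Sp (card_singleton i))
  have := H S hS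
  exact ⟨fun h => by subst h; omega, by omega⟩

theorem eq_res (e : Bool) (h : Fn ι) (σ : ι → Bool) :
    h σ = av e h + lin (c1 e h) σ + res e h σ := by
  unfold res
  ring

theorem or1_res (e : Bool) (hι : 3 ≤ Fintype.card ι) (h : Fn ι) : Or1 e (res e h) := by
  constructor
  · unfold res
    rw [av_sub e (fun σ => h σ - av e h), av_sub, av_const e (by omega), av_lin e (by omega)]
    ring
  · intro i
    unfold res
    rw [ip_sub_left e (fun σ => h σ - av e h), ip_sub_left, ip_const_left, av_xx e (by omega)]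
    have := congrFun (c1_lin e hι (c1 e h)) i
    unfold c1 at this ⊢
    rw [this]
    ring

theorem or1_bt (e : Bool) (hι : 3 ≤ Fintype.card ι) (F : ν → Fn ι) (a : ν) :
    Or1 e (bt e F a) := or1_res e hι _

theorem Or1.res_eq {e : Bool} {h : Fn ι} (hh : Or1 e h) : res e h = h := by
  funext σ
  simp [res, hh.1, hh.c1, lin]

theorem ip_res (e : Bool) {g : Fn ι} (hg : Or1 e g) (h : Fn ι) : ip e g (res e h) = ip e g h := by
  unfold res
  rw [ip_sub_right e g fun σ => h σ - av e h, ip_sub_right, hg.ip_lin, hg.ip_const]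
  ring

/-- splitting of the inner product by levels -/
theorem ip_split (e : Bool) (hι : 3 ≤ Fintype.card ι) (g h : Fn ι) :
    ip e g h = av e g * av e h + ∑ i, c1 e g i * c1 e h i + ip e (res e g) (res e h) := by
  rw [ip_res e (or1_res e hι g)]
  have h1 : ip e g h = ip e (fun σ => av e g + lin (c1 e g) σ + res e g σ) h :=
    ip_congr e fun σ => by rw [← eq_res]
  rw [h1, ip_add_left e (fun σ => av e g + lin (c1 e g) σ), ip_add_left, ip_const_left,
    ip_comm e (lin _), ip_lin]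

theorem res_sq (e : Bool) (hι : 3 ≤ Fintype.card ι) (h : Fn ι) :
    ip e h h = av e h ^ 2 + ∑ i, c1 e h i ^ 2 + ip e (res e h) (res e h) := by
  simpa only [sq] using ip_split e hι h h

theorem ip_res_le (e : Bool) (hι : 3 ≤ Fintype.card ι) (h : Fn ι) :
    ip e (res e h) (res e h) ≤ ip e h h := by
  have h1 := res_sq e hι h
  have h2 : 0 ≤ ∑ i, c1 e h i ^ 2 := sum_nonneg fun _ _ => sq_nonneg _
  nlinarith [sq_nonneg (av e h)]

theorem sum_c1_le (e : Bool) (hι : 3 ≤ Fintype.card ι) (h : Fn ι) :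
    ∑ i, c1 e h i ^ 2 ≤ ip e h h := by
  have h1 := res_sq e hι h
  have h2 := ip_self_nonneg e (res e h)
  nlinarith [sq_nonneg (av e h)]

theorem c1_add (e : Bool) (g h : Fn ι) (i : ι) :
    c1 e (fun σ => g σ + h σ) i = c1 e g i + c1 e h i := ip_add_left e g h _

theorem c1_affine (e : Bool) (hι : 3 ≤ Fintype.card ι) (k : ℝ) (c : ι → ℝ) (h : Fn ι) (i : ι) :
    c1 e (fun σ => k + lin c σ + h σ) i = c i + c1 e h i := by
  rw [c1_add e fun σ => k + lin c σ, c1_add, c1_lin e hι, c1, ip_const_left, av_xx e (by omega)]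
  ring

/-- adding an affine function does not change the residual -/
theorem res_affine (e : Bool) (hι : 3 ≤ Fintype.card ι) (k : ℝ) (c : ι → ℝ) (h : Fn ι) :
    (res e fun σ => k + lin c σ + h σ) = res e h := by
  funext σ
  unfold res
  rw [av_add e fun σ => k + lin c σ, av_add, av_const e (by omega), av_lin e (by omega)]
  have h1 : lin (c1 e fun σ => k + lin c σ + h σ) σ = lin c σ + lin (c1 e h) σ := by
    rw [lin]
    simp only [c1_affine e hι k c h, add_mul, sum_add_distrib]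
    rfl
  rw [h1]
  ring

theorem eta_le_const (e : Bool) (hι : 3 ≤ Fintype.card ι) (F : ν → Fn ι) (k : ν → ℝ) :
    eta e F ≤ av e fun σ => ∑ a, (F a σ - k a) ^ 2 := by
  rw [av_sum e univ fun a σ => (F a σ - k a) ^ 2]
  refine sum_le_sum fun a _ => ?_
  have h1 := res_affine e hι (k a) 0 fun σ => F a σ - k a
  have h2 : (fun σ => k a + lin 0 σ + (F a σ - k a)) = F a := by
    funext σ
    simp [lin]
  rw [h2] at h1
  have h3 := ip_res_le e hι fun σ => F a σ - k a
  rw [← h1] at h3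
  simpa only [ip, sq, bt] using h3

/-! ### Level two -/

theorem c1_xx_mul (e : Bool) (h : Fn ι) {i j : ι} (hij : i ≠ j) :
    c1 e (fun σ => xx i σ * h σ) j = ip e h (chi {i, j}) :=
  ip_congr e fun σ => by rw [chi_pair hij]; ring

theorem c1_xx_mul_self (e : Bool) (h : Fn ι) (i : ι) :
    c1 e (fun σ => xx i σ * h σ) i = av e h :=
  av_congr e fun σ => by rw [mul_right_comm, xx_sq, one_mul]

theorem c1_xx_mul_comm (e : Bool) (h : Fn ι) (i j : ι) :
    c1 e (fun σ => xx i σ * h σ) j = c1 e (fun σ => xx j σ * h σ) i :=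
  ip_congr e fun σ => by ring

theorem or1_xx_sub_Dv (e : Bool) (hι : 3 ≤ Fintype.card ι) {h : Fn ι} (hh : Or1 e h) (i : ι) :
    Or1 e fun σ => xx i σ * h σ - Dv e i h σ := by
  have h1 := or1_res e hι fun σ => xx i σ * h σ
  have h2 : (av e fun σ => xx i σ * h σ) = 0 := (ip_comm e _ _).trans (hh.2 i)
  unfold res at h1
  simpa only [h2, sub_zero, Dv] using h1

theorem ip_xx_mul (e : Bool) (i : ι) (h : Fn ι) :
    ip e (fun σ => xx i σ * h σ) (fun σ => xx i σ * h σ) = ip e h h :=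
  ip_congr e fun σ => by rw [mul_mul_mul_comm, xx_sq, one_mul]

theorem ip_xx_sub_Dv_le (e : Bool) (hι : 3 ≤ Fintype.card ι) {h : Fn ι} (hh : Or1 e h) (i : ι) :
    ip e (fun σ => xx i σ * h σ - Dv e i h σ) (fun σ => xx i σ * h σ - Dv e i h σ) ≤
      ip e h h := by
  have h1 := ip_res_le e hι fun σ => xx i σ * h σ
  have h2 : (av e fun σ => xx i σ * h σ) = 0 := (ip_comm e _ _).trans (hh.2 i)
  unfold res at h1
  rw [ip_xx_mul] at h1
  simpa only [h2, sub_zero, Dv] using h1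

theorem ip_Dv (e : Bool) (hι : 3 ≤ Fintype.card ι) (i : ι) (h : Fn ι) :
    ip e (Dv e i h) (Dv e i h) = ∑ j, c1 e (fun σ => xx i σ * h σ) j ^ 2 := by
  simp only [Dv, ip_lin_lin e hι, sq]

theorem Dv_mem_Sp (e : Bool) {h : Fn ι} (hh : av e h = 0) (i : ι) :
    Dv e i h ∈ Sp fun S : Finset ι => S.card = 1 ∧ i ∉ S := by
  refine Sp_sum univ fun j _ => ?_
  by_cases hj : j = i
  · subst hj
    simp only [c1_xx_mul_self, hh, zero_mul]
    exact (Sp _).zero_mem
  · exact Sp_smul _ (xx_mem_Sp ⟨card_singleton j, by simpa using Ne.symm hj⟩)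

theorem p2_mem_Sp (e : Bool) {h : Fn ι} (hh : av e h = 0) :
    p2 e h ∈ Sp fun S : Finset ι => S.card = 2 := by
  have h1 : (fun σ => ∑ i, xx i σ * Dv e i h σ) ∈ Sp fun S : Finset ι => S.card = 2 := by
    refine Sp_sum univ fun i _ => Sp_mul (p := fun S => S = {i}) ?_ (xx_mem_Sp rfl)
      (Dv_mem_Sp e hh i)
    rintro S S' rfl ⟨h1, h2⟩
    have h3 := card_symmDiff_add {i} S'
    rw [singleton_inter_of_notMem h2, card_singleton, card_empty] at h3
    omega
  have h2 := Sp_smul (1 / 2) h1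
  refine (congrArg (· ∈ Sp _) (funext fun σ => ?_)).mp h2
  unfold p2
  ring

theorem or1_p2 (e : Bool) (hι : 4 ≤ Fintype.card ι) {h : Fn ι} (hh : av e h = 0) :
    Or1 e (p2 e h) := or1_of_Sp e (fun S hS => by omega) (p2_mem_Sp e hh)

theorem ip_p2_right (e : Bool) (g h : Fn ι) : ip e g (p2 e h) =
    (∑ i, ∑ j, c1 e (fun σ => xx i σ * h σ) j * c1 e (fun σ => xx i σ * g σ) j) / 2 := by
  unfold p2
  rw [ip_div_right, ip_sum_right e univ g fun i σ => xx i σ * Dv e i h σ]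
  congr 1
  refine sum_congr rfl fun i _ => ?_
  rw [← ip_lin]
  exact ip_congr e fun σ => by unfold Dv; ring

theorem ip_p2_comm (e : Bool) (g h : Fn ι) : ip e g (p2 e h) = ip e (p2 e g) h := by
  rw [ip_comm e (p2 e g), ip_p2_right, ip_p2_right]
  simp only [mul_comm]

theorem p2_pair (e : Bool) (hι : 5 ≤ Fintype.card ι) {i j : ι} (hij : i ≠ j) :
    p2 e (chi {i, j}) = chi {i, j} := by
  have h1 : ∀ k, Dv e k (chi {i, j}) = fun σ =>
      (if k = i then xx j σ else 0) + if k = j then xx i σ else 0 := by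
    intro k
    funext σ
    unfold Dv
    by_cases hi : k = i
    · subst hi
      have : (fun σ => xx k σ * chi {k, j} σ) = lin fun l => if l = j then 1 else 0 := by
        funext σ
        rw [chi_pair hij, ← mul_assoc, xx_sq]
        simp [lin]
      rw [this, c1_lin e (by omega)]
      simp [lin, hij]
    · by_cases hj : k = j
      · subst hj
        have : (fun σ => xx k σ * chi {i, k} σ) = lin fun l => if l = i then 1 else 0 := by
          funext σ
          rw [chi_pair hij, mul_left_comm, xx_sq]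
          simp [lin]
        rw [this, c1_lin e (by omega)]
        simp [lin, hi]
      · have hk : k ∉ ({i, j} : Finset ι) := by simp [hi, hj]
        have h3 : (insert k ({i, j} : Finset ι)).card = 3 := by
          rw [card_insert_of_notMem hk, card_pair hij]
        have : Or1 e fun σ => xx k σ * chi {i, j} σ := by
          have h4 : (fun σ => xx k σ * chi {i, j} σ) = chi (insert k {i, j}) :=
            funext fun σ => (chi_insert hk σ).symm
          rw [h4]
          exact or1_of_Sp (p := fun S => S.card = 3) e (fun S hS => by omega) (chi_mem_Sp h3)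
        rw [this.c1]
        simp [lin, hi, hj]
  funext σ
  unfold p2
  simp only [h1, mul_add, sum_add_distrib, mul_ite, mul_zero, sum_ite_eq', mem_univ, if_true]
  rw [chi_pair hij]
  ring

theorem Dv_p2 (e : Bool) (hι : 5 ≤ Fintype.card ι) {h : Fn ι} (hh : av e h = 0) (i : ι) :
    Dv e i (p2 e h) = Dv e i h := by
  unfold Dv
  congr 1
  funext j
  by_cases hij : i = j
  · subst hij
    rw [c1_xx_mul_self, c1_xx_mul_self, hh, (or1_p2 e (by omega) hh).1]
  · rw [c1_xx_mul e _ hij, c1_xx_mul e _ hij, ← ip_p2_comm, p2_pair e hι hij]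

theorem p2_p2 (e : Bool) (hι : 5 ≤ Fintype.card ι) {h : Fn ι} (hh : av e h = 0) :
    p2 e (p2 e h) = p2 e h := by
  funext σ
  rw [p2]
  simp only [Dv_p2 e hι hh]
  rfl

theorem ip_p2_p2 (e : Bool) (hι : 5 ≤ Fintype.card ι) (g : Fn ι) {h : Fn ι} (hh : av e h = 0) :
    ip e (p2 e g) (p2 e h) = ip e g (p2 e h) := by
  rw [← ip_p2_comm, p2_p2 e hι hh]

theorem ip_sub_p2 (e : Bool) (hι : 5 ≤ Fintype.card ι) (g : Fn ι) {h : Fn ι} (hh : av e h = 0) :
    ip e (fun σ => g σ - p2 e g σ) (p2 e h) = 0 := by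
  rw [ip_sub_left, ip_p2_p2 e hι g hh, sub_self]

theorem Dv_sub (e : Bool) (i : ι) (g h : Fn ι) :
    (Dv e i fun σ => g σ - h σ) = fun σ => Dv e i g σ - Dv e i h σ := by
  funext σ
  simp only [Dv, lin, c1, mul_sub, ip_sub_left, sub_mul, sum_sub_distrib]

theorem Dv_cmb (e : Bool) (i : ι) (z : ν → ℝ) (γ : ν → Fn ι) :
    Dv e i (cmb z γ) = cmb z fun a => Dv e i (γ a) := by
  funext σ
  have h1 : (fun σ => xx i σ * cmb z γ σ) = cmb z fun a σ => xx i σ * γ a σ := by
    funext σ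
    simp only [cmb, mul_sum]
    exact sum_congr rfl fun a _ => by ring
  simp only [Dv, lin, c1, h1, ip_cmb_left, sum_mul]
  rw [sum_comm]
  simp only [cmb, lin, mul_sum, mul_assoc, c1]

theorem p2_cmb (e : Bool) (z : ν → ℝ) (γ : ν → Fn ι) :
    p2 e (cmb z γ) = cmb z fun a => p2 e (γ a) := by
  funext σ
  simp only [p2, Dv_cmb, cmb, mul_sum, sum_div]
  rw [sum_comm]
  refine sum_congr rfl fun a _ => ?_
  exact sum_congr rfl fun i _ => by ring

theorem ip_p2_split (e : Bool) (hι : 5 ≤ Fintype.card ι) {h : Fn ι} (hh : av e h = 0) :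
    ip e h h = ip e (p2 e h) (p2 e h) +
      ip e (fun σ => h σ - p2 e h σ) fun σ => h σ - p2 e h σ := by
  rw [ip_sub_right, ip_sub_p2 e hι h hh, ip_sub_left, ip_p2_p2 e hι h hh, ip_comm e (p2 e h) h]
  ring

theorem ip_p2_le (e : Bool) (hι : 5 ≤ Fintype.card ι) {h : Fn ι} (hh : av e h = 0) :
    ip e (p2 e h) (p2 e h) ≤ ip e h h := by
  have h1 := ip_p2_split e hι hh
  have h2 := ip_self_nonneg e fun σ => h σ - p2 e h σ
  linarith

theorem sum_Dv (e : Bool) (hι : 5 ≤ Fintype.card ι) {h : Fn ι} (hh : av e h = 0) :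
    ∑ i, ip e (Dv e i h) (Dv e i h) = 2 * ip e (p2 e h) (p2 e h) := by
  rw [ip_p2_p2 e hι h hh, ip_p2_right]
  simp only [ip_Dv e (by omega : 3 ≤ Fintype.card ι), sq]
  ring

theorem sum_Dv_le (e : Bool) (hι : 5 ≤ Fintype.card ι) {h : Fn ι} (hh : av e h = 0) :
    ∑ i, ip e (Dv e i h) (Dv e i h) ≤ 2 * ip e h h := by
  rw [sum_Dv e hι hh]
  linarith [ip_p2_le e hι hh]

theorem p2_four (e : Bool) (hι : 5 ≤ Fintype.card ι) {h : Fn ι} (hh : av e h = 0) :
    (av e fun σ => p2 e h σ ^ 4) ≤ (91 * ip e (p2 e h) (p2 e h)) ^ 2 := by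
  have h1 := hyper_Sp e 2 (by omega) (Sp_mono (fun S hS => le_of_eq hS) (p2_mem_Sp e hh))
  nlinarith [sq_nonneg (ip e (p2 e h) (p2 e h))]

theorem q4_p2_le (e : Bool) (hι : 5 ≤ Fintype.card ι) {γ : ν → Fn ι} (hγ : ∀ a, av e (γ a) = 0) :
    (q4 e fun a => p2 e (γ a)) ≤ 91 * q2 e fun a => p2 e (γ a) := by
  rw [q2, mul_sum]
  exact q4_le_sum e _ _ (fun a => mul_nonneg (by norm_num) (ip_self_nonneg e _))
    fun a => p2_four e hι (hγ a)

theorem q4_Dv_le1 (e : Bool) (hι : 3 ≤ Fintype.card ι) (i : ι) (γ : ν → Fn ι) :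
    (q4 e fun a => Dv e i (γ a)) ≤ 12 * q2 e fun a => Dv e i (γ a) := by
  have h := q4_lin_le e hι fun a => c1 e fun σ => xx i σ * γ a σ
  rw [← q2_lin e hι] at h
  exact h

theorem q4_Dv_le (e : Bool) (hι : 5 ≤ Fintype.card ι) {γ : ν → Fn ι} (hγ : ∀ a, av e (γ a) = 0) :
    (q4 e fun p : ι × ν => Dv e p.1 (γ p.2)) ≤ 24 * q2 e γ := by
  have h := q4_lin_le e (by omega) fun p : ι × ν => c1 e fun σ => xx p.1 σ * γ p.2 σ
  rw [← q2_lin e (by omega), q2, Fintype.sum_prod_type, sum_comm] at h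
  have h2 := sum_le_sum fun a (_ : a ∈ univ) => sum_Dv_le e hι (hγ a)
  rw [← mul_sum] at h2
  refine h.trans ?_
  unfold q2
  unfold Dv at h2
  linarith

/-- the mixed family used in the tests -/
theorem q2_dot_Dv_le (e : Bool) (hι : 5 ≤ Fintype.card ι) (β : ν → Fn ι) {γ : ν → Fn ι}
    (hγ : ∀ a, av e (γ a) = 0) :
    (q2 e fun i => dot β fun a => Dv e i (γ a)) ≤ q4 e β * (24 * q2 e γ) := by
  refine le_trans ?_ ((ip_dot_le e β fun p : ι × ν => Dv e p.1 (γ p.2)).trans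
    (mul_le_mul_of_nonneg_left (q4_Dv_le e hι hγ) (q4_nonneg e β)))
  rw [← av_dot_self]
  refine av_mono e fun σ => ?_
  have h1 : dot (fun p : ι × ν => Dv e p.1 (γ p.2)) (fun p : ι × ν => Dv e p.1 (γ p.2)) σ =
      ∑ i, dot (fun a => Dv e i (γ a)) (fun a => Dv e i (γ a)) σ := by
    simp only [dot, Fintype.sum_prod_type]
  rw [h1, mul_sum]
  exact sum_le_sum fun i _ => by simpa only [sq] using dot_sq_le β (fun a => Dv e i (γ a)) σ

theorem Zv_le (e : Bool) (hι : 5 ≤ Fintype.card ι) {γ : ν → Fn ι} (hγ : ∀ a, av e (γ a) = 0) :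
    Zv e γ ≤ q4 e γ * (24 * q2 e γ) := q2_dot_Dv_le e hι γ hγ

theorem or1_b2 (e : Bool) (hι : 5 ≤ Fintype.card ι) (F : ν → Fn ι) (a : ν) : Or1 e (b2 e F a) :=
  or1_p2 e (by omega) (or1_bt e (by omega) F a).1

theorem or1_bw (e : Bool) (hι : 5 ≤ Fintype.card ι) (F : ν → Fn ι) (a : ν) : Or1 e (bw e F a) :=
  (or1_bt e (by omega) F a).sub (or1_b2 e hι F a)

theorem Dv_b2 (e : Bool) (hι : 5 ≤ Fintype.card ι) (F : ν → Fn ι) (a : ν) (i : ι) :
    Dv e i (b2 e F a) = Dv e i (bt e F a) := Dv_p2 e hι (or1_bt e (by omega) F a).1 i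

theorem Dv_bw (e : Bool) (hι : 5 ≤ Fintype.card ι) (F : ν → Fn ι) (a : ν) (i : ι) :
    Dv e i (bw e F a) = fun _ => 0 := by
  have := Dv_sub e i (bt e F a) (b2 e F a)
  rw [Dv_b2 e hι] at this
  simp only [sub_self] at this
  exact this

theorem ip_bw_b2 (e : Bool) (hι : 5 ≤ Fintype.card ι) (F : ν → Fn ι) (a b : ν) :
    ip e (bw e F a) (b2 e F b) = 0 := ip_sub_p2 e hι _ (or1_bt e (by omega) F b).1

theorem eta_split (e : Bool) (hι : 5 ≤ Fintype.card ι) (F : ν → Fn ι) :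
    eta e F = q2 e (b2 e F) + q2 e (bw e F) := by
  rw [q2, q2, ← sum_add_distrib]
  exact sum_congr rfl fun a _ => ip_p2_split e hι (or1_bt e (by omega) F a).1

theorem q4_b2_le (e : Bool) (hι : 5 ≤ Fintype.card ι) (F : ν → Fn ι) :
    q4 e (b2 e F) ≤ 91 * eta e F := by
  have h1 := q4_p2_le e hι fun a => (or1_bt e (by omega) F a).1
  have h2 := eta_split e hι F
  have h3 := q2_nonneg e (bw e F)
  exact h1.trans (by unfold b2 at h2; linarith)

theorem sum_Yv_le (e : Bool) (hι : 5 ≤ Fintype.card ι) (F : ν → Fn ι) :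
    ∑ i, Yv e F i ≤ 2 * eta e F := by
  unfold Yv eta q2
  rw [sum_comm, mul_sum]
  exact sum_le_sum fun a _ => sum_Dv_le e hι (or1_bt e (by omega) F a).1

theorem Yv_le (e : Bool) (hι : 5 ≤ Fintype.card ι) (F : ν → Fn ι) (i : ι) :
    Yv e F i ≤ 2 * eta e F :=
  (single_le_sum (fun j _ => Yv_nonneg e F j) (mem_univ i)).trans (sum_Yv_le e hι F)

theorem ip_qf_le (e : Bool) (hι : 5 ≤ Fintype.card ι) {N : ι → ι → ℝ} (hN : ∑ i, N i i = 0) :
    ip e (qf N) (qf N) ≤ 2 * ∑ i, ∑ j, N i j ^ 2 := by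
  have h0 : av e (qf N) = 0 := by rw [av_qf e (by omega), hN]
  have h1 : ip e (qf N) (qf N) = ∑ p : ι × ι, N p.1 p.2 * c1 e (fun σ => xx p.1 σ * qf N σ) p.2 := by
    rw [Fintype.sum_prod_type]
    refine (ip_sum_right e univ (qf N) fun i σ => ∑ j, N i j * (xx i σ * xx j σ)).trans ?_
    refine sum_congr rfl fun i _ => ?_
    rw [ip_sum_right e univ (qf N) fun j σ => N i j * (xx i σ * xx j σ)]
    refine sum_congr rfl fun j _ => ?_
    rw [ip_mul_right]
    congr 1
    exact ip_congr e fun σ => by ring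
  have h2 := sum_mul_sq_le_sq_mul_sq univ (fun p : ι × ι => N p.1 p.2)
    fun p => c1 e (fun σ => xx p.1 σ * qf N σ) p.2
  have h3 := sum_Dv_le e hι h0
  simp only [ip_Dv e (by omega : 3 ≤ Fintype.card ι)] at h3
  rw [← h1, Fintype.sum_prod_type, Fintype.sum_prod_type] at h2
  have h4 : 0 ≤ ∑ i, ∑ j, N i j ^ 2 := sum_nonneg fun _ _ => sum_nonneg fun _ _ => sq_nonneg _
  have h5 := ip_self_nonneg e (qf N)
  have h6 := h2.trans (mul_le_mul_of_nonneg_left h3 h4)
  rcases h5.eq_or_lt with h | h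
  · rw [← h]
    positivity
  · nlinarith

theorem nr_qf_le (e : Bool) (hι : 5 ≤ Fintype.card ι) {N : ι → ι → ℝ} (hN : ∑ i, N i i = 0) :
    nr e (qf N) ≤ 2 * √(∑ i, ∑ j, N i j ^ 2) := by
  have h4 : 0 ≤ ∑ i, ∑ j, N i j ^ 2 := sum_nonneg fun _ _ => sum_nonneg fun _ _ => sq_nonneg _
  refine nr_le e (by positivity) ((ip_qf_le e hι hN).trans ?_)
  rw [mul_pow, Real.sq_sqrt h4]
  linarith

end Pool.Agent.MP_66cee2_co.SL
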