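import Pool.Agent.MP_66cee2_co.SL.Spec
import Pool.Agent.MP_66cee2_co.SL.KitB

/-! Row APP: four applications of the test against a positive kernel. -/

namespace Pool.Agent.MP_66cee2_co.SL

open Finset

namespace APPA

variable {ι : Type} [Fintype ι] [DecidableEq ι] {ν : Type} [Fintype ν]

theorem cs (e : Bool) (z : ν → ℝ) (β : ν → Fn ι) (g : Fn ι) :
    ip e (cmb z β) g ^ 2 ≤ (∑ a, z a ^ 2) * cov e β fun _ : Unit => g := by
  rw [ip_cmb_left]
  simpa [cov] using sum_mul_sq_le_sq_mul_sq univ z fun a => ip e (β a) g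

theorem q4_cmb (e : Bool) (z : ν → ℝ) (β : ν → Fn ι) :
    (q4 e fun _ : Unit => cmb z β) ≤ (∑ a, z a ^ 2) * q4 e β :=
  q4_mono e (sum_nonneg fun _ _ => sq_nonneg _) fun σ => by
    simpa [dot] using cmb_sq_le z β σ

end APPA

open APPA

theorem rowAPP : OfAPP := by
  rintro ⟨C, hC1, hC⟩
  refine ⟨184 * C, by linarith, fun s hs ι ν _ _ _ hι e F X hE hX => ?_⟩
  have hs1 : Big C s := hs.mono (by linarith)
  have h128 := hs1.ge128 hC1
  have h5 : 5 ≤ Fintype.card ι := by rw [hι]; nlinarith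
  have hs0 : (1 : ℝ) ≤ s := hC1.trans hs1.ge
  have hX0 : 0 ≤ X := (th_nonneg e F).trans hX
  have hβ := or1_bt e (by omega) F
  have heta : eta e F ≤ X := (eta_le_th e (by omega) F).trans hX
  have hb2 : q4 e (b2 e F) ≤ 91 * X := (q4_b2_le e h5 F).trans (by linarith)
  have hCX : 0 ≤ C * X := by positivity
  have h32 : ∀ y : ℝ, 0 ≤ y → y / s ^ 3 ≤ y / s ^ 2 := fun y hy =>
    div_le_div_of_nonneg_left hy (by positivity) (pow_le_pow_right₀ hs0 (by norm_num))
  refine ⟨fun z => ?_, ?_, fun z => ?_, ?_⟩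
  · have hw : 0 ≤ ∑ a, z a ^ 2 := sum_nonneg fun _ _ => sq_nonneg _
    have ho := Or1.cmb z hβ
    have h1 := hC s hs1 ι ν Unit hι e F X hE hX (fun _ => cmb z (bt e F)) fun _ => ho
    have h2 := cs e z (bt e F) (cmb z (bt e F))
    have h3 : (q4 e fun _ : Unit => cmb z (bt e F)) ≤ (∑ a, z a ^ 2) * X :=
      (q4_cmb e z _).trans (mul_le_mul_of_nonneg_left hX hw)
    have h4 := Zv_le e h5 (γ := fun _ : Unit => cmb z (bt e F)) fun _ => ho.1
    have h6 := (q2_le_q4 e (by omega) fun _ : Unit => cmb z (bt e F)).trans h3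
    generalize (∑ a, z a ^ 2) = w at *
    have h7 : √(Zv e fun _ : Unit => cmb z (bt e F)) ≤ 5 * (w * X) := by
      refine Real.sqrt_le_iff.2 ⟨by positivity, h4.trans ?_⟩
      have := mul_le_mul h3 (mul_le_mul_of_nonneg_left h6 (by norm_num : (0 : ℝ) ≤ 24))
        (mul_nonneg (by norm_num) (q2_nonneg _ _)) (by positivity)
      nlinarith [sq_nonneg (w * X)]
    have h8 : C * X * (q4 e fun _ : Unit => cmb z (bt e F)) / s ^ 3 ≤ C * X * (w * X) / s ^ 2 :=
      (h32 _ (mul_nonneg hCX (q4_nonneg _ _))).trans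
        (div_le_div_of_nonneg_right (mul_le_mul_of_nonneg_left h3 hCX) (by positivity))
    have h9 := mul_le_mul_of_nonneg_left h7 (by positivity : 0 ≤ C * X / s ^ 2)
    refine (abs_le_of_sq_le_sq' (h2.trans ((mul_le_mul_of_nonneg_left
      (h1.trans (add_le_add h8 h9)) hw).trans ?_)) (by positivity)).2
    have e1 : w * (C * X * (w * X) / s ^ 2 + C * X / s ^ 2 * (5 * (w * X))) =
        6 * C * (X / s * w) ^ 2 := by field_simp; ring
    have e2 : (184 * C * X / s * w) ^ 2 = (184 * C) ^ 2 * (X / s * w) ^ 2 := by ring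
    rw [e1, e2]
    exact mul_le_mul_of_nonneg_right (by nlinarith) (sq_nonneg _)
  · have h1 := hC s hs1 ι ν ν hι e F X hE hX (bw e F) (or1_bw e h5 F)
    have h2 : Zv e (bw e F) = 0 := by
      simp only [Zv, q2, Dv_bw e h5]
      refine sum_eq_zero fun i _ => ?_
      simp only [ip, dot, mul_zero, sum_const_zero]
      exact av_zero e
    have h3 : cov e (bw e F) (bw e F) = cov e (bt e F) (bw e F) := by
      refine sum_congr rfl fun a _ => sum_congr rfl fun b _ => ?_
      have := ip_sub_left e (bt e F a) (b2 e F a) (bw e F b)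
      rw [ip_comm e (b2 e F a), ip_bw_b2 e h5, sub_zero] at this
      rw [← this]
      rfl
    have h4 : q4 e (bw e F) ≤ 184 * X := by
      have := q4_sub_le e (bt e F) (b2 e F)
      have hX' : q4 e (bt e F) ≤ X := hX
      exact le_trans this (by linarith)
    rw [h2, Real.sqrt_zero, mul_zero, add_zero, ← h3] at h1
    refine h1.trans (div_le_div_of_nonneg_right ?_ (by positivity))
    nlinarith [mul_le_mul_of_nonneg_left h4 hCX]
  · have hw : 0 ≤ ∑ a, z a ^ 2 := sum_nonneg fun _ _ => sq_nonneg _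
    have ho := Or1.cmb z (or1_b2 e h5 F)
    have ho' := Or1.cmb z hβ
    have hp : cmb z (b2 e F) = p2 e (cmb z (bt e F)) := (p2_cmb e z _).symm
    have h1 := hC s hs1 ι ν Unit hι e F X hE hX (fun _ => cmb z (b2 e F)) fun _ => ho
    have h2 := cs e z (bt e F) (cmb z (b2 e F))
    have h0 : ip e (cmb z (bt e F)) (cmb z (b2 e F)) = ip e (cmb z (b2 e F)) (cmb z (b2 e F)) := by
      rw [hp, ip_p2_p2 e h5 _ ho'.1]
    have h3 : (q4 e fun _ : Unit => cmb z (b2 e F)) ≤
        91 * ip e (cmb z (b2 e F)) (cmb z (b2 e F)) := by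
      rw [← q2_unit, hp]
      exact q4_p2_le e h5 (γ := fun _ : Unit => cmb z (bt e F)) fun _ => ho'.1
    have h4 := Zv_le e h5 (γ := fun _ : Unit => cmb z (b2 e F)) fun _ => ho.1
    rw [q2_unit] at h4
    rw [h0] at h2
    have hp0 := ip_self_nonneg e (cmb z (b2 e F))
    generalize ip e (cmb z (b2 e F)) (cmb z (b2 e F)) = p at *
    generalize (∑ a, z a ^ 2) = w at *
    have h7 : √(Zv e fun _ : Unit => cmb z (b2 e F)) ≤ 47 * p := by
      refine Real.sqrt_le_iff.2 ⟨by positivity, h4.trans ?_⟩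
      nlinarith [mul_le_mul_of_nonneg_right h3 (by positivity : 0 ≤ 24 * p), sq_nonneg p]
    have h8 : C * X * (q4 e fun _ : Unit => cmb z (b2 e F)) / s ^ 3 ≤ C * X * (91 * p) / s ^ 2 :=
      (h32 _ (mul_nonneg hCX (q4_nonneg _ _))).trans
        (div_le_div_of_nonneg_right (mul_le_mul_of_nonneg_left h3 hCX) (by positivity))
    have h9 := mul_le_mul_of_nonneg_left h7 (by positivity : 0 ≤ C * X / s ^ 2)
    have h10 := h2.trans (mul_le_mul_of_nonneg_left (h1.trans (add_le_add h8 h9)) hw)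
    have e1 : w * (C * X * (91 * p) / s ^ 2 + C * X / s ^ 2 * (47 * p)) =
        p * (138 * (C * X / s ^ 2 * w)) := by ring
    have e2 : 184 * C * X / s ^ 2 * w = 184 * (C * X / s ^ 2 * w) := by ring
    have h11 : 0 ≤ C * X / s ^ 2 * w := by positivity
    rw [e1, sq] at h10
    rw [e2]
    rcases hp0.eq_or_lt with h | h
    · rw [← h]; positivity
    · exact (le_of_mul_le_mul_left h10 h).trans (by linarith)
  · have h1 := hC s hs1 ι ν ν hι e F X hE hX (b2 e F) (or1_b2 e h5 F)
    have h3 : cov e (b2 e F) (b2 e F) = cov e (bt e F) (b2 e F) :=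
      sum_congr rfl fun a _ => sum_congr rfl fun b _ =>
        congrArg (· ^ 2) (ip_p2_p2 e h5 (bt e F a) (hβ b).1)
    rw [h3]
    refine h1.trans (add_le_add (div_le_div_of_nonneg_right ?_ (by positivity))
      (mul_le_mul_of_nonneg_right (div_le_div_of_nonneg_right (by nlinarith) (by positivity))
        (Real.sqrt_nonneg _)))
    nlinarith [mul_le_mul_of_nonneg_left hb2 hCX, mul_nonneg hCX hX0]

end Pool.Agent.MP_66cee2_co.SL
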