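import Pool.Agent.MP_66cee2_co.SL.Spec

/-! Binomial coefficients near the middle. -/

namespace Pool.Agent.MP_66cee2_co.SL

open Finset

namespace BINA

lemma step {s m j : ℕ} (hs : 3 ≤ s) (hm : s ^ 2 ≤ m + 1) (hj : m ≤ 2 * j + 2 * s) :
    (m.choose (j + 1) : ℝ) ≤ Real.exp (10 / s) * m.choose j := by
  have hs0 : (0 : ℝ) < s := by exact_mod_cast (by omega : 0 < s)
  have h1 : s * (m - j) ≤ (s + 10) * (j + 1) := by
    rcases le_total m j with h | h
    · simp [Nat.sub_eq_zero_of_le h]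
    · obtain ⟨k, rfl⟩ := Nat.exists_eq_add_of_le h
      rw [Nat.add_sub_cancel_left]
      nlinarith
  have h2 : s * m.choose (j + 1) ≤ (s + 10) * m.choose j := by
    refine Nat.le_of_mul_le_mul_right ?_ (Nat.succ_pos j)
    calc s * m.choose (j + 1) * (j + 1) = m.choose j * (s * (m - j)) := by
          rw [mul_assoc, Nat.choose_succ_right_eq]; ring
      _ ≤ m.choose j * ((s + 10) * (j + 1)) := Nat.mul_le_mul_left _ h1
      _ = (s + 10) * m.choose j * (j + 1) := by ring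
  have h3 : (s : ℝ) * m.choose (j + 1) ≤ (s + 10) * m.choose j := by exact_mod_cast h2
  have h4 : (s : ℝ) + 10 ≤ s * Real.exp (10 / s) := by
    have := mul_le_mul_of_nonneg_left (Real.add_one_le_exp (10 / s)) hs0.le
    rwa [mul_add, mul_div_cancel₀ _ hs0.ne', mul_one, add_comm] at this
  refine le_of_mul_le_mul_left (h3.trans ?_) hs0
  rw [← mul_assoc]
  exact mul_le_mul_of_nonneg_right h4 (Nat.cast_nonneg _)

lemma iter {s m t : ℕ} (hs : 3 ≤ s) (hm : s ^ 2 ≤ m + 1) (ht : m ≤ 2 * t + 2 * s) (k : ℕ) :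
    (m.choose (t + k) : ℝ) ≤ Real.exp (10 / s) ^ k * m.choose t := by
  induction k with
  | zero => simp
  | succ k ih =>
    refine (step (j := t + k) hs hm (by omega)).trans ?_
    rw [pow_succ', mul_assoc]
    exact mul_le_mul_of_nonneg_left ih (Real.exp_pos _).le

lemma mid (m : ℕ) : 2 ^ m ≤ (m + 1) * m.choose (m / 2) := by
  rw [← Nat.sum_range_choose]
  simpa using Finset.sum_le_card_nsmul (range (m + 1)) (fun i => m.choose i) _
    fun i _ => Nat.choose_le_middle i m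

end BINA

open BINA in
theorem rowBIN : RowBIN := by
  have he : (11 : ℝ) ≤ Real.exp 10 := by linarith [Real.add_one_le_exp 10]
  refine ⟨2 * Real.exp 10, by linarith, fun s m t hs h1 h2 h3 h4 => ?_⟩
  have hs3 : 3 ≤ s := by exact_mod_cast (by linarith : (3 : ℝ) ≤ s)
  have hs0 : (0 : ℝ) < s := by exact_mod_cast (by omega : 0 < s)
  obtain ⟨k, hk⟩ := Nat.exists_eq_add_of_le (by omega : t ≤ m / 2)
  have h5 := iter hs3 h1 h4 k
  rw [← hk] at h5
  have h6 : Real.exp (10 / s) ^ k ≤ Real.exp 10 := by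
    rw [← Real.exp_nat_mul]
    refine Real.exp_le_exp.2 ?_
    have : (k : ℝ) ≤ s := by exact_mod_cast (by omega : k ≤ s)
    rw [← mul_div_assoc, div_le_iff₀ hs0]
    linarith
  have h7 : (2 : ℝ) ^ m ≤ (m + 1) * m.choose (m / 2) := by exact_mod_cast mid m
  have h8 : (m : ℝ) + 1 ≤ 2 * s ^ 2 := by
    have : m + 1 ≤ 2 * s ^ 2 := by nlinarith
    exact_mod_cast this
  calc (2 : ℝ) ^ m ≤ (m + 1) * m.choose (m / 2) := h7
    _ ≤ 2 * s ^ 2 * (Real.exp 10 * m.choose t) :=
        mul_le_mul h8 (h5.trans (mul_le_mul_of_nonneg_right h6 (Nat.cast_nonneg _)))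
          (Nat.cast_nonneg _) (by positivity)
    _ = _ := by ring

end Pool.Agent.MP_66cee2_co.SL
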