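import Pool.Agent.MP_66cee2_co.SL.Spec

/-! Row CHAIN: a bounded sequence cannot stay strongly concave. -/

namespace Pool.Agent.MP_66cee2_co.SL

open Finset

namespace CHAINA

theorem drift (g : ℕ → ℝ) (δ : ℝ) (M : ℕ) (h : ∀ j, j + 1 ≤ M → g (j + 1) ≤ g j - δ) (j k : ℕ)
    (hk : j + k ≤ M) : g (j + k) ≤ g j - k * δ := by
  induction k with
  | zero => simp
  | succ k ih =>
    have h1 := ih (by omega)
    have h2 := h (j + k) (by omega)
    rw [← add_assoc]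
    push_cast
    linarith

theorem conc (η : ℕ → ℝ) (δ : ℝ) (K : ℕ)
    (h : ∀ j, j + 1 ≤ 2 * K → η (j + 2) + η j - 2 * η (j + 1) ≤ -δ) :
    η (K + K) - 2 * η K + η 0 ≤ -(K ^ 2 * δ) := by
  have h1 := drift (fun j => η (j + 1) - η j) δ (2 * K) fun j hj => by
    have := h j hj
    linarith
  have h2 : ∀ n, n ≤ K → η (n + K) - η n ≤ η K - η 0 - n * (K * δ) := by
    intro n
    induction n with
    | zero => simp
    | succ n ih =>
      intro hn
      have a := ih (by omega)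
      have b := h1 n K (by omega)
      rw [show n + 1 + K = n + K + 1 by omega]
      push_cast
      linarith
  have h3 := h2 K le_rfl
  nlinarith

theorem seq (d η : ℕ → ℝ) (y ε₁ ε₂ : ℝ) (K : ℕ) (hK : 1 ≤ K) (h1 : 0 ≤ ε₁) (h2 : 0 ≤ ε₂)
    (hη : ∀ j, 0 ≤ η j ∧ η j ≤ y) (hd : ∀ j, 0 ≤ d j) (hs : ∀ j, d j - √ε₁ ≤ d (j + 1))
    (hc : ∀ j, η (j + 2) + η j - 2 * η (j + 1) + (d (j + 1) ^ 2 + d j ^ 2) / 2 ≤ ε₂) :
    d 0 ^ 2 ≤ 16 * K ^ 2 * ε₁ + 8 * ε₂ + 16 * y / K ^ 2 := by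
  by_contra hcon
  have hlt := not_le.1 hcon
  have hK0 : (0 : ℝ) < K := by exact_mod_cast hK
  have hy : 0 ≤ y := (hη 0).1.trans (hη 0).2
  have a1 : 0 ≤ 16 * (K : ℝ) ^ 2 * ε₁ := by positivity
  have a2 : 0 ≤ 16 * y / (K : ℝ) ^ 2 := by positivity
  have b1 : 4 * K * √ε₁ ≤ d 0 := by
    refine (pow_le_pow_iff_left₀ (by positivity) (hd 0) two_ne_zero).1 ?_
    rw [mul_pow, Real.sq_sqrt h1]
    nlinarith
  have b2 : ∀ j : ℕ, d 0 - j * √ε₁ ≤ d j := by
    intro j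
    induction j with
    | zero => simp
    | succ j ih =>
      have := hs j
      push_cast
      linarith
  have b3 : ∀ j : ℕ, j ≤ 2 * K → d 0 ^ 2 / 4 ≤ d j ^ 2 := by
    intro j hj
    have c1 : (j : ℝ) ≤ 2 * K := by exact_mod_cast hj
    have c2 := mul_le_mul_of_nonneg_right c1 (Real.sqrt_nonneg ε₁)
    have c3 : d 0 / 2 ≤ d j := by linarith [b2 j]
    have c4 := pow_le_pow_left₀ (by linarith [hd 0]) c3 2
    linarith
  have b4 := conc η (d 0 ^ 2 / 8) K fun j hj => by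
    have := hc j
    have := b3 j (by omega)
    have := b3 (j + 1) hj
    linarith
  have b5 : d 0 ^ 2 ≤ 16 * y / (K : ℝ) ^ 2 := by
    rw [le_div_iff₀ (by positivity)]
    have := (hη (K + K)).1
    have := (hη 0).1
    have := (hη K).2
    linarith
  linarith

theorem nsq {ι ν : Type} [Fintype ι] [Fintype ν] (v : EuclideanSpace ℝ (ν × ι)) :
    ‖v‖ ^ 2 = ∑ a, ∑ i, v (a, i) ^ 2 := by
  rw [EuclideanSpace.real_norm_sq_eq, Fintype.sum_prod_type]

end CHAINA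

open CHAINA in
theorem rowCHAIN : RowCHAIN := by
  intro ι ν _ _ A η y ε₁ ε₂ K hK h2 hη hA hc
  let v : ℕ → EuclideanSpace ℝ (ν × ι) := fun j => WithLp.toLp 2 fun p => A j p.1 p.2
  have e1 : ∀ j k, ‖v j - v k‖ ^ 2 = ∑ a, ∑ i, (A j a i - A k a i) ^ 2 := fun j k => nsq _
  have h1 : 0 ≤ ε₁ := (by positivity : (0 : ℝ) ≤ _).trans (hA 0)
  rw [← e1]
  refine seq (fun j => ‖v j - v (j + 1)‖) η y ε₁ ε₂ K hK h1 h2 hη (fun _ => norm_nonneg _)
    (fun j => ?_) fun j => ?_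
  · have a : ‖v j - v (j + 1) - (v (j + 1) - v (j + 2))‖ ≤ √ε₁ := by
      refine Real.le_sqrt_of_sq_le (le_of_eq_of_le ?_ (hA j))
      rw [nsq]
      refine Finset.sum_congr rfl fun a _ => Finset.sum_congr rfl fun i _ => ?_
      show (A j a i - A (j + 1) a i - (A (j + 1) a i - A (j + 2) a i)) ^ 2 = _
      ring
    have b := norm_sub_norm_le (v j - v (j + 1)) (v (j + 1) - v (j + 2))
    show ‖v j - v (j + 1)‖ - √ε₁ ≤ ‖v (j + 1) - v (j + 2)‖
    linarith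
  · have := hc j
    rw [← e1, ← e1, norm_sub_rev (v (j + 1)) (v j)] at this
    exact this

end Pool.Agent.MP_66cee2_co.SL
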