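import Pool.Agent.MP_66cee2_co.SL.Spec

/-! The row CONC: concavity along a line of faces. -/

namespace Pool.Agent.MP_66cee2_co.SL

open Finset Pool.Agent.MP_9e8696_an.H67
open scoped BigOperators

namespace CONCA

variable {ι : Type} [Fintype ι] [DecidableEq ι] {ν : Type} [Fintype ν]

theorem eta_nn (e : Bool) (F : ν → Fn ι) : 0 ≤ eta e F := by
  refine sum_nonneg fun a _ => expect_nonneg fun σ _ => mul_nonneg ?_ (mul_self_nonneg _)
  have : |sg e * chi univ σ| = 1 := by simp [chi, abs_mul, abs_prod, abs_sg]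
  linarith [neg_abs_le (sg e * chi univ σ)]

theorem DD_nn (e e' : Bool) (F F' : ν → Fn ι) : 0 ≤ DD e e' F F' :=
  sum_nonneg fun _ _ => sum_nonneg fun _ _ => sq_nonneg _

theorem KK_id (e e' : Bool) (F V W P M : ν → Fn ι) :
    KK e' e V P + KK e' e V M + KK e' e W P + KK e' e W M - 2 * KK e e' F V - 2 * KK e e' F W -
      2 * KK e e F P - 2 * KK e e F M = -2 * ∑ a, k2 e e' F V W a * k2 e e F P M a := by
  simp only [KK, k2, mul_sum, ← sum_add_distrib, ← sum_sub_distrib]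
  exact sum_congr rfl fun a _ => by ring

theorem DD_id (e e' : Bool) (F V W P M : ν → Fn ι) :
    DD e' e V P + DD e' e V M + DD e' e W P + DD e' e W M - 2 * DD e e' F V - 2 * DD e e' F W -
      2 * DD e e F P - 2 * DD e e F M = -2 * ∑ a, ∑ i, a2 e e' F V W a i * a2 e e F P M a i := by
  simp only [DD, a2, mul_sum, ← sum_add_distrib, ← sum_sub_distrib]
  exact sum_congr rfl fun a _ => sum_congr rfl fun i _ => by ring

theorem am1 (r : ℝ) (u v : ν → ℝ) : 2 * r * ∑ a, u a * v a ≤ r ^ 2 * ∑ a, u a ^ 2 + ∑ a, v a ^ 2 := by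
  simp only [mul_sum, ← sum_add_distrib]
  exact sum_le_sum fun a _ => by nlinarith [sq_nonneg (r * u a - v a)]

theorem am2 (r : ℝ) (u v : ν → ι → ℝ) : 2 * r * ∑ a, ∑ i, u a i * v a i ≤
    r ^ 2 * ∑ a, ∑ i, u a i ^ 2 + ∑ a, ∑ i, v a i ^ 2 := by
  rw [mul_sum, mul_sum, ← sum_add_distrib]
  exact sum_le_sum fun a _ => am1 r (u a) (v a)

theorem fin {r S C D y K A X Dv : ℝ} (hr : 1 ≤ r) (hS : r ^ 2 = S) (h128 : 128 ≤ S) (hC : 0 ≤ C)
    (hD : 0 ≤ D) (hy : 0 ≤ y) (hDv : 0 ≤ Dv) (hK : K ≤ D * y * r / S ^ 2) (hA : A ≤ D * y * r / S)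
    (h : S / 64 / ((S ^ 2 - S) / 2) * X + S / 32 / (S ^ 2 - 1) * Dv ≤
      K + (S + 1 + S / 32) / (S ^ 2 - 1) * A + 2 * y / ((S ^ 2 - S) / 2) + 6 * (C * y / S ^ 2)) :
    X + Dv / 2 ≤ 32 * (3 * D + 8 + 6 * C) * y / r := by
  have hS0 : 0 < S := by linarith
  have hr0 : 0 < r := by linarith
  have ht : 0 < (S ^ 2 - S) / 2 := by nlinarith
  have hm : 0 < S ^ 2 - 1 := by nlinarith
  rcases le_total (X + Dv / 2) 0 with h0 | h0
  · exact h0.trans (by positivity)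
  have h1 : 1 / (32 * S) ≤ S / 64 / ((S ^ 2 - S) / 2) := by
    rw [div_le_div_iff₀ (by positivity) ht]
    nlinarith
  have h2 : S / 64 / ((S ^ 2 - S) / 2) / 2 ≤ S / 32 / (S ^ 2 - 1) := by
    rw [div_div, div_le_div_iff₀ (by positivity) hm]
    nlinarith [mul_nonneg hS0.le (show 0 ≤ S ^ 2 - 2 * S + 1 by nlinarith)]
  have h3 : (S + 1 + S / 32) / (S ^ 2 - 1) ≤ 2 / S := by
    rw [div_le_div_iff₀ hm hS0]
    nlinarith
  have h4 : (S + 1 + S / 32) / (S ^ 2 - 1) * A ≤ 2 * (D * y * r / S ^ 2) :=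
    (mul_le_mul_of_nonneg_left hA (by positivity)).trans
      ((mul_le_mul_of_nonneg_right h3 (by positivity)).trans_eq (by field_simp))
  have h5 : 2 * y / ((S ^ 2 - S) / 2) ≤ 8 * (y * r / S ^ 2) := by
    rw [← mul_div_assoc, div_le_div_iff₀ ht (by positivity)]
    nlinarith [mul_nonneg (mul_nonneg hy (sub_nonneg.2 hr)) ht.le,
      mul_nonneg hy (show 0 ≤ S ^ 2 - 2 * S by nlinarith)]
  have h6 : C * y / S ^ 2 ≤ C * y * r / S ^ 2 :=
    div_le_div_of_nonneg_right (le_mul_of_one_le_right (by positivity) hr) (by positivity)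
  have h7 : 1 / (32 * S) * (X + Dv / 2) ≤ (3 * D + 8 + 6 * C) * y * r / S ^ 2 := by
    have := mul_le_mul_of_nonneg_right h1 h0
    have := mul_le_mul_of_nonneg_right h2 hDv
    have e : (3 * D + 8 + 6 * C) * y * r / S ^ 2 =
        3 * (D * y * r / S ^ 2) + 8 * (y * r / S ^ 2) + 6 * (C * y * r / S ^ 2) := by ring
    linarith
  rw [one_div, inv_mul_le_iff₀ (by positivity)] at h7
  refine h7.trans_eq ?_
  rw [← hS]
  field_simp

theorem comb {l₁ l₂ l₃ p q a b K A ε y k1 k2 k3 k4 k5 k6 k7 k8 d1 d2 d3 d4 d5 d6 d7 d8 f v w u n : ℝ}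
    (h1 : l₁ = l₃ - a) (h2 : l₂ = l₃ - b) (hb : 0 ≤ b) (hp : 0 ≤ p) (hd : 0 ≤ d3 + d4)
    (hu : 0 ≤ u) (hn : 0 ≤ n) (hf : f ≤ y)
    (m1 : |k1 + l₁ * d1 + p * (f + v) - p| ≤ ε) (m2 : |k2 + l₁ * d2 + p * (f + w) - p| ≤ ε)
    (m3 : |k3 + l₂ * d3 + q * (f + u) - q| ≤ ε) (m4 : |k4 + l₂ * d4 + q * (f + n) - q| ≤ ε)
    {r : ℝ} (hr : r = p + q)
    (m5 : |k5 + l₃ * d5 + r * (v + u) - r| ≤ ε) (m6 : |k6 + l₃ * d6 + r * (v + n) - r| ≤ ε)
    (m7 : |k7 + l₃ * d7 + r * (w + u) - r| ≤ ε) (m8 : |k8 + l₃ * d8 + r * (w + n) - r| ≤ ε)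
    (hK : k5 + k6 + k7 + k8 - 2 * k1 - 2 * k2 - 2 * k3 - 2 * k4 = -2 * K)
    (hA : d5 + d6 + d7 + d8 - 2 * d1 - 2 * d2 - 2 * d3 - 2 * d4 = -2 * A) :
    q * (v + w - 2 * f) + a * (d1 + d2) ≤ K + l₃ * A + 2 * y * p + 6 * ε := by
  subst h1 h2 hr
  have := congrArg (l₃ * ·) hA
  have := mul_nonneg hb hd
  have := mul_nonneg hp (show 0 ≤ u + n - 2 * f + 2 * y by linarith)
  linarith [(abs_le.1 m1).1, (abs_le.1 m2).1, (abs_le.1 m3).1, (abs_le.1 m4).1, (abs_le.1 m5).2,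
    (abs_le.1 m6).2, (abs_le.1 m7).2, (abs_le.1 m8).2]

theorem bd {S D y u x₁ x₂ q h : ℝ} (hS0 : 0 < S) (hDy : 0 ≤ D * y) (hh : h ≤ S) (hq : 0 < q)
    (h0 : 2 * √S * u ≤ √S ^ 2 * x₁ + x₂) (h1 : x₁ ≤ D * 1 * y / q) (h2 : x₂ ≤ D * h * y / q) :
    u ≤ D * y * √S / q := by
  have hz : 0 ≤ D * y / q := by positivity
  have hr2 : √S ^ 2 = S := Real.sq_sqrt hS0.le
  refine le_of_mul_le_mul_left (a := 2 * √S) ?_ (by positivity)
  have e1 : 2 * √S * (D * y * √S / q) = 2 * √S ^ 2 * (D * y / q) := by ring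
  have e2 : D * h * y / q = h * (D * y / q) := by ring
  have e3 : D * 1 * y / q = D * y / q := by ring
  rw [e1, hr2]
  rw [hr2] at h0
  rw [e2] at h2
  rw [e3] at h1
  linarith [mul_le_mul_of_nonneg_left h1 hS0.le, mul_le_mul_of_nonneg_right hh hz]

end CONCA

open CONCA in
theorem rowCONC : OfCONC := by
  rintro ⟨C, hC, hM⟩ ⟨D, hD, hT⟩
  refine ⟨32 * (3 * D + 8 + 6 * C), by linarith, ?_⟩
  intro s hs ι ν _ _ _ hι e F V W P M y L1 L2 eVP eVM eWP eWM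
  have hsC : Big C s := ⟨hs.dvd, by linarith [hs.ge]⟩
  have hsD : Big D s := ⟨hs.dvd, by linarith [hs.ge]⟩
  have h128 : (128 : ℝ) ≤ s := by linarith [hs.ge]
  obtain ⟨k, rfl⟩ := hs.dvd
  have hk : 1 ≤ k := by
    have : 128 ≤ 128 * k := by exact_mod_cast h128
    omega
  have e64 : 128 * k / 64 = 2 * k := by omega
  rw [e64] at L2 eVP eVM eWP eWM
  have p1 : px e 1 = !e := by simp [px]
  have p2 : px e (2 * k) = e := by simp [px]
  have p3 : px (!e) (1 + 2 * k) = e := by simp [px, Nat.even_add]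
  have hV := L1.etP
  have hW := L1.etM
  have hP := L2.etP
  have hN := L2.etM
  rw [p1] at hV hW
  rw [p2] at hP hN
  have m1 := hM _ hsC ι ν (.inr hι) e 1 F V y (by omega) L1.eF L1.eP L1.eFP L1.etF L1.etP
  have m2 := hM _ hsC ι ν (.inr hι) e 1 F W y (by omega) L1.eF L1.eM L1.eFM L1.etF L1.etM
  have m3 := hM _ hsC ι ν (.inr hι) e (2 * k) F P y (by omega) L2.eF L2.eP L2.eFP L2.etF L2.etP
  have m4 := hM _ hsC ι ν (.inr hι) e (2 * k) F M y (by omega) L2.eF L2.eM L2.eFM L2.etF L2.etM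
  have m5 := hM _ hsC ι ν (.inr hι) (!e) (1 + 2 * k) V P y (by omega) L1.eP L2.eP eVP hV
    (p3.symm ▸ hP)
  have m6 := hM _ hsC ι ν (.inr hι) (!e) (1 + 2 * k) V M y (by omega) L1.eP L2.eM eVM hV
    (p3.symm ▸ hN)
  have m7 := hM _ hsC ι ν (.inr hι) (!e) (1 + 2 * k) W P y (by omega) L1.eM L2.eP eWP hW
    (p3.symm ▸ hP)
  have m8 := hM _ hsC ι ν (.inr hι) (!e) (1 + 2 * k) W M y (by omega) L1.eM L2.eM eWM hW
    (p3.symm ▸ hN)
  obtain ⟨t1, t2, -⟩ := hT _ hsD ι ν (.inr hι) e 1 F V W y le_rfl (by omega) L1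
  obtain ⟨t3, t4, -⟩ := hT _ hsD ι ν (.inr hι) e (2 * k) F P M y (by omega) (by omega) L2
  rw [p1] at m1 m2 t1 t2
  rw [p2] at m3 m4 t3 t4
  rw [p3] at m5 m6 m7 m8
  have et : t0 (128 * k) = 64 * k * (128 * k - 1) := by
    obtain ⟨j, hj⟩ : ∃ j, 128 * k = j + 1 := ⟨128 * k - 1, by omega⟩
    have : (128 * k) ^ 2 - 128 * k = 2 * (64 * k * j) := by
      rw [Nat.sub_eq_iff_eq_add (Nat.le_self_pow two_ne_zero _)]
      nlinarith
    rw [t0, this, hj]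
    simp
  have hle : 1 + 2 * k ≤ t0 (128 * k) := by
    rw [et]
    have : 64 * k * 1 ≤ 64 * k * (128 * k - 1) := Nat.mul_le_mul_left _ (by omega)
    omega
  generalize hS : ((128 * k : ℕ) : ℝ) = S at *
  have hkS : ((2 * k : ℕ) : ℝ) = S / 64 := by
    rw [← hS]
    push_cast
    ring
  have etR : (t0 (128 * k) : ℝ) = (S ^ 2 - S) / 2 := by
    rw [et, Nat.cast_mul, Nat.cast_pred (by omega), ← hS]
    push_cast
    ring
  have em : (Fintype.card ι : ℝ) = S ^ 2 - 1 := by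
    rw [eq_sub_iff_add_eq, ← hS]
    exact_mod_cast hι
  have hm : 0 < S ^ 2 - 1 := by nlinarith
  have el : ∀ j ≤ 1 + 2 * k, l1 (Fintype.card ι) (t0 (128 * k) - j) =
      (S - 1 + 2 * j) / (S ^ 2 - 1) := fun j hj => by
    rw [l1, Nat.cast_sub (hj.trans hle), etR, em]
    congr 1
    ring
  have hy : 0 ≤ y := (eta_nn e F).trans L1.etF
  have hS0 : 0 < S := by linarith
  have hDy : 0 ≤ D * y := mul_nonneg (by linarith) hy
  rw [Nat.cast_one] at t1 t2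
  have key := comb (a := S / 32 / (S ^ 2 - 1)) (b := 2 / (S ^ 2 - 1))
    (by rw [el _ (by omega), el _ le_rfl, Nat.cast_add, hkS, Nat.cast_one]; ring)
    (by rw [el _ (by omega), el _ le_rfl, Nat.cast_add, hkS, Nat.cast_one]; ring)
    (by positivity) (by positivity) (add_nonneg (DD_nn ..) (DD_nn ..)) (eta_nn e P) (eta_nn e M)
    L1.etF m1 m2 m3 m4 (by rw [Nat.cast_add, add_div]) m5 m6 m7 m8 (KK_id e (!e) F V W P M)
    (DD_id e (!e) F V W P M)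
  rw [el _ le_rfl, Nat.cast_add, hkS, Nat.cast_one, etR] at key
  rw [hkS] at t3 t4
  refine fin (Real.one_le_sqrt.2 (by linarith)) (Real.sq_sqrt hS0.le) h128 (by linarith)
    (by linarith) hy (add_nonneg (DD_nn e (!e) F V) (DD_nn e (!e) F W))
    (bd hS0 hDy (by linarith) (by positivity) (am1 √S _ _) t1 t3)
    (bd hS0 hDy (by linarith) hS0 (am2 √S _ _) t2 t4) (key.trans_eq ?_)
  ring

end Pool.Agent.MP_66cee2_co.SL
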