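import Mathlib
import Pool.Agent.MP_9e8696_an.H67.Basic

/-! Functions on half cubes: definitions (plan: team store file 66cee2_plan.md). -/

namespace Pool.Agent.MP_66cee2_co.SL

open Finset Pool.Agent.MP_9e8696_an.H67
open scoped BigOperators

noncomputable section

/-- real functions on the cube -/
abbrev Fn (ι : Type) : Type := (ι → Bool) → ℝ

variable {ι : Type} [Fintype ι] [DecidableEq ι] {ν : Type} [Fintype ν]

/-- the coordinate functions -/
def xx (i : ι) : Fn ι := fun σ => sg (σ i)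

/-- the mean over the half cube of parity `e` -/
def av (e : Bool) (h : Fn ι) : ℝ := 𝔼 σ : ι → Bool, (1 + sg e * chi univ σ) * h σ

/-- the inner product -/
def ip (e : Bool) (g h : Fn ι) : ℝ := av e fun σ => g σ * h σ

/-- the norm -/
def nr (e : Bool) (h : Fn ι) : ℝ := √(ip e h h)

/-- a linear form -/
def lin (c : ι → ℝ) : Fn ι := fun σ => ∑ i, c i * xx i σ

/-- a quadratic form -/
def qf (N : ι → ι → ℝ) : Fn ι := fun σ => ∑ i, ∑ j, N i j * (xx i σ * xx j σ)

/-- the coefficients of level one -/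
def c1 (e : Bool) (h : Fn ι) : ι → ℝ := fun i => ip e h (xx i)

/-- the part orthogonal to the affine functions -/
def res (e : Bool) (h : Fn ι) : Fn ι := fun σ => h σ - av e h - lin (c1 e h) σ

/-- orthogonal to the affine functions -/
def Or1 (e : Bool) (h : Fn ι) : Prop := av e h = 0 ∧ ∀ i, ip e h (xx i) = 0

/-- the level one part of `x i * h` -/
def Dv (e : Bool) (i : ι) (h : Fn ι) : Fn ι := lin (c1 e fun σ => xx i σ * h σ)

/-- the level two part (of a function of mean zero) -/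
def p2 (e : Bool) (h : Fn ι) : Fn ι := fun σ => (∑ i, xx i σ * Dv e i h σ) / 2

/-- pointwise inner product of two families -/
def dot (β γ : ν → Fn ι) : Fn ι := fun σ => ∑ a, β a σ * γ a σ

/-- a linear combination of a family -/
def cmb (z : ν → ℝ) (γ : ν → Fn ι) : Fn ι := fun σ => ∑ a, z a * γ a σ

/-- the first moment of the squared length -/
def q2 (e : Bool) (γ : ν → Fn ι) : ℝ := ∑ a, ip e (γ a) (γ a)

/-- the root of the second moment of the squared length -/
def q4 (e : Bool) (γ : ν → Fn ι) : ℝ := nr e (dot γ γ)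

/-- the non-affine part of a family -/
def bt (e : Bool) (F : ν → Fn ι) : ν → Fn ι := fun a => res e (F a)

/-- its level two part -/
def b2 (e : Bool) (F : ν → Fn ι) : ν → Fn ι := fun a => p2 e (bt e F a)

/-- its part of level at least three -/
def bw (e : Bool) (F : ν → Fn ι) : ν → Fn ι := fun a σ => bt e F a σ - b2 e F a σ

def eta (e : Bool) (F : ν → Fn ι) : ℝ := q2 e (bt e F)

def th (e : Bool) (F : ν → Fn ι) : ℝ := q4 e (bt e F)

/-- the influence of a coordinate on the linear part -/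
def Yv (e : Bool) (F : ν → Fn ι) (i : ι) : ℝ := q2 e fun a => Dv e i (bt e F a)

/-- the squared length of the family `i ↦ ⟨γ, D i γ⟩` -/
def Zv (e : Bool) (γ : ν → Fn ι) : ℝ := q2 e fun i => dot γ fun a => Dv e i (γ a)

/-- the squared Frobenius norm of the cross covariance -/
def cov {ν' : Type} [Fintype ν'] (e : Bool) (β : ν → Fn ι) (γ : ν' → Fn ι) : ℝ :=
  ∑ a, ∑ b, ip e (β a) (γ b) ^ 2

/-- flip the coordinates in `R` -/
def fl (R : Finset ι) (σ : ι → Bool) : ι → Bool := fun i => if i ∈ R then !σ i else σ i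

/-- the mean over the points at Hamming distance `t` -/
def T (t : ℕ) (h : Fn ι) : Fn ι := fun σ => 𝔼 R ∈ powersetCard t (univ : Finset ι), h (fl R σ)

/-- the eigenvalue of a character -/
def lam (t : ℕ) (S : Finset ι) : ℝ :=
  𝔼 R ∈ powersetCard t (univ : Finset ι), (-1 : ℝ) ^ (R ∩ S).card

/-- the parity after `t` flips -/
def px (e : Bool) (t : ℕ) : Bool := if Even t then e else !e

/-- the eigenvalue of level one -/
def l1 (m t : ℕ) : ℝ := ((m : ℝ) - 2 * t) / m

/-- the eigenvalue of level two -/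
def l2 (m t : ℕ) : ℝ := (((m : ℝ) - 2 * t) ^ 2 - m) / (m * (m - 1))

/-- points at Hamming distance `t` have images at distance one -/
def Edge (t : ℕ) (F F' : ν → Fn ι) : Prop :=
  ∀ (σ : ι → Bool) (R : Finset ι), R.card = t → ∑ a, (F a σ - F' a (fl R σ)) ^ 2 = 1

/-- squared distance of the linear parts -/
def DD (e e' : Bool) (F F' : ν → Fn ι) : ℝ := ∑ a, ∑ i, (c1 e (F a) i - c1 e' (F' a) i) ^ 2

/-- squared distance of the centres -/
def KK (e e' : Bool) (F F' : ν → Fn ι) : ℝ := ∑ a, (av e (F a) - av e' (F' a)) ^ 2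

/-- second difference of the centres -/
def k2 (e e' : Bool) (F P M : ν → Fn ι) : ν → ℝ :=
  fun a => av e' (P a) + av e' (M a) - 2 * av e (F a)

/-- second difference of the linear parts -/
def a2 (e e' : Bool) (F P M : ν → Fn ι) : ν → ι → ℝ :=
  fun a i => c1 e' (P a) i + c1 e' (M a) i - 2 * c1 e (F a) i

/-- the potential -/
def al0 (e : Bool) (F F' : ν → Fn ι) : Fn ι := fun σ =>
  (∑ a, (F a σ - av e (F a)) ^ 2) / 2 - ∑ a, (F a σ - av e (F a)) * (av e (F' a) - av e (F a))

/-- the centred potential -/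
def al (e : Bool) (F F' : ν → Fn ι) : Fn ι := fun σ => al0 e F F' σ - av e (al0 e F F')

/-- the Gram matrix of the linear parts -/
def GG (e : Bool) (F F' : ν → Fn ι) : ι → ι → ℝ := fun i j => ∑ a, c1 e (F a) i * c1 e (F' a) j

/-- its traceless part -/
def NN (e : Bool) (F F' : ν → Fn ι) : ι → ι → ℝ := fun i j =>
  GG e F F' i j - if i = j then (∑ k, GG e F F' k k) / Fintype.card ι else 0

/-- the tangential component of the non-affine part -/
def bb (e : Bool) (F F' : ν → Fn ι) : ι → Fn ι := fun j => cmb (fun a => c1 e (F' a) j) (bt e F)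

/-- the mean over the edges -/
def Ed (e : Bool) (t : ℕ) (Φ : (ι → Bool) → Fn ι) : ℝ := av e fun σ => T t (Φ σ) σ

/-- the low rank side of the edge identity -/
def sgm (α α' : Fn ι) (N : ι → ι → ℝ) (b b' : ι → Fn ι) (σ τ : ι → Bool) : ℝ :=
  α σ + α' τ - (∑ i, ∑ j, N i j * (xx i σ * xx j τ)) - (∑ j, b j σ * xx j τ) -
    ∑ i, b' i τ * xx i σ

/-- the edge identity -/
def Idn (t : ℕ) (β β' : ν → Fn ι) (c : ℝ) (α α' : Fn ι) (N : ι → ι → ℝ) (b b' : ι → Fn ι) : Prop :=
  ∀ (σ : ι → Bool) (R : Finset ι), R.card = t →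
    ∑ a, β a σ * β' a (fl R σ) = c + sgm α α' N b b' σ (fl R σ)

/-- the sum of the squared sizes of the unknowns -/
def zz (e : Bool) (α α' : Fn ι) (N : ι → ι → ℝ) (b b' : ι → Fn ι) : ℝ :=
  ip e α α + ip e α' α' + (∑ i, ∑ j, N i j ^ 2) + q2 e b + q2 e b'

/-- the same for two families -/
def ZZ (e : Bool) (F F' : ν → Fn ι) : ℝ :=
  zz e (al e F F') (al e F' F) (NN e F F') (bb e F F') (bb e F' F)

/-- normalisation of the unknowns -/
structure Nrm (e : Bool) (α α' : Fn ι) (N : ι → ι → ℝ) (b b' : ι → Fn ι) : Prop where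
  a : av e α = 0
  a' : av e α' = 0
  tr : ∑ i, N i i = 0
  b : ∀ i, Or1 e (b i)
  b' : ∀ i, Or1 e (b' i)

/-- the edge identity holds with small unknowns -/
def St (s : ℕ) (e : Bool) (t : ℕ) (F F' : ν → Fn ι) (C X : ℝ) : Prop :=
  (∃ c, Idn t (bt e F) (bt e F') c (al e F F') (al e F' F) (NN e F F') (bb e F F') (bb e F' F) ∧
    |c| ≤ C * X / s ^ 2) ∧ ZZ e F F' ≤ C * X ^ 2 / s ^ 2

/-- the centred squared length of the level two part -/
def psi (e : Bool) (F : ν → Fn ι) : Fn ι := fun σ => dot (b2 e F) (b2 e F) σ - q2 e (b2 e F)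

/-- the face obtained by fixing the coordinates in `W` -/
def fc (W : Finset ι) (ω : ι → Bool) (F : ν → Fn ι) : ν → Fn {i // i ∉ W} :=
  fun a σ => F a fun i => if h : i ∈ W then ω i else σ ⟨i, h⟩

/-- the face of a product -/
def fs {κ : Type} (ω : κ → Bool) (F : ν → Fn (ι ⊕ κ)) : ν → Fn ι :=
  fun a σ => F a (Sum.elim σ ω)

/-- the Hamming distance of the edges -/
def t0 (s : ℕ) : ℕ := (s ^ 2 - s) / 2

/-- the Hamming distance of the edges between the middle layer and an outer layer -/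
def t1 (s : ℕ) : ℕ := t0 s - s / 64

/-- admissible and large -/
structure Big (C : ℝ) (s : ℕ) : Prop where
  dvd : 128 ∣ s
  ge : C ≤ s

/-- spectral bounds -/
structure Spec (ι : Type) [Fintype ι] [DecidableEq ι] (t : ℕ) (μ H : ℝ) : Prop where
  two : ∀ (e : Bool) (h : Fn ι), Or1 e h → ip (px e t) (T t h) (T t h) ≤ μ ^ 2 * ip e h h
  four : ∀ (e : Bool) (h : Fn ι), Or1 e h →
    (av (px e t) fun σ => T t h σ ^ 4) ≤ (H ^ 2 * ip e h h) ^ 2

/-- three parallel layers -/
structure Tri (s : ℕ) (e : Bool) (F P M : ν → Fn ι) (X : ℝ) : Prop where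
  eF : Edge (t0 s) F F
  eP : Edge (t0 s) P P
  eM : Edge (t0 s) M M
  eFP : Edge (t1 s) F P
  eFM : Edge (t1 s) F M
  thF : th e F ≤ X
  thP : th e P ≤ X
  thM : th e M ≤ X
  dP : DD e e F P ≤ X
  dM : DD e e F M ≤ X

/-- three equally spaced layers, `h` being the squared step -/
structure Lay (s h : ℕ) (e : Bool) (F P M : ν → Fn ι) (y : ℝ) : Prop where
  eF : Edge (t0 s) F F
  eP : Edge (t0 s) P P
  eM : Edge (t0 s) M M
  eFP : Edge (t0 s - h) F P
  eFM : Edge (t0 s - h) F M
  ePM : Edge (t0 s - 4 * h) P M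
  etF : eta e F ≤ y
  etP : eta (px e h) P ≤ y
  etM : eta (px e h) M ≤ y
  dPM : DD (px e h) (px e h) P M ≤ y

/-! Cubes in Euclidean space. -/

abbrev Eu (d : ℕ) : Type := EuclideanSpace ℝ (Fin d)

/-- unit distances are preserved -/
def Pres {d n : ℕ} (f : Eu d → Eu n) : Prop := ∀ x y, ‖x - y‖ = 1 → ‖f x - f y‖ = 1

/-- the half edge of the cubes -/
def dl (s : ℕ) : ℝ := √(1 / (4 * (t0 s : ℝ)))

/-- the map read on the cube with centre `c` and frame `U` -/
def cub {d n : ℕ} (f : Eu d → Eu n) (s : ℕ) (c : Eu d) (U : ι → Eu d) : Fin n → Fn ι :=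
  fun a σ => f (c + dl s • ∑ i, sg (σ i) • U i) a

/-- a bound for all cubes of dimension `m` -/
def Bd2 {d n : ℕ} (f : Eu d → Eu n) (s m : ℕ) (y : ℝ) : Prop :=
  ∀ (ι : Type) [Fintype ι] [DecidableEq ι] (c : Eu d) (U : ι → Eu d) (e : Bool),
    Fintype.card ι = m → Orthonormal ℝ U → eta e (cub f s c U) ≤ y

/-- a fourth moment bound for all cubes of dimension `m` -/
def Bd4 {d n : ℕ} (f : Eu d → Eu n) (s m : ℕ) (X : ℝ) : Prop :=
  ∀ (ι : Type) [Fintype ι] [DecidableEq ι] (c : Eu d) (U : ι → Eu d) (e : Bool),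
    Fintype.card ι = m → Orthonormal ℝ U → th e (cub f s c U) ≤ X

end

end Pool.Agent.MP_66cee2_co.SL
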