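import Pool.Agent.MP_66cee2_co.SL.KitC

/-! Bounds for the eigenvalues of the mean over a Hamming sphere. -/

namespace Pool.Agent.MP_66cee2_co.SL

open Finset Pool.Agent.MP_9e8696_an.H67
open scoped BigOperators

namespace EIGA

theorem choose_half {m j k : ℕ} (h : j ≤ k) (hk : k ≤ m / 2) : m.choose j ≤ m.choose k := by
  induction k, h using Nat.le_induction with
  | base => exact le_rfl
  | succ k _ ih => exact (ih (by omega)).trans (Nat.choose_le_succ_of_lt_half_left (by omega))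

theorem choose_mid {m j k : ℕ} (h : j ≤ k) (hk : k + j ≤ m) : m.choose j ≤ m.choose k := by
  rcases le_total k (m / 2) with e | e
  · exact choose_half h e
  · rcases e.eq_or_lt with e | e
    · exact choose_half h e.ge
    · rw [← Nat.choose_symm (by omega : k ≤ m)]
      exact choose_half (by omega) (by omega)

variable {ι : Type} [Fintype ι] [DecidableEq ι]

theorem trace {t j : ℕ} (ht : t ≤ Fintype.card ι) {D u : ℝ} (hu : 0 ≤ u)
    (hD : (2 : ℝ) ^ Fintype.card ι ≤ D * (Fintype.card ι).choose t) (S : Finset ι)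
    (h1 : j ≤ S.card) (h2 : S.card + j ≤ Fintype.card ι) (h3 : u + j ≤ Fintype.card ι) :
    u ^ j / j.factorial * lam t S ^ 2 ≤ D := by
  have e1 : ((Fintype.card ι).choose S.card : ℝ) * lam t S ^ 2 =
      ∑ R ∈ powersetCard S.card (univ : Finset ι), lam t R ^ 2 := by
    rw [sum_congr rfl fun R hR => by rw [lam_congr t (mem_powersetCard.1 hR).2]]
    simp
  have e2 : ∑ R ∈ powersetCard S.card (univ : Finset ι), lam t R ^ 2 ≤ D := by
    refine (sum_le_sum_of_subset_of_nonneg (subset_univ _) fun _ _ _ => sq_nonneg _).trans ?_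
    rw [lam_sq_sum ht, div_le_iff₀ (by exact_mod_cast Nat.choose_pos ht)]
    exact hD
  refine le_trans ?_ (e1.trans_le e2)
  gcongr
  refine le_trans ?_ ((Nat.pow_le_choose j (Fintype.card ι)).trans
    (Nat.cast_le.2 (choose_mid h1 h2)))
  gcongr
  rw [Nat.cast_sub (by omega)]
  push_cast
  linarith

theorem three {t : ℕ} (ht : t ≤ Fintype.card ι) {s : ℝ} (hs : 128 ≤ s)
    (hm : s ^ 2 ≤ Fintype.card ι + 1) (hm' : Fintype.card ι ≤ s ^ 2)
    (ha : 0 ≤ (Fintype.card ι : ℝ) - 2 * t) (ha' : (Fintype.card ι : ℝ) - 2 * t ≤ 2 * s)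
    {S : Finset ι} (h : S.card = 3) : |lam t S| ≤ 80 / s ^ 3 := by
  obtain ⟨S₁, -, h1⟩ := exists_subset_card_eq (s := S) (n := 2) (by omega)
  obtain ⟨S₀, -, h0⟩ := exists_subset_card_eq (s := S) (n := 1) (by omega)
  have e := lam_rec' t (S₀ := S₀) (S₁ := S₁) (S₂ := S) (by omega) (by omega)
  rw [lam_one ht h0, lam_two ht h1, h0, l1, l2] at e
  generalize (Fintype.card ι : ℝ) - 2 * t = a at e ha ha'
  generalize (Fintype.card ι : ℝ) = m at e hm hm'
  have s0 : 0 < s := by linarith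
  have p1 : s ^ 2 / 2 ≤ m - 2 := by nlinarith
  have p0 : 0 < s ^ 2 / 2 := by positivity
  have b1 : |a / m| ≤ 4 / s := by
    rw [abs_of_nonneg (div_nonneg ha (by linarith)),
      show 4 / s = 2 * s / (s ^ 2 / 2) by field_simp; norm_num]
    gcongr
    linarith
  have b2 : |(a ^ 2 - m) / (m * (m - 1))| ≤ 16 / s ^ 2 := by
    rw [abs_div, abs_of_pos (mul_pos (by linarith : 0 < m) (by linarith : 0 < m - 1)),
      show 16 / s ^ 2 = 4 * s ^ 2 / (s ^ 2 / 2 * (s ^ 2 / 2)) by field_simp; norm_num]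
    gcongr
    · rw [abs_le]; constructor <;> nlinarith
    · linarith
    · linarith
    · linarith
  generalize (a ^ 2 - m) / (m * (m - 1)) = x at e b2
  generalize a / m = y at e b1
  have e2 : (m - 2) * lam t S = a * x - 2 * y := by push_cast at e; linarith
  have b3 : |a * x - 2 * y| ≤ 40 / s := by
    refine (abs_sub _ _).trans ?_
    rw [abs_mul, abs_mul, abs_of_nonneg ha, abs_two,
      show 40 / s = 2 * s * (16 / s ^ 2) + 2 * (4 / s) by field_simp; norm_num]
    gcongr
  rw [← e2, abs_mul, abs_of_pos (by linarith)] at b3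
  rw [show 80 / s ^ 3 = 40 / s / (s ^ 2 / 2) by field_simp; norm_num, le_div_iff₀ p0]
  nlinarith [abs_nonneg (lam t S)]

theorem root {x C s K : ℝ} {n : ℕ} (hC : 1 ≤ C) (hs : 0 < s) (hK : 0 < K) (hK' : K ≤ 10 ^ 8)
    (h : s ^ (2 * n) * s ^ 2 / K * x ^ 2 ≤ C * s ^ 2) : |x| ≤ 10 ^ 4 * C / s ^ n := by
  refine abs_le_of_sq_le_sq' ?_ (by positivity) |> abs_le.2
  rw [div_pow, le_div_iff₀ (by positivity), ← pow_mul, mul_comm n]
  rw [div_mul_eq_mul_div, div_le_iff₀ hK] at h
  have h1 : x ^ 2 * s ^ (2 * n) ≤ C * K :=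
    le_of_mul_le_mul_right (a := s ^ 2) (by linarith) (by positivity)
  nlinarith

end EIGA

open EIGA

theorem rowEIG : OfEIG := by
  rintro ⟨C, hC, hB⟩
  refine ⟨10 ^ 4 * C, by linarith, fun s hs ι _ _ hm h hh S => ?_⟩
  have h128 := hs.ge128 (by linarith)
  have e0 := two_t0 s
  have e1 := t0_ge h128
  have e2 : 128 * s ≤ s ^ 2 := by rw [sq]; exact Nat.mul_le_mul_right s h128
  have ht : t0 s - h ≤ Fintype.card ι := by omega
  have hD := hB s (Fintype.card ι) (t0 s - h) (by linarith [hs.ge]) (by omega) (by omega)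
    (by omega) (by omega)
  have r0 : (128 : ℝ) ≤ s := by exact_mod_cast h128
  have s0 : (0 : ℝ) < s := by linarith
  have r1 : (s : ℝ) ^ 2 ≤ Fintype.card ι + 1 := by exact_mod_cast (by omega)
  have r2 : (Fintype.card ι : ℝ) ≤ s ^ 2 := by exact_mod_cast (by omega)
  have r3 : (2 : ℝ) * (t0 s - h : ℕ) ≤ Fintype.card ι := by exact_mod_cast (by omega)
  have r4 : (Fintype.card ι : ℝ) ≤ 2 * (t0 s - h : ℕ) + 2 * s := by exact_mod_cast (by omega)
  have h3 : ∀ S : Finset ι, S.card = 3 → |lam (t0 s - h) S| ≤ 10 ^ 4 * C / s ^ 3 := fun S hS =>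
    (three ht r0 r1 r2 (by linarith) (by linarith) hS).trans (by gcongr; linarith)
  refine ⟨fun h1 h2 => ?_, fun h1 h2 => ?_⟩
  · rcases h1.eq_or_lt with h1 | h1
    · exact h3 S h1.symm
    rcases h2.eq_or_lt with h2 | h2
    · rw [← abs_lam_compl]
      exact h3 _ (by rw [card_compl]; omega)
    refine root (K := 384) hC s0 (by norm_num) (by norm_num) (le_trans (le_of_eq ?_)
      (trace (j := 4) (u := s ^ 2 / 2) ht (by positivity) hD S h1 h2 (by push_cast; nlinarith)))
    norm_num [Nat.factorial]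
    left
    ring
  · refine root (K := 10321920) hC s0 (by norm_num) (by norm_num) (le_trans (le_of_eq ?_)
      (trace (j := 8) (u := s ^ 2 / 2) ht (by positivity) hD S h1 h2 (by push_cast; nlinarith)))
    norm_num [Nat.factorial]
    left
    ring

end Pool.Agent.MP_66cee2_co.SL
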