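import Pool.Agent.MP_66cee2_co.SL.KitB

/-! Row END: a map that is affine on all cubes is an isometry. -/

set_option linter.unusedSectionVars false

namespace Pool.Agent.MP_66cee2_co.SL

open Finset Pool.Agent.MP_9e8696_an.H67
open scoped BigOperators

namespace ENDA

variable {ι : Type} [Fintype ι] [DecidableEq ι] {ν : Type} [Fintype ν]

theorem sg_fl (R : Finset ι) (i : ι) :
    sg (fl R (fun _ => false) i) = 1 - 2 * if i ∈ R then 1 else 0 := by
  by_cases h : i ∈ R
  · simp only [fl, if_pos h, Bool.not_false, sg_true]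
    norm_num
  · simp only [fl, if_neg h, sg_false]
    norm_num

theorem wt_fl {R : Finset ι} (hR : Even R.card) :
    1 + sg false * chi univ (fl R fun _ => false) ≠ 0 := by
  have h : chi univ (fl R fun _ => false) = (-1) ^ R.card := by
    unfold chi
    rw [← prod_const, ← univ_inter R, ← prod_ite_mem, univ_inter]
    refine prod_congr rfl fun i _ => ?_
    rw [sg_fl]
    split_ifs <;> norm_num
  rw [h, hR.neg_one_pow, sg_false]
  norm_num

theorem val_fl {F : ν → Fn ι} (h : eta false F ≤ 0) {R : Finset ι} (hR : Even R.card) (a : ν) :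
    F a (fl R fun _ => false) =
      av false (F a) + ∑ i, c1 false (F a) i - 2 * ∑ i ∈ R, c1 false (F a) i := by
  have h0 : res false (F a) (fl R fun _ => false) = 0 :=
    eq_zero_of_ip false ((single_le_sum (f := fun a => ip false (bt false F a) (bt false F a))
      (fun a _ => ip_self_nonneg _ _) (mem_univ a)).trans h) _ (wt_fl hR)
  rw [eq_res false (F a), h0, add_zero, add_sub_assoc]
  congr 1
  simp only [lin, xx, sg_fl, mul_sub, mul_one, sum_sub_distrib, mul_ite, mul_zero, sum_ite_mem,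
    univ_inter, mul_sum]
  congr 1
  exact sum_congr rfl fun i _ => mul_comm _ _

theorem len {F : ν → Fn ι} (h : eta false F ≤ 0) (hN : ∑ i, ∑ j, NN false F F i j ^ 2 ≤ 0) :
    ∃ g : ℝ, ∀ R : Finset ι, Even R.card →
      ∑ a, (F a (fun _ => false) - F a (fl R fun _ => false)) ^ 2 = g * R.card := by
  have hN0 : ∀ i j, NN false F F i j = 0 := fun i j => by
    have h1 := single_le_sum (f := fun i => ∑ j, NN false F F i j ^ 2)
      (fun i _ => sum_nonneg fun j _ => sq_nonneg _) (mem_univ i)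
    have h2 := single_le_sum (f := fun j => NN false F F i j ^ 2) (fun j _ => sq_nonneg _)
      (mem_univ j)
    exact pow_eq_zero_iff two_ne_zero |>.1 (le_antisymm (h2.trans (h1.trans hN)) (sq_nonneg _))
  refine ⟨4 * ((∑ k, GG false F F k k) / Fintype.card ι), fun R hR => ?_⟩
  have e0 : (fun _ => false) = fl (∅ : Finset ι) fun _ => false := by
    funext i
    simp [fl]
  have e1 : ∀ a, (F a (fun _ => false) - F a (fl R fun _ => false)) ^ 2 =
      4 * ∑ i ∈ R, ∑ j ∈ R, c1 false (F a) i * c1 false (F a) j := fun a => by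
    rw [val_fl h hR, ← sum_mul_sum]
    conv_lhs => rw [e0]
    rw [val_fl h (by simp), sum_empty]
    ring
  have e2 : ∀ i ∈ R, ∑ a, ∑ j ∈ R, c1 false (F a) i * c1 false (F a) j =
      (∑ k, GG false F F k k) / Fintype.card ι := fun i hi => by
    rw [sum_comm]
    refine (sum_congr rfl fun j _ => (sub_eq_zero.1 (hN0 i j) : GG false F F i j = _)).trans ?_
    rw [sum_ite_eq, if_pos hi]
  simp only [e1]
  rw [← mul_sum, sum_comm, sum_congr rfl e2, sum_const, nsmul_eq_mul]
  ring

theorem norm_sum {d : ℕ} {V : ι → Eu d} (hV : Orthonormal ℝ V) (R : Finset ι) :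
    ‖∑ i ∈ R, V i‖ ^ 2 = R.card := by
  rw [← real_inner_self_eq_norm_sq, sum_inner]
  have : ∀ i ∈ R, inner ℝ (V i) (∑ j ∈ R, V j) = 1 := fun i hi => by
    rw [inner_sum]
    simp only [orthonormal_iff_ite.1 hV]
    rw [sum_ite_eq, if_pos hi]
  rw [sum_congr rfl this, sum_const, nsmul_eq_mul, mul_one]

end ENDA

open ENDA in
theorem rowEND : OfEND := by
  rintro ⟨C, hC1, hC⟩ hG hB
  refine ⟨C, hC1, fun d n s f hs hd hf h0 => ?_⟩
  have h128 := hs.ge128 hC1
  have ht : (0 : ℝ) < t0 s := by
    have := t0_ge h128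
    exact_mod_cast (by omega : 0 < t0 s)
  have hdl : 0 < dl s := Real.sqrt_pos.2 (by positivity)
  have hdl2 : dl s ^ 2 = 1 / (4 * (t0 s : ℝ)) := Real.sq_sqrt (by positivity)
  have hs2 : 128 ≤ s ^ 2 := by nlinarith
  have key : ∀ k : ℕ, Even k → k ≤ s ^ 2 → ∀ x y : Eu d, ‖x - y‖ ^ 2 = 4 * dl s ^ 2 * k →
      ‖f x - f y‖ = ‖x - y‖ := by
    intro k hk hks x y hxy
    have hV := (EuclideanSpace.basisFun (Fin d) ℝ).orthonormal.comp (Fin.castLE hd)
      (Fin.castLE_injective hd)
    set V := EuclideanSpace.basisFun (Fin d) ℝ ∘ Fin.castLE hd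
    obtain ⟨R, -, hR⟩ := exists_subset_card_eq (s := (univ : Finset (Fin (s ^ 2)))) (n := k)
      (by simpa using hks)
    obtain ⟨R₀, -, hR₀⟩ := exists_subset_card_eq (s := (univ : Finset (Fin (s ^ 2)))) (n := t0 s)
      (by simpa using t0_le s)
    have hn : ‖∑ i ∈ R, V i‖ = ‖(2 * dl s)⁻¹ • (x - y)‖ := by
      rw [← sq_eq_sq₀ (norm_nonneg _) (norm_nonneg _), norm_sum hV, norm_smul, mul_pow, hxy, hR,
        Real.norm_eq_abs, sq_abs]
      field_simp
      norm_num
    have hρ := Submodule.reflection_sub hn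
    set ρ := (ℝ ∙ (∑ i ∈ R, V i - (2 * dl s)⁻¹ • (x - y)))ᗮ.reflection
    have hU : Orthonormal ℝ (ρ ∘ V) := hV.comp_linearIsometryEquiv ρ
    set U := ρ ∘ V with hUd
    have hsum : ∑ i ∈ R, U i = (2 * dl s)⁻¹ • (x - y) := by
      rw [← hρ, map_sum]
      rfl
    set c := x - dl s • ∑ i, U i with hc
    have he : Edge (t0 s) (cub f s c U) (cub f s c U) :=
      hG.edge d n s 0 f _ c c U (by omega) hf hU (fun i => by simp) (by simp) (Nat.zero_le _)
    have heta := h0 _ c U false (Fintype.card_fin _) hU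
    have hth : th false (cub f s c U) ≤ 0 :=
      (th_le _ _).trans (mul_nonpos_of_nonneg_of_nonpos (by positivity) heta)
    have hZ := (hC s hs _ _ (Fintype.card_fin _) false _ 0 he hth).1.2
    obtain ⟨g, hg⟩ := len heta (by
      unfold ZZ zz at hZ
      have a1 := ip_self_nonneg false (al false (cub f s c U) (cub f s c U))
      have a2 := q2_nonneg false (bb false (cub f s c U) (cub f s c U))
      have a3 : C * 0 ^ 2 / (s : ℝ) ^ 2 = 0 := by simp
      linarith)
    have g1 := hg R₀ (hR₀ ▸ even_t0 hs.dvd)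
    rw [he _ R₀ hR₀, hR₀] at g1
    have g2 := hg R (hR ▸ hk)
    have p1 : c + dl s • ∑ i, sg false • U i = x := by simp [hc, sg_false]
    have p2 : c + dl s • ∑ i, sg (fl R (fun _ => false) i) • U i = y := by
      simp only [sg_fl, sub_smul, one_smul, sum_sub_distrib, mul_smul, ite_smul, zero_smul,
        ← smul_sum, sum_ite_mem, univ_inter, hsum, hc, smul_sub (dl s)]
      rw [smul_smul, smul_smul, mul_comm (dl s), mul_inv_cancel₀ (by positivity), one_smul]
      abel
    simp only [cub, p1, p2] at g2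
    rw [← sq_eq_sq₀ (norm_nonneg _) (norm_nonneg _), hxy, EuclideanSpace.real_norm_sq_eq, hdl2]
    simp only [PiLp.sub_apply]
    rw [g2, hR, eq_div_of_mul_eq ht.ne' g1.symm]
    field_simp
  have hl : √(8 * dl s ^ 2) ^ 2 = 8 * dl s ^ 2 := Real.sq_sqrt (by positivity)
  refine hB d n f (√(8 * dl s ^ 2)) (by omega) (Real.sqrt_pos.2 (by positivity))
    (fun x y h => (key 2 (by decide) (by omega) x y ?_).trans h)
    fun x y h => (key 8 (by decide) (by omega) x y ?_).trans h
  · rw [h, hl]
    push_cast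
    ring
  · rw [h, mul_pow, hl]
    push_cast
    ring

end Pool.Agent.MP_66cee2_co.SL
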