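import Pool.Agent.MP_66cee2_co.SL.KitB

/-! Faces of a cube. -/

namespace Pool.Agent.MP_66cee2_co.SL

open Finset Pool.Agent.MP_9e8696_an.H67
open scoped BigOperators

namespace FCA

variable {ι : Type} [Fintype ι] [DecidableEq ι]

/-- the point with coordinates `ω` on `W` and `σ` outside -/
def ex (W : Finset ι) (ω : ι → Bool) (σ : {i // i ∉ W} → Bool) : ι → Bool :=
  fun i => if h : i ∈ W then ω i else σ ⟨i, h⟩

/-- the conditional mean given the coordinates in `W` -/
noncomputable def cd (W : Finset ι) (G : Fn ι) : Fn ι := fun ω => 𝔼 σ, G (ex W ω σ)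

/-- the parity of the face -/
noncomputable def fe (e : Bool) (W : Finset ι) (ω : ι → Bool) : Bool :=
  if chi W ω = 1 then e else !e

omit [Fintype ι] in
lemma ex_congr (W : Finset ι) {ω ω' : ι → Bool} (h : ∀ i ∈ W, ω i = ω' i) : ex W ω = ex W ω' := by
  funext σ i
  by_cases hi : i ∈ W <;> simp [ex, hi, h]

lemma cd_congr (W : Finset ι) (G : Fn ι) {ω ω' : ι → Bool} (h : ∀ i ∈ W, ω i = ω' i) :
    cd W G ω = cd W G ω' := by
  simp only [cd, ex_congr W h]

lemma expect_cd (W : Finset ι) (G : Fn ι) : 𝔼 ω, cd W G ω = 𝔼 τ, G τ := by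
  let sw : (ι → Bool) × ({i // i ∉ W} → Bool) → (ι → Bool) × ({i // i ∉ W} → Bool) :=
    fun p => (ex W p.1 p.2, fun j => p.1 j)
  have hinv : Function.Involutive sw := by
    rintro ⟨ω, σ⟩
    refine Prod.ext (funext fun i => ?_) (funext fun j => ?_)
    · by_cases hi : i ∈ W <;> simp [sw, ex, hi]
    · simp [sw, ex, j.2]
  have h := Fintype.expect_equiv hinv.toPerm (fun p => G (sw p).1) (fun p => G p.1) fun _ => rfl
  rw [← univ_product_univ, expect_product, expect_product] at h
  simpa [sw, cd] using h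

lemma expect_cd_mul (W : Finset ι) (G u : Fn ι) (hu : ∀ ω σ, u (ex W ω σ) = u ω) :
    𝔼 ω, cd W G ω * u ω = 𝔼 τ, G τ * u τ := by
  rw [← expect_cd W fun τ => G τ * u τ]
  simp only [cd, hu, expect_mul]

omit [Fintype ι] in
lemma chi_ex (W : Finset ι) {R : Finset ι} (h : R ⊆ W) (ω : ι → Bool)
    (σ : {i // i ∉ W} → Bool) : chi R (ex W ω σ) = chi R ω :=
  prod_congr rfl fun i hi => by simp [ex, h hi]

omit [Fintype ι] in
lemma xx_ex (W : Finset ι) (j : {i // i ∉ W}) (ω : ι → Bool) (σ : {i // i ∉ W} → Bool) :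
    xx j.1 (ex W ω σ) = xx j σ := by
  simp [xx, ex, j.2]

lemma sum_split (W : Finset ι) (f : ι → ℝ) :
    ∑ i, f i = ∑ i ∈ W, f i + ∑ j : {i // i ∉ W}, f j := by
  rw [← sum_add_sum_compl W, sum_subtype Wᶜ (p := fun i => i ∉ W) (fun i => mem_compl)]

lemma chi_univ_ex (W : Finset ι) (ω : ι → Bool) (σ : {i // i ∉ W} → Bool) :
    chi univ (ex W ω σ) = chi W ω * chi univ σ := by
  rw [← chi_ex W (Subset.refl W) ω σ]
  unfold chi
  rw [← prod_mul_prod_compl W, prod_subtype Wᶜ (p := fun i => i ∉ W) (fun i => mem_compl)]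
  congr 1
  exact prod_congr rfl fun j _ => xx_ex W j ω σ

lemma sg_fe (e : Bool) (W : Finset ι) (ω : ι → Bool) : sg (fe e W ω) = sg e * chi W ω := by
  unfold fe
  split_ifs with h
  · rw [h, mul_one]
  · rw [(chi_cases W ω).resolve_left h, sg_not, mul_neg, mul_one]

lemma av_face (e : Bool) (W : Finset ι) (ω : ι → Bool) (h : Fn ι) :
    av (fe e W ω) (fun σ => h (ex W ω σ)) =
      cd W (fun τ => (1 + sg e * chi univ τ) * h τ) ω := by
  simp only [av, cd, sg_fe, chi_univ_ex, mul_assoc]

lemma cd_single (k : ι) (b : Bool) (G : Fn ι) :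
    cd {k} G (fun _ => b) = 𝔼 τ, G τ * (1 + sg b * xx k τ) := by
  rw [← expect_cd_mul {k} G _ fun ω σ => by simp [xx, ex]]
  have h1 : ∀ ω, cd {k} G ω * (1 + sg b * xx k ω) =
      cd {k} G (fun _ => b) * (1 + sg b * xx k ω) := by
    intro ω
    by_cases h : ω k = b
    · rw [cd_congr {k} G (ω := ω) (ω' := fun _ => b) (by simpa using h)]
    · have : 1 + sg b * xx k ω = 0 := by
        revert h
        unfold xx
        cases ω k <;> cases b <;> simp [sg]
      rw [this, mul_zero, mul_zero]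
  have h2 : 𝔼 ω : ι → Bool, xx k ω = 0 := by
    rw [← chi_singleton, expect_chi, if_neg (singleton_ne_empty k)]
  simp only [h1, ← mul_expect, expect_add_distrib, h2]
  simp

lemma c1_face (e : Bool) (k : ι) (b : Bool) (h : Fn ι) (j : {i // i ∉ ({k} : Finset ι)}) :
    c1 (fe e {k} fun _ => b) (fun σ => h (ex {k} (fun _ => b) σ)) j =
      c1 e h j + sg b * c1 e (fun σ => xx k σ * h σ) j := by
  have h1 := av_face e {k} (fun _ => b) fun τ => h τ * xx j.1 τ
  simp only [xx_ex] at h1
  rw [c1, ip, h1, cd_single, c1, c1, ip, ip, ← av_mul_left, ← av_add]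
  exact expect_congr rfl fun σ _ => by ring

lemma sq_cd (W : Finset ι) (G : Fn ι) (T : Finset ι) :
    𝔼 ω, cd W (fun τ => G τ * chi T τ) ω ^ 2 =
      ∑ S : Finset ι, if symmDiff T S ⊆ W then (𝔼 τ, G τ * chi S τ) ^ 2 else 0 := by
  rw [parseval_full]
  have hinv : Function.Involutive fun S : Finset ι => symmDiff T S :=
    fun S => symmDiff_symmDiff_cancel_left T S
  refine (Fintype.sum_equiv hinv.toPerm _ _ fun S => ?_).symm
  change _ = (𝔼 τ, cd W (fun τ => G τ * chi T τ) τ * chi (symmDiff T S) τ) ^ 2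
  split_ifs with h
  · rw [expect_cd_mul W _ _ (chi_ex W h)]
    simp only [mul_assoc, chi_mul, symmDiff_symmDiff_cancel_left]
  · obtain ⟨i, hi, hiW⟩ := not_subset.1 h
    have h1 := expect_flip i fun τ => cd W (fun τ => G τ * chi T τ) τ * chi (symmDiff T S) τ
    have h2 : ∀ τ, cd W (fun τ => G τ * chi T τ) (flipAt i τ) =
        cd W (fun τ => G τ * chi T τ) τ := fun τ => cd_congr W _ fun j hj => by
      have : j ≠ i := fun e => hiW (e ▸ hj)
      simp [flipAt, this]
    simp only [h2, chi_flipAt_mem _ i hi, mul_neg, expect_neg_distrib] at h1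
    have : 𝔼 τ, cd W (fun τ => G τ * chi T τ) τ * chi (symmDiff T S) τ = 0 := by linarith
    rw [this]
    simp

lemma cnt (W S : Finset ι) (c : ℝ) (hc : 0 ≤ c) :
    (if symmDiff ∅ S ⊆ W then c else 0) +
      ∑ j : {i // i ∉ W}, (if symmDiff {j.1} S ⊆ W then c else 0) ≤
      if (S \ W).card ≤ 1 then c else 0 := by
  have key : ∀ j : {i // i ∉ W}, symmDiff {j.1} S ⊆ W → S \ W = {j.1} := by
    intro j hj
    ext i
    have h1 := @hj i
    have h2 := j.2
    simp only [mem_symmDiff, mem_singleton, mem_sdiff] at h1 ⊢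
    constructor
    · rintro ⟨a, b⟩
      by_contra e
      exact b (h1 (Or.inr ⟨a, e⟩))
    · rintro rfl
      refine ⟨?_, h2⟩
      by_contra e
      exact h2 (h1 (Or.inl ⟨rfl, e⟩))
  have h0 : symmDiff ∅ S = S := bot_symmDiff S
  rw [h0]
  by_cases h : ∃ j : {i // i ∉ W}, symmDiff {j.1} S ⊆ W
  · obtain ⟨j, hj⟩ := h
    have h1 := key j hj
    have h2 : ¬ S ⊆ W := by
      rw [← sdiff_eq_empty_iff_subset, h1]
      exact singleton_ne_empty _
    rw [if_neg h2, h1, card_singleton, if_pos le_rfl, zero_add, sum_eq_single j, if_pos hj]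
    · intro j' _ hne
      refine if_neg fun hj' => hne (Subtype.ext ?_)
      have := (key j' hj').symm.trans h1
      simpa using this
    · simp
  · rw [sum_eq_zero fun j _ => if_neg fun hj => h ⟨j, hj⟩, add_zero]
    split_ifs with a b
    · exact le_rfl
    · exact absurd (by rw [sdiff_eq_empty_iff_subset.2 a]; simp) b
    · exact hc
    · exact le_rfl

lemma face_ge (e : Bool) (W : Finset ι) (hW : W.card + 3 ≤ Fintype.card ι) (f : Fn ι) :
    ip e (res e f) (res e f) -
      ∑ S : Finset ι, (if (S \ W).card ≤ 1 then ip e (res e f) (chi S) ^ 2 else 0) ≤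
      𝔼 ω, ip (fe e W ω) (res (fe e W ω) fun σ => f (ex W ω σ))
        (res (fe e W ω) fun σ => f (ex W ω σ)) := by
  have hκ : 3 ≤ Fintype.card {i // i ∉ W} := by
    rw [Fintype.card_subtype_compl, Fintype.card_coe]
    omega
  set h := res e f with hh
  set G : Fn ι := fun τ => (1 + sg e * chi univ τ) * h τ with hG
  have e1 : ∀ ω, (res (fe e W ω) fun σ => f (ex W ω σ)) =
      res (fe e W ω) fun σ => h (ex W ω σ) := by
    intro ω
    rw [← res_affine (fe e W ω) hκ (av e f + ∑ i ∈ W, c1 e f i * xx i ω)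
      (fun j => c1 e f j) fun σ => h (ex W ω σ)]
    congr 1
    funext σ
    rw [eq_res e f, lin, sum_split W, lin]
    have : ∑ i ∈ W, c1 e f i * xx i (ex W ω σ) = ∑ i ∈ W, c1 e f i * xx i ω :=
      sum_congr rfl fun i hi => by simp [xx, ex, hi]
    simp only [this, xx_ex, hh]
    ring
  have e2 : ∀ ω, ip (fe e W ω) (res (fe e W ω) fun σ => h (ex W ω σ))
      (res (fe e W ω) fun σ => h (ex W ω σ)) =
      cd W (fun τ => G τ * h τ) ω - cd W (fun τ => G τ * chi ∅ τ) ω ^ 2 -
        ∑ j : {i // i ∉ W}, cd W (fun τ => G τ * chi {j.1} τ) ω ^ 2 := by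
    intro ω
    have h1 := res_sq (fe e W ω) hκ fun σ => h (ex W ω σ)
    have h2 := av_face e W ω fun τ => h τ * h τ
    have h3 := av_face e W ω h
    have h4 : ∀ j : {i // i ∉ W}, c1 (fe e W ω) (fun σ => h (ex W ω σ)) j =
        cd W (fun τ => G τ * chi {j.1} τ) ω := by
      intro j
      have h5 := av_face e W ω fun τ => h τ * xx j.1 τ
      simp only [xx_ex] at h5
      rw [c1, ip, h5, chi_singleton]
      simp only [hG, mul_assoc]
    rw [ip, h2, h3] at h1
    simp only [h4] at h1
    simp only [chi_empty, mul_one, hG, mul_assoc] at h1 ⊢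
    linarith
  have e3 : ∀ S, 𝔼 τ, G τ * chi S τ = ip e h (chi S) := fun S => by
    simp only [hG, ip, av, mul_assoc]
  have e4 : 𝔼 τ, G τ * h τ = ip e h h := by simp only [hG, ip, av, mul_assoc]
  simp only [e1, e2, expect_sub_distrib, expect_sum_comm, sq_cd, expect_cd, e3, e4]
  rw [sub_sub, sum_comm, ← sum_add_distrib]
  exact sub_le_sub_left (sum_le_sum fun S _ => cnt W S _ (sq_nonneg _)) _

lemma three (e : Bool) (w : ℕ) (W : Fin 3 → Finset ι) (hw : ∀ r, (W r).card = w)
    (hd : ∀ r r', r ≠ r' → Disjoint (W r) (W r')) (hι : 2 * w + 3 ≤ Fintype.card ι) {h : Fn ι}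
    (hh : Or1 e h) :
    ∑ r, ∑ S : Finset ι, (if (S \ W r).card ≤ 1 then ip e h (chi S) ^ 2 else 0) ≤
      2 * ip e h h := by
  have hb := bessel e (univ.filter fun S : Finset ι => S.card ≤ w + 1)
    (fun S hS => by have := (mem_filter.1 hS).2; omega) h
  refine le_trans ?_ (mul_le_mul_of_nonneg_left hb zero_le_two)
  rw [sum_comm, sum_filter, mul_sum]
  refine sum_le_sum fun S _ => ?_
  have hc := sq_nonneg (ip e h (chi S))
  by_cases h1 : S.card ≤ 1
  · have : ip e h (chi S) = 0 := by
      rcases Nat.le_one_iff_eq_zero_or_eq_one.1 h1 with h0 | h0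
      · rw [card_eq_zero.1 h0, ← hh.1]
        exact av_congr e fun σ => by rw [chi_empty, mul_one]
      · obtain ⟨i, rfl⟩ := card_eq_one.1 h0
        rw [chi_singleton]
        exact hh.2 i
    simp [this]
  · have a1 : ∀ r, (S \ W r).card + (S ∩ W r).card = S.card := fun r => card_sdiff_add_card_inter _ _
    have a2 : ∀ r, (S ∩ W r).card ≤ w := fun r => (card_le_card inter_subset_right).trans (hw r).le
    have a3 : (S ∩ W 1).card + (S ∩ W 2).card ≤ (S \ W 0).card := by
      rw [← card_union_of_disjoint ((hd 1 2 (by decide)).mono inter_subset_right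
        inter_subset_right)]
      refine card_le_card fun i hi => ?_
      rcases mem_union.1 hi with hi | hi <;> rw [mem_inter] at hi
      · exact mem_sdiff.2 ⟨hi.1, disjoint_right.1 (hd 0 1 (by decide)) hi.2⟩
      · exact mem_sdiff.2 ⟨hi.1, disjoint_right.1 (hd 0 2 (by decide)) hi.2⟩
    have b0 := a1 0
    have b1 := a1 1
    have b2 := a1 2
    have c0 := a2 0
    have c1 := a2 1
    have c2 := a2 2
    rw [Fin.sum_univ_three]
    split_ifs <;> first | omega | linarith

end FCA

open FCA in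
theorem rowFC : RowFC := by
  intro ι ν _ _ _ e F
  refine ⟨fun hι k => ?_, fun w W y hw hd hι hy => ?_⟩
  · have e0 : fe e {k} (fun _ => false) = e := by simp [fe, chi, sg]
    have e1 : fe e {k} (fun _ => true) = !e := by
      have : chi {k} (fun _ => true) ≠ 1 := by
        simp only [chi, prod_singleton, sg_true]
        norm_num
      simp only [fe, this, if_false]
    unfold DD Yv q2
    rw [mul_sum]
    refine sum_congr rfl fun a _ => ?_
    rw [ip_Dv e (by omega), sum_split {k}, sum_singleton, c1_xx_mul_self,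
      (or1_bt e (by omega) F a).1, mul_add, mul_sum]
    simp only [ne_eq, OfNat.ofNat_ne_zero, not_false_eq_true, zero_pow, mul_zero, zero_add]
    refine sum_congr rfl fun j _ => ?_
    have h0 := c1_face e k false (F a) j
    have h1 := c1_face e k true (F a) j
    rw [e0, sg_false] at h0
    rw [e1, sg_true] at h1
    have hkj : k ≠ j.1 := fun h => j.2 (by simp [← h])
    have h2 : c1 e (fun σ => xx k σ * bt e F a σ) j = c1 e (fun σ => xx k σ * F a σ) j := by
      rw [c1_xx_mul e _ hkj, c1_xx_mul e _ hkj, ip_comm, ip_comm e (F a)]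
      exact ip_res e (or1_of_Sp (p := fun S => S.card = 2) e (fun S hS => by omega)
        (chi_mem_Sp (card_pair hkj))) _
    have h3 : c1 e (fc {k} (fun _ => false) F a) j - c1 (!e) (fc {k} (fun _ => true) F a) j =
        2 * c1 e (fun σ => xx k σ * F a σ) j := by
      have h0' : c1 e (fc {k} (fun _ => false) F a) j = _ := h0
      have h1' : c1 (!e) (fc {k} (fun _ => true) F a) j = _ := h1
      rw [h0', h1']
      ring
    rw [h3, h2]
    ring
  · have h1 : ∀ r, ∑ a, (ip e (bt e F a) (bt e F a) - ∑ S : Finset ι,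
        (if (S \ W r).card ≤ 1 then ip e (bt e F a) (chi S) ^ 2 else 0)) ≤ y := by
      intro r
      refine (sum_le_sum fun a _ => face_ge e (W r) (by rw [hw]; omega) (F a)).trans ?_
      rw [← expect_sum_comm]
      exact expect_le univ_nonempty fun ω _ => hy r ω (fe e (W r) ω)
    have h2 := sum_le_sum fun r (_ : r ∈ univ) => h1 r
    have h3 := sum_le_sum fun a (_ : a ∈ univ) =>
      three e w W hw hd hι (or1_bt e (by omega) F a)
    simp only [sum_sub_distrib, sum_const, card_univ, Fintype.card_fin, nsmul_eq_mul] at h2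
    rw [← mul_sum, sum_comm] at h3
    unfold eta q2
    push_cast at h2
    linarith

end Pool.Agent.MP_66cee2_co.SL
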