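import Pool.Agent.MP_66cee2_co.SL.Spec
import Pool.Agent.MP_66cee2_co.SL.KitB

/-! Faces of a product of two cubes. -/

namespace Pool.Agent.MP_66cee2_co.SL

open Finset Pool.Agent.MP_9e8696_an.H67
open scoped BigOperators

namespace FSA

variable {ι κ ν : Type} [Fintype ι] [DecidableEq ι] [Fintype κ] [DecidableEq κ] [Fintype ν]

omit [DecidableEq ι] [DecidableEq κ] in
theorem chi_elim (σ : ι → Bool) (ω : κ → Bool) :
    chi univ (Sum.elim σ ω) = chi univ σ * chi univ ω := by
  simp [chi, Fintype.prod_sum_type]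

omit [DecidableEq κ] in
theorem chi_not (h : Even (Fintype.card κ)) (ω : κ → Bool) :
    chi univ (fun v => !ω v) = chi univ ω := by
  have : ∀ b : Bool, sg (!b) = -1 * sg b := fun b => by cases b <;> simp [sg]
  simp only [chi, this, prod_mul_distrib, prod_const, card_univ, h.neg_one_pow, one_mul]

/-- the mean over a face -/
noncomputable def rr (e : Bool) (G : Fn (ι ⊕ κ)) (ω : κ → Bool) : ℝ :=
  𝔼 σ : ι → Bool, (1 + sg e * chi univ (Sum.elim σ ω)) * G (Sum.elim σ ω)

theorem expect_rr (e : Bool) (G : Fn (ι ⊕ κ)) : 𝔼 ω, rr e G ω = av e G := by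
  unfold rr av
  rw [expect_comm, ← expect_product', univ_product_univ]
  exact (expect_equiv (Equiv.sumArrowEquivProdArrow ι κ Bool) (by simp) fun τ _ => by
    simp [Equiv.sumArrowEquivProdArrow]).symm

omit [DecidableEq κ] in
theorem av_face {e e' : Bool} {ω : κ → Bool} (h : sg e' = sg e * chi univ ω) (G : Fn (ι ⊕ κ)) :
    (av e' fun σ => G (Sum.elim σ ω)) = rr e G ω := by
  unfold rr av
  refine expect_congr rfl fun σ _ => ?_
  rw [h, chi_elim]
  ring

theorem rr_nonneg (e : Bool) {G : Fn (ι ⊕ κ)} (hG : ∀ τ, 0 ≤ G τ) (ω : κ → Bool) :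
    0 ≤ rr e G ω := expect_nonneg fun _ _ => mul_nonneg (wt_nonneg e _) (hG _)

theorem fs_eq (e : Bool) (F : ν → Fn (ι ⊕ κ)) (ω : κ → Bool) (a : ν) :
    fs ω F a = fun σ => (av e (F a) + ∑ v, c1 e (F a) (Sum.inr v) * sg (ω v)) +
      lin (fun j => c1 e (F a) (Sum.inl j)) σ + fs ω (bt e F) a σ := by
  funext σ
  simp only [fs, bt, res, lin, xx, Fintype.sum_sum_type, Sum.elim_inl, Sum.elim_inr]
  ring

theorem q2_fs {e e' : Bool} {ω : κ → Bool} (h : sg e' = sg e * chi univ ω) (β : ν → Fn (ι ⊕ κ)) :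
    q2 e' (fs ω β) = rr e (dot β β) ω := by
  rw [← av_dot_self, ← av_face h]
  rfl

end FSA

open FSA in
theorem rowFS : RowFS := by
  intro ι κ ν _ _ _ _ _ hι e F
  set r := rr e (dot (bt e F) (bt e F)) with hr
  have r0 : ∀ ω, 0 ≤ r ω := rr_nonneg e (dot_self_nonneg _)
  have r1 : 𝔼 ω, r ω = eta e F := by rw [hr, expect_rr, av_dot_self, eta]
  refine ⟨fun ω e' h => ?_, fun hev hpos => ?_⟩
  · have a1 : eta e' (fs ω F) ≤ r ω := by
      rw [hr, ← q2_fs h]
      refine sum_le_sum fun a _ => ?_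
      have := ip_res_le e' hι (fs ω (bt e F) a)
      rwa [← res_affine e' hι, ← fs_eq] at this
    have a2 : r ω ≤ ∑ ω, r ω := single_le_sum (fun ω _ => r0 ω) (mem_univ ω)
    rw [← card_mul_expect, r1] at a2
    simpa using a1.trans a2
  · obtain ⟨ω, hω, hm⟩ := exists_min_image (univ.filter fun ω : κ → Bool => chi univ ω = 1)
      (fun ω => r ω + r fun v => !ω v) ⟨fun _ => false, by simp [chi, sg]⟩
    have h1 : chi univ ω = 1 := (mem_filter.1 hω).2
    have b1 : (r ω + r fun v => !ω v) ≤ av false fun ω => r ω + r fun v => !ω v := by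
      rw [← av_const false hpos (r ω + r fun v => !ω v)]
      refine av_mono' false fun τ hτ => hm τ (mem_filter.2 ⟨mem_univ _, ?_⟩)
      refine (chi_cases univ τ).resolve_right fun e => hτ ?_
      rw [e, sg_false]
      ring
    have b2 := av_le_two false (h := fun ω : κ → Bool => r ω + r fun v => !ω v)
      fun τ => add_nonneg (r0 _) (r0 _)
    have b3 : 𝔼 ω : κ → Bool, r (fun v => !ω v) = eta e F := by
      rw [← r1]
      exact expect_equiv (Function.Involutive.toPerm (fun (ω : κ → Bool) v => !ω v)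
        fun ω => by funext v; simp) (by simp) fun _ _ => rfl
    rw [expect_add_distrib, r1, b3] at b2
    have c1' : ∀ τ : κ → Bool, chi univ τ = 1 →
        ∑ a, ∑ i, c1 e (fs τ (bt e F) a) i ^ 2 ≤ r τ := fun τ hτ => by
      rw [hr, ← q2_fs (e' := e) (by rw [hτ, mul_one])]
      exact sum_le_sum fun a _ => sum_c1_le e hι _
    have d1 := c1' ω h1
    have d2 := c1' _ ((chi_not hev ω).trans h1)
    refine ⟨ω, le_trans (b := 2 * ∑ a, ∑ i, c1 e (fs ω (bt e F) a) i ^ 2 +
      2 * ∑ a, ∑ i, c1 e (fs (fun v => !ω v) (bt e F) a) i ^ 2) ?_ (by linarith)⟩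
    simp only [DD, mul_sum, ← sum_add_distrib]
    refine sum_le_sum fun a _ => sum_le_sum fun i _ => ?_
    rw [fs_eq e F ω a, fs_eq e F (fun v => !ω v) a, c1_affine e hι, c1_affine e hι]
    nlinarith [sq_nonneg (c1 e (fs ω (bt e F) a) i + c1 e (fs (fun v => !ω v) (bt e F) a) i)]

end Pool.Agent.MP_66cee2_co.SL
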