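import Pool.Agent.MP_66cee2_co.SL.KitB
import Pool.Agent.MP_66cee2_co.SL.BENZ

/-! Cubes in Euclidean space (row GEO, helper79). -/

namespace Pool.Agent.MP_66cee2_co.SL

open Finset Pool.Agent.MP_9e8696_an.H67
open scoped BigOperators

namespace GEOA

lemma twoT (s : ℕ) : (2 : ℝ) * t0 s = (s : ℝ) ^ 2 - s := by
  have h1 : s ≤ s ^ 2 := Nat.le_self_pow (by norm_num) s
  have h2 : 2 ∣ s ^ 2 - s := by
    have h := Nat.even_mul_pred_self s
    have h3 : s ^ 2 - s = s * (s - 1) := by rw [Nat.mul_sub_one, sq]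
    rw [h3]
    exact h.two_dvd
  have h3 : 2 * t0 s = s ^ 2 - s := Nat.mul_div_cancel' h2
  have h4 : ((2 * t0 s : ℕ) : ℝ) = ((s ^ 2 - s : ℕ) : ℝ) := by rw [h3]
  rw [Nat.cast_sub h1] at h4
  push_cast at h4
  exact h4

lemma tPos {s : ℕ} (hs : 2 ≤ s) : (0 : ℝ) < t0 s := by
  have h := twoT s
  have h2 : (2 : ℝ) ≤ s := by exact_mod_cast hs
  nlinarith

lemma dlSq {s : ℕ} (hs : 2 ≤ s) : 4 * dl s ^ 2 * t0 s = 1 := by
  have h := tPos hs
  rw [dl, Real.sq_sqrt (by positivity)]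
  field_simp

lemma norm_sq_sum {E : Type} [NormedAddCommGroup E] [InnerProductSpace ℝ E] {ι : Type}
    [Fintype ι] {U : ι → E} (hU : Orthonormal ℝ U) (a : ι → ℝ) :
    ‖∑ i, a i • U i‖ ^ 2 = ∑ i, a i ^ 2 := by
  rw [← real_inner_self_eq_norm_sq, hU.inner_sum a a univ]
  simp [sq]

lemma sum_sq_eq {n : ℕ} (x y : Eu n) : ∑ a, (x a - y a) ^ 2 = ‖x - y‖ ^ 2 := by
  rw [EuclideanSpace.real_norm_sq_eq]
  simp

lemma flip_sq {ι : Type} [Fintype ι] [DecidableEq ι] (R : Finset ι) (σ : ι → Bool) :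
    ∑ i, (sg (σ i) - sg (fl R σ i)) ^ 2 = 4 * (R.card : ℝ) := by
  have h : ∀ i, (sg (σ i) - sg (fl R σ i)) ^ 2 = if i ∈ R then 4 else 0 := by
    intro i
    by_cases hi : i ∈ R
    · simp only [fl, hi, if_true]
      cases σ i <;> norm_num [sg]
    · simp [fl, hi]
  simp only [h, sum_ite_mem, univ_inter, sum_const, nsmul_eq_mul]
  ring

lemma diff {E : Type} [NormedAddCommGroup E] [InnerProductSpace ℝ E] {ι : Type} [Fintype ι]
    (U : ι → E) (c c' : E) (l : ℝ) (a b : ι → ℝ) :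
    (c + l • ∑ i, a i • U i) - (c' + l • ∑ i, b i • U i) =
      ∑ i, (l * (a i - b i)) • U i - (c' - c) := by
  simp only [mul_sub, sub_smul, mul_smul, sum_sub_distrib, ← smul_sum]
  abel

lemma dist_sq {E : Type} [NormedAddCommGroup E] [InnerProductSpace ℝ E] {ι : Type} [Fintype ι]
    {U : ι → E} (hU : Orthonormal ℝ U) (c c' : E) (hc : ∀ i, inner ℝ (c' - c) (U i) = 0)
    (l : ℝ) (a b : ι → ℝ) :
    ‖(c + l • ∑ i, a i • U i) - (c' + l • ∑ i, b i • U i)‖ ^ 2 =
      l ^ 2 * ∑ i, (a i - b i) ^ 2 + ‖c' - c‖ ^ 2 := by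
  have h0 : inner ℝ (∑ i, (l * (a i - b i)) • U i) (c' - c) = 0 := by
    rw [real_inner_comm, inner_sum]
    simp [inner_smul_right, hc]
  rw [diff, norm_sub_sq_real, h0, norm_sq_sum hU, mul_sum]
  simp only [mul_pow]
  ring

lemma ext_aux {E : Type} [NormedAddCommGroup E] [InnerProductSpace ℝ E] [FiniteDimensional ℝ E]
    (w : ℕ) {ι : Type} [Fintype ι] {U : ι → E} (hU : Orthonormal ℝ U)
    (h : Fintype.card ι + w ≤ Module.finrank ℝ E) :
    ∃ U' : Fin w → E, Orthonormal ℝ (Sum.elim U U') := by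
  classical
  set K : Submodule ℝ E := Submodule.span ℝ (Set.range U) with hK
  have h1 := Submodule.finrank_add_finrank_orthogonal K
  have h2 : Module.finrank ℝ K = Fintype.card ι := finrank_span_eq_card hU.linearIndependent
  have h3 : w ≤ Module.finrank ℝ Kᗮ := by omega
  have hB := (stdOrthonormalBasis ℝ Kᗮ).orthonormal
  have hm : ∀ i, U i ∈ K := fun i => Submodule.subset_span ⟨i, rfl⟩
  have hB' : Orthonormal ℝ fun j : Fin w => stdOrthonormalBasis ℝ Kᗮ (Fin.castLE h3 j) :=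
    hB.comp _ (Fin.castLE_injective h3)
  refine ⟨fun j => (stdOrthonormalBasis ℝ Kᗮ (Fin.castLE h3 j) : E), ?_, ?_⟩
  · rintro (i | j)
    · exact hU.1 i
    · exact hB'.1 j
  · rintro (i | j) (i' | j') hne
    · exact hU.2 fun e => hne (by rw [e])
    · exact Submodule.inner_right_of_mem_orthogonal (hm i) (Subtype.property _)
    · exact Submodule.inner_left_of_mem_orthogonal (hm i') (Subtype.property _)
    · exact hB'.2 fun e => hne (by rw [e])

lemma two_le {d n : ℕ} {f : Eu d → Eu n} (hd : 2 ≤ d) (hf : Pres f) (x y : Eu d)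
    (h : ‖x - y‖ ≤ 2) : ‖f x - f y‖ ≤ 2 := by
  obtain ⟨z, h1, h2⟩ := BENZA.apex (E := Eu d) (by simpa using hd) x y 1 (by linarith)
  have h3 := hf _ _ h1
  have h4 := hf _ _ h2
  have h5 : f x - f y = (f z - f y) - (f z - f x) := by abel
  rw [h5]
  exact (norm_sub_le _ _).trans (by linarith)

end GEOA

open GEOA

theorem rowGEO : RowGEO where
  edge := by
    intro d n s h f ι _ _ c c' U hs hf hU hc hn hh σ R hR
    simp only [cub]
    rw [sum_sq_eq, hf, one_pow]
    rw [← sq_eq_sq₀ (norm_nonneg _) zero_le_one, dist_sq hU c c' hc, flip_sq, hn, hR,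
      Nat.cast_sub hh]
    have := dlSq hs
    linarith
  ext := by
    intro d w ι _ U hU h
    exact ext_aux w hU (by simpa using h)
  bd := by
    intro d n s f hs hd hf ι _ _ c U e hι hU
    have h4 : 2 ^ 2 ≤ s ^ 2 := Nat.pow_le_pow_left hs 2
    refine (eta_le_const e (by omega) _ fun a => cub f s c U a fun _ => false).trans ?_
    refine (av_mono e (h := fun _ => 4) fun σ => ?_).trans (av_const e (by omega) 4).le
    simp only [cub]
    rw [sum_sq_eq]
    have h1 := dist_sq hU c c (by simp) (dl s) (fun i => sg (σ i)) fun _ => sg false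
    have h2 : ∑ i, (sg (σ i) - sg false) ^ 2 ≤ 4 * (s : ℝ) ^ 2 := by
      have h3 : ∀ i ∈ (univ : Finset ι), (sg (σ i) - sg false) ^ 2 ≤ 4 := by
        intro i _
        cases σ i <;> norm_num [sg]
      refine (sum_le_card_nsmul _ _ _ h3).trans ?_
      rw [card_univ, hι, nsmul_eq_mul]
      push_cast
      linarith
    have h5 := dlSq hs
    have h6 := twoT s
    have h7 : (2 : ℝ) ≤ s := by exact_mod_cast hs
    have h8 : (s : ℝ) ^ 2 ≤ 4 * t0 s := by nlinarith
    have h9 : dl s ^ 2 * (4 * (s : ℝ) ^ 2) ≤ 4 := by nlinarith [sq_nonneg (dl s)]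
    have h10 := mul_le_mul_of_nonneg_left h2 (sq_nonneg (dl s))
    simp only [sub_self, norm_zero] at h1
    have h11 := two_le hd hf _ _ (abs_le_of_sq_le_sq' (b := 2) (by rw [h1]; linarith)
      (by norm_num)).2
    have h12 := pow_le_pow_left₀ (norm_nonneg _) h11 2
    linarith
  fc := by
    intro d n s f ι _ _ c U W ω
    funext a σ
    have h : ∑ i, sg (if h : i ∈ W then ω i else σ ⟨i, h⟩) • U i =
        ∑ i ∈ W, sg (ω i) • U i + ∑ i : {i // i ∉ W}, sg (σ i) • U i.1 := by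
      rw [← Fintype.sum_subtype_add_sum_subtype (fun i => i ∈ W), ← sum_coe_sort W]
      refine congrArg₂ (· + ·) ?_ ?_
      · exact sum_congr (by ext; simp) fun i _ => by rw [dif_pos i.2]
      · exact sum_congr rfl fun i _ => by rw [dif_neg i.2]
    simp only [fc, cub]
    rw [h, smul_add, add_assoc]
  fs := by
    intro d n s f ι κ _ _ _ _ c U U' ω
    funext a σ
    simp only [fs, cub, Fintype.sum_sum_type, Sum.elim_inl, Sum.elim_inr]
    rw [add_assoc, ← smul_add, add_comm (∑ v, sg (ω v) • U' v)]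

end Pool.Agent.MP_66cee2_co.SL
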