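import Pool.Agent.MP_66cee2_co.SL.Spec

/-! The choice of the parameter. -/

namespace Pool.Agent.MP_66cee2_co.SL

namespace GoalA

theorem pick (K d : ℕ) (hd : (K + 300) ^ 2 ≤ d) :
    ∃ s : ℕ, 128 ∣ s ∧ K + 1 ≤ s ∧ s ^ 2 + s ≤ d ∧ d ≤ 4 * s ^ 2 := by
  have h1 := Nat.le_sqrt'.2 hd
  have h2 := Nat.sqrt_le' d
  have h3 := Nat.lt_succ_sqrt' d
  obtain ⟨s, a, b, c⟩ : ∃ s : ℕ, 128 ∣ s ∧ s + 1 ≤ d.sqrt ∧ d.sqrt ≤ s + 128 :=
    ⟨128 * ((d.sqrt - 1) / 128), dvd_mul_right _ _, by omega, by omega⟩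
  refine ⟨s, a, by omega, le_trans ?_ h2, h3.le.trans ?_⟩
  · nlinarith
  · exact (Nat.pow_le_pow_left (show d.sqrt.succ ≤ 2 * s by omega) 2).trans_eq (by ring)

theorem pow_le {d s r : ℝ} (hd : 0 ≤ d) (hr : 0 < r) (e : r ^ 5 = s) (h : d ≤ 4 * s ^ 2) :
    d ^ (11 / 10 : ℝ) ≤ 8 * r ^ 11 := by
  refine le_of_pow_le_pow_left₀ (n := 10) (by norm_num) (by positivity) ?_
  rw [← Real.rpow_natCast, ← Real.rpow_mul hd, show (11 / 10 : ℝ) * (10 : ℕ) = (11 : ℕ) by norm_num,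
    Real.rpow_natCast]
  refine (pow_le_pow_left₀ hd h 11).trans ?_
  rw [← e, mul_pow, mul_pow, ← pow_mul, ← pow_mul, ← pow_mul]
  exact mul_le_mul_of_nonneg_right (by norm_num) (by positivity)

end GoalA

theorem rowGoal : OfGoal := by
  rintro ⟨C, c, -, hc, hZ⟩ ⟨C', -, hE⟩
  refine ⟨c / 8, by positivity, (⌈max C C'⌉₊ + 300) ^ 2, fun d n hd hn f hf => ?_⟩
  obtain ⟨s, h1, h2, h3, h4⟩ := GoalA.pick _ d hd
  have h5 : max C C' ≤ s := (Nat.le_ceil _).trans (by exact_mod_cast (by omega))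
  have s0 : (0 : ℝ) < s := by exact_mod_cast (by omega : 0 < s)
  have r0 := Real.rpow_pos_of_pos s0 ((5 : ℕ) : ℝ)⁻¹
  have e := Real.rpow_inv_natCast_pow (n := 5) s0.le (by norm_num)
  refine hE d n s f ⟨h1, (le_max_right _ _).trans h5⟩ (by omega) hf
    (hZ d n s f _ ⟨h1, (le_max_left _ _).trans h5⟩ h3 hf r0 e (hn.trans ?_))
  have := GoalA.pow_le (d := d) (Nat.cast_nonneg _) r0 e (by exact_mod_cast h4)
  nlinarith

end Pool.Agent.MP_66cee2_co.SL
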