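import Pool.Agent.MP_66cee2_co.SL.Spec

/-! Means, inner products and moments on half cubes. -/

set_option linter.unusedSectionVars false

namespace Pool.Agent.MP_66cee2_co.SL

open Finset Pool.Agent.MP_9e8696_an.H67
open scoped BigOperators

theorem Big.mono {C C' : ℝ} {s : ℕ} (h : Big C' s) (hC : C ≤ C') : Big C s :=
  ⟨h.dvd, hC.trans h.ge⟩

theorem Big.ge128 {C : ℝ} {s : ℕ} (h : Big C s) (hC : 1 ≤ C) : 128 ≤ s := by
  have h1 : (1 : ℝ) ≤ s := hC.trans h.ge
  have h2 : 1 ≤ s := by exact_mod_cast h1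
  exact Nat.le_of_dvd h2 h.dvd

variable {ι : Type} [Fintype ι] [DecidableEq ι] {ν ν' : Type} [Fintype ν] [Fintype ν']

theorem sg_cases (b : Bool) : sg b = 1 ∨ sg b = -1 := by cases b <;> simp [sg]

theorem sg_false : sg false = 1 := by simp [sg]

theorem sg_true : sg true = -1 := by simp [sg]

theorem chi_sq (S : Finset ι) (σ : ι → Bool) : chi S σ * chi S σ = 1 := by
  unfold chi
  rw [← prod_mul_distrib]
  simp [sg_sq]

theorem chi_cases (S : Finset ι) (σ : ι → Bool) : chi S σ = 1 ∨ chi S σ = -1 :=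
  mul_self_eq_one_iff.1 (chi_sq S σ)

theorem wt_cases (e : Bool) (σ : ι → Bool) :
    1 + sg e * chi univ σ = 0 ∨ 1 + sg e * chi univ σ = 2 := by
  rcases sg_cases e with h | h <;> rcases chi_cases univ σ with h' | h' <;> rw [h, h'] <;> norm_num

theorem wt_nonneg (e : Bool) (σ : ι → Bool) : 0 ≤ 1 + sg e * chi univ σ := by
  rcases wt_cases e σ with h | h <;> linarith

theorem wt_le (e : Bool) (σ : ι → Bool) : 1 + sg e * chi univ σ ≤ 2 := by
  rcases wt_cases e σ with h | h <;> linarith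

theorem xx_sq (i : ι) (σ : ι → Bool) : xx i σ * xx i σ = 1 := sg_sq _

theorem xx_sq' (i : ι) (σ : ι → Bool) : xx i σ ^ 2 = 1 := by rw [sq, xx_sq]

/-! ### The mean -/

theorem av_add (e : Bool) (g h : Fn ι) : (av e fun σ => g σ + h σ) = av e g + av e h := by
  simp only [av, mul_add, expect_add_distrib]

theorem av_sub (e : Bool) (g h : Fn ι) : (av e fun σ => g σ - h σ) = av e g - av e h := by
  simp only [av, mul_sub, expect_sub_distrib]

theorem av_neg (e : Bool) (h : Fn ι) : (av e fun σ => -h σ) = -av e h := by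
  simp only [av, mul_neg, expect_neg_distrib]

theorem av_mul_left (e : Bool) (c : ℝ) (h : Fn ι) : (av e fun σ => c * h σ) = c * av e h := by
  simp only [av, mul_expect]
  exact expect_congr rfl fun σ _ => by ring

theorem av_mul_right (e : Bool) (c : ℝ) (h : Fn ι) : (av e fun σ => h σ * c) = av e h * c := by
  rw [mul_comm, ← av_mul_left]
  simp only [mul_comm]

theorem av_div (e : Bool) (c : ℝ) (h : Fn ι) : (av e fun σ => h σ / c) = av e h / c := by
  simp only [div_eq_mul_inv, av_mul_right]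

theorem av_sum {κ : Type} (e : Bool) (s : Finset κ) (h : κ → Fn ι) :
    (av e fun σ => ∑ k ∈ s, h k σ) = ∑ k ∈ s, av e (h k) := by
  simp only [av, mul_sum, expect_sum_comm]

theorem av_zero (e : Bool) : (av e fun _ : ι → Bool => (0 : ℝ)) = 0 := by simp [av]

theorem av_mono' (e : Bool) {g h : Fn ι} (H : ∀ σ, 1 + sg e * chi univ σ ≠ 0 → g σ ≤ h σ) :
    av e g ≤ av e h := by
  refine expect_le_expect fun σ _ => ?_
  by_cases h0 : 1 + sg e * chi univ σ = 0
  · rw [h0, zero_mul, zero_mul]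
  · exact mul_le_mul_of_nonneg_left (H σ h0) (wt_nonneg e σ)

theorem av_mono (e : Bool) {g h : Fn ι} (H : ∀ σ, g σ ≤ h σ) : av e g ≤ av e h :=
  av_mono' e fun σ _ => H σ

theorem av_congr' (e : Bool) {g h : Fn ι} (H : ∀ σ, 1 + sg e * chi univ σ ≠ 0 → g σ = h σ) :
    av e g = av e h :=
  le_antisymm (av_mono' e fun σ hσ => (H σ hσ).le) (av_mono' e fun σ hσ => (H σ hσ).ge)

theorem av_congr (e : Bool) {g h : Fn ι} (H : ∀ σ, g σ = h σ) : av e g = av e h :=
  av_congr' e fun σ _ => H σ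

theorem av_nonneg (e : Bool) {h : Fn ι} (H : ∀ σ, 0 ≤ h σ) : 0 ≤ av e h := by
  rw [← av_zero (ι := ι) e]
  exact av_mono e H

theorem av_le_two (e : Bool) {h : Fn ι} (H : ∀ σ, 0 ≤ h σ) : av e h ≤ 2 * 𝔼 σ, h σ := by
  rw [mul_expect]
  exact expect_le_expect fun σ _ => mul_le_mul_of_nonneg_right (wt_le e σ) (H σ)

theorem av_const (e : Bool) (hι : 0 < Fintype.card ι) (c : ℝ) :
    (av e fun _ : ι → Bool => c) = c := by
  have h1 : (univ : Finset ι) ≠ ∅ := by
    rw [← nonempty_iff_ne_empty, ← card_pos]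
    exact hι
  have h2 := expect_chi (univ : Finset ι)
  rw [if_neg h1] at h2
  simp only [av, add_mul, one_mul, expect_add_distrib, mul_assoc, ← mul_expect, ← expect_mul, h2]
  simp

theorem abs_av_le (e : Bool) (h : Fn ι) : |av e h| ≤ av e fun σ => |h σ| := by
  rw [abs_le]
  constructor
  · rw [← av_neg]
    exact av_mono e fun σ => neg_abs_le _
  · exact av_mono e fun σ => le_abs_self _

/-- a single point of the half cube is bounded by the mean -/
theorem le_av (e : Bool) {h : Fn ι} (H : ∀ σ, 0 ≤ h σ) (σ : ι → Bool)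
    (hσ : 1 + sg e * chi univ σ ≠ 0) : h σ ≤ 2 ^ Fintype.card ι * av e h := by
  have h2 : 1 + sg e * chi univ σ = 2 := (wt_cases e σ).resolve_left hσ
  have hc : (0 : ℝ) < Fintype.card (ι → Bool) := by exact_mod_cast Fintype.card_pos
  have hc' : (Fintype.card (ι → Bool) : ℝ) = 2 ^ Fintype.card ι := by simp
  rw [av, Fintype.expect_eq_sum_div_card, hc', mul_div_cancel₀ _ (by positivity)]
  have := single_le_sum (f := fun σ => (1 + sg e * chi univ σ) * h σ)
    (fun τ _ => mul_nonneg (wt_nonneg e τ) (H τ)) (mem_univ σ)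
  simp only [h2] at this
  linarith [H σ]

/-! ### The inner product -/

theorem ip_comm (e : Bool) (g h : Fn ι) : ip e g h = ip e h g := by simp only [ip, mul_comm]

theorem ip_add_left (e : Bool) (g g' h : Fn ι) :
    ip e (fun σ => g σ + g' σ) h = ip e g h + ip e g' h := by
  simp only [ip, add_mul, av_add]

theorem ip_add_right (e : Bool) (g h h' : Fn ι) :
    ip e g (fun σ => h σ + h' σ) = ip e g h + ip e g h' := by
  simp only [ip, mul_add, av_add]

theorem ip_sub_left (e : Bool) (g g' h : Fn ι) :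
    ip e (fun σ => g σ - g' σ) h = ip e g h - ip e g' h := by
  simp only [ip, sub_mul, av_sub]

theorem ip_sub_right (e : Bool) (g h h' : Fn ι) :
    ip e g (fun σ => h σ - h' σ) = ip e g h - ip e g h' := by
  simp only [ip, mul_sub, av_sub]

theorem ip_mul_left (e : Bool) (c : ℝ) (g h : Fn ι) :
    ip e (fun σ => c * g σ) h = c * ip e g h := by
  simp only [ip, mul_assoc, av_mul_left]

theorem ip_mul_right (e : Bool) (c : ℝ) (g h : Fn ι) :
    ip e g (fun σ => c * h σ) = c * ip e g h := by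
  rw [ip_comm, ip_mul_left, ip_comm]

theorem ip_div_left (e : Bool) (c : ℝ) (g h : Fn ι) :
    ip e (fun σ => g σ / c) h = ip e g h / c := by
  simp only [ip, div_mul_eq_mul_div, av_div]

theorem ip_div_right (e : Bool) (c : ℝ) (g h : Fn ι) :
    ip e g (fun σ => h σ / c) = ip e g h / c := by
  rw [ip_comm, ip_div_left, ip_comm]

theorem ip_sum_left {κ : Type} (e : Bool) (s : Finset κ) (g : κ → Fn ι) (h : Fn ι) :
    ip e (fun σ => ∑ k ∈ s, g k σ) h = ∑ k ∈ s, ip e (g k) h := by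
  simp only [ip, sum_mul, av_sum]

theorem ip_sum_right {κ : Type} (e : Bool) (s : Finset κ) (g : Fn ι) (h : κ → Fn ι) :
    ip e g (fun σ => ∑ k ∈ s, h k σ) = ∑ k ∈ s, ip e g (h k) := by
  simp only [ip, mul_sum, av_sum]

theorem ip_const_left (e : Bool) (c : ℝ) (h : Fn ι) : ip e (fun _ => c) h = c * av e h := by
  simp only [ip, av_mul_left]

theorem ip_const_right (e : Bool) (c : ℝ) (h : Fn ι) : ip e h (fun _ => c) = c * av e h := by
  rw [ip_comm, ip_const_left]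

theorem ip_congr (e : Bool) {g g' h h' : Fn ι} (H : ∀ σ, g σ * h σ = g' σ * h' σ) :
    ip e g h = ip e g' h' := av_congr e H

theorem ip_self_nonneg (e : Bool) (h : Fn ι) : 0 ≤ ip e h h :=
  av_nonneg e fun _ => mul_self_nonneg _

theorem eq_zero_of_ip (e : Bool) {h : Fn ι} (H : ip e h h ≤ 0) (σ : ι → Bool)
    (hσ : 1 + sg e * chi univ σ ≠ 0) : h σ = 0 := by
  have h1 := le_av e (h := fun σ => h σ * h σ) (fun _ => mul_self_nonneg _) σ hσ
  have h2 : (2 : ℝ) ^ Fintype.card ι * ip e h h ≤ 0 :=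
    mul_nonpos_of_nonneg_of_nonpos (by positivity) H
  exact mul_self_eq_zero.1 (le_antisymm (h1.trans h2) (mul_self_nonneg _))

theorem ip_sq_le (e : Bool) (g h : Fn ι) : ip e g h ^ 2 ≤ ip e g g * ip e h h := by
  have key : ∀ x : ℝ, 0 ≤ ip e g g * (x * x) + 2 * ip e g h * x + ip e h h := by
    intro x
    have h1 := ip_self_nonneg e fun σ => x * g σ + h σ
    simp only [ip_add_left, ip_add_right, ip_mul_left, ip_mul_right] at h1
    rw [ip_comm e h g] at h1
    nlinarith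
  have := discrim_le_zero key
  rw [discrim] at this
  nlinarith

theorem nr_nonneg (e : Bool) (h : Fn ι) : 0 ≤ nr e h := Real.sqrt_nonneg _

theorem nr_sq (e : Bool) (h : Fn ι) : nr e h ^ 2 = ip e h h := Real.sq_sqrt (ip_self_nonneg e h)

theorem abs_ip_le (e : Bool) (g h : Fn ι) : |ip e g h| ≤ nr e g * nr e h := by
  refine abs_le_of_sq_le_sq' ?_ (mul_nonneg (nr_nonneg e g) (nr_nonneg e h)) |> abs_le.2
  rw [mul_pow, nr_sq, nr_sq]
  exact ip_sq_le e g h

theorem ip_le (e : Bool) (g h : Fn ι) : ip e g h ≤ nr e g * nr e h :=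
  (le_abs_self _).trans (abs_ip_le e g h)

theorem nr_le (e : Bool) {h : Fn ι} {x : ℝ} (hx : 0 ≤ x) (H : ip e h h ≤ x ^ 2) : nr e h ≤ x :=
  Real.sqrt_le_iff.2 ⟨hx, H⟩

theorem nr_add_le (e : Bool) (g h : Fn ι) : (nr e fun σ => g σ + h σ) ≤ nr e g + nr e h := by
  refine nr_le e (add_nonneg (nr_nonneg e g) (nr_nonneg e h)) ?_
  simp only [ip_add_left, ip_add_right]
  have h1 := ip_le e g h
  rw [ip_comm e h g, add_sq, nr_sq, nr_sq]
  linarith

theorem nr_mul (e : Bool) (c : ℝ) (h : Fn ι) : (nr e fun σ => c * h σ) = |c| * nr e h := by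
  simp only [nr, ip_mul_left, ip_mul_right, ← mul_assoc]
  rw [Real.sqrt_mul (mul_self_nonneg c), Real.sqrt_mul_self_eq_abs]

theorem nr_neg (e : Bool) (h : Fn ι) : (nr e fun σ => -h σ) = nr e h := by
  simp only [nr, ip, neg_mul_neg]

theorem nr_sub_le (e : Bool) (g h : Fn ι) : (nr e fun σ => g σ - h σ) ≤ nr e g + nr e h := by
  have := nr_add_le e g fun σ => -h σ
  rw [nr_neg] at this
  simpa only [sub_eq_add_neg] using this

theorem nr_div (e : Bool) (c : ℝ) (h : Fn ι) : (nr e fun σ => h σ / c) = nr e h / |c| := by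
  have := nr_mul e c⁻¹ h
  rw [abs_inv] at this
  simpa only [div_eq_inv_mul] using this

theorem nr_mono (e : Bool) {g h : Fn ι} (H : ∀ σ, |g σ| ≤ |h σ|) : nr e g ≤ nr e h :=
  Real.sqrt_le_sqrt (av_mono e fun σ => by
    have := sq_le_sq.2 (H σ)
    nlinarith)

theorem av_sq_le (e : Bool) (hι : 0 < Fintype.card ι) (h : Fn ι) : av e h ^ 2 ≤ ip e h h := by
  have := ip_sq_le e (fun _ => 1) h
  rwa [ip_const_left, ip_const_left, av_const e hι, one_mul, one_mul, one_mul] at this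

theorem abs_av_le_nr (e : Bool) (hι : 0 < Fintype.card ι) (h : Fn ι) : |av e h| ≤ nr e h :=
  Real.abs_le_sqrt (av_sq_le e hι h)

/-- the variance is at most the second moment -/
theorem nr_sub_av_le (e : Bool) (hι : 0 < Fintype.card ι) (h : Fn ι) :
    (nr e fun σ => h σ - av e h) ≤ nr e h := by
  refine Real.sqrt_le_sqrt ?_
  simp only [ip_sub_left, ip_sub_right, ip_const_left, ip_const_right, av_sub, av_const e hι]
  nlinarith [sq_nonneg (av e h)]

/-! ### Families -/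

theorem q2_nonneg (e : Bool) (γ : ν → Fn ι) : 0 ≤ q2 e γ :=
  sum_nonneg fun _ _ => ip_self_nonneg e _

theorem q4_nonneg (e : Bool) (γ : ν → Fn ι) : 0 ≤ q4 e γ := nr_nonneg e _

theorem eta_nonneg (e : Bool) (F : ν → Fn ι) : 0 ≤ eta e F := q2_nonneg e _

theorem th_nonneg (e : Bool) (F : ν → Fn ι) : 0 ≤ th e F := q4_nonneg e _

theorem Yv_nonneg (e : Bool) (F : ν → Fn ι) (i : ι) : 0 ≤ Yv e F i := q2_nonneg e _

theorem Zv_nonneg (e : Bool) (γ : ν → Fn ι) : 0 ≤ Zv e γ := q2_nonneg e _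

theorem cov_nonneg (e : Bool) (β : ν → Fn ι) (γ : ν' → Fn ι) : 0 ≤ cov e β γ :=
  sum_nonneg fun _ _ => sum_nonneg fun _ _ => sq_nonneg _

theorem DD_nonneg (e e' : Bool) (F F' : ν → Fn ι) : 0 ≤ DD e e' F F' :=
  sum_nonneg fun _ _ => sum_nonneg fun _ _ => sq_nonneg _

theorem DD_comm (e e' : Bool) (F F' : ν → Fn ι) : DD e e' F F' = DD e' e F' F :=
  sum_congr rfl fun _ _ => sum_congr rfl fun _ _ => by ring

theorem KK_comm (e e' : Bool) (F F' : ν → Fn ι) : KK e e' F F' = KK e' e F' F :=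
  sum_congr rfl fun _ _ => by ring

theorem zz_nonneg (e : Bool) (α α' : Fn ι) (N : ι → ι → ℝ) (b b' : ι → Fn ι) :
    0 ≤ zz e α α' N b b' := by
  have h1 := ip_self_nonneg e α
  have h2 := ip_self_nonneg e α'
  have h3 : 0 ≤ ∑ i, ∑ j, N i j ^ 2 := sum_nonneg fun _ _ => sum_nonneg fun _ _ => sq_nonneg _
  have h4 := q2_nonneg e b
  have h5 := q2_nonneg e b'
  unfold zz
  linarith

/-- every unknown is bounded by the sum -/
theorem le_zz (e : Bool) (α α' : Fn ι) (N : ι → ι → ℝ) (b b' : ι → Fn ι) :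
    ip e α α ≤ zz e α α' N b b' ∧ ip e α' α' ≤ zz e α α' N b b' ∧
      ∑ i, ∑ j, N i j ^ 2 ≤ zz e α α' N b b' ∧ q2 e b ≤ zz e α α' N b b' ∧
      q2 e b' ≤ zz e α α' N b b' := by
  have h1 := ip_self_nonneg e α
  have h2 := ip_self_nonneg e α'
  have h3 : 0 ≤ ∑ i, ∑ j, N i j ^ 2 := sum_nonneg fun _ _ => sum_nonneg fun _ _ => sq_nonneg _
  have h4 := q2_nonneg e b
  have h5 := q2_nonneg e b'
  unfold zz
  refine ⟨?_, ?_, ?_, ?_, ?_⟩ <;> linarith

theorem dot_comm (β γ : ν → Fn ι) : dot β γ = dot γ β := by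
  funext σ
  simp only [dot, mul_comm]

theorem dot_self_nonneg (γ : ν → Fn ι) (σ : ι → Bool) : 0 ≤ dot γ γ σ :=
  sum_nonneg fun _ _ => mul_self_nonneg _

theorem av_dot (e : Bool) (β γ : ν → Fn ι) : av e (dot β γ) = ∑ a, ip e (β a) (γ a) :=
  av_sum e univ fun a σ => β a σ * γ a σ

theorem av_dot_self (e : Bool) (γ : ν → Fn ι) : av e (dot γ γ) = q2 e γ := av_dot e γ γ

theorem dot_sq_le (β γ : ν → Fn ι) (σ : ι → Bool) : dot β γ σ ^ 2 ≤ dot β β σ * dot γ γ σ := by
  have := sum_mul_sq_le_sq_mul_sq univ (fun a => β a σ) fun a => γ a σ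
  simpa only [dot, sq] using this

theorem sum_ip_le (e : Bool) (β γ : ν → Fn ι) :
    |∑ a, ip e (β a) (γ a)| ≤ √(q2 e β) * √(q2 e γ) := by
  refine (abs_sum_le_sum_abs _ _).trans ((sum_le_sum fun a _ => abs_ip_le e _ _).trans ?_)
  have := Real.sum_mul_le_sqrt_mul_sqrt univ (fun a => nr e (β a)) fun a => nr e (γ a)
  simpa only [nr_sq, q2] using this

theorem ip_dot_le (e : Bool) (β : ν → Fn ι) (γ : ν' → Fn ι) :
    ip e (dot β β) (dot γ γ) ≤ q4 e β * q4 e γ := ip_le e _ _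

theorem ip_dot_dot_le (e : Bool) (β γ : ν → Fn ι) :
    ip e (dot β γ) (dot β γ) ≤ q4 e β * q4 e γ :=
  (av_mono e fun σ => by simpa only [sq] using dot_sq_le β γ σ).trans (ip_dot_le e β γ)

theorem nr_dot_le (e : Bool) (β γ : ν → Fn ι) : nr e (dot β γ) ≤ √(q4 e β * q4 e γ) :=
  Real.sqrt_le_sqrt (ip_dot_dot_le e β γ)

theorem q2_le_q4 (e : Bool) (hι : 0 < Fintype.card ι) (γ : ν → Fn ι) : q2 e γ ≤ q4 e γ := by
  rw [← av_dot_self]
  exact (le_abs_self _).trans (abs_av_le_nr e hι _)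

theorem eta_le_th (e : Bool) (hι : 0 < Fintype.card ι) (F : ν → Fn ι) : eta e F ≤ th e F :=
  q2_le_q4 e hι _

theorem q4_mono (e : Bool) {β : ν → Fn ι} {γ : ν' → Fn ι} {c : ℝ} (hc : 0 ≤ c)
    (H : ∀ σ, dot β β σ ≤ c * dot γ γ σ) : q4 e β ≤ c * q4 e γ := by
  have h1 := nr_mul e c (dot γ γ)
  rw [abs_of_nonneg hc] at h1
  rw [q4, q4, ← h1]
  refine nr_mono e fun σ => ?_
  rw [abs_of_nonneg (dot_self_nonneg β σ), abs_of_nonneg (mul_nonneg hc (dot_self_nonneg γ σ))]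
  exact H σ

theorem q4_add_le (e : Bool) (β γ : ν → Fn ι) :
    (q4 e fun a σ => β a σ + γ a σ) ≤ 2 * q4 e β + 2 * q4 e γ := by
  have h1 := nr_add_le e (fun σ => 2 * dot β β σ) fun σ => 2 * dot γ γ σ
  rw [nr_mul, nr_mul, abs_two] at h1
  refine le_trans (nr_mono e fun σ => ?_) h1
  rw [abs_of_nonneg (dot_self_nonneg _ σ)]
  refine le_trans ?_ (le_abs_self _)
  simp only [dot, mul_sum, ← sum_add_distrib]
  exact sum_le_sum fun a _ => by nlinarith [sq_nonneg (β a σ - γ a σ)]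

theorem q4_sub_le (e : Bool) (β γ : ν → Fn ι) :
    (q4 e fun a σ => β a σ - γ a σ) ≤ 2 * q4 e β + 2 * q4 e γ := by
  have h := q4_add_le e β fun a σ => -γ a σ
  have h2 : (q4 e fun a σ => -γ a σ) = q4 e γ := by
    unfold q4 dot
    simp only [neg_mul_neg]
  rw [h2] at h
  simpa only [sub_eq_add_neg] using h

theorem nr_sum_le {κ : Type} (e : Bool) (s : Finset κ) (h : κ → Fn ι) :
    (nr e fun σ => ∑ k ∈ s, h k σ) ≤ ∑ k ∈ s, nr e (h k) := by
  classical
  induction s using Finset.induction_on with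
  | empty => simp [nr, ip, av_zero]
  | insert k s hk ih =>
    simp only [sum_insert hk]
    exact (nr_add_le e _ _).trans (add_le_add le_rfl ih)

/-- from scalar fourth moments to families -/
theorem q4_le_sum (e : Bool) (γ : ν → Fn ι) (y : ν → ℝ) (hy : ∀ a, 0 ≤ y a)
    (H : ∀ a, (av e fun σ => γ a σ ^ 4) ≤ y a ^ 2) : q4 e γ ≤ ∑ a, y a := by
  refine (nr_sum_le e univ fun a σ => γ a σ * γ a σ).trans (sum_le_sum fun a _ => ?_)
  refine nr_le e (hy a) (le_trans (le_of_eq ?_) (H a))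
  exact av_congr e fun σ => by ring

/-- a scalar function as a family with one member -/
theorem q4_unit (e : Bool) (h : Fn ι) : (q4 e fun _ : Unit => h) = nr e fun σ => h σ * h σ := by
  simp only [q4]
  congr 1
  funext σ
  simp [dot]

theorem q2_unit (e : Bool) (h : Fn ι) : (q2 e fun _ : Unit => h) = ip e h h := by simp [q2]

theorem nr_sq_le (e : Bool) {h : Fn ι} {y : ℝ} (hy : 0 ≤ y) (H : (av e fun σ => h σ ^ 4) ≤ y ^ 2) :
    (nr e fun σ => h σ * h σ) ≤ y :=
  nr_le e hy (le_trans (le_of_eq (av_congr e fun σ => by ring)) H)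

/-- a product of two families indexed by pairs -/
theorem q2_prod (e : Bool) (β : ν → Fn ι) (γ : ν' → Fn ι) :
    ∑ a, ∑ b, ip e (fun σ => β a σ * γ b σ) (fun σ => β a σ * γ b σ) =
      ip e (dot β β) (dot γ γ) := by
  simp only [ip, ← av_sum]
  refine av_congr e fun σ => ?_
  simp only [dot, sum_mul_sum]
  exact sum_congr rfl fun a _ => sum_congr rfl fun b _ => by ring

/-- Hoelder inequality with exponents 2, 4, 4 -/
theorem ip_dot_scalar_le (e : Bool) (β γ : ν → Fn ι) (ψ : Fn ι) :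
    |ip e (dot β γ) ψ| ≤ √(q2 e β) * √(q4 e γ * nr e fun σ => ψ σ * ψ σ) := by
  have h1 : ip e (dot β γ) ψ = ∑ a, ip e (β a) fun σ => γ a σ * ψ σ := by
    simp only [ip, ← av_sum]
    refine av_congr e fun σ => ?_
    simp only [dot, sum_mul]
    exact sum_congr rfl fun a _ => by ring
  rw [h1]
  refine (sum_ip_le e β _).trans (mul_le_mul_of_nonneg_left (Real.sqrt_le_sqrt ?_)
    (Real.sqrt_nonneg _))
  have h2 : (q2 e fun a σ => γ a σ * ψ σ) = ip e (dot γ γ) fun σ => ψ σ * ψ σ := by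
    simp only [q2, ip, ← av_sum]
    refine av_congr e fun σ => ?_
    simp only [dot, sum_mul]
    exact sum_congr rfl fun a _ => by ring
  rw [h2]
  exact ip_le e _ _

theorem ip_cmb_left (e : Bool) (z : ν → ℝ) (γ : ν → Fn ι) (h : Fn ι) :
    ip e (cmb z γ) h = ∑ a, z a * ip e (γ a) h := by
  have := ip_sum_left e univ (fun a σ => z a * γ a σ) h
  simp only [ip_mul_left] at this
  exact this

theorem cmb_sq_le (z : ν → ℝ) (γ : ν → Fn ι) (σ : ι → Bool) :
    cmb z γ σ * cmb z γ σ ≤ (∑ a, z a ^ 2) * dot γ γ σ := by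
  have := sum_mul_sq_le_sq_mul_sq univ z fun a => γ a σ
  simpa only [cmb, dot, sq] using this

theorem ip_cmb_le (e : Bool) (z : ν → ℝ) (γ : ν → Fn ι) :
    ip e (cmb z γ) (cmb z γ) ≤ (∑ a, z a ^ 2) * √(cov e γ γ) := by
  have h1 : ip e (cmb z γ) (cmb z γ) = ∑ p : ν × ν, z p.1 * z p.2 * ip e (γ p.1) (γ p.2) := by
    rw [ip_cmb_left, Fintype.sum_prod_type]
    refine sum_congr rfl fun a _ => ?_
    rw [ip_comm, ip_cmb_left, mul_sum]
    exact sum_congr rfl fun b _ => by rw [ip_comm e (γ b)]; ring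
  have h2 := Real.sum_mul_le_sqrt_mul_sqrt univ (fun p : ν × ν => z p.1 * z p.2)
    fun p => ip e (γ p.1) (γ p.2)
  have h3 : ∑ p : ν × ν, (z p.1 * z p.2) ^ 2 = (∑ a, z a ^ 2) ^ 2 := by
    rw [Fintype.sum_prod_type, sq, sum_mul_sum]
    exact sum_congr rfl fun a _ => sum_congr rfl fun b _ => by ring
  have h4 : ∑ p : ν × ν, ip e (γ p.1) (γ p.2) ^ 2 = cov e γ γ := by
    rw [Fintype.sum_prod_type]; rfl
  rw [h3, h4, Real.sqrt_sq (sum_nonneg fun _ _ => sq_nonneg _)] at h2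
  rw [h1]
  exact h2

theorem q2_sq_le (e : Bool) (γ : ν → Fn ι) : q2 e γ ^ 2 ≤ Fintype.card ν * cov e γ γ := by
  have h1 := sq_sum_le_card_mul_sum_sq (s := univ) (f := fun a => ip e (γ a) (γ a))
  rw [card_univ] at h1
  refine h1.trans (mul_le_mul_of_nonneg_left (sum_le_sum fun a _ => ?_) (Nat.cast_nonneg _))
  exact single_le_sum (f := fun b => ip e (γ a) (γ b) ^ 2) (fun _ _ => sq_nonneg _) (mem_univ a)

theorem q4_le_q2 (e : Bool) (γ : ν → Fn ι) : q4 e γ ≤ 2 ^ Fintype.card ι * q2 e γ := by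
  have h0 : 0 ≤ (2 : ℝ) ^ Fintype.card ι * q2 e γ := mul_nonneg (by positivity) (q2_nonneg e γ)
  refine nr_le e h0 ?_
  have h1 : ip e (dot γ γ) (dot γ γ) ≤ av e fun σ => (2 ^ Fintype.card ι * q2 e γ) * dot γ γ σ := by
    refine av_mono' e fun σ hσ => mul_le_mul_of_nonneg_right ?_ (dot_self_nonneg γ σ)
    rw [← av_dot_self]
    exact le_av e (dot_self_nonneg γ) σ hσ
  rw [av_mul_left, av_dot_self] at h1
  have h2 : (1 : ℝ) ≤ 2 ^ Fintype.card ι := one_le_pow₀ (by norm_num)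
  have h3 := q2_nonneg e γ
  nlinarith [mul_nonneg h0 h3]

theorem th_le (e : Bool) (F : ν → Fn ι) : th e F ≤ 2 ^ Fintype.card ι * eta e F := q4_le_q2 e _

/-- the radial component of a family indexed by the coordinates -/
theorem nr_dot_xx_le (e : Bool) (b : ι → Fn ι) :
    nr e (dot b xx) ≤ √(Fintype.card ι) * √(q2 e b) := by
  rw [← Real.sqrt_mul (Nat.cast_nonneg _)]
  refine Real.sqrt_le_sqrt ?_
  rw [← av_dot_self, ← av_mul_left]
  refine av_mono e fun σ => ?_
  have h1 := dot_sq_le b xx σ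
  have h2 : dot xx xx σ = (Fintype.card ι : ℝ) := by simp [dot, xx_sq]
  rw [h2] at h1
  nlinarith

theorem px_even (e : Bool) {t : ℕ} (h : Even t) : px e t = e := if_pos h

theorem px_odd (e : Bool) {t : ℕ} (h : Odd t) : px e t = !e := if_neg (Nat.not_even_iff_odd.2 h)

theorem px_one (e : Bool) : px e 1 = !e := px_odd e odd_one

theorem sg_px (e : Bool) (t : ℕ) : sg (px e t) = sg e * (-1) ^ t := by
  rcases Nat.even_or_odd t with h | h
  · rw [px_even e h, h.neg_one_pow, mul_one]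
  · rw [px_odd e h, h.neg_one_pow, sg_not, mul_neg, mul_one]

theorem px_px (e : Bool) (t u : ℕ) : px (px e t) u = px e (t + u) := by
  unfold px
  by_cases h1 : Even t <;> by_cases h2 : Even u <;> simp [h1, h2, Nat.even_add]

theorem two_t0 (s : ℕ) : 2 * t0 s + s = s ^ 2 := by
  have h1 : s ≤ s ^ 2 := Nat.le_self_pow (by norm_num) s
  have h2 : Even (s ^ 2 - s) := by
    rw [Nat.even_sub h1, Nat.even_pow]
    simp
  obtain ⟨k, hk⟩ := h2
  unfold t0
  omega

theorem t0_cast (s : ℕ) : (t0 s : ℝ) = ((s : ℝ) ^ 2 - s) / 2 := by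
  have h : ((2 * t0 s + s : ℕ) : ℝ) = ((s ^ 2 : ℕ) : ℝ) := by rw [two_t0]
  push_cast at h
  linarith

theorem t0_ge {s : ℕ} (h : 128 ≤ s) : 60 * s ≤ t0 s := by
  have h1 := two_t0 s
  have h2 : 128 * s ≤ s ^ 2 := by rw [sq]; exact Nat.mul_le_mul_right s h
  omega

theorem even_t0 {s : ℕ} (h : 128 ∣ s) : Even (t0 s) := by
  obtain ⟨k, rfl⟩ := h
  have h1 := two_t0 (128 * k)
  have h2 : (128 * k) ^ 2 = 4 * (4096 * k ^ 2) := by ring
  refine ⟨4096 * k ^ 2 - 32 * k, ?_⟩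
  omega

theorem even_div {s : ℕ} (h : 128 ∣ s) : Even (s / 64) := by
  obtain ⟨k, rfl⟩ := h
  exact ⟨k, by omega⟩

theorem div64_cast {s : ℕ} (h : 128 ∣ s) : ((s / 64 : ℕ) : ℝ) = s / 64 := by
  obtain ⟨k, rfl⟩ := h
  have : 128 * k / 64 = 2 * k := by omega
  rw [this]
  push_cast
  ring

theorem even_t1 {s : ℕ} (h : 128 ∣ s) (hs : 128 ≤ s) : Even (t1 s) := by
  have := t0_ge hs
  unfold t1
  rw [Nat.even_sub (by omega)]
  simp [even_t0 h, even_div h]

theorem px_t0_sub (e : Bool) {s h : ℕ} (hs : 128 ∣ s) (hh : h ≤ t0 s) :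
    px e (t0 s - h) = px e h := by
  unfold px
  simp only [Nat.even_sub hh, even_t0 hs, true_iff]

theorem t0_le (s : ℕ) : t0 s ≤ s ^ 2 := by
  have := two_t0 s
  omega

theorem t1_le (s : ℕ) : t1 s ≤ s ^ 2 := (Nat.sub_le _ _).trans (t0_le s)

end Pool.Agent.MP_66cee2_co.SL
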