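import Pool.Agent.MP_66cee2_co.SL.KitB

/-! The averaging operator over Hamming spheres. -/

set_option linter.unusedSectionVars false

namespace Pool.Agent.MP_66cee2_co.SL

open Finset Pool.Agent.MP_9e8696_an.H67
open scoped BigOperators

variable {ι : Type} [Fintype ι] [DecidableEq ι] {ν ν' : Type} [Fintype ν] [Fintype ν']

theorem fl_fl (R : Finset ι) (σ : ι → Bool) : fl R (fl R σ) = σ := by
  funext i
  by_cases h : i ∈ R <;> simp [fl, h]

theorem fl_inj (σ : ι → Bool) {R R' : Finset ι} (h : fl R σ = fl R' σ) : R = R' := by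
  ext i
  have := congrFun h i
  by_cases h1 : i ∈ R <;> by_cases h2 : i ∈ R' <;> simp_all [fl]

theorem expect_fl (R : Finset ι) (g : Fn ι) : 𝔼 σ, g (fl R σ) = 𝔼 σ, g σ :=
  Fintype.expect_equiv (Function.Involutive.toPerm (fl R) (fl_fl R)) _ _ fun _ => rfl

theorem xx_fl (i : ι) (R : Finset ι) (σ : ι → Bool) :
    xx i (fl R σ) = (if i ∈ R then -1 else 1) * xx i σ := by
  by_cases h : i ∈ R <;> simp [xx, fl, h, sg_not]

theorem chi_fl (S R : Finset ι) (σ : ι → Bool) :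
    chi S (fl R σ) = (-1) ^ (R ∩ S).card * chi S σ := by
  have h : chi S (fl R σ) = ∏ i ∈ S, (if i ∈ R then -1 else 1) * xx i σ :=
    prod_congr rfl fun i _ => xx_fl i R σ
  rw [h, prod_mul_distrib, prod_ite, prod_const, prod_const_one, mul_one, filter_mem_eq_inter,
    inter_comm]
  rfl

theorem chi_univ_fl (R : Finset ι) (σ : ι → Bool) :
    chi univ (fl R σ) = (-1) ^ R.card * chi univ σ := by
  rw [chi_fl, inter_univ]

theorem sum_xx_fl (R : Finset ι) (σ : ι → Bool) :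
    ∑ i, xx i σ * xx i (fl R σ) = (Fintype.card ι : ℝ) - 2 * R.card := by
  have h : ∀ i, xx i σ * xx i (fl R σ) = 1 - 2 * if i ∈ R then 1 else 0 := by
    intro i
    rw [xx_fl, mul_left_comm, xx_sq]
    split_ifs <;> norm_num
  simp only [h, sum_sub_distrib, ← mul_sum]
  simp

theorem wt_fl (e : Bool) (R : Finset ι) (σ : ι → Bool) :
    1 + sg (px e R.card) * chi univ (fl R σ) = 1 + sg e * chi univ σ := by
  rw [sg_px, chi_univ_fl, mul_assoc, ← mul_assoc ((-1 : ℝ) ^ R.card), ← mul_pow]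
  simp

/-! ### Linearity -/

theorem T_add (t : ℕ) (g h : Fn ι) (σ : ι → Bool) :
    T t (fun τ => g τ + h τ) σ = T t g σ + T t h σ := by
  simp only [T, expect_add_distrib]

theorem T_sub (t : ℕ) (g h : Fn ι) (σ : ι → Bool) :
    T t (fun τ => g τ - h τ) σ = T t g σ - T t h σ := by
  simp only [T, expect_sub_distrib]

theorem T_mul_left (t : ℕ) (c : ℝ) (h : Fn ι) (σ : ι → Bool) :
    T t (fun τ => c * h τ) σ = c * T t h σ := by
  simp only [T, mul_expect]

theorem T_mul_right (t : ℕ) (c : ℝ) (h : Fn ι) (σ : ι → Bool) :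
    T t (fun τ => h τ * c) σ = T t h σ * c := by
  simp only [T, expect_mul]

theorem T_sum {κ : Type} (t : ℕ) (s : Finset κ) (h : κ → Fn ι) (σ : ι → Bool) :
    T t (fun τ => ∑ k ∈ s, h k τ) σ = ∑ k ∈ s, T t (h k) σ := by
  simp only [T, expect_sum_comm]

theorem T_const {t : ℕ} (ht : t ≤ Fintype.card ι) (c : ℝ) (σ : ι → Bool) :
    T t (fun _ => c) σ = c :=
  expect_const (powersetCard_nonempty.2 (by simpa using ht)) c

theorem T_congr (t : ℕ) {g h : Fn ι} (σ : ι → Bool)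
    (H : ∀ R : Finset ι, R.card = t → g (fl R σ) = h (fl R σ)) : T t g σ = T t h σ :=
  expect_congr rfl fun R hR => H R (mem_powersetCard.1 hR).2

theorem T_mono (t : ℕ) {g h : Fn ι} (σ : ι → Bool)
    (H : ∀ R : Finset ι, R.card = t → g (fl R σ) ≤ h (fl R σ)) : T t g σ ≤ T t h σ :=
  expect_le_expect fun R hR => H R (mem_powersetCard.1 hR).2

theorem T_chi (t : ℕ) (S : Finset ι) (σ : ι → Bool) : T t (chi S) σ = lam t S * chi S σ := by
  simp only [T, chi_fl, lam, expect_mul]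

/-! ### Edge means -/

theorem Ed_swap (e : Bool) (t : ℕ) (Φ : (ι → Bool) → Fn ι) :
    Ed e t Φ = Ed (px e t) t fun τ σ => Φ σ τ := by
  simp only [Ed, av, T, mul_expect]
  rw [expect_comm, expect_comm univ]
  refine expect_congr rfl fun R hR => ?_
  rw [← expect_fl R fun τ => (1 + sg (px e t) * chi univ τ) * Φ (fl R τ) τ]
  refine expect_congr rfl fun σ _ => ?_
  rw [fl_fl, ← (mem_powersetCard.1 hR).2, wt_fl]

theorem Ed_symm (e : Bool) {t : ℕ} (ht : Even t) (Φ : (ι → Bool) → Fn ι) :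
    Ed e t Φ = Ed e t fun τ σ => Φ σ τ := by
  rw [Ed_swap, px_even e ht]

theorem Ed_add (e : Bool) (t : ℕ) (Φ Ψ : (ι → Bool) → Fn ι) :
    (Ed e t fun σ τ => Φ σ τ + Ψ σ τ) = Ed e t Φ + Ed e t Ψ := by
  simp only [Ed, T_add, av_add]

theorem Ed_sub (e : Bool) (t : ℕ) (Φ Ψ : (ι → Bool) → Fn ι) :
    (Ed e t fun σ τ => Φ σ τ - Ψ σ τ) = Ed e t Φ - Ed e t Ψ := by
  simp only [Ed, T_sub, av_sub]

theorem Ed_mul_left (e : Bool) (t : ℕ) (c : ℝ) (Φ : (ι → Bool) → Fn ι) :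
    (Ed e t fun σ τ => c * Φ σ τ) = c * Ed e t Φ := by
  simp only [Ed, T_mul_left, av_mul_left]

theorem Ed_sum {κ : Type} (e : Bool) (t : ℕ) (s : Finset κ) (Φ : κ → (ι → Bool) → Fn ι) :
    (Ed e t fun σ τ => ∑ k ∈ s, Φ k σ τ) = ∑ k ∈ s, Ed e t (Φ k) := by
  simp only [Ed, T_sum]
  exact av_sum e s fun k σ => T t (Φ k σ) σ

theorem Ed_congr (e : Bool) (t : ℕ) {Φ Ψ : (ι → Bool) → Fn ι}
    (H : ∀ (σ : ι → Bool) (R : Finset ι), R.card = t → Φ σ (fl R σ) = Ψ σ (fl R σ)) :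
    Ed e t Φ = Ed e t Ψ := av_congr e fun σ => T_congr t σ (H σ)

theorem Ed_mono (e : Bool) (t : ℕ) {Φ Ψ : (ι → Bool) → Fn ι}
    (H : ∀ (σ : ι → Bool) (R : Finset ι), R.card = t → Φ σ (fl R σ) ≤ Ψ σ (fl R σ)) :
    Ed e t Φ ≤ Ed e t Ψ := av_mono e fun σ => T_mono t σ (H σ)

theorem Ed_mul (e : Bool) (t : ℕ) (g h : Fn ι) :
    (Ed e t fun σ τ => g σ * h τ) = ip e g (T t h) := by
  simp only [Ed, T_mul_left, ip]

theorem Ed_left (e : Bool) {t : ℕ} (ht : t ≤ Fintype.card ι) (g : Fn ι) :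
    (Ed e t fun σ _ => g σ) = av e g := by
  simp only [Ed, T_const ht]

theorem Ed_right (e : Bool) {t : ℕ} (ht : t ≤ Fintype.card ι) (h : Fn ι) :
    (Ed e t fun _ τ => h τ) = av (px e t) h := by
  rw [Ed_swap, Ed_left _ ht]

theorem Ed_const (e : Bool) {t : ℕ} (ht : t ≤ Fintype.card ι) (hι : 0 < Fintype.card ι) (c : ℝ) :
    (Ed e t fun (_ _ : ι → Bool) => c) = c := by
  rw [Ed_left e ht, av_const e hι]

theorem av_T (e : Bool) {t : ℕ} (ht : t ≤ Fintype.card ι) (h : Fn ι) :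
    av e (T t h) = av (px e t) h := Ed_right e ht h

theorem T_symm (e : Bool) (t : ℕ) (g h : Fn ι) : ip e g (T t h) = ip (px e t) (T t g) h := by
  rw [← Ed_mul, Ed_swap, ip_comm, ← Ed_mul]
  simp only [mul_comm]

theorem T_symm' (e : Bool) {t : ℕ} (ht : Even t) (g h : Fn ι) :
    ip e g (T t h) = ip e (T t g) h := by
  rw [T_symm, px_even e ht]

/-- the kernel against a function of the first point -/
theorem Ed_K_left (e : Bool) (t : ℕ) (β β' : ν → Fn ι) (α : Fn ι) :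
    (Ed e t fun σ τ => (∑ a, β a σ * β' a τ) * α σ) = ip e α (dot β fun a => T t (β' a)) := by
  refine av_congr e fun σ => ?_
  rw [T_mul_right, T_sum t univ fun a τ => β a σ * β' a τ, mul_comm]
  simp only [T_mul_left, dot]

/-- the kernel against a function that is linear in the second point -/
theorem Ed_K_w (e : Bool) (t : ℕ) (β β' : ν → Fn ι) (w : ι → Fn ι) :
    (Ed e t fun σ τ => (∑ a, β a σ * β' a τ) * ∑ j, w j σ * xx j τ) =
      ∑ j, ip e (w j) (dot β fun a => T t fun τ => xx j τ * β' a τ) := by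
  simp only [mul_sum]
  rw [Ed_sum e t univ fun j σ τ => (∑ a, β a σ * β' a τ) * (w j σ * xx j τ)]
  refine sum_congr rfl fun j _ => ?_
  rw [← Ed_K_left]
  refine Ed_congr e t fun σ R _ => ?_
  simp only [sum_mul]
  exact sum_congr rfl fun a _ => by ring

/-! ### Eigenvalues -/

theorem chi_false (S : Finset ι) : chi S (fun _ => false) = 1 := by simp [chi, sg]

theorem lam_eq (t : ℕ) (S : Finset ι) : lam t S = T t (chi S) fun _ => false := by
  rw [T_chi, chi_false, mul_one]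

theorem lam_congr (t : ℕ) {S S' : Finset ι} (h : S.card = S'.card) : lam t S = lam t S' := by
  obtain ⟨p, hp⟩ := Equiv.Perm.exists_map_finset_eq S S' h
  refine expect_equiv p.finsetCongr (fun R => by simp [mem_powersetCard]) fun R _ => ?_
  rw [← hp, Equiv.finsetCongr_apply, ← map_inter, card_map]

theorem lam_empty {t : ℕ} (ht : t ≤ Fintype.card ι) : lam t (∅ : Finset ι) = 1 := by
  rw [lam_eq, show chi (∅ : Finset ι) = fun _ => 1 from funext chi_empty, T_const ht]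

theorem lam_compl (t : ℕ) (S : Finset ι) : lam t Sᶜ = (-1) ^ t * lam t S := by
  rw [lam_eq, lam_eq, ← T_mul_left]
  refine T_congr t _ fun R hR => ?_
  rw [chi_compl, chi_univ_fl, chi_false, mul_one, hR]

theorem abs_lam_compl (t : ℕ) (S : Finset ι) : |lam t Sᶜ| = |lam t S| := by
  rw [lam_compl, abs_mul, abs_pow, abs_neg, abs_one, one_pow, one_mul]

theorem lam_rec (t : ℕ) (S : Finset ι) : ((Fintype.card ι : ℝ) - 2 * t) * lam t S =
    ∑ i ∈ S, lam t (S.erase i) + ∑ i ∈ Sᶜ, lam t (insert i S) := by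
  simp only [lam_eq]
  rw [← T_mul_left, ← T_sum, ← T_sum, ← T_add]
  refine T_congr t _ fun R hR => ?_
  rw [← hR, ← sum_xx_fl R fun _ => false, sum_mul, ← sum_add_sum_compl S]
  have h0 : ∀ i : ι, xx i (fun _ => false) = 1 := fun i => sg_false
  simp only [h0, one_mul]
  congr 1
  · refine sum_congr rfl fun i hi => ?_
    nth_rewrite 1 [← insert_erase hi]
    rw [chi_insert (notMem_erase i S), ← mul_assoc, xx_sq, one_mul]
  · exact sum_congr rfl fun i hi => (chi_insert (mem_compl.1 hi) _).symm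

/-- the three term recurrence, for any sets of three consecutive sizes -/
theorem lam_rec' (t : ℕ) {S₀ S₁ S₂ : Finset ι} (h₁ : S₁.card = S₀.card + 1)
    (h₂ : S₂.card = S₀.card + 2) : ((Fintype.card ι : ℝ) - 2 * t) * lam t S₁ =
      (S₀.card + 1) * lam t S₀ + (Fintype.card ι - (S₀.card + 1)) * lam t S₂ := by
  have e1 : ∑ i ∈ S₁, lam t (S₁.erase i) = ∑ _i ∈ S₁, lam t S₀ :=
    sum_congr rfl fun i hi => lam_congr t (by rw [card_erase_of_mem hi]; omega)
  have e2 : ∑ i ∈ S₁ᶜ, lam t (insert i S₁) = ∑ _i ∈ S₁ᶜ, lam t S₂ :=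
    sum_congr rfl fun i hi => lam_congr t
      (by rw [card_insert_of_notMem (mem_compl.1 hi)]; omega)
  rw [lam_rec, e1, e2, sum_const, sum_const, card_compl, h₁, nsmul_eq_mul, nsmul_eq_mul,
    Nat.cast_sub (h₁ ▸ card_le_univ S₁)]
  push_cast
  ring

theorem lam_one {t : ℕ} (ht : t ≤ Fintype.card ι) {S : Finset ι} (h : S.card = 1) :
    lam t S = l1 (Fintype.card ι) t := by
  have h0 := lam_rec t (∅ : Finset ι)
  rw [lam_empty ht, sum_empty, compl_empty,
    sum_congr rfl fun i _ => lam_congr t (S' := S) (by simp [h]), sum_const, card_univ,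
    nsmul_eq_mul] at h0
  have hm : (0 : ℝ) < Fintype.card ι := by
    exact_mod_cast (h ▸ card_le_univ S : 1 ≤ Fintype.card ι)
  rw [l1, eq_div_iff hm.ne']
  linarith

theorem lam_two {t : ℕ} (ht : t ≤ Fintype.card ι) {S : Finset ι} (h : S.card = 2) :
    lam t S = l2 (Fintype.card ι) t := by
  obtain ⟨i, hi⟩ : S.Nonempty := card_pos.1 (by omega)
  have h0 := lam_rec' t (S₀ := ∅) (S₁ := {i}) (S₂ := S) (by simp) (by simp [h])
  rw [lam_empty ht, lam_one ht (card_singleton i), l1] at h0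
  have hm : (2 : ℝ) ≤ Fintype.card ι := by
    exact_mod_cast (h ▸ card_le_univ S : 2 ≤ Fintype.card ι)
  have hm1 : (Fintype.card ι : ℝ) - 1 ≠ 0 := by linarith
  have hm0 : (Fintype.card ι : ℝ) ≠ 0 := by linarith
  simp only [card_empty, Nat.cast_zero, zero_add, one_mul] at h0
  rw [l2, eq_div_iff (mul_ne_zero hm0 hm1)]
  field_simp at h0
  linarith

theorem lam_sq_sum {t : ℕ} (ht : t ≤ Fintype.card ι) :
    ∑ S : Finset ι, lam t S ^ 2 = 2 ^ Fintype.card ι / (Fintype.card ι).choose t := by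
  have hne : (powersetCard t (univ : Finset ι)).Nonempty :=
    powersetCard_nonempty.2 (by simpa using ht)
  simp only [lam_eq, T, sq, expect_mul, mul_expect, ← expect_sum_comm, sum_chi_mul]
  rw [← expect_const hne ((2 : ℝ) ^ Fintype.card ι / (Fintype.card ι).choose t)]
  refine expect_congr rfl fun R hR => ?_
  rw [expect_eq_sum_div_card, card_powersetCard, card_univ, sum_eq_single R, if_pos rfl]
  · exact fun R' _ hne => if_neg fun h => hne (fl_inj _ h)
  · exact fun h => absurd hR h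

theorem T_xx1 {t : ℕ} (ht : t ≤ Fintype.card ι) (i : ι) (σ : ι → Bool) :
    T t (xx i) σ = l1 (Fintype.card ι) t * xx i σ := by
  rw [← chi_singleton, T_chi, lam_one ht (card_singleton i)]

theorem T_lin {t : ℕ} (ht : t ≤ Fintype.card ι) (c : ι → ℝ) (σ : ι → Bool) :
    T t (lin c) σ = l1 (Fintype.card ι) t * lin c σ := by
  refine (T_sum t univ (fun i τ => c i * xx i τ) σ).trans ?_
  simp only [T_mul_left, T_xx1 ht, lin, mul_sum]
  exact sum_congr rfl fun i _ => by ring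

theorem T_xx2 {t : ℕ} (ht : t ≤ Fintype.card ι) (i j : ι) (σ : ι → Bool) :
    T t (fun τ => xx i τ * xx j τ) σ = (1 - l2 (Fintype.card ι) t) * (if i = j then 1 else 0) +
      l2 (Fintype.card ι) t * (xx i σ * xx j σ) := by
  split_ifs with h
  · subst h
    simp only [xx_sq, T_const ht]
    ring
  · rw [show (fun τ => xx i τ * xx j τ) = chi {i, j} from funext fun τ => (chi_pair h τ).symm,
      T_chi, lam_two ht (card_pair h), chi_pair h]
    ring

theorem T_lin_mul {t : ℕ} (ht : t ≤ Fintype.card ι) (u v : ι → ℝ) (σ : ι → Bool) :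
    T t (fun τ => lin u τ * lin v τ) σ = (1 - l2 (Fintype.card ι) t) * ∑ i, u i * v i +
      l2 (Fintype.card ι) t * (lin u σ * lin v σ) := by
  have h : ∀ τ, lin u τ * lin v τ = ∑ i, ∑ j, u i * v j * (xx i τ * xx j τ) := by
    intro τ
    simp only [lin, sum_mul_sum]
    exact sum_congr rfl fun i _ => sum_congr rfl fun j _ => by ring
  simp only [h]
  rw [T_sum t univ fun i τ => ∑ j, u i * v j * (xx i τ * xx j τ), mul_sum, mul_sum,
    ← sum_add_distrib]
  refine sum_congr rfl fun i _ => ?_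
  rw [T_sum t univ fun j τ => u i * v j * (xx i τ * xx j τ)]
  simp only [T_mul_left, T_xx2 ht, mul_add, sum_add_distrib, mul_ite, mul_one, mul_zero,
    sum_ite_eq, mem_univ, if_true, mul_sum]
  congr 1
  · ring
  · exact sum_congr rfl fun j _ => by ring

theorem t1_cast {s : ℕ} (h : 128 ∣ s) (hs : 128 ≤ s) :
    (t1 s : ℝ) = ((s : ℝ) ^ 2 - s) / 2 - s / 64 := by
  have := t0_ge hs
  rw [t1, Nat.cast_sub (by omega), t0_cast, div64_cast h]

theorem l1_t0 {s : ℕ} (hs : 128 ≤ s) : l1 (s ^ 2) (t0 s) = 1 / s := by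
  have h : (0 : ℝ) < s := by exact_mod_cast (by omega : 0 < s)
  rw [l1, t0_cast]
  push_cast
  field_simp
  ring

theorem l2_t0 (s : ℕ) : l2 (s ^ 2) (t0 s) = 0 := by
  rw [l2, t0_cast, div_eq_zero_iff]
  left
  push_cast
  ring

theorem l1_t1 {s : ℕ} (h : 128 ∣ s) (hs : 128 ≤ s) : l1 (s ^ 2) (t1 s) = 33 / (32 * s) := by
  have h0 : (0 : ℝ) < s := by exact_mod_cast (by omega : 0 < s)
  rw [l1, t1_cast h hs]
  push_cast
  field_simp
  ring

theorem l2_t1 {s : ℕ} (h : 128 ∣ s) (hs : 128 ≤ s) :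
    l2 (s ^ 2) (t1 s) = 65 / 1024 / ((s : ℝ) ^ 2 - 1) := by
  have h0 : (128 : ℝ) ≤ s := by exact_mod_cast hs
  have h1 : (s : ℝ) ^ 2 - 1 ≠ 0 := by nlinarith
  rw [l2, t1_cast h hs]
  push_cast
  field_simp
  ring

/-- the facts used for the two Hamming distances of the main analysis -/
theorem t_facts {s t : ℕ} (h : 128 ∣ s) (hs : 128 ≤ s) (ht : t = t0 s ∨ t = t1 s) :
    Even t ∧ t ≤ s ^ 2 ∧ 0 ≤ l1 (s ^ 2) t ∧ l1 (s ^ 2) t ≤ 2 / s ∧ 0 ≤ l2 (s ^ 2) t ∧
      l2 (s ^ 2) t ≤ 1 / (8 * s ^ 2) := by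
  have h0 : (128 : ℝ) ≤ s := by exact_mod_cast hs
  rcases ht with rfl | rfl
  · refine ⟨even_t0 h, t0_le s, ?_, ?_, (l2_t0 s).ge, ?_⟩
    · rw [l1_t0 hs]; positivity
    · rw [l1_t0 hs]; gcongr; norm_num
    · rw [l2_t0]; positivity
  · have h1 : (0 : ℝ) < (s : ℝ) ^ 2 - 1 := by nlinarith
    refine ⟨even_t1 h hs, t1_le s, ?_, ?_, ?_, ?_⟩
    · rw [l1_t1 h hs]; positivity
    · rw [l1_t1 h hs, div_le_div_iff₀ (by positivity) (by positivity)]; linarith
    · rw [l2_t1 h hs]; positivity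
    · rw [l2_t1 h hs, div_le_div_iff₀ h1 (by positivity)]; nlinarith

/-! ### Splitting by levels, spectral bounds -/

theorem Or1.T {e : Bool} {t : ℕ} (ht : t ≤ Fintype.card ι) {h : Fn ι} (hh : Or1 (px e t) h) :
    Or1 e (T t h) := by
  refine ⟨(av_T e ht h).trans hh.1, fun i => ?_⟩
  rw [ip_comm, T_symm, show SL.T t (xx i) = fun σ => l1 (Fintype.card ι) t * xx i σ from
    funext (T_xx1 ht i), ip_mul_left, ip_comm, hh.2, mul_zero]

theorem c1_T (e : Bool) {t : ℕ} (ht : t ≤ Fintype.card ι) (h : Fn ι) (i : ι) :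
    c1 e (T t h) i = l1 (Fintype.card ι) t * c1 (px e t) h i := by
  rw [c1, ip_comm, T_symm, show T t (xx i) = fun σ => l1 (Fintype.card ι) t * xx i σ from
    funext (T_xx1 ht i), ip_mul_left, ip_comm, c1]

theorem ip_T_split (e : Bool) (hι : 3 ≤ Fintype.card ι) {t : ℕ} (ht : t ≤ Fintype.card ι)
    (g h : Fn ι) : ip e g (T t h) = av e g * av (px e t) h +
      l1 (Fintype.card ι) t * ∑ i, c1 e g i * c1 (px e t) h i +
      ip e (res e g) (T t (res (px e t) h)) := by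
  rw [ip_split e hι, av_T e ht, ip_res e (or1_res e hι g), mul_sum]
  simp only [c1_T e ht]
  congr 1
  · congr 1
    exact sum_congr rfl fun i _ => by ring
  · rw [T_symm, T_symm, ip_res]
    have h1 := Or1.T (e := px e t) ht (h := res e g)
    rw [px_px, px_even e (Even.add_self t)] at h1
    exact h1 (or1_res e hι g)

section spec
variable {t : ℕ} {μ H : ℝ}

theorem Spec.nr_T (S : Spec ι t μ H) (hμ : 0 ≤ μ) (e : Bool) {h : Fn ι} (hh : Or1 (px e t) h) :
    nr e (T t h) ≤ μ * nr (px e t) h := by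
  have h1 := S.two _ h hh
  rw [px_px, px_even e (Even.add_self t)] at h1
  refine nr_le e (mul_nonneg hμ (nr_nonneg _ h)) ?_
  rwa [mul_pow, nr_sq]

theorem Spec.abs_ip_T (S : Spec ι t μ H) (hμ : 0 ≤ μ) (e : Bool) (g : Fn ι) {h : Fn ι}
    (hh : Or1 (px e t) h) : |ip e g (T t h)| ≤ nr e g * (μ * nr (px e t) h) :=
  (abs_ip_le e g _).trans (mul_le_mul_of_nonneg_left (S.nr_T hμ e hh) (nr_nonneg e g))

theorem Spec.q2_T (S : Spec ι t μ H) (e : Bool) {γ : ν → Fn ι} (hγ : ∀ a, Or1 (px e t) (γ a)) :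
    (q2 e fun a => T t (γ a)) ≤ μ ^ 2 * q2 (px e t) γ := by
  rw [q2, q2, mul_sum]
  refine sum_le_sum fun a _ => ?_
  have h1 := S.two _ _ (hγ a)
  rwa [px_px, px_even e (Even.add_self t)] at h1

theorem Spec.sum_ip_T (S : Spec ι t μ H) (hμ : 0 ≤ μ) (e : Bool) (β : ν → Fn ι) {γ : ν → Fn ι}
    (hγ : ∀ a, Or1 (px e t) (γ a)) :
    |∑ a, ip e (β a) (T t (γ a))| ≤ √(q2 e β) * (μ * √(q2 (px e t) γ)) := by
  refine (sum_ip_le e β _).trans (mul_le_mul_of_nonneg_left ?_ (Real.sqrt_nonneg _))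
  refine Real.sqrt_le_iff.2 ⟨by positivity, ?_⟩
  rw [mul_pow, Real.sq_sqrt (q2_nonneg _ γ)]
  exact S.q2_T e hγ

theorem Spec.q4_T (S : Spec ι t μ H) (e : Bool) {γ : ν → Fn ι} (hγ : ∀ a, Or1 (px e t) (γ a)) :
    (q4 e fun a => T t (γ a)) ≤ H ^ 2 * q2 (px e t) γ := by
  rw [q2, mul_sum]
  refine q4_le_sum e _ _ (fun a => mul_nonneg (sq_nonneg H) (ip_self_nonneg _ _)) fun a => ?_
  have h1 := S.four _ _ (hγ a)
  rwa [px_px, px_even e (Even.add_self t)] at h1

/-- the operator is almost positive -/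
theorem Spec.ip_T_ge (S : Spec ι t μ H) (hμ : 0 ≤ μ) (hι : 3 ≤ Fintype.card ι) (he : Even t)
    (ht : t ≤ Fintype.card ι) (hl : 0 ≤ l1 (Fintype.card ι) t) (e : Bool) (u : Fn ι) :
    av e u ^ 2 - μ * ip e u u ≤ ip e u (T t u) := by
  have h1 := ip_T_split e hι ht u u
  have h2 := S.abs_ip_T hμ e (res e u) (or1_res (px e t) hι u)
  rw [px_even e he] at h1 h2
  have h3 : 0 ≤ l1 (Fintype.card ι) t * ∑ i, c1 e u i * c1 e u i :=
    mul_nonneg hl (sum_nonneg fun _ _ => mul_self_nonneg _)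
  have h4 := mul_le_mul_of_nonneg_left (ip_res_le e hι u) hμ
  have h5 := (abs_le.1 h2).1
  rw [← nr_sq e (res e u)] at h4
  nlinarith

/-- a scalar against the smoothed kernel -/
theorem Spec.edge_a (S : Spec ι t μ H) (hH : 0 ≤ H) (he : Even t) (e : Bool) (α : Fn ι)
    (β : ν → Fn ι) {β' : ν → Fn ι} (hβ : ∀ a, Or1 e (β' a)) :
    |ip e α (dot β fun a => T t (β' a))| ≤ nr e α * (√(q4 e β) * (H * √(q2 e β'))) := by
  refine (abs_ip_le e _ _).trans (mul_le_mul_of_nonneg_left ((nr_dot_le e _ _).trans ?_)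
    (nr_nonneg e α))
  rw [Real.sqrt_mul (q4_nonneg e β)]
  refine mul_le_mul_of_nonneg_left (Real.sqrt_le_iff.2 ⟨by positivity, ?_⟩) (Real.sqrt_nonneg _)
  have h1 := S.q4_T e (γ := β') (by rwa [px_even e he])
  rw [px_even e he] at h1
  rwa [mul_pow, Real.sq_sqrt (q2_nonneg e β')]

/-- a vector field against the smoothed kernel -/
theorem Spec.edge_w (S : Spec ι t μ H) (hH : 0 ≤ H) (hι : 3 ≤ Fintype.card ι) (he : Even t)
    (ht : t ≤ Fintype.card ι) (e : Bool) (w : ι → Fn ι) (β : ν → Fn ι) {β' : ν → Fn ι}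
    (hβ : ∀ a, Or1 e (β' a)) :
    |∑ j, ip e (w j) (dot β fun a => T t fun τ => xx j τ * β' a τ) -
      l1 (Fintype.card ι) t * ∑ j, ip e (w j) (dot β fun a => Dv e j (β' a))| ≤
      √(q2 e w) * (√(q4 e β) * (H * √(Fintype.card ι) * √(q2 e β'))) := by
  set ρ : ι × ν → Fn ι := fun p τ => xx p.1 τ * β' p.2 τ - Dv e p.1 (β' p.2) τ with hρ
  have h1 : ∀ j, ip e (w j) (dot β fun a => T t fun τ => xx j τ * β' a τ) -
      l1 (Fintype.card ι) t * ip e (w j) (dot β fun a => Dv e j (β' a)) =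
      ip e (w j) (dot β fun a => T t (ρ (j, a))) := by
    intro j
    rw [← ip_mul_right, ← ip_sub_right]
    refine ip_congr e fun σ => ?_
    congr 1
    simp only [dot, mul_sum, ← sum_sub_distrib, hρ, T_sub]
    refine sum_congr rfl fun a _ => ?_
    unfold Dv
    rw [T_lin ht]
    ring
  rw [mul_sum, ← sum_sub_distrib]
  simp only [h1]
  refine (sum_ip_le e w _).trans (mul_le_mul_of_nonneg_left ?_ (Real.sqrt_nonneg _))
  have h2 : (q2 e fun j => dot β fun a => T t (ρ (j, a))) ≤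
      q4 e β * q4 e fun p => T t (ρ p) := by
    refine le_trans ?_ (ip_dot_le e β fun p => T t (ρ p))
    rw [← av_dot_self]
    refine av_mono e fun σ => ?_
    have h3 : dot (fun p => T t (ρ p)) (fun p => T t (ρ p)) σ =
        ∑ j, dot (fun a => T t (ρ (j, a))) (fun a => T t (ρ (j, a))) σ := by
      simp only [dot, Fintype.sum_prod_type]
    rw [h3, mul_sum]
    exact sum_le_sum fun j _ => by simpa only [sq] using dot_sq_le β (fun a => T t (ρ (j, a))) σ
  have h4 := S.q4_T e (γ := ρ) fun p => by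
    rw [px_even e he]
    exact or1_xx_sub_Dv e hι (hβ p.2) p.1
  rw [px_even e he] at h4
  have h5 : q2 e ρ ≤ Fintype.card ι * q2 e β' := by
    rw [q2, Fintype.sum_prod_type, ← card_univ, ← nsmul_eq_mul, ← sum_const]
    exact sum_le_sum fun j _ => sum_le_sum fun a _ => ip_xx_sub_Dv_le e hι (hβ a) j
  refine Real.sqrt_le_iff.2 ⟨by positivity, h2.trans ?_⟩
  rw [mul_pow, mul_pow, mul_pow, Real.sq_sqrt (q4_nonneg e β), Real.sq_sqrt (Nat.cast_nonneg _),
    Real.sq_sqrt (q2_nonneg e β'), mul_assoc]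
  exact mul_le_mul_of_nonneg_left (h4.trans (mul_le_mul_of_nonneg_left h5 (sq_nonneg H)))
    (q4_nonneg e β)

end spec

theorem sqrt_card {s : ℕ} (h : Fintype.card ι = s ^ 2) : √(Fintype.card ι : ℝ) = s := by
  rw [h]
  push_cast
  exact Real.sqrt_sq (Nat.cast_nonneg s)

end Pool.Agent.MP_66cee2_co.SL
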