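import Pool.Agent.MP_66cee2_co.SL.KitB

/-! Row LAY: neighbouring dimensions, and the two outer layers. -/

namespace Pool.Agent.MP_66cee2_co.SL

open Finset Pool.Agent.MP_9e8696_an.H67
open scoped BigOperators

namespace LAYA

theorem three (α : Type) [Fintype α] [DecidableEq α] (w : ℕ) (h : 3 * w ≤ Fintype.card α) :
    ∃ W : Fin 3 → Finset α, (∀ r, (W r).card = w) ∧ ∀ r r', r ≠ r' → Disjoint (W r) (W r') := by
  obtain ⟨φ⟩ : Nonempty (Fin 3 × Fin w ↪ α) :=
    Function.Embedding.nonempty_of_card_le (by simpa using h)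
  refine ⟨fun r => univ.image fun j => φ (r, j), fun r => ?_, fun r r' hr => ?_⟩
  · rw [card_image_of_injective _ fun a b hab => (Prod.ext_iff.1 (φ.injective hab)).2]
    simp
  · rw [Finset.disjoint_left]
    intro x hx hx'
    obtain ⟨a, -, rfl⟩ := mem_image.1 hx
    obtain ⟨b, -, hb⟩ := mem_image.1 hx'
    exact hr (Prod.ext_iff.1 (φ.injective hb)).1.symm

theorem sg_neg (b : Bool) : sg (!b) = -sg b := by cases b <;> simp [sg]

theorem first (hFS : RowFS) (hG : RowGEO) {d n s : ℕ} {f : Eu d → Eu n} {y : ℝ} (hs : 128 ≤ s)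
    (hd : s ^ 2 + s ≤ d) (hB : Bd2 f s (s ^ 2) y) : Bd2 f s (s ^ 2 - 1) (2 * y) := by
  intro ι _ _ c U e hι hU
  have h2 : 128 * 128 ≤ s ^ 2 := by nlinarith
  obtain ⟨U', hU'⟩ := hG.ext d 1 ι U hU (by omega)
  have h1 := (hFS ι (Fin 1) (Fin n) (by omega) e
    (cub f s (c - dl s • U' 0) (Sum.elim U U'))).1 (fun _ => false) e (by simp [chi, sg])
  rw [hG.fs] at h1
  have h3 := hB (ι ⊕ Fin 1) (c - dl s • U' 0) (Sum.elim U U') e
    (by rw [Fintype.card_sum, Fintype.card_fin]; omega) hU'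
  simp only [Fin.sum_univ_one, sg_false, one_smul, sub_add_cancel, Fintype.card_fin,
    pow_one] at h1
  linarith

theorem big (hFC : RowFC) (hG : RowGEO) {d n s : ℕ} {f : Eu d → Eu n} {y : ℝ} (hs : 128 ≤ s)
    (hB : Bd2 f s (s ^ 2) y) (κ : Type) [Fintype κ] [DecidableEq κ] (c : Eu d) (V : κ → Eu d)
    (e : Bool) (w : ℕ) (hw : w ≤ s) (hκ : Fintype.card κ = s ^ 2 + w) (hV : Orthonormal ℝ V) :
    eta e (cub f s c V) ≤ 3 * y := by
  have h2 : 128 * s ≤ s ^ 2 := by nlinarith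
  obtain ⟨W, hW, hD⟩ := three κ w (by omega)
  refine (hFC κ (Fin n) e (cub f s c V)).2 w W y hW hD (by omega) fun r ω e' => ?_
  rw [hG.fc]
  refine hB _ _ _ e' ?_ (hV.comp _ Subtype.val_injective)
  rw [Fintype.card_subtype_compl, Fintype.card_coe, hW, hκ]
  omega

end LAYA

open LAYA in
theorem rowLAY : OfLAY := by
  intro hFS hFC hG d n s f y hb hd hf hB
  have hs : 128 ≤ s := hb.ge128 le_rfl
  have hB' := first hFS hG hs hd hB
  refine ⟨hB', fun ι _ _ c U U' e hι hO => ?_⟩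
  obtain ⟨k, hk⟩ := hb.dvd
  have h2 : 128 * s ≤ s ^ 2 := by nlinarith
  have hU : Orthonormal ℝ U := hO.comp Sum.inl Sum.inl_injective
  have hU' : Orthonormal ℝ U' := hO.comp Sum.inr Sum.inr_injective
  have h3 : eta (px e (s / 64)) (cub f s c (Sum.elim U U')) ≤ 3 * y :=
    big hFC hG hs hB _ c _ _ (Fintype.card ι + s / 16 - s ^ 2) (by omega)
      (by rw [Fintype.card_sum, Fintype.card_fin]; omega) hO
  have hy : 0 ≤ y := by linarith [eta_nonneg (px e (s / 64)) (cub f s c (Sum.elim U U'))]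
  obtain ⟨ω, hω⟩ := (hFS ι (Fin (s / 16)) (Fin n) (by omega) (px e (s / 64))
    (cub f s c (Sum.elim U U'))).2 (by rw [Fintype.card_fin]; exact ⟨4 * k, by omega⟩)
    (by rw [Fintype.card_fin]; omega)
  rw [hG.fs, hG.fs] at hω
  simp only [sg_neg, neg_smul, sum_neg_distrib, smul_neg, ← sub_eq_add_neg] at hω
  set p : Eu d := dl s • ∑ v, sg (ω v) • U' v with hp
  have hn : ‖p‖ ^ 2 = 4 * dl s ^ 2 * (s / 64 : ℕ) := by
    rw [hp, norm_smul, mul_pow, Real.norm_eq_abs, sq_abs, ← real_inner_self_eq_norm_sq,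
      hU'.inner_sum]
    simp only [conj_trivial, sg_sq, sum_const, card_univ, Fintype.card_fin, nsmul_eq_mul, mul_one]
    rw [show s / 16 = 4 * (s / 64) by omega]
    push_cast
    ring
  have hin : ∀ i, inner ℝ p (U i) = 0 := by
    intro i
    rw [hp, real_inner_smul_left, sum_inner, sum_eq_zero, mul_zero]
    intro v _
    have : inner ℝ (U' v) (U i) = 0 := hO.2 (i := Sum.inr v) (j := Sum.inl i) Sum.inr_ne_inl
    rw [real_inner_smul_left, this, mul_zero]
  have ht : 4 * (s / 64) ≤ t0 s := by unfold t0; omega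
  have e0 : ∀ c' : Eu d, Edge (t0 s) (cub f s c' U) (cub f s c' U) := fun c' =>
    hG.edge d n s 0 f ι c' c' U (by omega) hf hU (by simp) (by simp) (Nat.zero_le _)
  have et : ∀ (c' : Eu d) (e' : Bool), eta e' (cub f s c' U) ≤ 24 * y := by
    intro c' e'
    rcases hι with h | h
    · linarith [hB ι c' U e' h hU]
    · linarith [hB' ι c' U e' (by omega) hU]
  refine ⟨p, Submodule.smul_mem _ _ (Submodule.sum_mem _ fun v _ =>
    Submodule.smul_mem _ _ (Submodule.subset_span ⟨v, rfl⟩)), hn, e0 _, e0 _, e0 _, ?_, ?_, ?_,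
    et _ _, et _ _, et _ _, by linarith⟩
  · refine hG.edge d n s _ f ι c (c + p) U (by omega) hf hU (fun i => ?_) ?_ (by omega)
    · rw [add_sub_cancel_left, hin]
    · rw [add_sub_cancel_left, hn]
  · refine hG.edge d n s _ f ι c (c - p) U (by omega) hf hU (fun i => ?_) ?_ (by omega)
    · rw [sub_sub_cancel_left, inner_neg_left, hin, neg_zero]
    · rw [sub_sub_cancel_left, norm_neg, hn]
  · have e1 : c - p - (c + p) = (-2 : ℝ) • p := by module
    refine hG.edge d n s _ f ι (c + p) (c - p) U (by omega) hf hU (fun i => ?_) ?_ ht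
    · rw [e1, real_inner_smul_left, hin, mul_zero]
    · rw [e1, norm_smul, mul_pow, hn, Real.norm_eq_abs, sq_abs]
      push_cast
      ring

end Pool.Agent.MP_66cee2_co.SL
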