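import Pool.Agent.MP_66cee2_co.SL.KitC

/-! The mean of the edge identity. -/

namespace Pool.Agent.MP_66cee2_co.SL

open Finset Pool.Agent.MP_9e8696_an.H67
open scoped BigOperators

namespace MA

variable {ι : Type} [Fintype ι] [DecidableEq ι] {ν : Type} [Fintype ν]

/-- one coordinate of the mean -/
theorem one (e : Bool) (hι : 3 ≤ Fintype.card ι) {t : ℕ} (ht : t ≤ Fintype.card ι) (g h : Fn ι) :
    (Ed e t fun σ τ => (g σ - h τ) ^ 2) = (av e g - av (px e t) h) ^ 2 +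
      (1 - l1 (Fintype.card ι) t) * (∑ i, c1 e g i ^ 2 + ∑ i, c1 (px e t) h i ^ 2) +
      l1 (Fintype.card ι) t * ∑ i, (c1 e g i - c1 (px e t) h i) ^ 2 +
      ip e (res e g) (res e g) + ip (px e t) (res (px e t) h) (res (px e t) h) -
      2 * ip e (res e g) (T t (res (px e t) h)) := by
  have h1 : (Ed e t fun σ τ => (g σ - h τ) ^ 2) =
      Ed e t fun σ τ => g σ * g σ + h τ * h τ - 2 * (g σ * h τ) :=
    Ed_congr e t fun σ R _ => by ring
  have h2 : ∑ i, (c1 e g i - c1 (px e t) h i) ^ 2 = ∑ i, c1 e g i ^ 2 +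
      ∑ i, c1 (px e t) h i ^ 2 - 2 * ∑ i, c1 e g i * c1 (px e t) h i := by
    rw [mul_sum, ← sum_add_distrib, ← sum_sub_distrib]
    exact sum_congr rfl fun i _ => by ring
  have h3 := res_sq e hι g
  have h4 := res_sq (px e t) hι h
  rw [h1, Ed_sub e t (fun σ τ => g σ * g σ + h τ * h τ) fun σ τ => 2 * (g σ * h τ),
    Ed_add e t (fun σ _ => g σ * g σ) fun _ τ => h τ * h τ, Ed_left e ht, Ed_right e ht,
    Ed_mul_left e t 2 fun σ τ => g σ * h τ, Ed_mul, ip_T_split e hι ht, h2]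
  change ip e g g + ip (px e t) h h - _ = _
  rw [h3, h4]
  ring

/-- the mean of the edge identity up to the spectral error -/
theorem mean (e : Bool) (hι : 3 ≤ Fintype.card ι) {t : ℕ} (ht : t ≤ Fintype.card ι) {μ H y : ℝ}
    (S : Spec ι t μ H) (hμ : 0 ≤ μ) {F F' : ν → Fn ι} (hE : Edge t F F') (hy : eta e F ≤ y)
    (hy' : eta (px e t) F' ≤ y) :
    |KK e (px e t) F F' + (1 - l1 (Fintype.card ι) t) *
      (∑ a, ∑ i, c1 e (F a) i ^ 2 + ∑ a, ∑ i, c1 (px e t) (F' a) i ^ 2) +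
      l1 (Fintype.card ι) t * DD e (px e t) F F' + eta e F + eta (px e t) F' - 1| ≤ 2 * (μ * y) := by
  have h1 : (Ed e t fun σ τ => ∑ a, (F a σ - F' a τ) ^ 2) = 1 := by
    rw [← Ed_const e ht (by omega) (1 : ℝ)]
    exact Ed_congr e t fun σ R hR => hE σ R hR
  rw [Ed_sum e t univ fun a σ τ => (F a σ - F' a τ) ^ 2] at h1
  simp only [one e hι ht, sum_add_distrib, sum_sub_distrib, ← mul_sum] at h1
  have h2 := S.sum_ip_T hμ e (bt e F) (or1_bt (px e t) hι F')
  have h0 : 0 ≤ y := (q2_nonneg e (bt e F)).trans hy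
  have h3 : √(q2 e (bt e F)) * (μ * √(q2 (px e t) (bt (px e t) F'))) ≤ √y * (μ * √y) := by
    gcongr
    · exact hy
    · exact hy'
  have h4 : √y * (μ * √y) = μ * y := by
    rw [mul_left_comm, Real.mul_self_sqrt h0]
  have h5 : KK e (px e t) F F' + (1 - l1 (Fintype.card ι) t) *
      (∑ a, ∑ i, c1 e (F a) i ^ 2 + ∑ a, ∑ i, c1 (px e t) (F' a) i ^ 2) +
      l1 (Fintype.card ι) t * DD e (px e t) F F' + eta e F + eta (px e t) F' - 1 =
      2 * ∑ a, ip e (bt e F a) (T t (bt (px e t) F' a)) := by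
    simp only [KK, DD, eta, q2, bt]
    linarith
  rw [h5, abs_mul, abs_two]
  linarith

end MA

theorem rowM : OfM := by
  rintro ⟨C, hC, H⟩
  refine ⟨4 * C, by linarith, fun s hs ι ν _ _ _ hι e h F F' y hh hF hF' hFF' hy hy' => ?_⟩
  have hB : Big C s := hs.mono (by linarith)
  have h128 := hB.ge128 hC
  have ht0 := t0_ge h128
  have h2t := two_t0 s
  have h3 : 3 ≤ Fintype.card ι := by omega
  have hle : t0 s ≤ Fintype.card ι := by omega
  have hS := (H s hB ι).2 hι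
  have S0 := hS 0 (by omega)
  rw [Nat.sub_zero] at S0
  have hμ : 0 ≤ C / (s : ℝ) ^ 2 := by positivity
  have hev := even_t0 hs.dvd
  have hp := px_t0_sub e hs.dvd (show h ≤ t0 s by omega)
  have e1 := MA.mean e h3 (by omega) (hS h hh) hμ hFF' hy (by rwa [hp])
  have e2 := MA.mean e h3 hle S0 hμ hF hy (by rwa [px_even e hev])
  have e3 := MA.mean (px e h) h3 hle S0 hμ hF' hy' (by rwa [px_even _ hev])
  rw [hp] at e1
  rw [px_even e hev] at e2
  rw [px_even _ hev] at e3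
  have k1 : KK e e F F = 0 := by simp [KK]
  have k2 : DD e e F F = 0 := by simp [DD]
  have k3 : KK (px e h) (px e h) F' F' = 0 := by simp [KK]
  have k4 : DD (px e h) (px e h) F' F' = 0 := by simp [DD]
  rw [k1, k2] at e2
  rw [k3, k4] at e3
  have hm : (0 : ℝ) < Fintype.card ι := by exact_mod_cast (by omega : 0 < Fintype.card ι)
  have ht : (0 : ℝ) < t0 s := by exact_mod_cast (by omega : 0 < t0 s)
  have hl : 1 - l1 (Fintype.card ι) (t0 s - h) =
      (1 - (h : ℝ) / t0 s) * (1 - l1 (Fintype.card ι) (t0 s)) := by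
    rw [l1, l1, Nat.cast_sub (show h ≤ t0 s by omega)]
    field_simp
    ring
  have hq0 : 0 ≤ (h : ℝ) / t0 s := by positivity
  have hq1 : (h : ℝ) / t0 s ≤ 1 := by
    rw [div_le_one ht]
    exact_mod_cast (show h ≤ t0 s by omega)
  rw [hl] at e1
  have hr : 4 * C * y / (s : ℝ) ^ 2 = 4 * (C / (s : ℝ) ^ 2 * y) := by ring
  rw [hr]
  generalize C / (s : ℝ) ^ 2 * y = z at e1 e2 e3
  generalize (h : ℝ) / t0 s = q at e1 hq0 hq1 ⊢
  generalize ∑ a, ∑ i, c1 e (F a) i ^ 2 = N at e1 e2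
  generalize ∑ a, ∑ i, c1 (px e h) (F' a) i ^ 2 = N' at e1 e3
  generalize 1 - l1 (Fintype.card ι) (t0 s) = w at e1 e2 e3
  rw [abs_le] at e1 e2 e3 ⊢
  obtain ⟨a1, a2⟩ := e1
  obtain ⟨b1, b2⟩ := e2
  obtain ⟨c1, c2⟩ := e3
  have hz : 0 ≤ z := by linarith
  have hq2 : 0 ≤ 1 - q := by linarith
  constructor
  · nlinarith [mul_le_mul_of_nonneg_left b2 hq2, mul_le_mul_of_nonneg_left c2 hq2,
      mul_nonneg hq0 hz]
  · nlinarith [mul_le_mul_of_nonneg_left b1 hq2, mul_le_mul_of_nonneg_left c1 hq2,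
      mul_nonneg hq0 hz]

end Pool.Agent.MP_66cee2_co.SL
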