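import Pool.Agent.MP_66cee2_co.SL.KitC

/-! From eigenvalues to operator bounds. -/

namespace Pool.Agent.MP_66cee2_co.SL

open Finset Pool.Agent.MP_9e8696_an.H67
open scoped BigOperators

namespace OPA

variable {ι : Type} [Fintype ι] [DecidableEq ι]

theorem pars (e : Bool) (h : Fn ι) : 2 * ip e h h = ∑ S : Finset ι, ip e h (chi S) ^ 2 := by
  have h1 := parseval_full fun σ => (1 + sg e * chi univ σ) * h σ
  simp only [mul_assoc] at h1
  refine Eq.trans ?_ h1
  rw [ip, av, mul_expect]
  refine expect_congr rfl fun σ _ => ?_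
  rcases wt_cases e σ with h0 | h0 <;> rw [h0] <;> ring

theorem ip_compl (e : Bool) (h : Fn ι) (S : Finset ι) :
    ip e h (chi Sᶜ) = sg e * ip e h (chi S) := by
  rw [ip, ip, av, av, mul_expect]
  refine expect_congr rfl fun σ _ => ?_
  rw [chi_compl]
  rcases sg_cases e with a | a <;> rcases chi_cases univ σ with b | b <;> rw [a, b] <;> ring

theorem ip_T_chi (e : Bool) (t : ℕ) (h : Fn ι) (S : Finset ι) :
    ip (px e t) (T t h) (chi S) = lam t S * ip e h (chi S) := by
  rw [← T_symm, show T t (chi S) = fun σ => lam t S * chi S σ from funext (T_chi t S),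
    ip_mul_right]

theorem sq_le {a c μ : ℝ} (h : c = 0 ∨ |a| ≤ μ) : (a * c) ^ 2 ≤ μ ^ 2 * c ^ 2 := by
  rcases h with rfl | h
  · simp
  · rw [mul_pow]
    exact mul_le_mul_of_nonneg_right (sq_le_sq' (abs_le.1 h).1 (abs_le.1 h).2) (sq_nonneg c)

theorem gen (e : Bool) (t k : ℕ) {μ : ℝ} {h : Fn ι}
    (hl : ∀ S : Finset ι, k + 1 ≤ S.card → S.card + (k + 1) ≤ Fintype.card ι → |lam t S| ≤ μ)
    (h0 : ∀ S : Finset ι, S.card ≤ k → ip e h (chi S) = 0) :
    ip (px e t) (T t h) (T t h) ≤ μ ^ 2 * ip e h h := by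
  have h1 : ∑ S : Finset ι, ip (px e t) (T t h) (chi S) ^ 2 ≤
      μ ^ 2 * ∑ S : Finset ι, ip e h (chi S) ^ 2 := by
    rw [mul_sum]
    refine sum_le_sum fun S _ => ?_
    rw [ip_T_chi]
    refine sq_le ?_
    by_cases a : S.card ≤ k
    · exact Or.inl (h0 S a)
    · by_cases b : Sᶜ.card ≤ k
      · left
        rw [← compl_compl S, ip_compl, h0 _ b, mul_zero]
      · have := card_add_card_compl S
        exact Or.inr (hl S (by omega) (by omega))
  rw [← pars, ← pars] at h1
  linarith

theorem low {e : Bool} {h : Fn ι} (hh : Or1 e h) (S : Finset ι) (hS : S.card ≤ 1) :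
    ip e h (chi S) = 0 := by
  rcases card_le_one_iff_subset_singleton' hS with rfl | ⟨i, rfl⟩
  · rw [show chi (∅ : Finset ι) = fun _ => 1 from funext chi_empty, ip_const_right, hh.1, mul_zero]
  · rw [chi_singleton]; exact hh.2 i
where
  card_le_one_iff_subset_singleton' {S : Finset ι} (hS : S.card ≤ 1) : S = ∅ ∨ ∃ i, S = {i} := by
    rcases Nat.le_one_iff_eq_zero_or_eq_one.1 hS with a | a
    · exact Or.inl (card_eq_zero.1 a)
    · exact Or.inr (card_eq_one.1 a)

theorem point (e : Bool) {t : ℕ} (ht : t ≤ Fintype.card ι) {D : ℝ}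
    (hD : (2 : ℝ) ^ Fintype.card ι ≤ D * (Fintype.card ι).choose t) (r : Fn ι) (σ : ι → Bool)
    (hσ : 1 + sg (px e t) * chi univ σ ≠ 0) : T t r σ ^ 2 ≤ D * ip e r r := by
  have hne : (powersetCard t (univ : Finset ι)).Nonempty :=
    powersetCard_nonempty.2 (by simpa using ht)
  have hc : (0 : ℝ) < (Fintype.card ι).choose t := by exact_mod_cast Nat.choose_pos ht
  have h1 := expect_mul_sq_le_sq_mul_sq (powersetCard t (univ : Finset ι))
    (fun R => r (fl R σ)) fun _ => (1 : ℝ)
  simp only [mul_one, one_pow, expect_const hne] at h1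
  refine le_trans h1 ?_
  rw [expect_eq_sum_div_card, card_powersetCard, card_univ, div_le_iff₀ hc]
  have h2 : ∑ R ∈ powersetCard t (univ : Finset ι), r (fl R σ) ^ 2 ≤
      ∑ R ∈ powersetCard t (univ : Finset ι),
        (1 + sg e * chi univ (fl R σ)) * (r (fl R σ) * r (fl R σ)) := by
    refine sum_le_sum fun R hR => ?_
    have a := wt_fl (px e t) R σ
    rw [(mem_powersetCard.1 hR).2, px_px, px_even e (Even.add_self t),
      (wt_cases _ σ).resolve_left hσ] at a
    rw [a]
    nlinarith [sq_nonneg (r (fl R σ))]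
  have h3 : ∑ R ∈ powersetCard t (univ : Finset ι),
        (1 + sg e * chi univ (fl R σ)) * (r (fl R σ) * r (fl R σ)) ≤
      ∑ τ, (1 + sg e * chi univ τ) * (r τ * r τ) := by
    rw [← sum_image (g := fun R => fl R σ)
      (f := fun τ => (1 + sg e * chi univ τ) * (r τ * r τ)) fun R _ R' _ h => fl_inj σ h]
    exact sum_le_sum_of_subset_of_nonneg (subset_univ _) fun τ _ _ =>
      mul_nonneg (wt_nonneg e τ) (mul_self_nonneg _)
  have h4 : ∑ τ, (1 + sg e * chi univ τ) * (r τ * r τ) = 2 ^ Fintype.card ι * ip e r r := by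
    have hc' : (Fintype.card (ι → Bool) : ℝ) = 2 ^ Fintype.card ι := by simp
    rw [ip, av, Fintype.expect_eq_sum_div_card, hc', mul_div_cancel₀ _ (by positivity)]
  have h5 := mul_le_mul_of_nonneg_right hD (ip_self_nonneg e r)
  linarith

end OPA

open OPA in
theorem rowOP : RowOP := by
  intro ι _ _ t μ μ' D hι ht hμ hμ' h2 h8 hD H hH
  refine ⟨fun e h hh => gen e t 1 h2 (low hh), fun e h hh => ?_⟩
  have hc : (0 : ℝ) < (Fintype.card ι).choose t := by exact_mod_cast Nat.choose_pos ht
  have hD0 : 0 ≤ D := by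
    by_contra hn
    have := mul_neg_of_neg_of_pos (not_le.1 hn) hc
    have : (0 : ℝ) < 2 ^ Fintype.card ι := by positivity
    linarith
  set A : Finset (Finset ι) := univ.filter fun S => S.card ≤ 7 with hA
  have mA : ∀ S, S ∈ A ↔ S.card ≤ 7 := fun S => by simp [hA]
  set l : Fn ι := fun σ => ∑ S ∈ A, ip e h (chi S) * chi S σ with hl
  set r : Fn ι := fun σ => h σ - l σ with hr
  have hX := ip_self_nonneg e h
  have r0 : ∀ S : Finset ι, S.card ≤ 7 → ip e r (chi S) = 0 := fun S hS => by
    rw [hr, ip_sub_left, ip_comm e l, hl, ip_sum_chi_left, sum_eq_single S,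
      ip_chi e (by omega), if_pos rfl, mul_one, sub_self]
    · intro S' hS' hne
      have := (mA S').1 hS'
      rw [ip_chi e (by omega), if_neg hne.symm, mul_zero]
    · exact fun hn => absurd ((mA S).2 hS) hn
  have rl : ip e r l = 0 := by
    rw [hl, ip_sum_chi_left]
    exact sum_eq_zero fun S hS => by rw [r0 S ((mA S).1 hS), mul_zero]
  have hrl : h = fun σ => l σ + r σ := funext fun σ => by simp [hr]
  have rr : ip e r r ≤ ip e h h := by
    have : ip e h h = ip e (fun σ => l σ + r σ) fun σ => l σ + r σ := by rw [← hrl]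
    rw [this, ip_add_left, ip_add_right, ip_add_right, ip_comm e l r, rl]
    linarith [ip_self_nonneg e l]
  have Tl : ∀ σ, T t l σ = ∑ S ∈ A, lam t S * ip e h (chi S) * chi S σ := fun σ => by
    rw [hl, T_sum t A fun S τ => ip e h (chi S) * chi S τ]
    exact sum_congr rfl fun S _ => by rw [T_mul_left, T_chi]; ring
  have a1 : (av (px e t) fun σ => T t l σ ^ 4) ≤ 2 * 64 ^ 7 * (μ ^ 2 * ip e h h) ^ 2 := by
    simp only [Tl]
    refine (hyper4 _ A 7 (fun S hS => (mA S).1 hS) _).trans ?_
    have b1 : ∑ S ∈ A, (lam t S * ip e h (chi S)) ^ 2 ≤ μ ^ 2 * ip e h h := by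
      refine le_trans ?_ (mul_le_mul_of_nonneg_left
        (bessel e A (fun S hS => by have := (mA S).1 hS; omega) h) (sq_nonneg μ))
      rw [mul_sum]
      refine sum_le_sum fun S hS => sq_le ?_
      have := (mA S).1 hS
      by_cases a : S.card ≤ 1
      · exact Or.inl (low hh S a)
      · exact Or.inr (h2 S (by omega) (by omega))
    have b0 : 0 ≤ ∑ S ∈ A, (lam t S * ip e h (chi S)) ^ 2 := sum_nonneg fun _ _ => sq_nonneg _
    gcongr
  have a2 : (av (px e t) fun σ => T t r σ ^ 4) ≤ D * ip e h h * (μ' ^ 2 * ip e h h) := by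
    have b1 := gen e t 7 h8 r0
    have b2 : (av (px e t) fun σ => T t r σ ^ 4) ≤
        av (px e t) fun σ => D * ip e r r * (T t r σ * T t r σ) :=
      av_mono' _ fun σ hσ => by
        have := mul_le_mul_of_nonneg_right (point e ht hD r σ hσ) (mul_self_nonneg (T t r σ))
        linarith
    rw [av_mul_left] at b2
    have b3 := ip_self_nonneg e r
    refine b2.trans (mul_le_mul (by gcongr) (b1.trans (by gcongr)) (ip_self_nonneg _ _)
      (by positivity))
  have a3 : (av (px e t) fun σ => T t h σ ^ 4) ≤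
      av (px e t) fun σ => 8 * T t l σ ^ 4 + 8 * T t r σ ^ 4 :=
    av_mono _ fun σ => by
      have : T t h σ = T t l σ + T t r σ := by rw [← T_add, ← hrl]
      rw [this]
      generalize T t l σ = a
      generalize T t r σ = b
      nlinarith [sq_nonneg (a - b), sq_nonneg (a + b), sq_nonneg (a ^ 2 - b ^ 2),
        mul_nonneg (sq_nonneg (a - b)) (sq_nonneg (a + b)), sq_nonneg ((a - b) ^ 2)]
  rw [av_add, av_mul_left, av_mul_left] at a3
  have a4 := mul_le_mul_of_nonneg_right hH (sq_nonneg (ip e h h))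
  nlinarith

end Pool.Agent.MP_66cee2_co.SL
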