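import Pool.Agent.MP_66cee2_co.SL.KitB

/-! Polynomials of low degree on half cubes. -/

set_option linter.unusedSectionVars false

namespace Pool.Agent.MP_66cee2_co.SL

open Finset Pool.Agent.MP_9e8696_an.H67
open scoped BigOperators

namespace POLYA

variable {ι : Type} [Fintype ι] [DecidableEq ι] {ν : Type} [Fintype ν]

theorem Sp_dot {p q r : Finset ι → Prop} (H : ∀ S S', p S → q S' → r (symmDiff S S'))
    {β γ : ν → Fn ι} (hβ : ∀ a, β a ∈ Sp p) (hγ : ∀ a, γ a ∈ Sp q) : dot β γ ∈ Sp r :=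
  Sp_sum univ fun a _ => Sp_mul H (hβ a) (hγ a)

theorem Sp_split {p : Finset ι → Prop} (i : ι) {h : Fn ι} (hh : h ∈ Sp p) :
    ∃ u v : Fn ι, u ∈ Sp (fun S => p S ∧ i ∈ S) ∧ v ∈ Sp (fun S => p S ∧ i ∉ S) ∧
      ∀ σ, h σ = u σ + v σ := by
  induction hh using Submodule.span_induction with
  | mem x hx =>
    obtain ⟨S, hS, rfl⟩ := hx
    by_cases hi : i ∈ S
    · exact ⟨chi S, 0, chi_mem_Sp ⟨hS, hi⟩, Submodule.zero_mem _, fun σ => by simp⟩
    · exact ⟨0, chi S, Submodule.zero_mem _, chi_mem_Sp ⟨hS, hi⟩, fun σ => by simp⟩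
  | zero => exact ⟨0, 0, Submodule.zero_mem _, Submodule.zero_mem _, fun σ => by simp⟩
  | add x y _ _ hx hy =>
    obtain ⟨u, v, h1, h2, h3⟩ := hx
    obtain ⟨u', v', h1', h2', h3'⟩ := hy
    exact ⟨_, _, Sp_add h1 h1', Sp_add h2 h2', fun σ => by
      rw [Pi.add_apply, h3, h3']; ring⟩
  | smul c x _ hx =>
    obtain ⟨u, v, h1, h2, h3⟩ := hx
    exact ⟨_, _, Sp_smul c h1, Sp_smul c h2, fun σ => by
      rw [Pi.smul_apply, smul_eq_mul, h3]; ring⟩

theorem Sp_one {h : Fn ι} (hh : h ∈ Sp fun S : Finset ι => S.card = 1) : ∃ c, h = lin c := by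
  induction hh using Submodule.span_induction with
  | mem x hx =>
    obtain ⟨S, hS, rfl⟩ := hx
    obtain ⟨i, rfl⟩ := card_eq_one.1 hS
    exact ⟨fun l => if l = i then 1 else 0, funext fun σ => by simp [lin, chi_singleton]⟩
  | zero => exact ⟨0, funext fun σ => by simp [lin]⟩
  | add x y _ _ hx hy =>
    obtain ⟨c, rfl⟩ := hx
    obtain ⟨c', rfl⟩ := hy
    exact ⟨c + c', funext fun σ => by simp [lin, add_mul, sum_add_distrib]⟩
  | smul a x _ hx =>
    obtain ⟨c, rfl⟩ := hx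
    exact ⟨a • c, funext fun σ => by simp [lin, mul_sum, mul_assoc]⟩

theorem xx_mem (i : ι) : xx i ∈ Sp fun S : Finset ι => S = {i} := xx_mem_Sp rfl

theorem rest_mem (e : Bool) (hι : 5 ≤ Fintype.card ι) (i : ι) {h : Fn ι}
    (hh : h ∈ Sp fun S : Finset ι => S.card = 2) :
    (fun σ => h σ - xx i σ * Dv e i h σ) ∈ Sp fun S : Finset ι => S.card = 2 ∧ i ∉ S := by
  obtain ⟨u, v, hu, hv, h3⟩ := Sp_split i hh
  have h1 : (fun σ => xx i σ * u σ) ∈ Sp fun S : Finset ι => S.card = 1 := by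
    refine Sp_mul (fun S S' hS hS' => ?_) (xx_mem i) hu
    have := card_symmDiff_add S S'
    rw [hS, singleton_inter_of_mem hS'.2, card_singleton, hS'.1] at this
    rw [hS]; omega
  have h2 : (fun σ => xx i σ * v σ) ∈ Sp fun S : Finset ι => S.card = 3 := by
    refine Sp_mul (fun S S' hS hS' => ?_) (xx_mem i) hv
    have := card_symmDiff_add S S'
    rw [hS, singleton_inter_of_notMem hS'.2, card_singleton, hS'.1, card_empty] at this
    rw [hS]; omega
  obtain ⟨c, hc⟩ := Sp_one h1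
  have h4 := (or1_of_Sp e (fun S hS => by omega) h2).c1
  have h5 : c1 e (fun σ => xx i σ * h σ) = c := by
    funext j
    rw [show (fun σ => xx i σ * h σ) = fun σ => xx i σ * u σ + xx i σ * v σ from
      funext fun σ => by rw [h3, mul_add], c1_add, h4, hc, c1_lin e (by omega)]
    simp
  have h6 : (fun σ => h σ - xx i σ * Dv e i h σ) = v := by
    funext σ
    rw [Dv, h5, ← hc, ← mul_assoc, xx_sq, h3]
    ring
  rwa [h6]

theorem b2_mem (e : Bool) (hι : 5 ≤ Fintype.card ι) (F : ν → Fn ι) (a : ν) :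
    b2 e F a ∈ Sp fun S : Finset ι => S.card = 2 := p2_mem_Sp e (or1_bt e (by omega) F a).1

theorem psi_mem (e : Bool) (hι : 5 ≤ Fintype.card ι) (F : ν → Fn ι) :
    psi e F ∈ Sp fun S : Finset ι => S.card ≤ 4 ∧ S.card % 2 = 0 := by
  refine Sp_sub (Sp_dot (fun S S' hS hS' => ?_) (b2_mem e hι F) (b2_mem e hι F))
    (Sp_const (by simp) _)
  have := card_symmDiff_add S S'
  omega

theorem not_mem {i : ι} {S S' : Finset ι} (h : i ∉ S) (h' : i ∉ S') : i ∉ symmDiff S S' := by
  simp [mem_symmDiff, h, h']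

/-- the contribution of one coordinate -/
theorem one (e : Bool) (hι : 16 ≤ Fintype.card ι) (F : ν → Fn ι) (i : ι) :
    ip e (dot (b2 e F) fun a => Dv e i (b2 e F a)) (dot (b2 e F) fun a => Dv e i (b2 e F a)) ≤
      288 * Yv e F i ^ 2 +
        (∑ S ∈ univ.filter fun S : Finset ι => S.card ≤ 4 ∧ i ∈ S, ip e (psi e F) (chi S) ^ 2) / 2 := by
  set D : ν → Fn ι := fun a => Dv e i (b2 e F a) with hD
  set R : ν → Fn ι := fun a σ => b2 e F a σ - xx i σ * D a σ with hR
  have mD : ∀ a, D a ∈ Sp fun S : Finset ι => S.card = 1 ∧ i ∉ S := fun a =>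
    Dv_mem_Sp e (or1_b2 e (by omega) F a).1 i
  have mR : ∀ a, R a ∈ Sp fun S : Finset ι => S.card = 2 ∧ i ∉ S := fun a =>
    rest_mem e (by omega) i (b2_mem e (by omega) F a)
  have mH : dot R D ∈ Sp fun S : Finset ι => S.card ≤ 3 ∧ i ∉ S :=
    Sp_dot (fun S S' hS hS' => ⟨by have := card_symmDiff_le S S'; omega, not_mem hS.2 hS'.2⟩) mR mD
  have mX : (fun σ => xx i σ * dot R D σ) ∈ Sp fun S : Finset ι => S.card ≤ 4 ∧ i ∈ S := by
    refine Sp_mul (fun S S' hS hS' => ⟨?_, ?_⟩) (xx_mem i) mH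
    · have := card_symmDiff_le S S'
      rw [hS, card_singleton] at this
      rw [hS]; omega
    · simp [hS, mem_symmDiff, hS'.2]
  have mG : (fun σ => dot D D σ + dot R R σ - q2 e (b2 e F)) ∈
      Sp fun S : Finset ι => S.card ≤ 4 ∧ i ∉ S :=
    Sp_sub (Sp_add
      (Sp_dot (fun S S' hS hS' => ⟨by have := card_symmDiff_le S S'; omega, not_mem hS.2 hS'.2⟩)
        mD mD)
      (Sp_dot (fun S S' hS hS' => ⟨by have := card_symmDiff_le S S'; omega, not_mem hS.2 hS'.2⟩)
        mR mR)) (Sp_const (by simp) _)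
  have e0 : ∀ a σ, b2 e F a σ = xx i σ * D a σ + R a σ := fun a σ => by simp [hR]
  have e1 : psi e F = fun σ => (dot D D σ + dot R R σ - q2 e (b2 e F)) +
      2 * (xx i σ * dot R D σ) := by
    funext σ
    have : dot (b2 e F) (b2 e F) σ = dot D D σ + dot R R σ + 2 * (xx i σ * dot R D σ) := by
      simp only [dot, mul_sum, ← sum_add_distrib]
      refine sum_congr rfl fun a _ => ?_
      rw [e0 a σ]
      linear_combination (D a σ * D a σ) * xx_sq i σ
    rw [psi, this]; ring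
  have e2 : dot (b2 e F) D = fun σ => xx i σ * dot D D σ + dot R D σ := by
    funext σ
    simp only [dot, mul_sum, ← sum_add_distrib]
    exact sum_congr rfl fun a _ => by rw [e0 a σ]; ring
  have e3 : ip e (psi e F) (fun σ => xx i σ * dot R D σ) = 2 * ip e (dot R D) (dot R D) := by
    rw [e1, ip_add_left, ip_mul_left, ip_xx_mul, ip_Sp e (fun S S' hS hS' =>
      ⟨fun h => hS.2 (h ▸ hS'.2), by omega⟩) mG mX, zero_add]
  have b1 := ip_Sp_le e (fun S hS => by omega) (psi e F) mX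
  rw [e3, ip_xx_mul] at b1
  have b2' := ip_self_nonneg e (dot R D)
  have b3 : 0 ≤ ∑ S ∈ univ.filter fun S : Finset ι => S.card ≤ 4 ∧ i ∈ S,
      ip e (psi e F) (chi S) ^ 2 := sum_nonneg fun _ _ => sq_nonneg _
  have b4 : 4 * ip e (dot R D) (dot R D) ≤ ∑ S ∈ univ.filter fun S : Finset ι => S.card ≤ 4 ∧ i ∈ S,
      ip e (psi e F) (chi S) ^ 2 := by
    rcases b2'.eq_or_lt with h | h
    · rw [← h]; linarith
    · nlinarith
  have b5 : q4 e D ≤ 12 * Yv e F i := by
    have := q4_Dv_le1 e (by omega) i (bt e F)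
    simp only [hD, Dv_b2 e (show 5 ≤ Fintype.card ι by omega)]
    exact this
  have b6 : ip e (dot D D) (dot D D) ≤ (12 * Yv e F i) ^ 2 := by
    rw [← nr_sq]
    exact pow_le_pow_left₀ (q4_nonneg e D) b5 2
  have b7 : ip e (dot (b2 e F) D) (dot (b2 e F) D) ≤
      2 * ip e (dot D D) (dot D D) + 2 * ip e (dot R D) (dot R D) := by
    rw [e2]
    unfold ip
    rw [← av_mul_left, ← av_mul_left, ← av_add]
    refine av_mono e fun σ => ?_
    have h1 := xx_sq i σ
    have h2 : xx i σ * dot D D σ * (xx i σ * dot D D σ) = dot D D σ * dot D D σ := by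
      linear_combination (dot D D σ * dot D D σ) * h1
    nlinarith [sq_nonneg (xx i σ * dot D D σ - dot R D σ)]
  linarith

theorem count (f : Finset ι → ℝ) (hf : ∀ S, 0 ≤ f S) :
    ∑ i, ∑ S ∈ univ.filter fun S : Finset ι => S.card ≤ 4 ∧ i ∈ S, f S ≤
      4 * ∑ S ∈ univ.filter fun S : Finset ι => S.card ≤ 4, f S := by
  simp only [sum_filter]
  rw [sum_comm, mul_sum]
  refine sum_le_sum fun S _ => ?_
  by_cases h : S.card ≤ 4
  · simp only [h, true_and, if_true]
    rw [← sum_filter, sum_const, nsmul_eq_mul, filter_mem_eq_inter, univ_inter]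
    exact mul_le_mul_of_nonneg_right (by exact_mod_cast h) (hf S)
  · simp [h]

end POLYA

open POLYA

theorem rowPOLY : RowPOLY := by
  refine ⟨6000, by norm_num, fun ι ν _ _ _ hι e F => ⟨⟨?_, fun i => ?_⟩, ?_, fun c => ?_, ?_⟩⟩
  · unfold psi
    rw [av_sub, av_dot_self, av_const e (by omega), sub_self]
  · exact ip_Sp e (fun S S' hS hS' => ⟨fun h => by
      have := hS.2
      rw [h, hS', card_singleton] at this
      omega, by rw [hS', card_singleton]; omega⟩) (psi_mem e (by omega) F) (xx_mem i)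
  · have h := hyper_Sp e 4 (by omega) (Sp_mono (fun S hS => hS.1) (psi_mem e (by omega) F))
    nlinarith [sq_nonneg (ip e (psi e F) (psi e F))]
  · refine ip_Sp (p := fun S : Finset ι => S.card ≤ 3 ∧ S.card % 2 = 1) e
      (fun S S' hS hS' => ⟨fun h => by rw [h] at hS; omega, by omega⟩)
      (Sp_dot (fun S S' hS hS' => ?_) (b2_mem e (by omega) F) fun a => lin_mem_Sp (c a))
      (psi_mem e (by omega) F)
    have := card_symmDiff_add S S'
    omega
  · have h1 := sum_le_sum fun i (_ : i ∈ univ) => one e hι F i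
    rw [sum_add_distrib, ← mul_sum, ← sum_div] at h1
    have h2 := count (fun S : Finset ι => ip e (psi e F) (chi S) ^ 2) fun _ => sq_nonneg _
    have h3 := bessel e (univ.filter fun S : Finset ι => S.card ≤ 4)
      (fun S hS => by have := (mem_filter.1 hS).2; omega) (psi e F)
    have h4 : 0 ≤ ∑ i, Yv e F i ^ 2 := sum_nonneg fun _ _ => sq_nonneg _
    have h5 := ip_self_nonneg e (psi e F)
    unfold Zv q2
    linarith

end Pool.Agent.MP_66cee2_co.SL
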