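import Pool.Agent.MP_66cee2_co.SL.KitB

/-! The centred squared length of the level two part is small. -/

namespace Pool.Agent.MP_66cee2_co.SL

open Finset Pool.Agent.MP_9e8696_an.H67
open scoped BigOperators

namespace PSIA

theorem le_of_sq {t c Q : ℝ} (hc : 0 ≤ c) (hQ : 0 ≤ Q) (h : t ^ 2 ≤ c ^ 2 * Q) : t ≤ c * √Q := by
  refine le_trans (le_abs_self t) (abs_le_of_sq_le_sq ?_ (by positivity))
  rw [mul_pow, Real.sq_sqrt hQ]
  exact h

variable {ι : Type} [Fintype ι] [DecidableEq ι] {ν : Type} [Fintype ν]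

theorem hold (e : Bool) (β γ : ν → Fn ι) (ψ : Fn ι) {Cp y c Q : ℝ} (hCp : 0 ≤ Cp) (hc : 0 ≤ c)
    (hQ : 0 ≤ Q) (h4 : (av e fun σ => ψ σ ^ 4) ≤ (Cp * ip e ψ ψ) ^ 2) (hγ : q4 e γ ≤ y)
    (h : q2 e β * y * Cp ≤ c ^ 2 * Q) : |ip e (dot β γ) ψ| ≤ c * √Q * nr e ψ := by
  have h1 := nr_sq_le e (mul_nonneg hCp (ip_self_nonneg e ψ)) h4
  have h2 := q2_nonneg e β
  have h3 := q4_nonneg e γ
  have h5 := nr_nonneg e fun σ => ψ σ * ψ σ
  have h6 := nr_nonneg e ψ
  refine (ip_dot_scalar_le e β γ ψ).trans (abs_le_of_sq_le_sq' ?_ (by positivity)).2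
  rw [mul_pow, Real.sq_sqrt h2, Real.sq_sqrt (mul_nonneg h3 h5), mul_pow, mul_pow,
    Real.sq_sqrt hQ, nr_sq]
  have h7 := ip_self_nonneg e ψ
  calc q2 e β * (q4 e γ * nr e fun σ => ψ σ * ψ σ)
      ≤ q2 e β * (y * (Cp * ip e ψ ψ)) :=
        mul_le_mul_of_nonneg_left (mul_le_mul hγ h1 h5 (h3.trans hγ)) h2
    _ = q2 e β * y * Cp * ip e ψ ψ := by ring
    _ ≤ c ^ 2 * Q * ip e ψ ψ := mul_le_mul_of_nonneg_right h h7

end PSIA

open PSIA in
theorem rowPSI : OfPSI := by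
  rintro ⟨Ca, hCa, hA⟩ ⟨Cr, hCr, hR⟩ ⟨Cp, hCp, hP⟩
  obtain ⟨K, hK⟩ : ∃ K : ℝ, K = Ca + Cr + Cp := ⟨_, rfl⟩
  have hKa : Ca ≤ K := by linarith
  have hKr : Cr ≤ K := by linarith
  have hKp : Cp ≤ K := by linarith
  have hK1 : 1 ≤ K := by linarith
  have hKK : K ≤ K ^ 2 := by nlinarith
  refine ⟨211 ^ 2 * K ^ 2, by nlinarith, ?_⟩
  intro s hs ι ν _ _ _ hι e F P M X hT hk ha
  have hs128 : 128 ≤ s := hs.ge128 (by nlinarith)
  have hι16 : 16 ≤ Fintype.card ι := by rw [hι]; nlinarith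
  have hs1 : (1 : ℝ) ≤ s := by exact_mod_cast (by omega : 1 ≤ s)
  have hX : 0 ≤ X := (th_nonneg e F).trans hT.thF
  obtain ⟨-, a2', a3, -⟩ := hA s (hs.mono (by nlinarith)) ι ν hι e F X hT.eF hT.thF
  obtain ⟨p1, p2', p3, -⟩ := hP ι ν hι16 e F
  have r1 := hR s (hs.mono (by nlinarith)) ι ν hι e F P M X hT (psi e F) p1
  obtain ⟨r, hr⟩ : ∃ r : ℝ, r = √s := ⟨_, rfl⟩
  have hr2 : r ^ 2 = s := by rw [hr]; exact Real.sq_sqrt (by linarith)
  have hr1 : 1 ≤ r := by rw [hr]; exact Real.one_le_sqrt.2 hs1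
  have hr0 : 0 < r := by linarith
  rw [← hr]
  have hw := q2_nonneg e (bw e F)
  have hwX : 0 ≤ q2 e (bw e F) * X := mul_nonneg hw hX
  have hXr : 0 ≤ X ^ 2 / r := by positivity
  obtain ⟨Q, hQ⟩ : ∃ Q : ℝ, Q = q2 e (bw e F) * X + X ^ 2 / r := ⟨_, rfl⟩
  rw [← hQ]
  have hQ0 : 0 ≤ Q := by linarith
  have hQ1 : q2 e (bw e F) * X ≤ Q := by linarith
  have hQ2 : X ^ 2 / r ≤ Q := by linarith
  have hn := nr_nonneg e (psi e F)
  have hsq := Real.sqrt_nonneg Q
  -- the first term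
  have e1 : ip e (psi e F) (psi e F) = ip e (dot (bt e F) (bt e F)) (psi e F) -
      ip e (dot (bw e F) fun a σ => bt e F a σ + b2 e F a σ) (psi e F) := by
    have h1 : ip e (psi e F) (psi e F) = ip e (dot (b2 e F) (b2 e F)) (psi e F) -
        ip e (fun _ => q2 e (b2 e F)) (psi e F) := ip_sub_left e _ _ _
    rw [h1, ip_const_left, p1.1, mul_zero, sub_zero, ← ip_sub_left]
    refine ip_congr e fun σ => ?_
    congr 1
    simp only [dot, bw, ← sum_sub_distrib]
    exact sum_congr rfl fun a _ => by ring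
  have t1' : |ip e (dot (bw e F) fun a σ => bt e F a σ + b2 e F a σ) (psi e F)| ≤
      14 * K * √Q * nr e (psi e F) := by
    refine hold e _ _ _ (y := 184 * X) (by linarith) (by positivity) hQ0 p2' ?_ ?_
    · have h1 := q4_add_le e (bt e F) (b2 e F)
      have h2 := q4_b2_le e (by omega) F
      have h3 := eta_le_th e (by omega) F
      have h4 := hT.thF
      have h5 : q4 e (bt e F) = th e F := rfl
      linarith
    · calc q2 e (bw e F) * (184 * X) * Cp = 184 * Cp * (q2 e (bw e F) * X) := by ring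
        _ ≤ (14 * K) ^ 2 * Q := mul_le_mul (by nlinarith) hQ1 hwX (by positivity)
  -- the third term
  have e3 : ip e (dot (bt e F) fun a => lin (a2 e e F P M a)) (psi e F) =
      ip e (dot (bw e F) fun a => lin (a2 e e F P M a)) (psi e F) := by
    have h1 := p3 (a2 e e F P M)
    rw [← sub_zero (ip e (dot (bt e F) _) _), ← h1, ← ip_sub_left]
    refine ip_congr e fun σ => ?_
    congr 1
    simp only [dot, bw, ← sum_sub_distrib]
    exact sum_congr rfl fun a _ => by ring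
  have t3 : |ip e (dot (bw e F) fun a => lin (a2 e e F P M a)) (psi e F)| ≤
      4 * K * √Q * nr e (psi e F) := by
    refine hold e _ _ _ (y := 12 * X) (by linarith) (by positivity) hQ0 p2' ?_ ?_
    · have h1 := q4_lin_le e (by omega) (a2 e e F P M)
      linarith
    · calc q2 e (bw e F) * (12 * X) * Cp = 12 * Cp * (q2 e (bw e F) * X) := by ring
        _ ≤ (4 * K) ^ 2 * Q := mul_le_mul (by nlinarith) hQ1 hwX (by positivity)
  -- the second term
  have e2 : ip e (cmb (k2 e e F P M) (bt e F)) (psi e F) =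
      ip e (cmb (k2 e e F P M) (b2 e F)) (psi e F) +
        ip e (cmb (k2 e e F P M) (bw e F)) (psi e F) := by
    rw [← ip_add_left]
    refine ip_congr e fun σ => ?_
    congr 1
    simp only [cmb, bw, ← sum_add_distrib]
    exact sum_congr rfl fun a _ => by ring
  have hrr : 1 / r ^ 2 ≤ 1 / r := one_div_le_one_div_of_le hr0 (by nlinarith)
  have u1 : s * nr e (cmb (k2 e e F P M) (b2 e F)) ≤ K * √Q := by
    refine le_of_sq (by linarith) hQ0 ?_
    rw [mul_pow, nr_sq]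
    have h1 := (a3 (k2 e e F P M)).trans (mul_le_mul_of_nonneg_left hk (by positivity))
    calc (s : ℝ) ^ 2 * ip e (cmb (k2 e e F P M) (b2 e F)) (cmb (k2 e e F P M) (b2 e F))
        ≤ (s : ℝ) ^ 2 * (Ca * X / s ^ 2 * (X / s)) := mul_le_mul_of_nonneg_left h1 (by positivity)
      _ = Ca * (X ^ 2 * (1 / r ^ 2)) := by rw [hr2]; field_simp
      _ ≤ K ^ 2 * (X ^ 2 * (1 / r)) :=
        mul_le_mul (by linarith) (mul_le_mul_of_nonneg_left hrr (by positivity)) (by positivity)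
          (by positivity)
      _ ≤ K ^ 2 * Q := mul_le_mul_of_nonneg_left (by rw [mul_one_div]; exact hQ2) (by positivity)
  have u2 : s * nr e (cmb (k2 e e F P M) (bw e F)) ≤ K * √Q := by
    refine le_of_sq (by linarith) hQ0 ?_
    rw [mul_pow, nr_sq]
    have h0 : √(cov e (bw e F) (bw e F)) ≤ K * X / r ^ 3 := by
      refine Real.sqrt_le_iff.2 ⟨by positivity, a2'.trans ?_⟩
      rw [← hr2, div_pow, mul_pow, ← pow_mul, ← pow_mul]
      exact div_le_div_of_nonneg_right (mul_le_mul_of_nonneg_right (by linarith) (by positivity))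
        (by positivity)
    have h1 := (ip_cmb_le e (k2 e e F P M) (bw e F)).trans
      (mul_le_mul hk h0 (Real.sqrt_nonneg _) (by positivity))
    calc (s : ℝ) ^ 2 * ip e (cmb (k2 e e F P M) (bw e F)) (cmb (k2 e e F P M) (bw e F))
        ≤ (s : ℝ) ^ 2 * (X / s * (K * X / r ^ 3)) := mul_le_mul_of_nonneg_left h1 (by positivity)
      _ = K * (X ^ 2 / r) := by rw [← hr2]; field_simp
      _ ≤ K ^ 2 * Q := mul_le_mul hKK hQ2 hXr (by positivity)
  have u0 : Cr * X / s ≤ K * √Q := by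
    refine le_of_sq (by linarith) hQ0 ?_
    have h1 : 1 / r ^ 4 ≤ 1 / r := one_div_le_one_div_of_le hr0 (by nlinarith)
    calc (Cr * X / s) ^ 2 = Cr ^ 2 * (X ^ 2 * (1 / r ^ 4)) := by rw [← hr2]; field_simp
      _ ≤ K ^ 2 * (X ^ 2 * (1 / r)) :=
        mul_le_mul (by nlinarith) (mul_le_mul_of_nonneg_left h1 (by positivity)) (by positivity)
          (by positivity)
      _ ≤ K ^ 2 * Q := mul_le_mul_of_nonneg_left (by rw [mul_one_div]; exact hQ2) (by positivity)
  have v1 : s * ip e (cmb (k2 e e F P M) (b2 e F)) (psi e F) ≤ K * √Q * nr e (psi e F) := by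
    refine (mul_le_mul_of_nonneg_left (ip_le e _ _) (by linarith)).trans ?_
    rw [← mul_assoc]
    exact mul_le_mul_of_nonneg_right u1 hn
  have v2 : s * ip e (cmb (k2 e e F P M) (bw e F)) (psi e F) ≤ K * √Q * nr e (psi e F) := by
    refine (mul_le_mul_of_nonneg_left (ip_le e _ _) (by linarith)).trans ?_
    rw [← mul_assoc]
    exact mul_le_mul_of_nonneg_right u2 hn
  have v0 := (le_abs_self _).trans (r1.trans (mul_le_mul_of_nonneg_right u0 hn))
  rw [e2, e3] at v0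
  have v3 := (le_abs_self _).trans t3
  have v4 := (neg_le_abs _).trans t1'
  have fin : nr e (psi e F) ^ 2 ≤ 211 * K * √Q * nr e (psi e F) := by
    rw [nr_sq, e1]
    linarith
  have fin2 : nr e (psi e F) ≤ 211 * K * √Q := by
    rcases hn.eq_or_lt with h | h
    · rw [← h]; positivity
    · exact le_of_mul_le_mul_right (by rw [← sq]; exact fin) h
  calc ip e (psi e F) (psi e F) = nr e (psi e F) ^ 2 := (nr_sq e _).symm
    _ ≤ (211 * K * √Q) ^ 2 := pow_le_pow_left₀ hn fin2 2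
    _ = 211 ^ 2 * K ^ 2 * Q := by rw [mul_pow, mul_pow, Real.sq_sqrt hQ0]

end Pool.Agent.MP_66cee2_co.SL
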