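import Pool.Agent.MP_66cee2_co.SL.KitC

/-! The radial identity. -/

namespace Pool.Agent.MP_66cee2_co.SL

open Finset Pool.Agent.MP_9e8696_an.H67
open scoped BigOperators

namespace RA

variable {ι : Type} [Fintype ι] [DecidableEq ι] {ν : Type} [Fintype ν]

/-- the conditional mean of the identity -/
theorem cond {t : ℕ} (ht : t ≤ Fintype.card ι) {β β' : ν → Fn ι} {c : ℝ} {α α' : Fn ι}
    {N : ι → ι → ℝ} {b b' : ι → Fn ι} (h : Idn t β β' c α α' N b b') (σ : ι → Bool) :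
    α σ - l1 (Fintype.card ι) t * dot b xx σ = dot β (fun a => T t (β' a)) σ - c - T t α' σ +
      l1 (Fintype.card ι) t * qf N σ + dot (fun i => T t (b' i)) xx σ := by
  have h1 : T t (fun τ => ∑ a, β a σ * β' a τ) σ = T t (fun τ => c + sgm α α' N b b' σ τ) σ :=
    T_congr t σ (h σ)
  have h2 : T t (fun τ => ∑ i, ∑ j, N i j * (xx i σ * xx j τ)) σ =
      l1 (Fintype.card ι) t * qf N σ := by
    rw [T_sum t univ fun i τ => ∑ j, N i j * (xx i σ * xx j τ), qf, mul_sum]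
    refine sum_congr rfl fun i _ => ?_
    rw [T_sum t univ fun j τ => N i j * (xx i σ * xx j τ), mul_sum]
    refine sum_congr rfl fun j _ => ?_
    rw [T_mul_left, T_mul_left, T_xx1 ht]
    ring
  have h3 : T t (fun τ => ∑ j, b j σ * xx j τ) σ = l1 (Fintype.card ι) t * dot b xx σ := by
    rw [T_sum t univ fun j τ => b j σ * xx j τ, dot, mul_sum]
    refine sum_congr rfl fun j _ => ?_
    rw [T_mul_left, T_xx1 ht]
    ring
  have h4 : T t (fun τ => ∑ i, b' i τ * xx i σ) σ = dot (fun i => T t (b' i)) xx σ := by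
    rw [T_sum t univ fun i τ => b' i τ * xx i σ, dot]
    exact sum_congr rfl fun i _ => T_mul_right t _ _ σ
  have h5 : T t (fun τ => ∑ a, β a σ * β' a τ) σ = dot β (fun a => T t (β' a)) σ := by
    rw [T_sum t univ fun a τ => β a σ * β' a τ, dot]
    exact sum_congr rfl fun a _ => T_mul_left t _ _ σ
  unfold sgm at h1
  rw [h5, T_add, T_sub, T_sub, T_sub, T_add, T_const ht, T_const ht, h2, h3, h4] at h1
  linarith

/-- the tested form -/
theorem test {s t : ℕ} {C D X : ℝ} (hs : 128 ≤ s) (hι : Fintype.card ι = s ^ 2) (he : Even t)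
    (ht : t ≤ s ^ 2) (hl0 : 0 ≤ l1 (s ^ 2) t) (hl : l1 (s ^ 2) t ≤ 2 / s) (hC : 1 ≤ C) (hD : 1 ≤ D)
    (S : Spec ι t (1 / (8 * s ^ 2)) (C / s ^ 2)) (e : Bool) (F F' : ν → Fn ι)
    (hN : Nrm e (al e F F') (al e F' F) (NN e F F') (bb e F F') (bb e F' F))
    (hF : th e F ≤ X) (hF' : th e F' ≤ X) (hS : St s e t F F' D X) (ψ : Fn ι) (hψ : Or1 e ψ) :
    |ip e (al e F F') ψ - l1 (s ^ 2) t * ip e (dot (bb e F F') xx) ψ| ≤
      (C + 6 * D) * X / s ^ 2 * nr e ψ := by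
  obtain ⟨⟨c, hc, -⟩, hZ⟩ := hS
  have hs0 : (128 : ℝ) ≤ s := by exact_mod_cast hs
  have hm : 128 * 128 ≤ Fintype.card ι := by rw [hι, sq]; exact Nat.mul_le_mul hs hs
  have hX : 0 ≤ X := (th_nonneg e F).trans hF
  have hn := nr_nonneg e ψ
  have h1 : ip e (al e F F') ψ - l1 (s ^ 2) t * ip e (dot (bb e F F') xx) ψ =
      ip e ψ (dot (bt e F) fun a => T t (bt e F' a)) - ip e (al e F' F) (T t ψ) +
      l1 (s ^ 2) t * ip e (qf (NN e F F')) ψ + ip e (dot (fun i => T t (bb e F' F i)) xx) ψ := by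
    rw [← ip_mul_left, ← ip_sub_left, ← hι, funext (cond (hι ▸ ht) hc), ip_add_left, ip_add_left,
      ip_sub_left, ip_sub_left, ip_mul_left, ip_comm e (fun _ => c), hψ.ip_const, T_symm' e he,
      ip_comm e ψ, sub_zero]
  have hZ0 : √(ZZ e F F') ≤ D * X / s := by
    refine Real.sqrt_le_iff.2 ⟨by positivity, hZ.trans ?_⟩
    rw [div_pow, mul_pow]
    gcongr
    nlinarith
  obtain ⟨-, z2, z3, -, z5⟩ := le_zz e (al e F F') (al e F' F) (NN e F F') (bb e F F') (bb e F' F)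
  have y2 : nr e (al e F' F) ≤ D * X / s := (Real.sqrt_le_sqrt z2).trans hZ0
  have y3 : √(∑ i, ∑ j, NN e F F' i j ^ 2) ≤ D * X / s := (Real.sqrt_le_sqrt z3).trans hZ0
  have y5 : √(q2 e (bb e F' F)) ≤ D * X / s := (Real.sqrt_le_sqrt z5).trans hZ0
  have b1 : |ip e ψ (dot (bt e F) fun a => T t (bt e F' a))| ≤ C * X / s ^ 2 * nr e ψ := by
    refine (S.edge_a (by positivity) he e ψ _ (or1_bt e (by omega) F')).trans ?_
    have u1 : √(q4 e (bt e F)) ≤ √X := Real.sqrt_le_sqrt hF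
    have u2 : √(q2 e (bt e F')) ≤ √X :=
      Real.sqrt_le_sqrt ((q2_le_q4 e (by omega) _).trans hF')
    calc nr e ψ * (√(q4 e (bt e F)) * (C / s ^ 2 * √(q2 e (bt e F'))))
        ≤ nr e ψ * (√X * (C / s ^ 2 * √X)) := by gcongr
      _ = C * (√X * √X) / s ^ 2 * nr e ψ := by ring
      _ = C * X / s ^ 2 * nr e ψ := by rw [Real.mul_self_sqrt hX]
  have b2 : |ip e (al e F' F) (T t ψ)| ≤ D * X / s ^ 2 * nr e ψ := by
    have u := S.abs_ip_T (by positivity) e (al e F' F) (h := ψ) (by rwa [px_even e he])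
    rw [px_even e he] at u
    refine u.trans ?_
    calc nr e (al e F' F) * (1 / (8 * s ^ 2) * nr e ψ)
        ≤ D * X / s * (1 / s * nr e ψ) := by
          gcongr
          nlinarith
      _ = D * X / s ^ 2 * nr e ψ := by ring
  have b3 : |l1 (s ^ 2) t * ip e (qf (NN e F F')) ψ| ≤ 4 * D * X / s ^ 2 * nr e ψ := by
    rw [abs_mul, abs_of_nonneg hl0]
    have u := (nr_qf_le e (by omega) hN.tr).trans (mul_le_mul_of_nonneg_left y3 zero_le_two)
    calc l1 (s ^ 2) t * |ip e (qf (NN e F F')) ψ| ≤ 2 / s * (2 * (D * X / s) * nr e ψ) := by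
          refine mul_le_mul hl ((abs_ip_le e _ _).trans ?_) (abs_nonneg _) (by positivity)
          gcongr
      _ = 4 * D * X / s ^ 2 * nr e ψ := by ring
  have b4 : |ip e (dot (fun i => T t (bb e F' F i)) xx) ψ| ≤ D * X / s ^ 2 * nr e ψ := by
    refine (abs_ip_le e _ _).trans (mul_le_mul_of_nonneg_right ?_ hn)
    refine (nr_dot_xx_le e _).trans ?_
    rw [sqrt_card hι]
    have u := S.q2_T e (γ := bb e F' F) (by rw [px_even e he]; exact hN.b')
    rw [px_even e he] at u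
    have u2 : √(q2 e fun i => T t (bb e F' F i)) ≤ 1 / (8 * s ^ 2) * √(q2 e (bb e F' F)) := by
      refine Real.sqrt_le_iff.2 ⟨by positivity, ?_⟩
      rwa [mul_pow, Real.sq_sqrt (q2_nonneg e _)]
    calc (s : ℝ) * √(q2 e fun i => T t (bb e F' F i)) ≤ s * (1 / s ^ 2 * (D * X / s)) := by
          refine mul_le_mul_of_nonneg_left (u2.trans ?_) (by positivity)
          gcongr
          nlinarith
      _ = D * X / s ^ 2 := by field_simp
  rw [h1]
  have e1 : (C + 6 * D) * X / s ^ 2 * nr e ψ = C * X / s ^ 2 * nr e ψ + D * X / s ^ 2 * nr e ψ +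
      4 * D * X / s ^ 2 * nr e ψ + D * X / s ^ 2 * nr e ψ := by ring
  rw [e1]
  rw [abs_le] at b1 b2 b3 b4 ⊢
  constructor <;> linarith [b1.1, b1.2, b2.1, b2.2, b3.1, b3.2, b4.1, b4.2]

theorem ip_al (e : Bool) (F F' : ν → Fn ι) {ψ : Fn ι} (hψ : Or1 e ψ) :
    ip e (al e F F') ψ = ip e (al e F F) ψ -
      ip e (cmb (fun a => av e (F' a) - av e (F a)) (bt e F)) ψ := by
  have h1 : ∀ G : ν → Fn ι, ip e (al e F G) ψ = ip e (al0 e F G) ψ := by
    intro G
    unfold al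
    rw [ip_sub_left, ip_const_left, hψ.1, mul_zero, sub_zero]
  rw [h1, h1]
  unfold al0
  rw [ip_sub_left, ip_sub_left]
  simp only [sub_self, mul_zero, sum_const_zero]
  rw [ip_comm e (fun _ => 0), hψ.ip_const, sub_zero, ip_cmb_left,
    ip_sum_left e univ fun a σ => (F a σ - av e (F a)) * (av e (F' a) - av e (F a))]
  congr 1
  refine sum_congr rfl fun a _ => ?_
  simp only [mul_comm _ (av e (F' a) - av e (F a))]
  rw [ip_mul_left, ip_sub_left, ip_const_left, hψ.1, mul_zero, sub_zero, bt,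
    ip_comm e (res _ _), ip_res e hψ, ip_comm]

end RA

open RA in
theorem rowR : OfR := by
  rintro ⟨C, hC, hSp⟩ hST ⟨D, hD, hU⟩
  refine ⟨128 * (C + 6 * D) + 8 * D, by linarith, ?_⟩
  intro s hB ι ν _ _ _ hι e F P M X hT ψ hψ
  have hs : 128 ≤ s := hB.ge128 (by linarith)
  have hs0 : (128 : ℝ) ≤ s := by exact_mod_cast hs
  have hm : 128 * 128 ≤ Fintype.card ι := by rw [hι, sq]; exact Nat.mul_le_mul hs hs
  have hX : 0 ≤ X := (th_nonneg e F).trans hT.thF
  have hn := nr_nonneg e ψ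
  obtain ⟨-, S0, S1⟩ := (hSp s (hB.mono (by linarith)) ι).1 hι
  obtain ⟨U0, U1⟩ := hU s (hB.mono (by linarith)) ι ν hι e F X hT.eF hT.thF
  obtain ⟨a1, a2', a3, a4, -, -⟩ := t_facts hB.dvd hs (Or.inl rfl)
  obtain ⟨b1, b2', b3, b4, -, -⟩ := t_facts hB.dvd hs (Or.inr rfl)
  obtain ⟨n0, -, -, r0⟩ := hST ι ν (by omega) e F F
  obtain ⟨nP, -, rP, -⟩ := hST ι ν (by omega) e F P
  obtain ⟨nM, -, rM, -⟩ := hST ι ν (by omega) e F M
  obtain ⟨-, -, rF, -⟩ := hST ι ν (by omega) e F F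
  have k0 := test hs hι a1 a2' a3 a4 hC hD S0 e F F n0 hT.thF hT.thF U0 ψ hψ
  have kP := test hs hι b1 b2' b3 b4 hC hD S1 e F P nP hT.thF hT.thP
    (U1 P hT.eP hT.thP hT.eFP hT.dP) ψ hψ
  have kM := test hs hι b1 b2' b3 b4 hC hD S1 e F M nM hT.thF hT.thM
    (U1 M hT.eM hT.thM hT.eFM hT.dM) ψ hψ
  rw [l1_t0 hs] at k0
  rw [l1_t1 hB.dvd hs, ip_al e F _ hψ] at kP kM
  have c1' : ip e (cmb (k2 e e F P M) (bt e F)) ψ =
      ip e (cmb (fun a => av e (P a) - av e (F a)) (bt e F)) ψ +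
        ip e (cmb (fun a => av e (M a) - av e (F a)) (bt e F)) ψ := by
    simp only [ip_cmb_left, ← sum_add_distrib, k2]
    exact sum_congr rfl fun a _ => by ring
  have c2' : ip e (dot (bt e F) fun a => lin (a2 e e F P M a)) ψ =
      ip e (dot (bb e F P) xx) ψ + ip e (dot (bb e F M) xx) ψ - 2 * ip e (dot (bb e F F) xx) ψ := by
    rw [← ip_add_left, ← ip_mul_left, ← ip_sub_left]
    refine ip_congr e fun σ => ?_
    rw [rP, rM, rF]
    congr 1
    simp only [dot, lin, a2, mul_sum, ← sum_add_distrib, ← sum_sub_distrib]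
    exact sum_congr rfl fun a _ => sum_congr rfl fun i _ => by ring
  have c3' : ip e (dot (bb e F F) xx) ψ = ip e (al e F F) ψ - ip e (qf (NN e F F)) ψ / 2 -
      ip e (dot (bt e F) (bt e F)) ψ / 2 := by
    rw [funext r0, ip_sub_left, ip_sub_left, ip_div_left, ip_div_left, ip_sub_left,
      ip_const_left, hψ.1, mul_zero, sub_zero]
  have hZ0 : √(ZZ e F F) ≤ D * X / s := by
    refine Real.sqrt_le_iff.2 ⟨by positivity, U0.2.trans ?_⟩
    rw [div_pow, mul_pow]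
    gcongr
    nlinarith
  obtain ⟨z1, -, z3, -, -⟩ := le_zz e (al e F F) (al e F F) (NN e F F) (bb e F F) (bb e F F)
  have y1 : |ip e (al e F F) ψ| ≤ D * X / s * nr e ψ :=
    (abs_ip_le e _ _).trans (mul_le_mul_of_nonneg_right ((Real.sqrt_le_sqrt z1).trans hZ0) hn)
  have y3 : |ip e (qf (NN e F F)) ψ| ≤ 2 * (D * X / s) * nr e ψ :=
    (abs_ip_le e _ _).trans (mul_le_mul_of_nonneg_right ((nr_qf_le e (by omega) n0.tr).trans
      (mul_le_mul_of_nonneg_left ((Real.sqrt_le_sqrt z3).trans hZ0) zero_le_two)) hn)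
  rw [c1', c2']
  set A := ip e (al e F F) ψ
  set Q := ip e (qf (NN e F F)) ψ
  set G := ip e (dot (bt e F) (bt e F)) ψ
  set uP := ip e (cmb (fun a => av e (P a) - av e (F a)) (bt e F)) ψ
  set uM := ip e (cmb (fun a => av e (M a) - av e (F a)) (bt e F)) ψ
  set vP := ip e (dot (bb e F P) xx) ψ
  set vM := ip e (dot (bb e F M) xx) ψ
  set vF := ip e (dot (bb e F F) xx) ψ
  have hsp : (0 : ℝ) < s := by linarith
  have key : G - 32 * s * (uP + uM) - 33 * (vP + vM - 2 * vF) =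
      32 * s * ((A - uP - 33 / (32 * s) * vP) + (A - uM - 33 / (32 * s) * vM) -
        2 * (A - 1 / s * vF)) + (2 * A - Q) := by
    rw [show G = 2 * A - Q - 2 * vF by rw [c3']; ring]
    field_simp
    ring
  rw [key]
  have w1 : |(A - uP - 33 / (32 * s) * vP) + (A - uM - 33 / (32 * s) * vM) -
      2 * (A - 1 / s * vF)| ≤ 4 * ((C + 6 * D) * X / s ^ 2 * nr e ψ) := by
    rw [abs_le] at k0 kP kM ⊢
    constructor <;> linarith [k0.1, k0.2, kP.1, kP.2, kM.1, kM.2]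
  have w2 : |2 * A - Q| ≤ 4 * (D * X / s * nr e ψ) := by
    rw [abs_le] at y1 y3 ⊢
    constructor <;> linarith [y1.1, y1.2, y3.1, y3.2]
  refine (abs_add_le _ _).trans ?_
  rw [abs_mul, abs_of_nonneg (by positivity : (0 : ℝ) ≤ 32 * s)]
  have w3 := mul_le_mul_of_nonneg_left w1 (by positivity : (0 : ℝ) ≤ 32 * s)
  have w4 : 32 * s * (4 * ((C + 6 * D) * X / s ^ 2 * nr e ψ)) =
      128 * (C + 6 * D) * X / s * nr e ψ := by
    field_simp
    ring
  have w5 : 0 ≤ D * X / s * nr e ψ := by positivity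
  have w6 : (128 * (C + 6 * D) + 8 * D) * X / s * nr e ψ =
      128 * (C + 6 * D) * X / s * nr e ψ + 8 * (D * X / s * nr e ψ) := by ring
  linarith

end Pool.Agent.MP_66cee2_co.SL
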