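import Pool.Agent.MP_66cee2_co.SL.KitC

/-! Spectral bounds from the eigenvalue bounds. -/

namespace Pool.Agent.MP_66cee2_co.SL

open Finset Pool.Agent.MP_9e8696_an.H67
open scoped BigOperators

namespace SPECA

theorem mono {ι : Type} [Fintype ι] [DecidableEq ι] {t : ℕ} {μ μ' H : ℝ} (S : Spec ι t μ H)
    (h0 : 0 ≤ μ) (h : μ ≤ μ') : Spec ι t μ' H :=
  ⟨fun e g hg => (S.two e g hg).trans
    (mul_le_mul_of_nonneg_right (pow_le_pow_left₀ h0 h 2) (ip_self_nonneg e g)), S.four⟩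

theorem abs_l2 {s m h : ℕ} (hs : 128 ≤ s) (hm : m = s ^ 2 ∨ m + 1 = s ^ 2) (hh : 2 * h ≤ s) :
    |l2 m (t0 s - h)| ≤ 5 / (s : ℝ) ^ 2 := by
  have h0 : (128 : ℝ) ≤ s := by exact_mod_cast hs
  have h1 := t0_ge hs
  have h2 : (2 : ℝ) * h ≤ s := by exact_mod_cast hh
  have h3 : (0 : ℝ) ≤ h := Nat.cast_nonneg h
  have h4 : (m : ℝ) ≤ (s : ℝ) ^ 2 := by exact_mod_cast (by omega : m ≤ s ^ 2)
  have h5 : (s : ℝ) ^ 2 ≤ m + 1 := by exact_mod_cast (by omega : s ^ 2 ≤ m + 1)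
  have h6 : (16384 : ℝ) ≤ (s : ℝ) ^ 2 := by nlinarith
  have h7 : (0 : ℝ) < m * (m - 1) := mul_pos (by linarith) (by linarith)
  rw [l2, Nat.cast_sub (by omega), t0_cast, abs_div, abs_of_pos h7,
    div_le_div_iff₀ h7 (by positivity)]
  generalize ha : (m : ℝ) - 2 * (((s : ℝ) ^ 2 - s) / 2 - h) = a
  have a1 : a ^ 2 ≤ (2 * s) ^ 2 := pow_le_pow_left₀ (by linarith) (by linarith) 2
  have a2 : |a ^ 2 - m| ≤ 4 * (s : ℝ) ^ 2 :=
    abs_le.2 ⟨by nlinarith [sq_nonneg a], by nlinarith⟩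
  have a3 : ((s : ℝ) ^ 2 - 1) * ((s : ℝ) ^ 2 - 2) ≤ m * (m - 1) :=
    mul_le_mul (by linarith) (by linarith) (by linarith) (by linarith)
  refine (mul_le_mul_of_nonneg_right a2 (by positivity)).trans ?_
  nlinarith

theorem num {s a B E C : ℝ} {k : ℕ} (hs : 1 ≤ s) (hk : k ≤ 3) (hB : 0 ≤ B) (hC : 1 ≤ C)
    (h : 16 * 64 ^ 7 * a ^ 4 + 8 * B * E ^ 2 ≤ C) :
    16 * 64 ^ 7 * (a / s ^ k) ^ 4 + 8 * (B * s ^ 2) * (E / s ^ 7) ^ 2 ≤ (C / s ^ k) ^ 4 := by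
  have h0 : 0 < s := by linarith
  have h1 : 8 * (B * s ^ 2) * (E / s ^ 7) ^ 2 ≤ 8 * B * E ^ 2 / (s ^ k) ^ 4 := by
    rw [show 8 * (B * s ^ 2) * (E / s ^ 7) ^ 2 = 8 * B * E ^ 2 / s ^ 12 by field_simp, ← pow_mul]
    exact div_le_div_of_nonneg_left (by positivity) (by positivity)
      (pow_le_pow_right₀ hs (by omega))
  refine (add_le_add le_rfl h1).trans ?_
  rw [div_pow, div_pow, ← mul_div_assoc, ← add_div]
  exact div_le_div_of_nonneg_right (h.trans (le_self_pow₀ hC (by norm_num))) (by positivity)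

end SPECA

open SPECA in
theorem rowSPEC : OfSPEC := by
  rintro ⟨B, hB1, hB⟩ ⟨E, hE1, hE⟩ hOP
  obtain ⟨C, c1, c2, c3, c4⟩ : ∃ C : ℝ, 8 * E ≤ C ∧ B ≤ C ∧ 5 ≤ C ∧
      16 * 64 ^ 7 * (E + 5) ^ 4 + 8 * B * E ^ 2 ≤ C := by
    have : 0 ≤ 16 * 64 ^ 7 * (E + 5) ^ 4 + 8 * B * E ^ 2 := by positivity
    exact ⟨16 * 64 ^ 7 * (E + 5) ^ 4 + 8 * B * E ^ 2 + 8 * E + B, by linarith, by linarith,
      by linarith, by linarith⟩
  have c0 : 1 ≤ C := by linarith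
  refine ⟨C, c0, fun s hs ι _ _ => ?_⟩
  have s1 := hs.ge128 c0
  have s2 : (128 : ℝ) ≤ s := by exact_mod_cast s1
  have s3 := hs.ge
  have s4 := two_t0 s
  have s5 := t0_ge s1
  have key : (Fintype.card ι = s ^ 2 ∨ Fintype.card ι + 1 = s ^ 2) → ∀ h : ℕ, 2 * h ≤ s →
      ∀ (a : ℝ) (k : ℕ), 0 ≤ a → a ≤ E + 5 → k ≤ 3 → E / (s : ℝ) ^ 3 ≤ a / s ^ k →
      |l2 (Fintype.card ι) (t0 s - h)| ≤ a / s ^ k →
      Spec ι (t0 s - h) (a / s ^ k) (C / s ^ k) := fun hm h hh a k a0 a1 hk a2 a3 => by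
    have ht : t0 s - h ≤ Fintype.card ι := by omega
    have hS := hE s (hs.mono (by linarith)) ι hm h hh
    refine hOP ι _ _ (E / s ^ 7) (B * s ^ 2) (by omega) ht (by positivity) (by positivity)
      (fun S h1 h2 => ?_) (fun S => (hS S).2)
      (hB s _ _ (by linarith) (by omega) (by omega) (by omega) (by omega)) _
      (num (by linarith) hk (by linarith) c0 (le_trans (by gcongr) c4))
    by_cases e1 : S.card = 2
    · rwa [lam_two ht e1]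
    by_cases e2 : S.card + 2 = Fintype.card ι
    · rwa [← abs_lam_compl, lam_two ht (by rw [card_compl]; omega)]
    exact ((hS S).1 (by omega) (by omega)).trans a2
  have e8 : ∀ a : ℝ, 1 / 8 ≤ a → E / (s : ℝ) ^ 3 ≤ a / s ^ 2 := fun a ha => by
    rw [div_le_div_iff₀ (by positivity) (by positivity), pow_succ' (s : ℝ) 2, ← mul_assoc]
    exact mul_le_mul_of_nonneg_right (by nlinarith) (by positivity)
  refine ⟨fun hm => ?_, fun hm h hh => mono (key hm h hh 5 2 (by norm_num) (by linarith)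
    (by norm_num) (e8 5 (by norm_num)) (abs_l2 s1 hm hh)) (by positivity) (by gcongr)⟩
  have k2 : ∀ h : ℕ, 2 * h ≤ s → (t0 s - h = t0 s ∨ t0 s - h = t1 s) →
      Spec ι (t0 s - h) (1 / (8 * s ^ 2)) (C / s ^ 2) := fun h hh ht => by
    obtain ⟨-, -, -, -, f1, f2⟩ := t_facts hs.dvd s1 ht
    rw [← div_div] at f2 ⊢
    exact key (.inl hm) h hh _ 2 (by norm_num) (by linarith) (by norm_num) (e8 _ le_rfl)
      (by rwa [hm, abs_of_nonneg f1])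
  refine ⟨mono (key (.inl hm) 0 (by omega) E 3 (by linarith) (by linarith) le_rfl le_rfl ?_)
    (by positivity) (by gcongr; linarith), k2 0 (by omega) (.inl rfl),
    k2 (s / 64) (by omega) (.inr rfl)⟩
  rw [hm, Nat.sub_zero, l2_t0, abs_zero]
  positivity

end Pool.Agent.MP_66cee2_co.SL
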