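import Pool.Agent.MP_66cee2_co.SL.KitC

/-! The algebra of the edge identity (row STAR, helper79). -/

set_option linter.unusedSectionVars false

namespace Pool.Agent.MP_66cee2_co.SL

open Finset Pool.Agent.MP_9e8696_an.H67
open scoped BigOperators

namespace STARA

variable {ι : Type} [Fintype ι] [DecidableEq ι] {ν : Type} [Fintype ν]

lemma bb_sum (e : Bool) (F F' : ν → Fn ι) (σ τ : ι → Bool) :
    ∑ j, bb e F F' j σ * xx j τ = ∑ a, bt e F a σ * lin (c1 e (F' a)) τ := by
  simp only [bb, cmb, lin, sum_mul, mul_sum]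
  rw [sum_comm]
  exact sum_congr rfl fun a _ => sum_congr rfl fun j _ => by ring

lemma gg_sum (e : Bool) (F F' : ν → Fn ι) (σ τ : ι → Bool) :
    ∑ i, ∑ j, GG e F F' i j * (xx i σ * xx j τ) =
      ∑ a, lin (c1 e (F a)) σ * lin (c1 e (F' a)) τ := by
  simp only [GG, lin, sum_mul_sum]
  simp only [sum_mul]
  rw [sum_comm (s := (univ : Finset ν))]
  refine sum_congr rfl fun i _ => ?_
  rw [sum_comm]
  exact sum_congr rfl fun a _ => sum_congr rfl fun j _ => by ring

lemma nn_sum (e : Bool) (F F' : ν → Fn ι) (σ τ : ι → Bool) :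
    ∑ i, ∑ j, NN e F F' i j * (xx i σ * xx j τ) =
      ∑ i, ∑ j, GG e F F' i j * (xx i σ * xx j τ) -
        (∑ k, GG e F F' k k) / Fintype.card ι * ∑ i, xx i σ * xx i τ := by
  rw [mul_sum, ← sum_sub_distrib]
  refine sum_congr rfl fun i _ => ?_
  simp only [NN, sub_mul, sum_sub_distrib, ite_mul, zero_mul, sum_ite_eq, mem_univ, if_true]

lemma nn_tr (hι : 0 < Fintype.card ι) (e : Bool) (F F' : ν → Fn ι) :
    ∑ i, NN e F F' i i = 0 := by
  have h : (Fintype.card ι : ℝ) ≠ 0 := by exact_mod_cast hι.ne'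
  simp only [NN, if_true, sum_sub_distrib, sum_const, card_univ, nsmul_eq_mul]
  field_simp
  ring

lemma key (e : Bool) (F F' : ν → Fn ι) (σ τ : ι → Bool) :
    ∑ a, (F a σ - av e (F a)) * (F' a τ - av e (F' a)) =
      ∑ i, ∑ j, NN e F F' i j * (xx i σ * xx j τ) +
        (∑ k, GG e F F' k k) / Fintype.card ι * ∑ i, xx i σ * xx i τ +
        ∑ j, bb e F F' j σ * xx j τ + ∑ i, bb e F' F i τ * xx i σ +
        ∑ a, bt e F a σ * bt e F' a τ := by
  rw [nn_sum, sub_add_cancel, gg_sum, bb_sum, bb_sum, ← sum_add_distrib, ← sum_add_distrib,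
    ← sum_add_distrib]
  refine sum_congr rfl fun a _ => ?_
  simp only [bt, res]
  ring

lemma polar (e : Bool) (F F' : ν → Fn ι) (σ τ : ι → Bool) :
    ∑ a, (F a σ - av e (F a)) * (F' a τ - av e (F' a)) = al0 e F F' σ + al0 e F' F τ +
      (∑ a, (av e (F' a) - av e (F a)) ^ 2 - ∑ a, (F a σ - F' a τ) ^ 2) / 2 := by
  simp only [al0, sum_div, sub_div, ← sum_sub_distrib, ← sum_add_distrib]
  exact sum_congr rfl fun a _ => by ring

lemma or1_bb (hι : 3 ≤ Fintype.card ι) (e : Bool) (F F' : ν → Fn ι) (j : ι) :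
    Or1 e (bb e F F' j) := Or1.cmb _ (or1_bt e hι F)

lemma av_al (hι : 0 < Fintype.card ι) (e : Bool) (F F' : ν → Fn ι) : av e (al e F F') = 0 := by
  unfold al
  rw [av_sub, av_const e hι, sub_self]

lemma al0_self (hι : 0 < Fintype.card ι) (e : Bool) (F : ν → Fn ι) (σ : ι → Bool) :
    al0 e F F σ = qf (NN e F F) σ / 2 + (∑ k, GG e F F k k) / 2 + dot (bb e F F) xx σ +
      dot (bt e F) (bt e F) σ / 2 := by
  have h : (Fintype.card ι : ℝ) ≠ 0 := by exact_mod_cast hι.ne'
  have h1 := key e F F σ σ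
  simp only [xx_sq, sum_const, card_univ, nsmul_eq_mul, mul_one, div_mul_cancel₀ _ h] at h1
  simp only [← sq] at h1
  simp only [al0, sub_self, mul_zero, sum_const_zero, sub_zero, qf, dot, ← sq, h1]
  ring

end STARA

open STARA

theorem rowSTAR : RowSTAR := by
  intro ι ν _ _ _ hι e F F'
  have h0 : 0 < Fintype.card ι := by omega
  refine ⟨⟨av_al h0 e F F', av_al h0 e F' F, nn_tr h0 e F F', or1_bb hι e F F',
    or1_bb hι e F' F⟩, fun t hE => ?_, fun σ => bb_sum e F F' σ σ, fun σ => ?_⟩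
  · refine ⟨av e (al0 e F F') + av e (al0 e F' F) +
      (∑ a, (av e (F' a) - av e (F a)) ^ 2 - 1) / 2 -
      (∑ k, GG e F F' k k) / Fintype.card ι * (Fintype.card ι - 2 * t), fun σ R hR => ?_⟩
    have h1 := key e F F' σ (fl R σ)
    rw [polar, hE σ R hR, sum_xx_fl, hR] at h1
    simp only [sgm, al]
    linarith
  · have h1 : av e (al0 e F F) = (∑ k, GG e F F k k) / 2 + eta e F / 2 := by
      rw [av_congr e (al0_self h0 e F), av_add, av_add, av_add, av_div,
        av_const e h0, av_div, av_qf e hι, nn_tr h0, av_dot_self, av_dot]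
      have h2 : ∑ j, ip e (bb e F F j) (xx j) = 0 :=
        sum_eq_zero fun j _ => (or1_bb hι e F F j).2 j
      rw [h2, eta]
      ring
    simp only [al]
    rw [h1, al0_self h0]
    ring

end Pool.Agent.MP_66cee2_co.SL
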