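import Pool.Agent.MP_66cee2_co.SL.UA

/-! The test of the edge identity against a positive kernel. -/

set_option linter.unusedSectionVars false

namespace Pool.Agent.MP_66cee2_co.SL

open Finset Pool.Agent.MP_9e8696_an.H67
open scoped BigOperators

namespace TLA

variable {ι : Type} [Fintype ι] [DecidableEq ι] {ν ν' : Type} [Fintype ν] [Fintype ν']

section spec
variable {t : ℕ} {μ H Z : ℝ} {e : Bool} {γ : ν' → Fn ι}

theorem kW (S : Spec ι t μ H) (hH : 0 ≤ H) (he : Even t) (hι : 3 ≤ Fintype.card ι)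
    (ht : t ≤ Fintype.card ι) (hl : 0 ≤ l1 (Fintype.card ι) t)
    (hγ : ∀ b, Or1 e (γ b)) (w : ι → Fn ι) (hw : q2 e w ≤ Z) :
    |Ed e t fun σ τ => (∑ b, γ b σ * γ b τ) * ∑ j, w j σ * xx j τ| ≤
      √Z * (l1 (Fintype.card ι) t * √(Zv e γ) + H * √(Fintype.card ι) * q4 e γ) := by
  have hX : 0 ≤ q4 e γ := q4_nonneg e γ
  have h2 : q2 e γ ≤ q4 e γ := q2_le_q4 e (by omega) γ
  have hw' : √(q2 e w) ≤ √Z := Real.sqrt_le_sqrt hw
  have hr := S.edge_w hH hι he ht e w γ hγ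
  have hr' : √(q2 e w) * (√(q4 e γ) * (H * √(Fintype.card ι) * √(q2 e γ))) ≤
      √Z * (H * √(Fintype.card ι) * q4 e γ) := by
    rw [mul_left_comm (√(q4 e γ))]
    exact mul_le_mul hw' (mul_le_mul_of_nonneg_left (UAA.sqrt_mul_le hX le_rfl h2)
      (by positivity)) (by positivity) (Real.sqrt_nonneg _)
  have hm := sum_ip_le e w fun j => dot γ fun a => Dv e j (γ a)
  have hm2 : |∑ j, ip e (w j) (dot γ fun a => Dv e j (γ a))| ≤ √Z * √(Zv e γ) :=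
    hm.trans (mul_le_mul_of_nonneg_right hw' (Real.sqrt_nonneg _))
  have hm3 := mul_le_mul_of_nonneg_left hm2 hl
  rw [← abs_of_nonneg hl, ← abs_mul, abs_of_nonneg hl] at hm3
  rw [Ed_K_w]
  have h4 := abs_le.1 (hr.trans hr')
  have h5 := abs_le.1 hm3
  rw [abs_le]
  constructor <;> linarith [h4.1, h4.2, h5.1, h5.2]

theorem kS (S : Spec ι t μ H) (hH : 0 ≤ H) (he : Even t) (hι : 3 ≤ Fintype.card ι)
    (ht : t ≤ Fintype.card ι) (hl : 0 ≤ l1 (Fintype.card ι) t) (hγ : ∀ b, Or1 e (γ b))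
    (α α' : Fn ι) (N : ι → ι → ℝ) (b b' : ι → Fn ι) (hZ : zz e α α' N b b' ≤ Z) :
    (Ed e t fun σ τ => (∑ a, γ a σ * γ a τ) * sgm α α' N b b' σ τ) ≤
      2 * (H * q4 e γ * √Z) +
        3 * (√Z * (l1 (Fintype.card ι) t * √(Zv e γ) + H * √(Fintype.card ι) * q4 e γ)) := by
  obtain ⟨z1, z2, z3, z4, z5⟩ := le_zz e α α' N b b'
  have z3' : (q2 e fun j => lin fun i => N i j) ≤ zz e α α' N b b' := by
    rwa [q2_lin e hι fun j i => N i j, sum_comm]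
  have k1 := abs_le.1 (UAA.kA S hH he (by omega) hγ le_rfl le_rfl α (z1.trans hZ))
  have k2 := abs_le.1 (UAA.kA S hH he (by omega) hγ le_rfl le_rfl α' (z2.trans hZ))
  have k3 := abs_le.1 (kW S hH he hι ht hl hγ _ (z3'.trans hZ))
  have k4 := abs_le.1 (kW S hH he hι ht hl hγ b (z4.trans hZ))
  have k5 := abs_le.1 (kW S hH he hι ht hl hγ b' (z5.trans hZ))
  have e2 : (Ed e t fun σ τ => (∑ a, γ a σ * γ a τ) * α' τ) =
      Ed e t fun σ τ => (∑ a, γ a σ * γ a τ) * α' σ := by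
    rw [Ed_symm e he]
    exact Ed_congr e t fun σ R _ => by simp only [mul_comm (γ _ σ)]
  have e5 : (Ed e t fun σ τ => (∑ a, γ a σ * γ a τ) * ∑ i, b' i τ * xx i σ) =
      Ed e t fun σ τ => (∑ a, γ a σ * γ a τ) * ∑ i, b' i σ * xx i τ := by
    rw [Ed_symm e he]
    exact Ed_congr e t fun σ R _ => by simp only [mul_comm (γ _ σ)]
  have e0 := UAA.Ed_five e t (fun σ τ => (∑ a, γ a σ * γ a τ) * α σ)
    (fun σ τ => (∑ a, γ a σ * γ a τ) * α' τ)
    (fun σ τ => (∑ a, γ a σ * γ a τ) * ∑ j, lin (fun i => N i j) σ * xx j τ)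
    (fun σ τ => (∑ a, γ a σ * γ a τ) * ∑ j, b j σ * xx j τ)
    fun σ τ => (∑ a, γ a σ * γ a τ) * ∑ i, b' i τ * xx i σ
  rw [e2, e5] at e0
  simp only [UAA.sgm_eq, mul_sub, mul_add]
  rw [e0]
  linarith [k1.1, k1.2, k2.1, k2.2, k3.1, k3.2, k4.1, k4.2, k5.1, k5.2]

/-- the product of two positive kernels -/
theorem cov_le (S : Spec ι t μ H) (hμ : 0 ≤ μ) (he : Even t) (hι : 3 ≤ Fintype.card ι)
    (ht : t ≤ Fintype.card ι) (hl : 0 ≤ l1 (Fintype.card ι) t) (e : Bool) (β : ν → Fn ι)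
    (γ : ν' → Fn ι) :
    cov e β γ ≤ (Ed e t fun σ τ => (∑ b, γ b σ * γ b τ) * ∑ a, β a σ * β a τ) +
      μ * (q4 e β * q4 e γ) := by
  have h1 : (Ed e t fun σ τ => (∑ b, γ b σ * γ b τ) * ∑ a, β a σ * β a τ) =
      ∑ a, ∑ b, ip e (fun σ => β a σ * γ b σ) (T t fun σ => β a σ * γ b σ) := by
    simp only [← Ed_mul]
    rw [← sum_congr rfl fun a _ => Ed_sum e t univ fun b σ τ => β a σ * γ b σ * (β a τ * γ b τ),
      ← Ed_sum e t univ fun a σ τ => ∑ b, β a σ * γ b σ * (β a τ * γ b τ)]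
    refine Ed_congr e t fun σ R _ => ?_
    rw [mul_comm, sum_mul_sum]
    exact sum_congr rfl fun a _ => sum_congr rfl fun b _ => by ring
  have h2 : ∑ a, ∑ b, ip e (fun σ => β a σ * γ b σ) (fun σ => β a σ * γ b σ) =
      ip e (dot β β) (dot γ γ) := by
    unfold dot
    rw [ip_sum_left e univ fun a σ => β a σ * β a σ]
    refine sum_congr rfl fun a _ => ?_
    rw [ip_sum_right e univ _ fun b σ => γ b σ * γ b σ]
    exact sum_congr rfl fun b _ => ip_congr e fun σ => by ring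
  have h3 := mul_le_mul_of_nonneg_left (ip_dot_le e β γ) hμ
  have h4 : cov e β γ - μ * ip e (dot β β) (dot γ γ) ≤
      ∑ a, ∑ b, ip e (fun σ => β a σ * γ b σ) (T t fun σ => β a σ * γ b σ) := by
    rw [← h2, cov, mul_sum, ← sum_sub_distrib]
    refine sum_le_sum fun a _ => ?_
    rw [mul_sum, ← sum_sub_distrib]
    exact sum_le_sum fun b _ => S.ip_T_ge hμ hι he ht hl e fun σ => β a σ * γ b σ
  rw [h1]
  linarith

end spec

end TLA

theorem rowTL : OfTL := by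
  rintro ⟨C₀, hC₀, hS⟩ - ⟨C, hC, hU⟩
  have hCC : C ≤ C₀ * C := by nlinarith
  have hCC' : C₀ ≤ C₀ * C := by nlinarith
  refine ⟨7 * (C₀ * C), by linarith, ?_⟩
  intro s hs ι ν ν' _ _ _ _ hι e F X hF hX γ hγ
  have hs0 : Big C₀ s := hs.mono (by linarith)
  have hs1 : Big C s := hs.mono (by linarith)
  have h128 := hs0.ge128 hC₀
  have hsr : (128 : ℝ) ≤ s := by exact_mod_cast h128
  have hs' : (0 : ℝ) < s := by linarith
  obtain ⟨he, htl, hl0, -, -, -⟩ := t_facts hs.dvd h128 (Or.inl rfl)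
  have hl : l1 (Fintype.card ι) (t0 s) = 1 / s := by rw [hι, l1_t0 h128]
  have h3 : 3 ≤ Fintype.card ι := by
    rw [hι]
    nlinarith
  have S : Spec ι (t0 s) (C₀ / s ^ 3) (C₀ / s ^ 3) := ((hS s hs0 ι).1 hι).1
  have hμ : 0 ≤ C₀ / (s : ℝ) ^ 3 := by positivity
  have hX0 : 0 ≤ X := (th_nonneg e F).trans hX
  rw [← hι] at htl hl0
  obtain ⟨⟨c, hc, hc'⟩, hZ⟩ := (hU s hs1 ι ν hι e F X hF hX).1
  have hZ' : ZZ e F F ≤ (C * X / s) ^ 2 := by
    refine hZ.trans ?_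
    rw [div_pow, mul_pow]
    gcongr
    nlinarith
  have hq : 0 ≤ q4 e γ := q4_nonneg e γ
  have k0 := TLA.cov_le S hμ he h3 htl hl0 e (bt e F) γ
  have k1 := UAA.kK S hμ he (by omega) hγ le_rfl le_rfl
  have k2 := TLA.kS S hμ he h3 htl hl0 hγ _ _ _ _ _ hZ'
  rw [Real.sqrt_sq (by positivity), sqrt_card hι, hl] at k2
  have e1 : (Ed e (t0 s) fun σ τ => (∑ b, γ b σ * γ b τ) * ∑ a, bt e F a σ * bt e F a τ) =
      c * (Ed e (t0 s) fun σ τ => ∑ b, γ b σ * γ b τ) +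
        Ed e (t0 s) fun σ τ => (∑ b, γ b σ * γ b τ) *
          sgm (al e F F) (al e F F) (NN e F F) (bb e F F) (bb e F F) σ τ := by
    rw [← Ed_mul_left, ← Ed_add]
    refine Ed_congr e _ fun σ R hR => ?_
    rw [hc σ R hR]
    ring
  have k3 : c * (Ed e (t0 s) fun σ τ => ∑ b, γ b σ * γ b τ) ≤
      C * X / s ^ 2 * (C₀ / s ^ 3 * q4 e γ) := by
    refine (le_abs_self _).trans ?_
    rw [abs_mul]
    exact mul_le_mul hc' k1 (abs_nonneg _) (by positivity)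
  have k4 : C₀ / s ^ 3 * (q4 e (bt e F) * q4 e γ) ≤ C₀ / s ^ 3 * (X * q4 e γ) :=
    mul_le_mul_of_nonneg_left (mul_le_mul_of_nonneg_right hX hq) hμ
  set A : ℝ := X * q4 e γ / s ^ 3 with hA
  set B : ℝ := X / s ^ 2 * √(Zv e γ) with hB
  have hA0 : 0 ≤ A := by positivity
  have hB0 : 0 ≤ B := by positivity
  have a1 : C₀ / s ^ 3 * (X * q4 e γ) ≤ C₀ * C * A := by
    rw [show C₀ / s ^ 3 * (X * q4 e γ) = C₀ * A by rw [hA]; ring]
    exact mul_le_mul_of_nonneg_right hCC' hA0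
  have a0 : 0 ≤ C₀ * C * A := by positivity
  have a2 : C * X / s ^ 2 * (C₀ / s ^ 3 * q4 e γ) ≤ C₀ * C * A := by
    rw [show C * X / s ^ 2 * (C₀ / s ^ 3 * q4 e γ) = C₀ * C * A / s ^ 2 by rw [hA]; ring]
    exact div_le_self a0 (by nlinarith)
  have a3 : C₀ / s ^ 3 * q4 e γ * (C * X / s) ≤ C₀ * C * A := by
    rw [show C₀ / s ^ 3 * q4 e γ * (C * X / s) = C₀ * C * A / s by rw [hA]; ring]
    exact div_le_self a0 (by linarith)
  have a4 : C * X / s * (1 / s * √(Zv e γ) + C₀ / s ^ 3 * s * q4 e γ) = C * B + C₀ * C * A := by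
    rw [hA, hB]
    field_simp
  have a5 : C * B ≤ C₀ * C * B := mul_le_mul_of_nonneg_right hCC hB0
  have a6 : 0 ≤ C₀ * C * B := by positivity
  have g : 7 * (C₀ * C) * X * q4 e γ / s ^ 3 + 7 * (C₀ * C) * X / s ^ 2 * √(Zv e γ) =
      7 * (C₀ * C * A) + 7 * (C₀ * C * B) := by
    rw [hA, hB]
    ring
  rw [g]
  rw [a4] at k2
  rw [e1] at k0
  linarith

end Pool.Agent.MP_66cee2_co.SL
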