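import Pool.Agent.MP_66cee2_co.SL.Spec

/-! Second differences along a line. -/

namespace Pool.Agent.MP_66cee2_co.SL

open Finset Pool.Agent.MP_9e8696_an.H67
open scoped BigOperators

namespace TRIA

variable {ι : Type} [Fintype ι] [DecidableEq ι] {ν : Type} [Fintype ν]

lemma eta_nn (e : Bool) (F : ν → Fn ι) : 0 ≤ eta e F := by
  refine sum_nonneg fun a _ => expect_nonneg fun σ _ => mul_nonneg ?_ (mul_self_nonneg _)
  have h1 : |sg e * chi univ σ| = 1 := by
    rw [abs_mul, abs_sg, one_mul, chi, abs_prod]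
    exact prod_eq_one fun i _ => abs_sg _
  linarith [neg_abs_le (sg e * chi univ σ)]

lemma par_k (e e' : Bool) (F P M : ν → Fn ι) :
    ∑ a, k2 e e' F P M a ^ 2 = 2 * KK e e' F P + 2 * KK e e' F M - KK e' e' P M := by
  simp only [KK, k2, mul_sum, ← sum_add_distrib, ← sum_sub_distrib]
  exact sum_congr rfl fun a _ => by ring

lemma par_a (e e' : Bool) (F P M : ν → Fn ι) :
    ∑ a, ∑ i, a2 e e' F P M a i ^ 2 = 2 * DD e e' F P + 2 * DD e e' F M - DD e' e' P M := by
  simp only [DD, a2, mul_sum, ← sum_add_distrib, ← sum_sub_distrib]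
  exact sum_congr rfl fun a _ => sum_congr rfl fun i _ => by ring

lemma DD_nn (e e' : Bool) (F P : ν → Fn ι) : 0 ≤ DD e e' F P :=
  sum_nonneg fun _ _ => sum_nonneg fun _ _ => sq_nonneg _

lemma t0_two (s : ℕ) : 2 * t0 s + s = s ^ 2 := by
  have h1 : 2 ∣ s ^ 2 - s := by
    have := Nat.even_mul_pred_self s
    rw [Nat.mul_sub_one, ← sq] at this
    exact this.two_dvd
  have h2 : s ≤ s ^ 2 := by nlinarith [Nat.zero_le s, Nat.le_mul_self s]
  unfold t0
  omega

end TRIA

open TRIA in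
theorem rowTRI : OfTRI := by
  rintro ⟨C, hC1, hC⟩
  refine ⟨28 + 5 * C, by linarith, fun s hs ι ν _ _ _ hm e h F P M y h1 h8 L => ?_⟩
  have hs' : Big C s := ⟨hs.dvd, le_trans (by linarith) hs.ge⟩
  have hpx : px (px e h) (4 * h) = px e h := by
    unfold px
    rw [if_pos (show Even (4 * h) from ⟨2 * h, by ring⟩)]
  have m1 := hC s hs' ι ν hm e h F P y (by omega) L.eF L.eP L.eFP L.etF L.etP
  have m2 := hC s hs' ι ν hm e h F M y (by omega) L.eF L.eM L.eFM L.etF L.etM
  have m3 := hC s hs' ι ν hm (px e h) (4 * h) P M y (by omega) L.eP L.eM L.ePM L.etP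
    (by rw [hpx]; exact L.etM)
  rw [hpx] at m3
  have ht := t0_two s
  have hs8 : 8 ≤ s := by omega
  have hle : 4 * h ≤ t0 s := by nlinarith
  have htR : 2 * (t0 s : ℝ) + s = (s : ℝ) ^ 2 := by exact_mod_cast ht
  have hsR : (8 : ℝ) ≤ s := by exact_mod_cast hs8
  have hhR : (1 : ℝ) ≤ h := by exact_mod_cast h1
  have h8R : 8 * (h : ℝ) ≤ s := by exact_mod_cast h8
  have hmR : (s : ℝ) ^ 2 - 1 ≤ Fintype.card ι ∧ (Fintype.card ι : ℝ) ≤ (s : ℝ) ^ 2 := by
    rcases hm with hm | hm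
    · have : (Fintype.card ι : ℝ) = (s : ℝ) ^ 2 := by exact_mod_cast hm
      constructor <;> linarith
    · have : (Fintype.card ι : ℝ) + 1 = (s : ℝ) ^ 2 := by exact_mod_cast hm
      constructor <;> linarith
  set m : ℝ := ((Fintype.card ι : ℕ) : ℝ) with hmd
  have hm0 : 0 < m := by nlinarith [hmR.1]
  have hs0 : (0 : ℝ) < s := by linarith
  have ht0 : (0 : ℝ) < t0 s := by nlinarith
  set l : ℝ := l1 (Fintype.card ι) (t0 s - h) with hl
  have el : l = (m - 2 * t0 s + 2 * h) / m := by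
    rw [hl, l1, Nat.cast_sub (by omega)]
    ring
  have el4 : l1 (Fintype.card ι) (t0 s - 4 * h) = l + 6 * h / m := by
    rw [el, l1, Nat.cast_sub hle]
    push_cast
    ring
  have er : ((4 * h : ℕ) : ℝ) / t0 s = 4 * (h / t0 s) := by
    push_cast
    ring
  rw [el4, er] at m3
  set ρ : ℝ := h / t0 s with hρ
  have hy : 0 ≤ y := (DD_nn _ _ P M).trans L.dPM
  set u : ℝ := h * y / s ^ 2 with hu
  have hu0 : 0 ≤ u := by positivity
  have hρ0 : 0 ≤ ρ := by positivity
  have b1 : ρ * y ≤ 4 * u := by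
    have : ρ ≤ 4 * (h / s ^ 2) := by
      rw [hρ, ← mul_div_assoc, div_le_div_iff₀ ht0 (by positivity)]
      nlinarith
    calc ρ * y ≤ 4 * (h / s ^ 2) * y := mul_le_mul_of_nonneg_right this hy
      _ = 4 * u := by rw [hu]; ring
  have b2 : 6 * h / m * DD (px e h) (px e h) P M ≤ 12 * u := by
    have : 6 * h / m ≤ 12 * (h / s ^ 2) := by
      rw [← mul_div_assoc, div_le_div_iff₀ hm0 (by positivity)]
      nlinarith [hmR.1]
    calc _ ≤ 12 * (h / s ^ 2) * y := mul_le_mul this L.dPM (DD_nn _ _ P M) (by positivity)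
      _ = 12 * u := by rw [hu]; ring
  have b3 : C * y / s ^ 2 ≤ C * u := by
    rw [hu, mul_div_assoc]
    refine mul_le_mul_of_nonneg_left (div_le_div_of_nonneg_right ?_ (by positivity)) (by linarith)
    nlinarith
  have b4 : 1 / s ≤ l := by
    rw [el, div_le_div_iff₀ hs0 hm0]
    nlinarith [hmR.1, hmR.2]
  have hk := par_k e (px e h) F P M
  have ha := par_a e (px e h) F P M
  set k := ∑ a, k2 e (px e h) F P M a ^ 2
  set A := ∑ a, ∑ i, a2 e (px e h) F P M a i ^ 2 with hA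
  have hk0 : 0 ≤ k := sum_nonneg fun _ _ => sq_nonneg _
  have hA0 : 0 ≤ A := sum_nonneg fun _ _ => sum_nonneg fun _ _ => sq_nonneg _
  have c1 := mul_nonneg hρ0 (eta_nn e F)
  have c2 := mul_le_mul_of_nonneg_left L.etP hρ0
  have c3 := mul_le_mul_of_nonneg_left L.etM hρ0
  have key : k + l * A ≤ (28 + 5 * C) * u := by
    rw [abs_le] at m1 m2 m3
    rw [hk, ha]
    nlinarith [m1.2, m2.2, m3.1]
  have hl0 : 0 ≤ l := le_trans (by positivity) b4
  have hA1 : A ≤ (28 + 5 * C) * h * y / s := by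
    have d1 : 1 / s * A ≤ (28 + 5 * C) * u := by nlinarith [mul_le_mul_of_nonneg_right b4 hA0]
    calc A = s * (1 / s * A) := by field_simp
      _ ≤ s * ((28 + 5 * C) * u) := mul_le_mul_of_nonneg_left d1 hs0.le
      _ = _ := by rw [hu]; field_simp
  have hA2 : A ≤ (28 + 5 * C) * y := by
    refine hA1.trans ?_
    rw [div_le_iff₀ hs0]
    have : 0 ≤ (28 + 5 * C) * y := by positivity
    nlinarith
  have hCy : y ≤ (28 + 5 * C) * y := by nlinarith
  refine ⟨?_, hA1, ?_, ?_⟩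
  · calc k ≤ (28 + 5 * C) * u := by nlinarith [mul_nonneg hl0 hA0]
      _ = _ := by rw [hu]; ring
  · linarith [DD_nn e (px e h) F M, L.dPM]
  · linarith [DD_nn e (px e h) F P, L.dPM]

end Pool.Agent.MP_66cee2_co.SL
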