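import Pool.Agent.MP_66cee2_co.SL.KitC

/-! The kernel side of the test of the edge identity against its own right side. -/

set_option linter.unusedSectionVars false

namespace Pool.Agent.MP_66cee2_co.SL

open Finset Pool.Agent.MP_9e8696_an.H67
open scoped BigOperators

namespace UAA

variable {ι : Type} [Fintype ι] [DecidableEq ι] {ν : Type} [Fintype ν]

theorem Ed_w (e : Bool) {t : ℕ} (ht : t ≤ Fintype.card ι) (w : ι → Fn ι) :
    (Ed e t fun σ τ => ∑ j, w j σ * xx j τ) =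
      l1 (Fintype.card ι) t * ∑ j, ip e (w j) (xx j) := by
  rw [Ed_sum e t univ fun j σ τ => w j σ * xx j τ, mul_sum]
  refine sum_congr rfl fun j _ => ?_
  rw [Ed_mul, show T t (xx j) = fun σ => l1 (Fintype.card ι) t * xx j σ from
    funext (T_xx1 ht j), ip_mul_right]

theorem N_eq (N : ι → ι → ℝ) (σ τ : ι → Bool) :
    ∑ i, ∑ j, N i j * (xx i σ * xx j τ) = ∑ j, lin (fun i => N i j) σ * xx j τ := by
  rw [sum_comm]
  refine sum_congr rfl fun j _ => ?_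
  simp only [lin, sum_mul, mul_assoc]

theorem sgm_eq (α α' : Fn ι) (N : ι → ι → ℝ) (b b' : ι → Fn ι) : sgm α α' N b b' = fun σ τ =>
    α σ + α' τ - (∑ j, lin (fun i => N i j) σ * xx j τ) - (∑ j, b j σ * xx j τ) -
      ∑ i, b' i τ * xx i σ := by
  funext σ τ
  rw [sgm, N_eq]

theorem Ed_five (e : Bool) (t : ℕ) (A B C D E : (ι → Bool) → Fn ι) :
    (Ed e t fun σ τ => A σ τ + B σ τ - C σ τ - D σ τ - E σ τ) =
      Ed e t A + Ed e t B - Ed e t C - Ed e t D - Ed e t E := by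
  rw [Ed_sub e t (fun σ τ => A σ τ + B σ τ - C σ τ - D σ τ) E,
    Ed_sub e t (fun σ τ => A σ τ + B σ τ - C σ τ) D, Ed_sub e t (fun σ τ => A σ τ + B σ τ) C,
    Ed_add]

theorem Ed_sgm (e : Bool) {t : ℕ} (he : Even t) (ht : t ≤ Fintype.card ι)
    (hι : 3 ≤ Fintype.card ι) {α α' : Fn ι} {N : ι → ι → ℝ} {b b' : ι → Fn ι}
    (h : Nrm e α α' N b b') : Ed e t (sgm α α' N b b') = 0 := by
  have h3 : ∑ j, ip e (lin fun i => N i j) (xx j) = 0 := by
    rw [← h.tr]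
    exact sum_congr rfl fun j _ => congrFun (c1_lin e hι fun i => N i j) j
  have h4 : ∑ j, ip e (b j) (xx j) = 0 := sum_eq_zero fun j _ => (h.b j).2 j
  have h5 : ∑ j, ip e (b' j) (xx j) = 0 := sum_eq_zero fun j _ => (h.b' j).2 j
  rw [sgm_eq, Ed_five e t (fun σ _ => α σ) (fun _ τ => α' τ)
    (fun σ τ => ∑ j, lin (fun i => N i j) σ * xx j τ) (fun σ τ => ∑ j, b j σ * xx j τ)
    fun σ τ => ∑ i, b' i τ * xx i σ, Ed_left e ht, Ed_right e ht, px_even e he,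
    Ed_symm e he fun σ τ => ∑ i, b' i τ * xx i σ, Ed_w e ht, Ed_w e ht, Ed_w e ht, h3, h4, h5,
    h.a, h.a']
  ring

theorem sqrt_mul_le {x y X : ℝ} (hX : 0 ≤ X) (hx : x ≤ X) (hy : y ≤ X) : √x * √y ≤ X :=
  (mul_le_mul (Real.sqrt_le_sqrt hx) (Real.sqrt_le_sqrt hy) (Real.sqrt_nonneg _)
    (Real.sqrt_nonneg _)).trans (Real.mul_self_sqrt hX).le

section spec
variable {t : ℕ} {μ H X Z : ℝ} {e : Bool} {β β' : ν → Fn ι}

theorem kK (S : Spec ι t μ H) (hμ : 0 ≤ μ) (he : Even t) (hι : 0 < Fintype.card ι)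
    (hβ' : ∀ a, Or1 e (β' a)) (h : q4 e β ≤ X) (h' : q4 e β' ≤ X) :
    |Ed e t fun σ τ => ∑ a, β a σ * β' a τ| ≤ μ * X := by
  have hX : 0 ≤ X := (q4_nonneg e β).trans h
  rw [Ed_sum e t univ fun a σ τ => β a σ * β' a τ]
  simp only [Ed_mul]
  have h1 := S.sum_ip_T hμ e β (γ := β') (by rwa [px_even e he])
  rw [px_even e he, mul_left_comm] at h1
  exact h1.trans (mul_le_mul_of_nonneg_left
    (sqrt_mul_le hX ((q2_le_q4 e hι β).trans h) ((q2_le_q4 e hι β').trans h')) hμ)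

theorem kA (S : Spec ι t μ H) (hH : 0 ≤ H) (he : Even t) (hι : 0 < Fintype.card ι)
    (hβ' : ∀ a, Or1 e (β' a)) (h : q4 e β ≤ X) (h' : q4 e β' ≤ X) (α : Fn ι)
    (hα : ip e α α ≤ Z) :
    |Ed e t fun σ τ => (∑ a, β a σ * β' a τ) * α σ| ≤ H * X * √Z := by
  have hX : 0 ≤ X := (q4_nonneg e β).trans h
  rw [Ed_K_left]
  refine (S.edge_a hH he e α β hβ').trans ?_
  rw [mul_left_comm (√(q4 e β)), mul_comm]
  exact mul_le_mul (mul_le_mul_of_nonneg_left
    (sqrt_mul_le hX h ((q2_le_q4 e hι β').trans h')) hH) (Real.sqrt_le_sqrt hα) (nr_nonneg e α)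
    (mul_nonneg hH hX)

theorem kW (S : Spec ι t μ H) (hH : 0 ≤ H) (he : Even t) (hι : 5 ≤ Fintype.card ι)
    (ht : t ≤ Fintype.card ι) (hl : 0 ≤ l1 (Fintype.card ι) t)
    (hβ' : ∀ a, Or1 e (β' a)) (h : q4 e β ≤ X) (h' : q4 e β' ≤ X) (w : ι → Fn ι)
    (hw : q2 e w ≤ Z) :
    |Ed e t fun σ τ => (∑ a, β a σ * β' a τ) * ∑ j, w j σ * xx j τ| ≤
      (5 * l1 (Fintype.card ι) t + H * √(Fintype.card ι)) * X * √Z := by
  have hX : 0 ≤ X := (q4_nonneg e β).trans h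
  have h2 : q2 e β' ≤ X := (q2_le_q4 e (by omega) β').trans h'
  have hw' : √(q2 e w) ≤ √Z := Real.sqrt_le_sqrt hw
  have hr := S.edge_w hH (by omega) he ht e w β hβ'
  have hr' : √(q2 e w) * (√(q4 e β) * (H * √(Fintype.card ι) * √(q2 e β'))) ≤
      √Z * (H * √(Fintype.card ι) * X) := by
    rw [mul_left_comm (√(q4 e β))]
    exact mul_le_mul hw' (mul_le_mul_of_nonneg_left (sqrt_mul_le hX h h2) (by positivity))
      (by positivity) (Real.sqrt_nonneg _)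
  have hm := sum_ip_le e w fun j => dot β fun a => Dv e j (β' a)
  have hm1 : √(q2 e fun j => dot β fun a => Dv e j (β' a)) ≤ 5 * X := by
    refine Real.sqrt_le_iff.2 ⟨by positivity, (q2_dot_Dv_le e hι β fun a => (hβ' a).1).trans ?_⟩
    have h3 := mul_le_mul h h2 (q2_nonneg e β') hX
    nlinarith [mul_nonneg hX hX]
  have hm2 := hm.trans (mul_le_mul hw' hm1 (Real.sqrt_nonneg _) (Real.sqrt_nonneg _))
  have hm3 := mul_le_mul_of_nonneg_left hm2 hl
  rw [← abs_of_nonneg hl, ← abs_mul, abs_of_nonneg hl] at hm3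
  rw [Ed_K_w]
  have h4 := abs_le.1 (hr.trans hr')
  have h5 := abs_le.1 hm3
  rw [abs_le]
  constructor <;> linarith [h4.1, h4.2, h5.1, h5.2]

theorem kS (S : Spec ι t μ H) (hH : 0 ≤ H) (he : Even t) (hι : 5 ≤ Fintype.card ι)
    (ht : t ≤ Fintype.card ι) (hl : 0 ≤ l1 (Fintype.card ι) t) (hβ : ∀ a, Or1 e (β a))
    (hβ' : ∀ a, Or1 e (β' a)) (h : q4 e β ≤ X) (h' : q4 e β' ≤ X) (α α' : Fn ι)
    (N : ι → ι → ℝ) (b b' : ι → Fn ι) :
    |Ed e t fun σ τ => (∑ a, β a σ * β' a τ) * sgm α α' N b b' σ τ| ≤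
      (2 * H + 3 * (5 * l1 (Fintype.card ι) t + H * √(Fintype.card ι))) * X *
        √(zz e α α' N b b') := by
  obtain ⟨z1, z2, z3, z4, z5⟩ := le_zz e α α' N b b'
  have z3' : (q2 e fun j => lin fun i => N i j) ≤ zz e α α' N b b' := by
    rwa [q2_lin e (by omega) fun j i => N i j, sum_comm]
  have k1 := abs_le.1 (kA S hH he (by omega) hβ' h h' α z1)
  have k2 := abs_le.1 (kA S hH he (by omega) hβ h' h α' z2)
  have k3 := abs_le.1 (kW S hH he hι ht hl hβ' h h' _ z3')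
  have k4 := abs_le.1 (kW S hH he hι ht hl hβ' h h' b z4)
  have k5 := abs_le.1 (kW S hH he hι ht hl hβ h' h b' z5)
  have e2 : (Ed e t fun σ τ => (∑ a, β a σ * β' a τ) * α' τ) =
      Ed e t fun σ τ => (∑ a, β' a σ * β a τ) * α' σ := by
    rw [Ed_symm e he]
    simp only [mul_comm (β _ _)]
  have e5 : (Ed e t fun σ τ => (∑ a, β a σ * β' a τ) * ∑ i, b' i τ * xx i σ) =
      Ed e t fun σ τ => (∑ a, β' a σ * β a τ) * ∑ i, b' i σ * xx i τ := by
    rw [Ed_symm e he]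
    simp only [mul_comm (β _ _)]
  have e0 := Ed_five e t (fun σ τ => (∑ a, β a σ * β' a τ) * α σ)
    (fun σ τ => (∑ a, β a σ * β' a τ) * α' τ)
    (fun σ τ => (∑ a, β a σ * β' a τ) * ∑ j, lin (fun i => N i j) σ * xx j τ)
    (fun σ τ => (∑ a, β a σ * β' a τ) * ∑ j, b j σ * xx j τ)
    fun σ τ => (∑ a, β a σ * β' a τ) * ∑ i, b' i τ * xx i σ
  rw [e2, e5] at e0
  simp only [sgm_eq, mul_sub, mul_add]
  rw [e0, abs_le]
  constructor <;> linarith [k1.1, k1.2, k2.1, k2.2, k3.1, k3.2, k4.1, k4.2, k5.1, k5.2]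

end spec

end UAA

theorem rowUA : OfUA := by
  rintro ⟨C, hC, hS⟩
  refine ⟨5 * C + 30, by linarith, ?_⟩
  intro s hs ι ν _ _ _ hι e t ht β β' α α' N b b' X hβ hβ' hN h h'
  have hs' : Big C s := hs.mono (by linarith)
  have h128 := hs'.ge128 hC
  have hsr : (128 : ℝ) ≤ s := by exact_mod_cast h128
  obtain ⟨he, htl, hl0, hl1, -, -⟩ := t_facts hs.dvd h128 ht
  have h5 : 5 ≤ Fintype.card ι := by
    rw [hι]
    nlinarith
  have S : Spec ι t (1 / (8 * s ^ 2)) (C / s ^ 2) := by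
    obtain ⟨-, S0, S1⟩ := (hS s hs' ι).1 hι
    rcases ht with rfl | rfl
    · exact S0
    · exact S1
  have hX : 0 ≤ X := (q4_nonneg e β).trans h
  rw [← hι] at htl hl0 hl1
  refine ⟨UAA.Ed_sgm e he htl (by omega) hN, ?_, ?_⟩
  · refine (UAA.kK S (by positivity) he (by omega) hβ' h h').trans ?_
    rw [div_mul_eq_mul_div, one_mul]
    exact div_le_div_of_nonneg_left hX (by positivity) (by nlinarith)
  · refine (UAA.kS S (by positivity) he h5 htl hl0 hβ hβ' h h' α α' N b b').trans ?_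
    refine mul_le_mul_of_nonneg_right ?_ (Real.sqrt_nonneg _)
    rw [sqrt_card hι, mul_div_right_comm]
    refine mul_le_mul_of_nonneg_right ?_ hX
    have h1 : C / (s : ℝ) ^ 2 * s = C / s := by field_simp
    have h2 : C / (s : ℝ) ^ 2 ≤ C / s :=
      div_le_div_of_nonneg_left (by linarith) (by positivity) (by nlinarith)
    have h3 : (5 * C + 30) / (s : ℝ) = 5 * (C / s) + 15 * (2 / s) := by ring
    rw [h1, h3]
    linarith

end Pool.Agent.MP_66cee2_co.SL
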