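import Pool.Agent.MP_66cee2_co.SL.KitC

/-! Row UU: the unknowns of the edge identity are small. -/

set_option linter.unusedSectionVars false

namespace Pool.Agent.MP_66cee2_co.SL

open Finset Pool.Agent.MP_9e8696_an.H67
open scoped BigOperators

namespace UUA

variable {ι : Type} [Fintype ι] [DecidableEq ι] {ν : Type} [Fintype ν]

/-- the general step -/
theorem step {A B X X' s c : ℝ} {e : Bool} {t : ℕ} (ht : t ≤ Fintype.card ι)
    (hι : 0 < Fintype.card ι) (hs : 0 < s) (hX : 0 ≤ X) (hXX : X ≤ X')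
    {β β' : ν → Fn ι} {α α' : Fn ι} {N : ι → ι → ℝ} {b b' : ι → Fn ι}
    (hI : Idn t β β' c α α' N b b')
    (hA : Ed e t (sgm α α' N b b') = 0 ∧ |Ed e t fun σ τ => ∑ a, β a σ * β' a τ| ≤ X / s ^ 2 ∧
      |Ed e t fun σ τ => (∑ a, β a σ * β' a τ) * sgm α α' N b b' σ τ| ≤
        A * X / s * √(zz e α α' N b b'))
    (hB : zz e α α' N b b' / 2 - B * X' ^ 2 / s ^ 2 ≤ Ed e t fun σ τ => sgm α α' N b b' σ τ ^ 2) :
    |c| ≤ X / s ^ 2 ∧ zz e α α' N b b' ≤ 4 * (A ^ 2 + B) * X' ^ 2 / s ^ 2 := by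
  obtain ⟨h0, h1, h2⟩ := hA
  have e1 : (Ed e t fun σ τ => ∑ a, β a σ * β' a τ) = c := by
    rw [Ed_congr e t (Ψ := fun σ τ => c + sgm α α' N b b' σ τ) fun σ R hR => hI σ R hR,
      Ed_add e t (fun _ _ => c) (sgm α α' N b b'), Ed_const e ht hι, h0, add_zero]
  have e2 : (Ed e t fun σ τ => sgm α α' N b b' σ τ ^ 2) =
      Ed e t fun σ τ => (∑ a, β a σ * β' a τ) * sgm α α' N b b' σ τ := by
    rw [Ed_congr e t (Φ := fun σ τ => (∑ a, β a σ * β' a τ) * sgm α α' N b b' σ τ)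
      (Ψ := fun σ τ => c * sgm α α' N b b' σ τ + sgm α α' N b b' σ τ ^ 2)
      fun σ R hR => by rw [hI σ R hR]; ring,
      Ed_add e t (fun σ τ => c * sgm α α' N b b' σ τ) (fun σ τ => sgm α α' N b b' σ τ ^ 2),
      Ed_mul_left e t c (sgm α α' N b b'), h0, mul_zero, zero_add]
  refine ⟨e1 ▸ h1, ?_⟩
  rw [e2] at hB
  have h3 := hB.trans ((le_abs_self _).trans h2)
  have h4 := Real.sq_sqrt (zz_nonneg e α α' N b b')
  generalize √(zz e α α' N b b') = z at *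
  generalize zz e α α' N b b' = Z at *
  have h5 : (X / s) ^ 2 ≤ (X' / s) ^ 2 := by gcongr
  have h6 : A ^ 2 * (X / s) ^ 2 ≤ A ^ 2 * (X' / s) ^ 2 := by gcongr
  rw [show 4 * (A ^ 2 + B) * X' ^ 2 / s ^ 2 = 4 * (A ^ 2 * (X' / s) ^ 2 + B * X' ^ 2 / s ^ 2) by
    ring]
  rw [show A * X / s * z = A * (X / s) * z by ring] at h3
  nlinarith [sq_nonneg (z / 2 - A * (X / s))]

/-- the radial part in one layer -/
theorem radial {e : Bool} (hι : 5 ≤ Fintype.card ι) (F : ν → Fn ι)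
    (htr : ∑ i, NN e F F i i = 0)
    (h4 : ∀ σ, dot (bb e F F) xx σ = al e F F σ - qf (NN e F F) σ / 2 -
      (dot (bt e F) (bt e F) σ - eta e F) / 2) :
    nr e (dot (bb e F F) xx) ≤ 2 * √(ZZ e F F) + th e F / 2 := by
  rw [show dot (bb e F F) xx = _ from funext h4]
  have h1 := nr_sub_le e (fun σ => al e F F σ - qf (NN e F F) σ / 2)
    fun σ => (dot (bt e F) (bt e F) σ - eta e F) / 2
  have h2 := nr_sub_le e (al e F F) fun σ => qf (NN e F F) σ / 2
  rw [nr_div e 2 (qf (NN e F F)), abs_two] at h2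
  rw [nr_div e 2 fun σ => dot (bt e F) (bt e F) σ - eta e F, abs_two] at h1
  have h3 := nr_sub_av_le e (by omega) (dot (bt e F) (bt e F))
  rw [av_dot_self] at h3
  have h5 := nr_qf_le e hι htr
  obtain ⟨z1, -, z3, -, -⟩ := le_zz e (al e F F) (al e F F) (NN e F F) (bb e F F) (bb e F F)
  have h6 : nr e (al e F F) ≤ √(ZZ e F F) := Real.sqrt_le_sqrt z1
  have h7 : √(∑ i, ∑ j, NN e F F i j ^ 2) ≤ √(ZZ e F F) := Real.sqrt_le_sqrt z3
  unfold th q4
  unfold eta at h1 ⊢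
  linarith

/-- the radial part between two layers -/
theorem cross {e : Bool} (hι : 3 ≤ Fintype.card ι) (F F' : ν → Fn ι) {X : ℝ}
    (h1 : ∀ σ, dot (bb e F F) xx σ = dot (bt e F) (fun a => lin (c1 e (F a))) σ)
    (h2 : ∀ σ, dot (bb e F F') xx σ = dot (bt e F) (fun a => lin (c1 e (F' a))) σ)
    (hr : nr e (dot (bb e F F) xx) ≤ X) (hth : th e F ≤ X) (hD : DD e e F F' ≤ X) :
    nr e (dot (bb e F F') xx) ≤ 5 * X := by
  have hX : 0 ≤ X := (th_nonneg e F).trans hth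
  have e1 : dot (bb e F F') xx = fun σ => dot (bb e F F) xx σ -
      dot (bt e F) (fun a => lin fun i => c1 e (F a) i - c1 e (F' a) i) σ := by
    funext σ
    rw [h1, h2]
    simp only [dot, lin, ← sum_sub_distrib, sub_mul]
    exact sum_congr rfl fun a _ => by rw [sum_sub_distrib]; ring
  rw [e1]
  have h3 := nr_sub_le e (dot (bb e F F) xx)
    (dot (bt e F) fun a => lin fun i => c1 e (F a) i - c1 e (F' a) i)
  have h4 := nr_dot_le e (bt e F) fun a => lin fun i => c1 e (F a) i - c1 e (F' a) i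
  have h5 := q4_lin_le e hι fun a i => c1 e (F a) i - c1 e (F' a) i
  have h6 : √(q4 e (bt e F) * q4 e fun a => lin fun i => c1 e (F a) i - c1 e (F' a) i) ≤
      4 * X := by
    refine Real.sqrt_le_iff.2 ⟨by positivity, ?_⟩
    have h7 : q4 e (bt e F) * (q4 e fun a => lin fun i => c1 e (F a) i - c1 e (F' a) i) ≤
        X * (12 * X) :=
      mul_le_mul hth (h5.trans (by unfold DD at hD; linarith)) (q4_nonneg e _) hX
    nlinarith
  linarith

end UUA

open UUA in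
theorem rowUU : OfUU := by
  rintro hS ⟨A, hA1, hA⟩ ⟨B, hB1, hB⟩
  have hK : 1 ≤ A ^ 2 + B := by nlinarith
  refine ⟨100 * (A ^ 2 + B), by linarith, fun s hs ι ν _ _ _ hι e => ?_⟩
  have h128 := hs.ge128 (by linarith)
  have hs0 : (0 : ℝ) < s := by exact_mod_cast (by omega : 0 < s)
  have h5 : 5 ≤ Fintype.card ι := by rw [hι]; nlinarith
  have hA' := hA s (hs.mono (by nlinarith)) ι ν hι e
  have hB' := hB s (hs.mono (by nlinarith)) ι hι e
  have hS' := hS ι ν (by omega) e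
  have gen : ∀ (t : ℕ), (t = t0 s ∨ t = t1 s) → ∀ (F F' : ν → Fn ι) (X X' : ℝ), Edge t F F' →
      th e F ≤ X → th e F' ≤ X → X ≤ X' → nr e (dot (bb e F F') xx) ≤ X' →
      nr e (dot (bb e F' F) xx) ≤ X' →
      (∃ c, Idn t (bt e F) (bt e F') c (al e F F') (al e F' F) (NN e F F') (bb e F F')
        (bb e F' F) ∧ |c| ≤ X / s ^ 2) ∧ ZZ e F F' ≤ 4 * (A ^ 2 + B) * X' ^ 2 / s ^ 2 := by
    intro t ht F F' X X' hE h1 h2 hX h3 h4
    obtain ⟨hN, hI, -, -⟩ := hS' F F'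
    obtain ⟨c, hc⟩ := hI t hE
    have ht' : t ≤ Fintype.card ι := by
      rw [hι]
      rcases ht with rfl | rfl
      exacts [t0_le s, t1_le s]
    have := step ht' (by omega) hs0 ((th_nonneg e F).trans h1) hX hc
      (hA' t ht _ _ _ _ _ _ _ X (or1_bt e (by omega) F) (or1_bt e (by omega) F') hN h1 h2)
      (hB' t ht _ _ _ _ _ X' hN h3 h4)
    exact ⟨⟨c, hc, this.1⟩, this.2⟩
  have rad : ∀ (F : ν → Fn ι) (X : ℝ), Edge (t0 s) F F → th e F ≤ X →
      nr e (dot (bb e F F) xx) ≤ X := by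
    intro F X hE h1
    by_contra hlt
    push Not at hlt
    have hX : 0 ≤ X := (th_nonneg e F).trans h1
    have h2 := (gen _ (Or.inl rfl) F F X _ hE h1 h1 hlt.le le_rfl le_rfl).2
    obtain ⟨hN, -, -, h4⟩ := hS' F F
    have h3 := radial h5 F hN.tr h4
    generalize nr e (dot (bb e F F) xx) = ρ at *
    have h6 : √(ZZ e F F) ≤ ρ / 8 := by
      refine Real.sqrt_le_iff.2 ⟨by linarith, h2.trans ?_⟩
      rw [div_le_iff₀ (by positivity)]
      have h7 : 256 * (A ^ 2 + B) ≤ (s : ℝ) ^ 2 := by nlinarith [hs.ge]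
      nlinarith [mul_le_mul_of_nonneg_left h7 (sq_nonneg ρ)]
    linarith
  have fin : ∀ (t : ℕ) (F F' : ν → Fn ι) (X : ℝ), 0 ≤ X →
      ((∃ c, Idn t (bt e F) (bt e F') c (al e F F') (al e F' F) (NN e F F') (bb e F F')
        (bb e F' F) ∧ |c| ≤ X / s ^ 2) ∧ ZZ e F F' ≤ 4 * (A ^ 2 + B) * (5 * X) ^ 2 / s ^ 2) →
      St s e t F F' (100 * (A ^ 2 + B)) X := by
    rintro t F F' X hX ⟨⟨c, hc, hc'⟩, hZ⟩
    refine ⟨⟨c, hc, hc'.trans ?_⟩, hZ.trans (le_of_eq (by ring))⟩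
    gcongr
    nlinarith
  intro F X hE hth
  have hX : 0 ≤ X := (th_nonneg e F).trans hth
  have r1 := rad F X hE hth
  refine ⟨fin _ F F X hX (gen _ (Or.inl rfl) F F X _ hE hth hth (by linarith) (by linarith)
    (by linarith)), fun F' hE' hth' hE1 hD => ?_⟩
  have r2 := rad F' X hE' hth'
  refine fin _ F F' X hX (gen _ (Or.inr rfl) F F' X _ hE1 hth hth' (by linarith) ?_ ?_)
  · exact cross (by omega) F F' (hS' F F).2.2.1 (hS' F F').2.2.1 r1 hth hD
  · exact cross (by omega) F' F (hS' F' F').2.2.1 (hS' F' F).2.2.1 r2 hth'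
      (by rwa [DD_comm])

end Pool.Agent.MP_66cee2_co.SL
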