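import Pool.Agent.MP_66cee2_co.SL.Spec
import Pool.Agent.MP_66cee2_co.SL.KitB

/-! No coordinate has a large influence. -/

namespace Pool.Agent.MP_66cee2_co.SL

open Finset Pool.Agent.MP_9e8696_an.H67
open scoped BigOperators

namespace YBA

variable {ι : Type} [Fintype ι] [DecidableEq ι] {ν : Type} [Fintype ν]

theorem lay_mono {s h : ℕ} {e : Bool} {F P M : ν → Fn ι} {y y' : ℝ} (H : Lay s h e F P M y)
    (hy : y ≤ y') : Lay s h e F P M y' :=
  ⟨H.eF, H.eP, H.eM, H.eFP, H.eFM, H.ePM, H.etF.trans hy, H.etP.trans hy, H.etM.trans hy,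
    H.dPM.trans hy⟩

theorem DD_tri (e e' e'' : Bool) (F F' F'' : ν → Fn ι) :
    DD e e'' F F'' ≤ 2 * DD e e' F F' + 2 * DD e' e'' F' F'' := by
  unfold DD
  rw [mul_sum, mul_sum, ← sum_add_distrib]
  refine sum_le_sum fun a _ => ?_
  rw [mul_sum, mul_sum, ← sum_add_distrib]
  refine sum_le_sum fun i _ => ?_
  nlinarith [sq_nonneg (c1 e (F a) i - 2 * c1 e' (F' a) i + c1 e'' (F'' a) i)]

theorem num {s : ℕ} (hs : 128 ≤ s) {C₁ C₂ y D : ℝ} (h₁ : 1 ≤ C₁) (hy : 0 ≤ y)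
    (h : ∀ K : ℕ, 1 ≤ K → D ≤ 16 * K ^ 2 * (C₁ * (1 : ℕ) * (32 * y) / s) +
      8 * (C₂ * (32 * y) / √s) + 16 * (2 * y) / K ^ 2) :
    D ≤ (2048 * C₁ + 256 * C₂ + 32) * y / √s := by
  have hs1 : (1 : ℝ) ≤ s := by exact_mod_cast (by omega : 1 ≤ s)
  have hq : 1 ≤ √(s : ℝ) := Real.one_le_sqrt.2 hs1
  have hr : 1 ≤ √√(s : ℝ) := Real.one_le_sqrt.2 hq
  have e1 : √(s : ℝ) * √s = s := Real.mul_self_sqrt (by linarith)
  have e2 : √√(s : ℝ) * √√s = √s := Real.mul_self_sqrt (by linarith)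
  have k1 := Nat.le_ceil √√(s : ℝ)
  have k2 := (Nat.ceil_lt_add_one (show 0 ≤ √√(s : ℝ) by linarith)).le
  have k3 : 1 ≤ ⌈√√(s : ℝ)⌉₊ := by exact_mod_cast hr.trans k1
  have := h _ k3
  generalize ((⌈√√(s : ℝ)⌉₊ : ℕ) : ℝ) = K at this k1 k2
  have l1 : √(s : ℝ) ≤ K ^ 2 := by nlinarith
  have l2 : K ^ 2 ≤ 4 * √(s : ℝ) := by nlinarith
  generalize √√(s : ℝ) = r at *
  generalize √(s : ℝ) = q at *
  have hq0 : 0 < q := by linarith
  have a1 : 16 * K ^ 2 * (C₁ * (1 : ℕ) * (32 * y) / s) ≤ 2048 * C₁ * y / q := by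
    rw [← e1, Nat.cast_one]
    calc 16 * K ^ 2 * (C₁ * 1 * (32 * y) / (q * q)) ≤ 16 * (4 * q) * (C₁ * 1 * (32 * y) / (q * q)) := by
          have : 0 ≤ C₁ * 1 * (32 * y) / (q * q) := by positivity
          nlinarith
      _ = _ := by field_simp; ring
  have a2 : 16 * (2 * y) / K ^ 2 ≤ 32 * y / q := by
    rw [show 16 * (2 * y) = 32 * y by ring]
    exact div_le_div_of_nonneg_left (by positivity) hq0 l1
  calc D ≤ 2048 * C₁ * y / q + 8 * (C₂ * (32 * y) / q) + 32 * y / q := by linarith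
    _ = _ := by ring

end YBA

theorem rowYB : OfYB := by
  rintro ⟨C₁, hC₁, TRI⟩ ⟨C₂, hC₂, CONC⟩ CHAIN FC GEO LAY
  refine ⟨2048 * C₁ + 256 * C₂ + 32, by linarith, ?_⟩
  intro d n s f y hB hd hf hb ι _ _ c U e k hι hU
  have hs : 128 ≤ s := hB.ge128 (by linarith)
  have ht := t0_ge hs
  have hss : 128 * s ≤ s ^ 2 := by rw [sq]; exact Nat.mul_le_mul_right s hs
  have hy : 0 ≤ y := (eta_nonneg _ _).trans (hb ι c U e hι hU)
  obtain ⟨hb', hL⟩ := LAY d n s f y (hB.mono (by linarith)) hd hf hb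
  obtain ⟨U', hU'⟩ := GEO.ext d (s / 16) ι U hU (by omega)
  have hc : Fintype.card {i // i ∉ ({k} : Finset ι)} + 1 = s ^ 2 := by
    rw [Fintype.card_subtype_compl, Fintype.card_coe, card_singleton]
    omega
  set U₁ : {i // i ∉ ({k} : Finset ι)} → Eu d := fun i => U i.1 with hU₁def
  have hU₁ : Orthonormal ℝ U₁ := hU.comp _ Subtype.val_injective
  have hU₁' : Orthonormal ℝ (Sum.elim U₁ U') := by
    have := hU'.comp (Sum.map (Subtype.val : {i // i ∉ ({k} : Finset ι)} → ι) id)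
      (Sum.map_injective.2 ⟨Subtype.val_injective, Function.injective_id⟩)
    rwa [Sum.elim_comp_map] at this
  have hk : ∀ i, inner ℝ (U k) (U₁ i) = 0 := fun i =>
    hU.2 fun h => i.2 (mem_singleton.2 h.symm)
  have hk1 : ‖U k‖ = 1 := hU.1 k
  have hp : ∀ p ∈ Submodule.span ℝ (Set.range U'), ∀ i, inner ℝ p (U i) = 0 := by
    intro p hp i
    obtain ⟨z, rfl⟩ := (Submodule.mem_span_range_iff_exists_fun ℝ).1 hp
    rw [sum_inner]
    refine sum_eq_zero fun v _ => ?_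
    have : inner ℝ (U' v) (U i) = 0 := hU'.2 (i := Sum.inr v) (j := Sum.inl i) (by simp)
    rw [real_inner_smul_left, this, mul_zero]
  have edge : ∀ (x x' p : Eu d) (a : ℝ) (h : ℕ), p ∈ Submodule.span ℝ (Set.range U') →
      x' - x = a • U k + p → a ^ 2 + ‖p‖ ^ 2 = 4 * dl s ^ 2 * h → h ≤ t0 s →
      Edge (t0 s - h) (cub f s x U₁) (cub f s x' U₁) := by
    intro x x' p a h hp' hx ha hh
    refine GEO.edge d n s h f _ x x' U₁ (by omega) hf hU₁ (fun i => ?_) ?_ hh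
    · rw [hx, inner_add_left, real_inner_smul_left, hk, hp p hp', mul_zero, add_zero]
    · rw [hx, norm_add_sq_real, real_inner_smul_left, real_inner_comm, hp p hp', norm_smul, hk1,
        ← ha, Real.norm_eq_abs, mul_one, sq_abs]
      ring
  obtain ⟨x, hx⟩ : ∃ x : ℕ → Eu d, ∀ j, x j = c + (dl s * (1 - 2 * j)) • U k := ⟨_, fun _ => rfl⟩
  obtain ⟨E, hE0, hE⟩ : ∃ E : ℕ → Bool, E 0 = e ∧ ∀ j, E (j + 1) = !E j :=
    ⟨px e, px_even e (by simp), fun j => by rw [← px_px, px_one]⟩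
  have hE' : ∀ j, E j = !E (j + 1) := fun j => by rw [hE, Bool.not_not]
  have hD : ∀ (j : ℕ) (e' : Bool), DD e' (!e') (cub f s (x j) U₁) (cub f s (x (j + 1)) U₁) =
      4 * Yv e' (cub f s (c - (2 * dl s * j) • U k) U) k := by
    intro j e'
    rw [← (FC ι (Fin n) e' _).1 (by omega) k, GEO.fc, GEO.fc, hx, hx, sum_singleton, sum_singleton,
      sg_false, sg_true]
    congr 2
    · module
    · push_cast
      module
  have hD8 : ∀ (j : ℕ) (e' : Bool),
      DD e' (!e') (cub f s (x j) U₁) (cub f s (x (j + 1)) U₁) ≤ 8 * y := fun j e' => by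
    have h1 := Yv_le e' (by omega) (cub f s (c - (2 * dl s * j) • U k) U) k
    have h2 := hb ι (c - (2 * dl s * j) • U k) U e' hι hU
    rw [hD]
    linarith
  have hη : ∀ (z : Eu d) (e' : Bool), eta e' (cub f s z U₁) ≤ 2 * y := fun z e' =>
    hb' _ z U₁ e' (by omega) hU₁
  have e0 : ∀ z : Eu d, Edge (t0 s) (cub f s z U₁) (cub f s z U₁) := fun z =>
    edge z z 0 0 0 (Submodule.zero_mem _) (by simp) (by simp) (Nat.zero_le _)
  have hlay : ∀ (j : ℕ) (e' : Bool), Lay s 1 e' (cub f s (x (j + 1)) U₁) (cub f s (x (j + 2)) U₁)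
      (cub f s (x j) U₁) (32 * y) := by
    intro j e'
    refine ⟨e0 _, e0 _, e0 _, ?_, ?_, ?_, (hη _ _).trans (by linarith), (hη _ _).trans (by linarith),
      (hη _ _).trans (by linarith), ?_⟩
    · refine edge _ _ 0 (-(2 * dl s)) 1 (Submodule.zero_mem _) ?_ (by simp; ring) (by omega)
      rw [hx, hx]
      push_cast
      module
    · refine edge _ _ 0 (2 * dl s) 1 (Submodule.zero_mem _) ?_ (by simp; ring) (by omega)
      rw [hx, hx]
      push_cast
      module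
    · refine edge _ _ 0 (4 * dl s) (4 * 1) (Submodule.zero_mem _) ?_ (by simp; ring) (by omega)
      rw [hx, hx]
      push_cast
      module
    · rw [px_one]
      have h1 := YBA.DD_tri (!e') e' (!e') (cub f s (x (j + 2)) U₁) (cub f s (x (j + 1)) U₁)
        (cub f s (x j) U₁)
      have h2 := hD8 (j + 1) e'
      have h3 := hD8 j (!e')
      rw [Bool.not_not, DD_comm] at h3
      rw [DD_comm] at h2
      linarith
  have key := YBA.num hs hC₁ hy fun K hK => CHAIN _ (Fin n)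
    (fun j a i => c1 (E j) (cub f s (x j) U₁ a) i) (fun j => eta (E j) (cub f s (x j) U₁))
    (2 * y) (C₁ * (1 : ℕ) * (32 * y) / s) (C₂ * (32 * y) / √s) K hK (by positivity)
    (fun j => ⟨eta_nonneg _ _, hη _ _⟩) (fun j => by
      have := (TRI s (hB.mono (by linarith)) _ (Fin n) (Or.inr hc) (E (j + 1)) 1 _ _ _ _ le_rfl
        (by omega) (hlay j _)).2.1
      rw [px_one] at this
      rw [hE (j + 1), hE' j]
      exact this) fun j => by
      obtain ⟨p, hp', hn, hl⟩ := hL _ (x (j + 1)) U₁ U' (E (j + 1)) (Or.inr hc) hU₁'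
      have hh : 1 + s / 64 ≤ t0 s := by omega
      have := CONC s (hB.mono (by linarith)) _ (Fin n) hc (E (j + 1)) _ _ _ _ _ _ (hlay j _)
        (YBA.lay_mono hl (by linarith))
        (edge _ _ p (2 * dl s) _ hp' (by rw [hx, hx]; push_cast; module)
          (by rw [hn]; push_cast; ring) hh)
        (edge _ _ (-p) (2 * dl s) _ (Submodule.neg_mem _ hp') (by rw [hx, hx]; push_cast; module)
          (by rw [norm_neg, hn]; push_cast; ring) hh)
        (edge _ _ p (-(2 * dl s)) _ hp' (by rw [hx, hx]; push_cast; module)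
          (by rw [hn]; push_cast; ring) hh)
        (edge _ _ (-p) (-(2 * dl s)) _ (Submodule.neg_mem _ hp') (by rw [hx, hx]; push_cast; module)
          (by rw [norm_neg, hn]; push_cast; ring) hh)
      rw [hE (j + 1), hE' j]
      exact this
  have h0 := hD 0 e
  rw [Nat.cast_zero, mul_zero, zero_smul, sub_zero] at h0
  rw [hE 0, hE0] at key
  have h1 := Yv_nonneg e (cub f s c U) k
  have h2 : DD e (!e) (cub f s (x 0) U₁) (cub f s (x (0 + 1)) U₁) ≤ _ := key
  linarith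

end Pool.Agent.MP_66cee2_co.SL
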