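import Pool.Agent.MP_66cee2_co.SL.KitB

/-! The map is affine on all cubes. -/

namespace Pool.Agent.MP_66cee2_co.SL

open Finset

namespace ZA

variable {d n s : ℕ} {f : Eu d → Eu n}

lemma least2 {m : ℕ} {B : ℝ} (h : Bd2 f s m B) :
    ∃ y, 0 ≤ y ∧ Bd2 f s m y ∧ ∀ z, 0 ≤ z → Bd2 f s m z → y ≤ z := by
  let S : Set ℝ := {x | ∃ (ι : Type) (_ : Fintype ι) (_ : DecidableEq ι) (c : Eu d) (U : ι → Eu d)
    (e : Bool), Fintype.card ι = m ∧ Orthonormal ℝ U ∧ x = eta e (cub f s c U)}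
  have hb : BddAbove S := ⟨B, by
    rintro _ ⟨ι, _, _, c, U, e, h1, h2, rfl⟩
    exact h ι c U e h1 h2⟩
  refine ⟨sSup S, Real.sSup_nonneg ?_, fun ι _ _ c U e h1 h2 =>
    le_csSup hb ⟨ι, _, _, c, U, e, h1, h2, rfl⟩, fun z hz h' => Real.sSup_le ?_ hz⟩
  · rintro _ ⟨ι, _, _, c, U, e, -, -, rfl⟩
    exact eta_nonneg e _
  · rintro _ ⟨ι, _, _, c, U, e, h1, h2, rfl⟩
    exact h' ι c U e h1 h2

lemma least4 {m : ℕ} {B : ℝ} (h : Bd4 f s m B) :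
    ∃ y, 0 ≤ y ∧ Bd4 f s m y ∧ ∀ z, 0 ≤ z → Bd4 f s m z → y ≤ z := by
  let S : Set ℝ := {x | ∃ (ι : Type) (_ : Fintype ι) (_ : DecidableEq ι) (c : Eu d) (U : ι → Eu d)
    (e : Bool), Fintype.card ι = m ∧ Orthonormal ℝ U ∧ x = th e (cub f s c U)}
  have hb : BddAbove S := ⟨B, by
    rintro _ ⟨ι, _, _, c, U, e, h1, h2, rfl⟩
    exact h ι c U e h1 h2⟩
  refine ⟨sSup S, Real.sSup_nonneg ?_, fun ι _ _ c U e h1 h2 =>
    le_csSup hb ⟨ι, _, _, c, U, e, h1, h2, rfl⟩, fun z hz h' => Real.sSup_le ?_ hz⟩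
  · rintro _ ⟨ι, _, _, c, U, e, -, -, rfl⟩
    exact th_nonneg e _
  · rintro _ ⟨ι, _, _, c, U, e, h1, h2, rfl⟩
    exact h' ι c U e h1 h2

lemma bd4_of {m : ℕ} {B : ℝ} (h : Bd2 f s m B) : Bd4 f s m (2 ^ m * B) :=
  fun ι _ _ c U e h1 h2 => (th_le e _).trans (by
    rw [h1]
    exact mul_le_mul_of_nonneg_left (h ι c U e h1 h2) (by positivity))

/-- the two outer layers of a cube -/
lemma layers {C : ℝ} (hC : 1 ≤ C) (hs : Big C s)
    (hT : ∀ (ι ν : Type) [Fintype ι] [DecidableEq ι] [Fintype ν],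
      (Fintype.card ι = s ^ 2 ∨ Fintype.card ι + 1 = s ^ 2) →
      ∀ (e : Bool) (h : ℕ) (F P M : ν → Fn ι) (y : ℝ), 1 ≤ h → 8 * h ≤ s → Lay s h e F P M y →
      ∑ a, k2 e (px e h) F P M a ^ 2 ≤ C * h * y / s ^ 2 ∧
      ∑ a, ∑ i, a2 e (px e h) F P M a i ^ 2 ≤ C * h * y / s ∧
      DD e (px e h) F P ≤ C * y ∧ DD e (px e h) F M ≤ C * y)
    (hG : RowGEO) (hL : RowLAY) (hd : s ^ 2 + s ≤ d) (hf : Pres f) {y Th X Y : ℝ} (hy : 0 ≤ y)
    (h2 : Bd2 f s (s ^ 2) y) (h4 : Bd4 f s (s ^ 2) Th) (hX : Th ≤ X) (hY : C * (24 * y) ≤ Y)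
    (hYX : Y ≤ X)
    (ι : Type) [Fintype ι] [DecidableEq ι] (c : Eu d) (U : ι → Eu d) (e : Bool)
    (hι : Fintype.card ι = s ^ 2) (hU : Orthonormal ℝ U) :
    ∃ P M : Fin n → Fn ι, Tri s e (cub f s c U) P M X ∧
      ∑ a, k2 e e (cub f s c U) P M a ^ 2 ≤ Y / s ∧
      ∑ a, ∑ i, a2 e e (cub f s c U) P M a i ^ 2 ≤ Y := by
  have h128 := hs.ge128 hC
  have hs0 : (0 : ℝ) < s := by exact_mod_cast (by omega : 0 < s)
  obtain ⟨U', hU'⟩ := hG.ext d (s / 16) ι U hU (by omega)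
  obtain ⟨p, -, -, hl⟩ := (hL d n s f y (hs.mono hC) hd hf h2).2 ι c U U' e (Or.inl hι) hU'
  have hev : Even (s / 64) := by
    obtain ⟨k, rfl⟩ := hs.dvd
    exact ⟨k, by omega⟩
  obtain ⟨t1, t2, t3, t4⟩ := hT ι (Fin n) (Or.inl hι) e (s / 64) _ _ _ _ (by omega) (by omega) hl
  rw [px_even e hev] at t1 t2 t3 t4
  have hh : ((s / 64 : ℕ) : ℝ) ≤ s := by exact_mod_cast Nat.div_le_self s 64
  have h0 : 0 ≤ C * (24 * y) := by positivity
  have hk : C * ((s / 64 : ℕ) : ℝ) * (24 * y) ≤ Y * s := by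
    calc C * ((s / 64 : ℕ) : ℝ) * (24 * y) = C * (24 * y) * ((s / 64 : ℕ) : ℝ) := by ring
      _ ≤ Y * s := mul_le_mul hY hh (Nat.cast_nonneg _) (h0.trans hY)
  refine ⟨_, _, ⟨hl.eF, hl.eP, hl.eM, hl.eFP, hl.eFM, (h4 ι _ U e hι hU).trans hX,
    (h4 ι _ U e hι hU).trans hX, (h4 ι _ U e hι hU).trans hX, t3.trans (hY.trans hYX),
    t4.trans (hY.trans hYX)⟩, t1.trans ?_, t2.trans ?_⟩
  · rw [div_le_div_iff₀ (by positivity) hs0]
    calc _ ≤ Y * s * s := mul_le_mul_of_nonneg_right hk hs0.le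
      _ = _ := by ring
  · rwa [div_le_iff₀ hs0]

lemma amgm {C X y : ℝ} (hX : 0 ≤ X) (hy : 0 ≤ y) : C * √(X * y) ≤ X / 4 + C ^ 2 * y := by
  rw [Real.sqrt_mul hX]
  nlinarith [sq_nonneg (√X / 2 - C * √y), Real.sq_sqrt hX, Real.sq_sqrt hy]

end ZA

open ZA in
theorem rowZ : OfZ := by
  rintro ⟨C1, hC1, hA1⟩ ⟨C2, hC2, hA2⟩ ⟨C3, hC3, hT⟩ hG hL ⟨C4, hC4, hYB⟩
  set K : ℝ := (1 + 2 * C1 ^ 2) * (C3 * 24) + C4 with hK
  have hK1 : 1 ≤ K := by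
    have : 0 ≤ (1 + 2 * C1 ^ 2) * (C3 * 24) := by positivity
    linarith
  have hD : 1 ≤ 2 * C2 * K := by nlinarith
  refine ⟨4 * C1 + C2 + C3 + C4, (1 / (2 * C2 * K)) ^ 2, by linarith, by positivity,
    fun d n s f r hs hd hf hr hr5 hn => ?_⟩
  have b1 : Big C1 s := hs.mono (by linarith)
  have b2 : Big C2 s := hs.mono (by linarith)
  have b3 : Big C3 s := hs.mono (by linarith)
  have b4 : Big C4 s := hs.mono (by linarith)
  have h128 := b1.ge128 hC1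
  have hs0 : (0 : ℝ) < s := by exact_mod_cast (by omega : 0 < s)
  have hb := hG.bd d n s f (by omega) (by omega) hf
  obtain ⟨y, hy, h2, hy'⟩ := least2 hb
  obtain ⟨Th, hTh, h4, hTh'⟩ := least4 (bd4_of hb)
  set Y := C3 * (24 * y) with hY
  have hY0 : 0 ≤ Y := by positivity
  have hyY : y ≤ Y := by nlinarith
  have s1 : Th ≤ (Th + Y) / 2 + C1 ^ 2 * Y := by
    refine hTh' _ (by positivity) fun ι _ _ c U e hι hU => ?_
    obtain ⟨P, M, t1, t2, t3⟩ := layers hC3 b3 (hT s b3) hG hL hd hf hy h2 h4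
      (X := Th + Y) (Y := Y) (by linarith) le_rfl (by linarith) ι c U e hι hU
    have := hA1 s b1 ι (Fin n) hι e _ P M _ Y t1 ((h2 ι c U e hι hU).trans hyY) t2 t3
    have h5 := amgm (C := C1) (add_nonneg hTh hY0) hY0
    have h6 : C1 * (Th + Y) / s ≤ (Th + Y) / 4 := by
      rw [div_le_div_iff₀ hs0 (by norm_num)]
      have : 4 * C1 ≤ s := le_trans (by linarith) hs.ge
      nlinarith [add_nonneg hTh hY0]
    linarith
  have e1 : K * y = (1 + 2 * C1 ^ 2) * Y + C4 * y := by rw [hK, hY]; ring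
  have e2 : 0 ≤ C4 * y := by positivity
  have e3 : 0 ≤ C1 ^ 2 * Y := by positivity
  have s2 : y ≤ y / 2 := by
    refine hy' _ (by positivity) fun ι _ _ c U e hι hU => ?_
    obtain ⟨P, M, t1, t2, t3⟩ := layers hC3 b3 (hT s b3) hG hL hd hf hy h2 h4
      (X := K * y) (Y := K * y) (by linarith) (by linarith) le_rfl ι c U e hι hU
    have := hA2 s b2 ι (Fin n) hι e _ P M _ ((1 / (2 * C2 * K)) ^ 2) r t1 t2 t3
      (fun i => (hYB d n s f y b4 hd hf h2 ι c U e i hι hU).trans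
        (div_le_div_of_nonneg_right (by linarith) (Real.sqrt_nonneg _)))
      (by positivity) (pow_le_one₀ (by positivity) ((div_le_one (by linarith)).2 hD)) hr hr5
      (by simpa using hn)
    refine this.trans (le_of_eq ?_)
    rw [Real.sqrt_sq (by positivity)]
    field_simp
  exact fun ι _ _ c U e hι hU => (h2 ι c U e hι hU).trans (by linarith)

end Pool.Agent.MP_66cee2_co.SL
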