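import Pool.Agent.MP_66cee2_co.SL.A1
import Pool.Agent.MP_66cee2_co.SL.A2
import Pool.Agent.MP_66cee2_co.SL.APP
import Pool.Agent.MP_66cee2_co.SL.BENZ
import Pool.Agent.MP_66cee2_co.SL.BIN
import Pool.Agent.MP_66cee2_co.SL.CHAIN
import Pool.Agent.MP_66cee2_co.SL.CONC
import Pool.Agent.MP_66cee2_co.SL.EIG
import Pool.Agent.MP_66cee2_co.SL.END
import Pool.Agent.MP_66cee2_co.SL.FC
import Pool.Agent.MP_66cee2_co.SL.FS
import Pool.Agent.MP_66cee2_co.SL.GEO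
import Pool.Agent.MP_66cee2_co.SL.Goal
import Pool.Agent.MP_66cee2_co.SL.LAY
import Pool.Agent.MP_66cee2_co.SL.M
import Pool.Agent.MP_66cee2_co.SL.OP
import Pool.Agent.MP_66cee2_co.SL.POLY
import Pool.Agent.MP_66cee2_co.SL.PSI
import Pool.Agent.MP_66cee2_co.SL.R
import Pool.Agent.MP_66cee2_co.SL.SPB
import Pool.Agent.MP_66cee2_co.SL.STAR
import Pool.Agent.MP_66cee2_co.SL.TL
import Pool.Agent.MP_66cee2_co.SL.TRI
import Pool.Agent.MP_66cee2_co.SL.UA
import Pool.Agent.MP_66cee2_co.SL.UB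
import Pool.Agent.MP_66cee2_co.SL.UU
import Pool.Agent.MP_66cee2_co.SL.YB
import Pool.Agent.MP_66cee2_co.SL.Z

/-! Assembly of the rows. -/

namespace Pool.Agent.MP_66cee2_co.SL

theorem goal : Goal :=
  have hS : RowSPEC := rowSPEC rowBIN (rowEIG rowBIN) rowOP
  have hU : RowUU := rowUU rowSTAR (rowUA hS) (rowUB hS)
  have hA : RowAPP := rowAPP (rowTL hS rowSTAR hU)
  have hR : RowR := rowR hS rowSTAR hU
  have hM : RowM := rowM hS
  have hT : RowTRI := rowTRI hM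
  have hL : RowLAY := rowLAY rowFS rowFC rowGEO
  rowGoal
    (rowZ (rowA1 hA hR) (rowA2 hA rowPOLY (rowPSI hA hR rowPOLY)) hT rowGEO hL
      (rowYB hT (rowCONC hM hT) rowCHAIN rowFC rowGEO hL))
    (rowEND hU rowGEO rowBENZ)

end Pool.Agent.MP_66cee2_co.SL
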