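import Pool.Agent.MP_66cee2_co.SL.Defs

/-! The row statements (plan: team store file 66cee2_plan.md). -/

namespace Pool.Agent.MP_66cee2_co.SL

open Finset Pool.Agent.MP_9e8696_an.H67
open scoped BigOperators

/-- binomial coefficients near the middle -/
def RowBIN : Prop := ∃ C : ℝ, 1 ≤ C ∧ ∀ s m t : ℕ, C ≤ s → s ^ 2 ≤ m + 1 → m ≤ s ^ 2 →
  2 * t ≤ m → m ≤ 2 * t + 2 * s → (2 : ℝ) ^ m ≤ C * s ^ 2 * m.choose t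

/-- eigenvalues -/
def RowEIG : Prop := ∃ C : ℝ, 1 ≤ C ∧ ∀ s : ℕ, Big C s →
  ∀ (ι : Type) [Fintype ι] [DecidableEq ι],
  (Fintype.card ι = s ^ 2 ∨ Fintype.card ι + 1 = s ^ 2) → ∀ h : ℕ, 2 * h ≤ s →
  ∀ S : Finset ι, (3 ≤ S.card → S.card + 3 ≤ Fintype.card ι → |lam (t0 s - h) S| ≤ C / s ^ 3) ∧
    (8 ≤ S.card → S.card + 8 ≤ Fintype.card ι → |lam (t0 s - h) S| ≤ C / s ^ 7)

/-- from eigenvalues to operator bounds -/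
def RowOP : Prop := ∀ (ι : Type) [Fintype ι] [DecidableEq ι] (t : ℕ) (μ μ' D : ℝ),
  16 ≤ Fintype.card ι → t ≤ Fintype.card ι → 0 ≤ μ → 0 ≤ μ' →
  (∀ S : Finset ι, 2 ≤ S.card → S.card + 2 ≤ Fintype.card ι → |lam t S| ≤ μ) →
  (∀ S : Finset ι, 8 ≤ S.card → S.card + 8 ≤ Fintype.card ι → |lam t S| ≤ μ') →
  (2 : ℝ) ^ Fintype.card ι ≤ D * (Fintype.card ι).choose t →
  ∀ H : ℝ, 16 * 64 ^ 7 * μ ^ 4 + 8 * D * μ' ^ 2 ≤ H ^ 4 → Spec ι t μ H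

/-- spectral bounds -/
def RowSPEC : Prop := ∃ C : ℝ, 1 ≤ C ∧ ∀ s : ℕ, Big C s →
  ∀ (ι : Type) [Fintype ι] [DecidableEq ι],
  (Fintype.card ι = s ^ 2 → Spec ι (t0 s) (C / s ^ 3) (C / s ^ 3) ∧
    Spec ι (t0 s) (1 / (8 * s ^ 2)) (C / s ^ 2) ∧ Spec ι (t1 s) (1 / (8 * s ^ 2)) (C / s ^ 2)) ∧
  ((Fintype.card ι = s ^ 2 ∨ Fintype.card ι + 1 = s ^ 2) → ∀ h : ℕ, 2 * h ≤ s →
    Spec ι (t0 s - h) (C / s ^ 2) (C / s ^ 2))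

/-- the kernel side of the test of the identity against its own right side -/
def RowUA : Prop := ∃ C : ℝ, 1 ≤ C ∧ ∀ s : ℕ, Big C s →
  ∀ (ι ν : Type) [Fintype ι] [DecidableEq ι] [Fintype ν], Fintype.card ι = s ^ 2 →
  ∀ (e : Bool) (t : ℕ), (t = t0 s ∨ t = t1 s) →
  ∀ (β β' : ν → Fn ι) (α α' : Fn ι) (N : ι → ι → ℝ) (b b' : ι → Fn ι) (X : ℝ),
  (∀ a, Or1 e (β a)) → (∀ a, Or1 e (β' a)) → Nrm e α α' N b b' → q4 e β ≤ X → q4 e β' ≤ X →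
  Ed e t (sgm α α' N b b') = 0 ∧ |Ed e t fun σ τ => ∑ a, β a σ * β' a τ| ≤ X / s ^ 2 ∧
    |Ed e t fun σ τ => (∑ a, β a σ * β' a τ) * sgm α α' N b b' σ τ| ≤
      C * X / s * √(zz e α α' N b b')

/-- the pieces of the right side are almost orthogonal -/
def RowUB : Prop := ∃ C : ℝ, 1 ≤ C ∧ ∀ s : ℕ, Big C s →
  ∀ (ι : Type) [Fintype ι] [DecidableEq ι], Fintype.card ι = s ^ 2 →
  ∀ (e : Bool) (t : ℕ), (t = t0 s ∨ t = t1 s) →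
  ∀ (α α' : Fn ι) (N : ι → ι → ℝ) (b b' : ι → Fn ι) (X : ℝ),
  Nrm e α α' N b b' → nr e (dot b xx) ≤ X → nr e (dot b' xx) ≤ X →
  zz e α α' N b b' / 2 - C * X ^ 2 / s ^ 2 ≤ Ed e t fun σ τ => sgm α α' N b b' σ τ ^ 2

/-- the algebra of the edge identity -/
def RowSTAR : Prop := ∀ (ι ν : Type) [Fintype ι] [DecidableEq ι] [Fintype ν],
  3 ≤ Fintype.card ι → ∀ (e : Bool) (F F' : ν → Fn ι),
  Nrm e (al e F F') (al e F' F) (NN e F F') (bb e F F') (bb e F' F) ∧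
  (∀ t, Edge t F F' → ∃ c, Idn t (bt e F) (bt e F') c (al e F F') (al e F' F) (NN e F F')
    (bb e F F') (bb e F' F)) ∧
  (∀ σ, dot (bb e F F') xx σ = dot (bt e F) (fun a => lin (c1 e (F' a))) σ) ∧
  ∀ σ, dot (bb e F F) xx σ = al e F F σ - qf (NN e F F) σ / 2 -
    (dot (bt e F) (bt e F) σ - eta e F) / 2

/-- the unknowns are small -/
def RowUU : Prop := ∃ C : ℝ, 1 ≤ C ∧ ∀ s : ℕ, Big C s →
  ∀ (ι ν : Type) [Fintype ι] [DecidableEq ι] [Fintype ν], Fintype.card ι = s ^ 2 →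
  ∀ (e : Bool) (F : ν → Fn ι) (X : ℝ), Edge (t0 s) F F → th e F ≤ X →
  St s e (t0 s) F F C X ∧ ∀ F' : ν → Fn ι, Edge (t0 s) F' F' → th e F' ≤ X → Edge (t1 s) F F' →
    DD e e F F' ≤ X → St s e (t1 s) F F' C X

/-- the test against a positive kernel -/
def RowTL : Prop := ∃ C : ℝ, 1 ≤ C ∧ ∀ s : ℕ, Big C s →
  ∀ (ι ν ν' : Type) [Fintype ι] [DecidableEq ι] [Fintype ν] [Fintype ν'],
  Fintype.card ι = s ^ 2 → ∀ (e : Bool) (F : ν → Fn ι) (X : ℝ), Edge (t0 s) F F → th e F ≤ X →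
  ∀ γ : ν' → Fn ι, (∀ b, Or1 e (γ b)) →
  cov e (bt e F) γ ≤ C * X * q4 e γ / s ^ 3 + C * X / s ^ 2 * √(Zv e γ)

/-- four applications of the test -/
def RowAPP : Prop := ∃ C : ℝ, 1 ≤ C ∧ ∀ s : ℕ, Big C s →
  ∀ (ι ν : Type) [Fintype ι] [DecidableEq ι] [Fintype ν],
  Fintype.card ι = s ^ 2 → ∀ (e : Bool) (F : ν → Fn ι) (X : ℝ), Edge (t0 s) F F → th e F ≤ X →
  (∀ z : ν → ℝ, ip e (cmb z (bt e F)) (cmb z (bt e F)) ≤ C * X / s * ∑ a, z a ^ 2) ∧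
  cov e (bw e F) (bw e F) ≤ C * X ^ 2 / s ^ 3 ∧
  (∀ z : ν → ℝ, ip e (cmb z (b2 e F)) (cmb z (b2 e F)) ≤ C * X / s ^ 2 * ∑ a, z a ^ 2) ∧
  cov e (b2 e F) (b2 e F) ≤ C * X ^ 2 / s ^ 3 + C * X / s ^ 2 * √(Zv e (b2 e F))

/-- the radial identity -/
def RowR : Prop := ∃ C : ℝ, 1 ≤ C ∧ ∀ s : ℕ, Big C s →
  ∀ (ι ν : Type) [Fintype ι] [DecidableEq ι] [Fintype ν],
  Fintype.card ι = s ^ 2 → ∀ (e : Bool) (F P M : ν → Fn ι) (X : ℝ), Tri s e F P M X →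
  ∀ ψ : Fn ι, Or1 e ψ →
  |ip e (dot (bt e F) (bt e F)) ψ - 32 * s * ip e (cmb (k2 e e F P M) (bt e F)) ψ -
    33 * ip e (dot (bt e F) fun a => lin (a2 e e F P M a)) ψ| ≤ C * X / s * nr e ψ

/-- the fourth moment is controlled by the second -/
def RowA1 : Prop := ∃ C : ℝ, 1 ≤ C ∧ ∀ s : ℕ, Big C s →
  ∀ (ι ν : Type) [Fintype ι] [DecidableEq ι] [Fintype ν],
  Fintype.card ι = s ^ 2 → ∀ (e : Bool) (F P M : ν → Fn ι) (X y : ℝ), Tri s e F P M X →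
  eta e F ≤ y → ∑ a, k2 e e F P M a ^ 2 ≤ y / s → ∑ a, ∑ i, a2 e e F P M a i ^ 2 ≤ y →
  th e F ≤ C * √(X * y) + C * X / s

/-- polynomials of low degree -/
def RowPOLY : Prop := ∃ C : ℝ, 1 ≤ C ∧
  ∀ (ι ν : Type) [Fintype ι] [DecidableEq ι] [Fintype ν], 16 ≤ Fintype.card ι →
  ∀ (e : Bool) (F : ν → Fn ι), Or1 e (psi e F) ∧
  (av e fun σ => psi e F σ ^ 4) ≤ (C * ip e (psi e F) (psi e F)) ^ 2 ∧
  (∀ c : ν → ι → ℝ, ip e (dot (b2 e F) fun a => lin (c a)) (psi e F) = 0) ∧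
  Zv e (b2 e F) ≤ C * ∑ i, Yv e F i ^ 2 + C * ip e (psi e F) (psi e F)

/-- the centred squared length of the level two part is small -/
def RowPSI : Prop := ∃ C : ℝ, 1 ≤ C ∧ ∀ s : ℕ, Big C s →
  ∀ (ι ν : Type) [Fintype ι] [DecidableEq ι] [Fintype ν],
  Fintype.card ι = s ^ 2 → ∀ (e : Bool) (F P M : ν → Fn ι) (X : ℝ), Tri s e F P M X →
  ∑ a, k2 e e F P M a ^ 2 ≤ X / s → ∑ a, ∑ i, a2 e e F P M a i ^ 2 ≤ X →
  ip e (psi e F) (psi e F) ≤ C * (q2 e (bw e F) * X + X ^ 2 / √s)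

/-- the rank bound -/
def RowA2 : Prop := ∃ C : ℝ, 1 ≤ C ∧ ∀ s : ℕ, Big C s →
  ∀ (ι ν : Type) [Fintype ι] [DecidableEq ι] [Fintype ν],
  Fintype.card ι = s ^ 2 → ∀ (e : Bool) (F P M : ν → Fn ι) (X c r : ℝ), Tri s e F P M X →
  ∑ a, k2 e e F P M a ^ 2 ≤ X / s → ∑ a, ∑ i, a2 e e F P M a i ^ 2 ≤ X →
  (∀ i, Yv e F i ≤ X / √s) → 0 < c → c ≤ 1 → 0 < r → r ^ 5 = s →
  (Fintype.card ν : ℝ) ≤ c * r ^ 11 → eta e F ≤ C * √c * X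

/-- the mean identity -/
def RowM : Prop := ∃ C : ℝ, 1 ≤ C ∧ ∀ s : ℕ, Big C s →
  ∀ (ι ν : Type) [Fintype ι] [DecidableEq ι] [Fintype ν],
  (Fintype.card ι = s ^ 2 ∨ Fintype.card ι + 1 = s ^ 2) →
  ∀ (e : Bool) (h : ℕ) (F F' : ν → Fn ι) (y : ℝ), 2 * h ≤ s → Edge (t0 s) F F →
  Edge (t0 s) F' F' → Edge (t0 s - h) F F' → eta e F ≤ y → eta (px e h) F' ≤ y →
  |KK e (px e h) F F' + l1 (Fintype.card ι) (t0 s - h) * DD e (px e h) F F' +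
    (h : ℝ) / t0 s * (eta e F + eta (px e h) F') - (h : ℝ) / t0 s| ≤ C * y / s ^ 2

/-- second differences along a line -/
def RowTRI : Prop := ∃ C : ℝ, 1 ≤ C ∧ ∀ s : ℕ, Big C s →
  ∀ (ι ν : Type) [Fintype ι] [DecidableEq ι] [Fintype ν],
  (Fintype.card ι = s ^ 2 ∨ Fintype.card ι + 1 = s ^ 2) →
  ∀ (e : Bool) (h : ℕ) (F P M : ν → Fn ι) (y : ℝ), 1 ≤ h → 8 * h ≤ s → Lay s h e F P M y →
  ∑ a, k2 e (px e h) F P M a ^ 2 ≤ C * h * y / s ^ 2 ∧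
  ∑ a, ∑ i, a2 e (px e h) F P M a i ^ 2 ≤ C * h * y / s ∧
  DD e (px e h) F P ≤ C * y ∧ DD e (px e h) F M ≤ C * y

/-- concavity -/
def RowCONC : Prop := ∃ C : ℝ, 1 ≤ C ∧ ∀ s : ℕ, Big C s →
  ∀ (ι ν : Type) [Fintype ι] [DecidableEq ι] [Fintype ν], Fintype.card ι + 1 = s ^ 2 →
  ∀ (e : Bool) (F V W P M : ν → Fn ι) (y : ℝ), Lay s 1 e F V W y → Lay s (s / 64) e F P M y →
  Edge (t0 s - (1 + s / 64)) V P → Edge (t0 s - (1 + s / 64)) V M →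
  Edge (t0 s - (1 + s / 64)) W P → Edge (t0 s - (1 + s / 64)) W M →
  eta (!e) V + eta (!e) W - 2 * eta e F + (DD e (!e) F V + DD e (!e) F W) / 2 ≤ C * y / √s

/-- a bounded sequence cannot stay strongly concave -/
def RowCHAIN : Prop := ∀ (ι ν : Type) [Fintype ι] [Fintype ν] (A : ℕ → ν → ι → ℝ) (η : ℕ → ℝ)
  (y ε₁ ε₂ : ℝ) (K : ℕ), 1 ≤ K → 0 ≤ ε₂ → (∀ j, 0 ≤ η j ∧ η j ≤ y) →
  (∀ j, ∑ a, ∑ i, (A (j + 2) a i + A j a i - 2 * A (j + 1) a i) ^ 2 ≤ ε₁) →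
  (∀ j, η (j + 2) + η j - 2 * η (j + 1) + (∑ a, ∑ i, (A (j + 1) a i - A (j + 2) a i) ^ 2 +
    ∑ a, ∑ i, (A (j + 1) a i - A j a i) ^ 2) / 2 ≤ ε₂) →
  ∑ a, ∑ i, (A 0 a i - A 1 a i) ^ 2 ≤ 16 * K ^ 2 * ε₁ + 8 * ε₂ + 16 * y / K ^ 2

/-- faces of a product -/
def RowFS : Prop := ∀ (ι κ ν : Type) [Fintype ι] [DecidableEq ι] [Fintype κ] [DecidableEq κ]
  [Fintype ν], 3 ≤ Fintype.card ι → ∀ (e : Bool) (F : ν → Fn (ι ⊕ κ)),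
  (∀ (ω : κ → Bool) (e' : Bool), sg e' = sg e * chi univ ω →
    eta e' (fs ω F) ≤ 2 ^ Fintype.card κ * eta e F) ∧
  (Even (Fintype.card κ) → 0 < Fintype.card κ →
    ∃ ω : κ → Bool, DD e e (fs ω F) (fs (fun v => !ω v) F) ≤ 8 * eta e F)

/-- faces of a cube -/
def RowFC : Prop := ∀ (ι ν : Type) [Fintype ι] [DecidableEq ι] [Fintype ν] (e : Bool)
  (F : ν → Fn ι),
  (4 ≤ Fintype.card ι → ∀ k : ι,
    DD e (!e) (fc {k} (fun _ => false) F) (fc {k} (fun _ => true) F) = 4 * Yv e F k) ∧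
  ∀ (w : ℕ) (W : Fin 3 → Finset ι) (y : ℝ), (∀ r, (W r).card = w) →
    (∀ r r', r ≠ r' → Disjoint (W r) (W r')) → 2 * w + 3 ≤ Fintype.card ι →
    (∀ r ω e', eta e' (fc (W r) ω F) ≤ y) → eta e F ≤ 3 * y

/-- cubes in Euclidean space -/
structure RowGEO : Prop where
  edge : ∀ (d n s h : ℕ) (f : Eu d → Eu n) (ι : Type) [Fintype ι] [DecidableEq ι] (c c' : Eu d)
    (U : ι → Eu d), 2 ≤ s → Pres f → Orthonormal ℝ U → (∀ i, inner ℝ (c' - c) (U i) = 0) →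
    ‖c' - c‖ ^ 2 = 4 * dl s ^ 2 * h → h ≤ t0 s → Edge (t0 s - h) (cub f s c U) (cub f s c' U)
  ext : ∀ (d w : ℕ) (ι : Type) [Fintype ι] (U : ι → Eu d), Orthonormal ℝ U →
    Fintype.card ι + w ≤ d → ∃ U' : Fin w → Eu d, Orthonormal ℝ (Sum.elim U U')
  bd : ∀ (d n s : ℕ) (f : Eu d → Eu n), 2 ≤ s → 2 ≤ d → Pres f → Bd2 f s (s ^ 2) 4
  fc : ∀ (d n s : ℕ) (f : Eu d → Eu n) (ι : Type) [Fintype ι] [DecidableEq ι] (c : Eu d)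
    (U : ι → Eu d) (W : Finset ι) (ω : ι → Bool), fc W ω (cub f s c U) =
      cub f s (c + dl s • ∑ i ∈ W, sg (ω i) • U i) fun i : {i // i ∉ W} => U i.1
  fs : ∀ (d n s : ℕ) (f : Eu d → Eu n) (ι κ : Type) [Fintype ι] [DecidableEq ι] [Fintype κ]
    [DecidableEq κ] (c : Eu d) (U : ι → Eu d) (U' : κ → Eu d) (ω : κ → Bool),
    fs ω (cub f s c (Sum.elim U U')) = cub f s (c + dl s • ∑ v, sg (ω v) • U' v) U

/-- neighbouring dimensions, and the two outer layers -/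
def RowLAY : Prop := ∀ (d n s : ℕ) (f : Eu d → Eu n) (y : ℝ), Big 1 s → s ^ 2 + s ≤ d → Pres f →
  Bd2 f s (s ^ 2) y → Bd2 f s (s ^ 2 - 1) (2 * y) ∧
  ∀ (ι : Type) [Fintype ι] [DecidableEq ι] (c : Eu d) (U : ι → Eu d) (U' : Fin (s / 16) → Eu d)
    (e : Bool), (Fintype.card ι = s ^ 2 ∨ Fintype.card ι + 1 = s ^ 2) →
    Orthonormal ℝ (Sum.elim U U') → ∃ p : Eu d, p ∈ Submodule.span ℝ (Set.range U') ∧
      ‖p‖ ^ 2 = 4 * dl s ^ 2 * (s / 64 : ℕ) ∧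
      Lay s (s / 64) e (cub f s c U) (cub f s (c + p) U) (cub f s (c - p) U) (24 * y)

/-- no coordinate has a large influence -/
def RowYB : Prop := ∃ C : ℝ, 1 ≤ C ∧ ∀ (d n s : ℕ) (f : Eu d → Eu n) (y : ℝ), Big C s →
  s ^ 2 + s ≤ d → Pres f → Bd2 f s (s ^ 2) y →
  ∀ (ι : Type) [Fintype ι] [DecidableEq ι] (c : Eu d) (U : ι → Eu d) (e : Bool) (k : ι),
    Fintype.card ι = s ^ 2 → Orthonormal ℝ U → Yv e (cub f s c U) k ≤ C * y / √s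

/-- the map is affine on all cubes -/
def RowZ : Prop := ∃ C c : ℝ, 1 ≤ C ∧ 0 < c ∧ ∀ (d n s : ℕ) (f : Eu d → Eu n) (r : ℝ), Big C s →
  s ^ 2 + s ≤ d → Pres f → 0 < r → r ^ 5 = s → (n : ℝ) ≤ c * r ^ 11 → Bd2 f s (s ^ 2) 0

/-- two preserved distances -/
def RowBENZ : Prop := ∀ (d n : ℕ) (f : Eu d → Eu n) (l : ℝ), 2 ≤ d → 0 < l →
  (∀ x y, ‖x - y‖ = l → ‖f x - f y‖ = l) → (∀ x y, ‖x - y‖ = 2 * l → ‖f x - f y‖ = 2 * l) →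
  ∀ x y, ‖f x - f y‖ = ‖x - y‖

/-- affine on all cubes implies isometric -/
def RowEND : Prop := ∃ C : ℝ, 1 ≤ C ∧ ∀ (d n s : ℕ) (f : Eu d → Eu n), Big C s → s ^ 2 ≤ d →
  Pres f → Bd2 f s (s ^ 2) 0 → ∀ x y, ‖f x - f y‖ = ‖x - y‖

/-- the theorem -/
def Goal : Prop := ∃ c : ℝ, 0 < c ∧ ∃ d₀ : ℕ, ∀ d n : ℕ, d₀ ≤ d →
  (n : ℝ) ≤ c * (d : ℝ) ^ (11 / 10 : ℝ) → ∀ f : Eu d → Eu n, Pres f →
  ∀ x y, ‖f x - f y‖ = ‖x - y‖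

def OfEIG : Prop := RowBIN → RowEIG
def OfSPEC : Prop := RowBIN → RowEIG → RowOP → RowSPEC
def OfUA : Prop := RowSPEC → RowUA
def OfUB : Prop := RowSPEC → RowUB
def OfUU : Prop := RowSTAR → RowUA → RowUB → RowUU
def OfTL : Prop := RowSPEC → RowSTAR → RowUU → RowTL
def OfAPP : Prop := RowTL → RowAPP
def OfR : Prop := RowSPEC → RowSTAR → RowUU → RowR
def OfA1 : Prop := RowAPP → RowR → RowA1
def OfPSI : Prop := RowAPP → RowR → RowPOLY → RowPSI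
def OfA2 : Prop := RowAPP → RowPOLY → RowPSI → RowA2
def OfM : Prop := RowSPEC → RowM
def OfTRI : Prop := RowM → RowTRI
def OfCONC : Prop := RowM → RowTRI → RowCONC
def OfLAY : Prop := RowFS → RowFC → RowGEO → RowLAY
def OfYB : Prop := RowTRI → RowCONC → RowCHAIN → RowFC → RowGEO → RowLAY → RowYB
def OfZ : Prop := RowA1 → RowA2 → RowTRI → RowGEO → RowLAY → RowYB → RowZ
def OfEND : Prop := RowUU → RowGEO → RowBENZ → RowEND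
def OfGoal : Prop := RowZ → RowEND → Goal

end Pool.Agent.MP_66cee2_co.SL
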