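import Pool.Agent.MP_66cee2_co.SL.KitC

/-! The pieces of the right side of the edge identity are almost orthogonal. -/

set_option linter.unusedSectionVars false

namespace Pool.Agent.MP_66cee2_co.SL

open Finset Pool.Agent.MP_9e8696_an.H67
open scoped BigOperators

namespace UBA

variable {ι : Type} [Fintype ι] [DecidableEq ι]

/-- a vector field at the first point against the coordinates of the second point -/
noncomputable def P (w : ι → Fn ι) (σ τ : ι → Bool) : ℝ := ∑ j, w j σ * xx j τ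

variable {t : ℕ} {μ H : ℝ}

theorem PP (e : Bool) (ht : t ≤ Fintype.card ι) (w w' : ι → Fn ι) :
    (Ed e t fun σ τ => P w σ τ * P w' σ τ) = (1 - l2 (Fintype.card ι) t) * ∑ j, ip e (w j) (w' j) +
      l2 (Fintype.card ι) t * ip e (dot w xx) (dot w' xx) := by
  rw [← av_dot, ip, ← av_mul_left, ← av_mul_left, ← av_add]
  exact av_congr e fun σ => T_lin_mul ht (fun j => w j σ) (fun j => w' j σ) σ

theorem gP (e : Bool) (ht : t ≤ Fintype.card ι) (g : Fn ι) (w : ι → Fn ι) :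
    (Ed e t fun σ τ => g σ * P w σ τ) = l1 (Fintype.card ι) t * ip e g (dot w xx) := by
  rw [← ip_mul_right]
  refine av_congr e fun σ => ?_
  rw [T_mul_left]
  exact congrArg _ (T_lin ht (fun j => w j σ) σ)

theorem gP' (S : Spec ι t μ H) (hμ : 0 ≤ μ) (he : Even t) (e : Bool) (g : Fn ι) {w : ι → Fn ι}
    (hw : ∀ i, Or1 e (w i)) :
    |Ed e t fun σ τ => g σ * P w τ σ| ≤ √(Fintype.card ι) * nr e g * (μ * √(q2 e w)) := by
  have h1 : (Ed e t fun σ τ => g σ * P w τ σ) = ∑ i, ip e (fun σ => xx i σ * g σ) (T t (w i)) := by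
    simp only [← Ed_mul, ← Ed_sum]
    refine Ed_congr e t fun σ R _ => ?_
    simp only [P, mul_sum]
    exact sum_congr rfl fun i _ => by ring
  have h2 := S.sum_ip_T hμ e (fun i σ => xx i σ * g σ) (γ := w) (by rwa [px_even e he])
  rw [px_even e he] at h2
  have h3 : (q2 e fun i σ => xx i σ * g σ) = Fintype.card ι * ip e g g := by
    simp only [q2, ip_xx_mul, sum_const, card_univ, nsmul_eq_mul]
  rw [h3, Real.sqrt_mul (Nat.cast_nonneg _)] at h2
  rwa [h1]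

theorem split_le (S : Spec ι t μ H) (hμ : 0 ≤ μ) (hι : 3 ≤ Fintype.card ι) (he : Even t)
    (ht : t ≤ Fintype.card ι) (hl : 0 ≤ l1 (Fintype.card ι) t) (e : Bool) {κ : Type} [Fintype κ]
    (g h : κ → Fn ι) (hg : ∀ k, av e (g k) = 0) {x y : ℝ} (hx : ∑ k, ∑ i, c1 e (g k) i ^ 2 ≤ x)
    (hy : ∑ k, ∑ i, c1 e (h k) i ^ 2 ≤ y) :
    |∑ k, ip e (g k) (T t (h k))| ≤
      l1 (Fintype.card ι) t * (√x * √y) + √(q2 e g) * (μ * √(q2 e h)) := by
  rw [sum_congr rfl fun k _ => ip_T_split e hι ht (g k) (h k)]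
  simp only [px_even e he, hg, zero_mul, zero_add, sum_add_distrib, ← mul_sum]
  refine (abs_add_le _ _).trans (add_le_add ?_ ?_)
  · rw [abs_mul, abs_of_nonneg hl]
    refine mul_le_mul_of_nonneg_left ?_ hl
    have h1 := sum_mul_sq_le_sq_mul_sq univ (fun p : κ × ι => c1 e (g p.1) p.2)
      fun p : κ × ι => c1 e (h p.1) p.2
    simp only [Fintype.sum_prod_type] at h1
    have hx0 : 0 ≤ ∑ k, ∑ i, c1 e (g k) i ^ 2 := by positivity
    have hy0 : 0 ≤ ∑ k, ∑ i, c1 e (h k) i ^ 2 := by positivity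
    rw [← Real.sqrt_mul (hx0.trans hx)]
    exact Real.abs_le_sqrt (h1.trans (mul_le_mul hx hy hy0 (hx0.trans hx)))
  · have h2 := S.sum_ip_T hμ e (fun k => res e (g k)) (γ := fun k => res e (h k))
      (fun k => by rw [px_even e he]; exact or1_res e hι _)
    rw [px_even e he] at h2
    refine h2.trans ?_
    gcongr
    · exact sum_le_sum fun k _ => ip_res_le e hι _
    · exact sum_le_sum fun k _ => ip_res_le e hι _

theorem gg (S : Spec ι t μ H) (hμ : 0 ≤ μ) (hι : 3 ≤ Fintype.card ι) (he : Even t)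
    (ht : t ≤ Fintype.card ι) (hl : 0 ≤ l1 (Fintype.card ι) t) (e : Bool) {g : Fn ι} (h : Fn ι)
    (hg : av e g = 0) :
    |Ed e t fun σ τ => g σ * h τ| ≤ (l1 (Fintype.card ι) t + μ) * (nr e g * nr e h) := by
  have := split_le S hμ hι he ht hl e (fun _ : Unit => g) (fun _ => h) (fun _ => hg)
    (x := ip e g g) (y := ip e h h) (by simpa using sum_c1_le e hι g)
    (by simpa using sum_c1_le e hι h)
  rw [q2_unit, q2_unit, Fintype.sum_unique] at this
  rw [Ed_mul]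
  refine this.trans (le_of_eq ?_)
  unfold nr
  ring

theorem PP' (S : Spec ι t μ H) (hμ : 0 ≤ μ) (hι : 5 ≤ Fintype.card ι) (he : Even t)
    (ht : t ≤ Fintype.card ι) (hl : 0 ≤ l1 (Fintype.card ι) t) (e : Bool) {w w' : ι → Fn ι}
    (hw : ∀ i, Or1 e (w i)) (hw' : ∀ i, Or1 e (w' i)) :
    |Ed e t fun σ τ => P w σ τ * P w' τ σ| ≤
      (2 * l1 (Fintype.card ι) t + μ * Fintype.card ι) * (√(q2 e w) * √(q2 e w')) := by
  have h3 : 3 ≤ Fintype.card ι := by omega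
  have h1 : (Ed e t fun σ τ => P w σ τ * P w' τ σ) = ∑ p : ι × ι,
      ip e (fun σ => xx p.2 σ * w p.1 σ) (T t fun τ => xx p.1 τ * w' p.2 τ) := by
    simp only [← Ed_mul, ← Ed_sum]
    refine Ed_congr e t fun σ R _ => ?_
    simp only [P, sum_mul_sum, Fintype.sum_prod_type]
    exact sum_congr rfl fun i _ => sum_congr rfl fun j _ => by ring
  have hD : ∀ v : ι → Fn ι, (∀ i, Or1 e (v i)) →
      ∑ j, ∑ i, ∑ k, c1 e (fun σ => xx i σ * v j σ) k ^ 2 ≤ 2 * q2 e v := fun v hv => by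
    rw [q2, mul_sum]
    refine sum_le_sum fun j _ => ?_
    simp only [← ip_Dv e h3]
    exact sum_Dv_le e hι (hv j).1
  have h2 := split_le S hμ h3 he ht hl e (fun (p : ι × ι) σ => xx p.2 σ * w p.1 σ)
    (fun p τ => xx p.1 τ * w' p.2 τ) (fun p => (ip_comm e _ _).trans ((hw p.1).2 p.2))
    (x := 2 * q2 e w) (y := 2 * q2 e w') (by rw [Fintype.sum_prod_type]; exact hD w hw)
    (by rw [Fintype.sum_prod_type, sum_comm]; exact hD w' hw')
  have h4 : (q2 e fun (p : ι × ι) σ => xx p.2 σ * w p.1 σ) = Fintype.card ι * q2 e w := by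
    simp only [q2, ip_xx_mul, Fintype.sum_prod_type, sum_const, card_univ, nsmul_eq_mul, mul_sum]
  have h5 : (q2 e fun (p : ι × ι) σ => xx p.1 σ * w' p.2 σ) = Fintype.card ι * q2 e w' := by
    simp only [q2, ip_xx_mul, Fintype.sum_prod_type, sum_const, card_univ, nsmul_eq_mul]
  rw [h4, h5, Real.sqrt_mul (Nat.cast_nonneg _), Real.sqrt_mul (Nat.cast_nonneg _),
    Real.sqrt_mul zero_le_two, Real.sqrt_mul zero_le_two] at h2
  rw [h1]
  refine h2.trans (le_of_eq ?_)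
  have a1 := Real.mul_self_sqrt (zero_le_two (α := ℝ))
  have a2 := Real.mul_self_sqrt (Nat.cast_nonneg (α := ℝ) (Fintype.card ι))
  linear_combination (l1 (Fintype.card ι) t * (√(q2 e w) * √(q2 e w'))) * a1 +
    (μ * (√(q2 e w) * √(q2 e w'))) * a2

theorem fin {A A' n B B' Y qq pp rr aa aq ap ar bq bp br qp qr pr : ℝ}
    (h1 : 31 / 32 * n ^ 2 ≤ qq) (h2 : 31 / 32 * B ^ 2 ≤ pp) (h3 : 31 / 32 * B' ^ 2 ≤ rr)
    (k1 : |aa| ≤ 1 / 32 * (A * A')) (k2 : |aq| ≤ 1 / 32 * (A * n)) (k3 : |ap| ≤ 2 * (A * Y))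
    (k4 : |ar| ≤ 1 / 32 * (A * B')) (k5 : |bq| ≤ 1 / 32 * (A' * n))
    (k6 : |bp| ≤ 1 / 32 * (A' * B)) (k7 : |br| ≤ 2 * (A' * Y)) (k8 : |qp| ≤ n * Y)
    (k9 : |qr| ≤ n * Y) (k10 : |pr| ≤ 5 / 32 * (B * B')) :
    (A ^ 2 + A' ^ 2 + n ^ 2 + B ^ 2 + B' ^ 2) / 2 - 48 * Y ^ 2 ≤
      A ^ 2 + A' ^ 2 + qq + pp + rr + 2 * aa - 2 * aq - 2 * ap - 2 * ar - 2 * bq - 2 * bp -
        2 * br + 2 * qp + 2 * qr + 2 * pr := by
  rw [abs_le] at k1 k2 k3 k4 k5 k6 k7 k8 k9 k10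
  nlinarith [sq_nonneg (A - A'), sq_nonneg (A - n), sq_nonneg (A - 8 * Y), sq_nonneg (A - B'),
    sq_nonneg (A' - n), sq_nonneg (A' - B), sq_nonneg (A' - 8 * Y), sq_nonneg (n - 8 * Y),
    sq_nonneg (B - B'), sq_nonneg A, sq_nonneg A', sq_nonneg n, sq_nonneg B, sq_nonneg B',
    k1.1, k2.2, k3.2, k4.2, k5.2, k6.2, k7.2, k8.1, k9.1, k10.1]

theorem bd {c c' x x' y y' z : ℝ} (h : |z| ≤ x * y) (hc : 0 ≤ c) (hc' : c ≤ c') (hx : 0 ≤ x)
    (hy0 : 0 ≤ y) (hx' : x ≤ x') (hy : y ≤ y') : |c * z| ≤ c' * (x' * y') := by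
  rw [abs_mul, abs_of_nonneg hc]
  exact mul_le_mul hc' (h.trans (mul_le_mul hx' hy hy0 (hx.trans hx'))) (abs_nonneg _)
    (hc.trans hc')

end UBA

open UBA in
theorem rowUB : OfUB := by
  rintro ⟨C, hC1, hC⟩
  refine ⟨max C 48, hC1.trans (le_max_left _ _), ?_⟩
  intro s hs ι _ _ hι e t ht α α' N b b' X hN hb hb'
  have hs' := hs.mono (le_max_left _ _)
  have h128 := hs'.ge128 hC1
  have h0 : (128 : ℝ) ≤ s := by exact_mod_cast h128
  obtain ⟨he, htm, l0, l1', m0, m1⟩ := t_facts hs.dvd h128 ht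
  rw [← hι] at htm l0 l1' m0 m1
  have h5 : 5 ≤ Fintype.card ι := by rw [hι]; nlinarith
  have h3 : 3 ≤ Fintype.card ι := by omega
  have S : Spec ι t (1 / (8 * s ^ 2)) (C / s ^ 2) := by
    have := ((hC s hs' ι).1 hι).2
    rcases ht with rfl | rfl
    · exact this.1
    · exact this.2
  have hμ : (0 : ℝ) ≤ 1 / (8 * s ^ 2) := by positivity
  have hX : 0 ≤ X := (nr_nonneg e _).trans hb
  have n1 : (2 : ℝ) / s ≤ 1 / 64 := by rw [div_le_div_iff₀ (by positivity) (by positivity)]; linarith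
  have n2 : (1 : ℝ) / (8 * s ^ 2) ≤ 1 / 64 := by
    rw [div_le_div_iff₀ (by positivity) (by positivity)]; nlinarith
  have n3 : (s : ℝ) * (1 / (8 * s ^ 2)) ≤ 1 / 32 := by
    rw [mul_one_div, div_le_div_iff₀ (by positivity) (by positivity)]; nlinarith
  have n4 : (1 : ℝ) / (8 * s ^ 2) ≤ 1 / (2 * s) := by
    rw [div_le_div_iff₀ (by positivity) (by positivity)]; nlinarith
  have n5 : (1 : ℝ) / (8 * s ^ 2) * Fintype.card ι = 1 / 8 := by
    rw [hι]; push_cast; field_simp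
  set u : ι → Fn ι := fun j => lin fun i => N i j with hu
  set v : ι → Fn ι := fun i => lin fun j => N i j with hv
  have huv : ∀ σ τ, P u σ τ = P v τ σ := fun σ τ => by
    simp only [P, hu, hv, lin, sum_mul]
    rw [sum_comm]
    exact sum_congr rfl fun i _ => sum_congr rfl fun j _ => by ring
  have du : dot u xx = qf N := funext fun σ => by
    simp only [dot, hu, lin, qf, sum_mul]
    rw [sum_comm]
    exact sum_congr rfl fun i _ => sum_congr rfl fun j _ => by ring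
  have dv : dot v xx = qf N := funext fun σ => by
    simp only [dot, hv, lin, qf, sum_mul]
    exact sum_congr rfl fun i _ => sum_congr rfl fun j _ => by ring
  have hsg : ∀ σ τ, sgm α α' N b b' σ τ = α σ + α' τ - P v τ σ - P b σ τ - P b' τ σ := by
    intro σ τ
    simp only [sgm, P, hv, lin, sum_mul]
    congr 3
    exact sum_congr rfl fun i _ => sum_congr rfl fun j _ => by ring
  have hexp : (Ed e t fun σ τ => sgm α α' N b b' σ τ ^ 2) =
      (Ed e t fun σ _ => α σ * α σ) + (Ed e t fun _ τ => α' τ * α' τ) +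
      (Ed e t fun σ τ => P u σ τ * P u σ τ) + (Ed e t fun σ τ => P b σ τ * P b σ τ) +
      (Ed e t fun σ τ => P b' τ σ * P b' τ σ) + 2 * (Ed e t fun σ τ => α σ * α' τ) -
      2 * (Ed e t fun σ τ => α σ * P u σ τ) - 2 * (Ed e t fun σ τ => α σ * P b σ τ) -
      2 * (Ed e t fun σ τ => α σ * P b' τ σ) - 2 * (Ed e t fun σ τ => α' τ * P v τ σ) -
      2 * (Ed e t fun σ τ => α' τ * P b σ τ) - 2 * (Ed e t fun σ τ => α' τ * P b' τ σ) +
      2 * (Ed e t fun σ τ => P u σ τ * P b σ τ) + 2 * (Ed e t fun σ τ => P v τ σ * P b' τ σ) +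
      2 * (Ed e t fun σ τ => P b σ τ * P b' τ σ) := by
    simp only [← Ed_mul_left, ← Ed_add, ← Ed_sub]
    refine Ed_congr e t fun σ R _ => ?_
    rw [hsg, huv]
    ring
  have hn0 : 0 ≤ ∑ i, ∑ j, N i j ^ 2 := by positivity
  have hq := nr_qf_le e h5 hN.tr
  have hzz : zz e α α' N b b' = nr e α ^ 2 + nr e α' ^ 2 + √(∑ i, ∑ j, N i j ^ 2) ^ 2 +
      √(q2 e b) ^ 2 + √(q2 e b') ^ 2 := by
    rw [nr_sq, nr_sq, Real.sq_sqrt hn0, Real.sq_sqrt (q2_nonneg e b),
      Real.sq_sqrt (q2_nonneg e b'), zz]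
  have low : ∀ w : ι → Fn ι, 31 / 32 * q2 e w ≤ Ed e t fun σ τ => P w σ τ * P w σ τ := fun w => by
    rw [PP e htm]
    have a1 := mul_nonneg m0 (ip_self_nonneg e (dot w xx))
    have a2 := mul_nonneg (show 0 ≤ 1 / 32 - l2 (Fintype.card ι) t by linarith) (q2_nonneg e w)
    unfold q2 at a2 ⊢
    linarith
  have gq : ∀ (g : Fn ι) (w : ι → Fn ι), dot w xx = qf N →
      |Ed e t fun σ τ => g σ * P w σ τ| ≤ 1 / 32 * (nr e g * √(∑ i, ∑ j, N i j ^ 2)) := by
    intro g w hw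
    rw [gP e htm, hw]
    exact (bd (abs_ip_le e _ _) l0 (l1'.trans n1) (nr_nonneg _ _) (nr_nonneg _ _) le_rfl
      hq).trans (le_of_eq (by ring))
  have gp : ∀ (g : Fn ι) (w : ι → Fn ι), nr e (dot w xx) ≤ X →
      |Ed e t fun σ τ => g σ * P w σ τ| ≤ 2 * (nr e g * (X / s)) := by
    intro g w hw
    rw [gP e htm]
    exact (bd (abs_ip_le e _ _) l0 l1' (nr_nonneg _ _) (nr_nonneg _ _) le_rfl hw).trans
      (le_of_eq (by ring))
  have gr : ∀ (g : Fn ι) (w : ι → Fn ι), (∀ i, Or1 e (w i)) →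
      |Ed e t fun σ τ => g σ * P w τ σ| ≤ 1 / 32 * (nr e g * √(q2 e w)) := by
    intro g w hw
    refine (gP' S hμ he e g hw).trans ?_
    rw [sqrt_card hι]
    have := mul_le_mul_of_nonneg_right n3 (mul_nonneg (nr_nonneg e g) (Real.sqrt_nonneg (q2 e w)))
    linarith
  have qp : ∀ (c : ι → ι → ℝ) (w : ι → Fn ι), dot (fun j => lin (c j)) xx = qf N →
      (∀ i, Or1 e (w i)) → nr e (dot w xx) ≤ X →
      |Ed e t fun σ τ => P (fun j => lin (c j)) σ τ * P w σ τ| ≤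
        √(∑ i, ∑ j, N i j ^ 2) * (X / s) := by
    intro c w hc hw hw'
    rw [PP e htm, hc, sum_eq_zero fun j _ => (ip_comm e _ _).trans ((hw j).ip_lin _), mul_zero,
      zero_add]
    refine (bd (abs_ip_le e _ _) m0 (m1.trans n4) (nr_nonneg _ _) (nr_nonneg _ _) hq hw').trans
      (le_of_eq ?_)
    field_simp
  have e1 : (Ed e t fun σ _ => α σ * α σ) = nr e α ^ 2 := by rw [Ed_left e htm, nr_sq, ip]
  have e2 : (Ed e t fun _ τ => α' τ * α' τ) = nr e α' ^ 2 := by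
    rw [Ed_right e htm, px_even e he, nr_sq, ip]
  have key := fin (A := nr e α) (A' := nr e α') (n := √(∑ i, ∑ j, N i j ^ 2)) (B := √(q2 e b))
    (B' := √(q2 e b')) (Y := X / s)
    (qq := Ed e t fun σ τ => P u σ τ * P u σ τ) (pp := Ed e t fun σ τ => P b σ τ * P b σ τ)
    (rr := Ed e t fun σ τ => P b' τ σ * P b' τ σ) (aa := Ed e t fun σ τ => α σ * α' τ)
    (aq := Ed e t fun σ τ => α σ * P u σ τ) (ap := Ed e t fun σ τ => α σ * P b σ τ)
    (ar := Ed e t fun σ τ => α σ * P b' τ σ) (bq := Ed e t fun σ τ => α' τ * P v τ σ)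
    (bp := Ed e t fun σ τ => α' τ * P b σ τ) (br := Ed e t fun σ τ => α' τ * P b' τ σ)
    (qp := Ed e t fun σ τ => P u σ τ * P b σ τ) (qr := Ed e t fun σ τ => P v τ σ * P b' τ σ)
    (pr := Ed e t fun σ τ => P b σ τ * P b' τ σ)
    (by
      have := low u
      rwa [hu, q2_lin e h3, sum_comm, ← Real.sq_sqrt hn0] at this)
    (by rw [Real.sq_sqrt (q2_nonneg e b)]; exact low b)
    (by rw [Real.sq_sqrt (q2_nonneg e b'), Ed_symm e he]; exact low b')
    ((gg S hμ h3 he htm l0 e α' hN.a).trans (mul_le_mul_of_nonneg_right (by linarith)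
      (mul_nonneg (nr_nonneg _ _) (nr_nonneg _ _))))
    (gq α u du) (gp α b hb) (gr α b' hN.b')
    (by rw [Ed_symm e he]; exact gq α' v dv) (by rw [Ed_symm e he]; exact gr α' b hN.b)
    (by rw [Ed_symm e he]; exact gp α' b' hb') (qp _ b du hN.b hb)
    (by rw [Ed_symm e he]; exact qp _ b' dv hN.b' hb')
    ((PP' S hμ h5 he htm l0 e hN.b hN.b').trans (mul_le_mul_of_nonneg_right (by linarith)
      (by positivity)))
  rw [hexp, hzz, e1, e2]
  refine le_trans ?_ key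
  have : 48 * (X / s) ^ 2 ≤ max C 48 * X ^ 2 / s ^ 2 := by
    rw [div_pow, mul_div_assoc]
    exact mul_le_mul_of_nonneg_right (le_max_right _ _) (by positivity)
  linarith

end Pool.Agent.MP_66cee2_co.SL
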